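import Mathlib

open Filter Topology NumberField Finset

namespace TatePole

namespace Ded

variable (F : Type*) [Field F] [NumberField F]

/-- a finite set of primes of the ring of integers above `p` has at most `[F:ℚ]` elements. -/
lemma card_le_finrank {p : ℕ} (hp : p.Prime) (s : Finset (Ideal (𝓞 F)))
    (hs : ∀ P ∈ s, P.IsPrime ∧ (p : 𝓞 F) ∈ P) : s.card ≤ Module.finrank ℚ F := by
  classical
  have hpZ : Prime (p : ℤ) := Nat.prime_iff_prime_int.mp hp
  have hq0 : Ideal.span {(p : ℤ)} ≠ ⊥ := by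
    simpa using hp.ne_zero
  have hqmax : (Ideal.span {(p : ℤ)}).IsMaximal :=
    ((Ideal.span_singleton_prime hpZ.ne_zero).mpr hpZ).isMaximal hq0
  refine (Finset.card_le_card ?_).trans
    (Ideal.card_primesOverFinset_le_finrank (S := 𝓞 F) ℚ F hq0)
  intro P hP
  rw [IsDedekindDomain.mem_primesOverFinset_iff hq0]
  obtain ⟨h1, h2⟩ := hs P hP
  refine ⟨h1, ⟨?_⟩⟩
  refine hqmax.eq_of_le ?_ ?_
  · exact (Ideal.IsPrime.comap (algebraMap ℤ (𝓞 F))).ne_top
  · rw [Ideal.span_singleton_le_iff_mem, Ideal.mem_comap]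
    simpa using h2

/-- `N(I)^(-x)`. -/
noncomputable def f (x : ℝ) (I : Ideal (𝓞 F)) : ℝ := (Ideal.absNorm I : ℝ) ^ (-x)

lemma f_nonneg (x : ℝ) (I : Ideal (𝓞 F)) : 0 ≤ f F x I := Real.rpow_nonneg (Nat.cast_nonneg _) _

lemma f_mul (x : ℝ) (I J : Ideal (𝓞 F)) : f F x (I * J) = f F x I * f F x J := by
  unfold f
  rw [map_mul, Nat.cast_mul, Real.mul_rpow (Nat.cast_nonneg _) (Nat.cast_nonneg _)]

lemma f_one (x : ℝ) : f F x 1 = 1 := by
  unfold f
  simp

lemma f_prod (x : ℝ) {ι : Type*} (s : Finset ι) (g : ι → Ideal (𝓞 F)) :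
    f F x (∏ i ∈ s, g i) = ∏ i ∈ s, f F x (g i) := by
  classical
  induction s using Finset.induction_on with
  | empty => rw [Finset.prod_empty, Finset.prod_empty, f_one]
  | insert a s ha ih => rw [Finset.prod_insert ha, Finset.prod_insert ha, f_mul, ih]

/-- nonzero ideals of norm at most `N`. -/
noncomputable def JJ (N : ℕ) : Finset (Ideal (𝓞 F)) := by
  classical
  exact (Ideal.finite_setOfPred_absNorm_le (S := 𝓞 F) N).toFinset.filter (fun I => I ≠ ⊥)

lemma mem_JJ {N : ℕ} {I : Ideal (𝓞 F)} : I ∈ JJ F N ↔ Ideal.absNorm I ≤ N ∧ I ≠ ⊥ := by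
  classical
  unfold JJ
  simp

/-- nonzero prime ideals of norm at most `N`. -/
noncomputable def TT (N : ℕ) : Finset (Ideal (𝓞 F)) := by
  classical
  exact (JJ F N).filter (fun P => P.IsPrime)

lemma mem_TT {N : ℕ} {I : Ideal (𝓞 F)} :
    I ∈ TT F N ↔ (Ideal.absNorm I ≤ N ∧ I ≠ ⊥) ∧ I.IsPrime := by
  classical
  unfold TT
  simp [mem_JJ]

lemma multiset_sq {α : Type*} [DecidableEq α] (m : Multiset α) :
    ∃ s : Finset α, ∃ t : Multiset α, m = s.val + (t + t) := by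
  induction m using Multiset.induction_on with
  | empty => exact ⟨∅, 0, by simp⟩
  | cons a m ih =>
    obtain ⟨s, t, h⟩ := ih
    by_cases ha : a ∈ s
    · refine ⟨s.erase a, a ::ₘ t, ?_⟩
      have h1 : s.val = a ::ₘ (s.erase a).val := by
        rw [Finset.erase_val, Multiset.cons_erase (by simpa using ha)]
      rw [h, h1]
      simp only [Multiset.cons_add, Multiset.add_cons]
    · refine ⟨insert a s, t, ?_⟩
      rw [h, Finset.insert_val_of_notMem ha]
      simp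

lemma exists_decomp {N : ℕ} {I : Ideal (𝓞 F)} (hI : I ∈ JJ F N) :
    ∃ U K, U ⊆ TT F N ∧ K ∈ JJ F N ∧ I = (∏ P ∈ U, P) * (K * K) := by
  classical
  rw [mem_JJ] at hI
  obtain ⟨hN, h0⟩ := hI
  obtain ⟨U, t, hUt⟩ := multiset_sq (UniqueFactorizationMonoid.normalizedFactors I)
  have hprod : (UniqueFactorizationMonoid.normalizedFactors I).prod = I :=
    Ideal.prod_normalizedFactors_eq_self h0
  have hdec : I = (∏ P ∈ U, P) * (t.prod * t.prod) := by
    conv_lhs => rw [← hprod, hUt]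
    rw [Multiset.prod_add, Multiset.prod_add, Finset.prod_val]
    rfl
  have hK0 : t.prod ≠ ⊥ := by
    intro h
    apply h0
    rw [hdec, h]
    simp
  have hnorm : Ideal.absNorm I ≠ 0 := fun h => h0 (Ideal.absNorm_eq_zero_iff.mp h)
  have hle : ∀ J : Ideal (𝓞 F), J ∣ I → Ideal.absNorm J ≤ N := by
    intro J hJ
    exact (Nat.le_of_dvd (Nat.pos_of_ne_zero hnorm) (map_dvd Ideal.absNorm hJ)).trans hN
  refine ⟨U, t.prod, ?_, ?_, hdec⟩
  · intro P hP
    have hPm : P ∈ UniqueFactorizationMonoid.normalizedFactors I := by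
      rw [hUt, Multiset.mem_add]
      exact Or.inl hP
    have hprime := UniqueFactorizationMonoid.prime_of_normalized_factor P hPm
    rw [mem_TT]
    exact ⟨⟨hle P (UniqueFactorizationMonoid.dvd_of_mem_normalizedFactors hPm), hprime.ne_zero⟩,
      Ideal.isPrime_of_prime hprime⟩
  · rw [mem_JJ]
    refine ⟨hle _ ?_, hK0⟩
    exact ⟨(∏ P ∈ U, P) * t.prod, by rw [hdec]; ring⟩

/-- upper bound of the zeta sum by the primes. -/
lemma sum_JJ_le (x : ℝ) (N : ℕ) :
    ∑ I ∈ JJ F N, f F x I ≤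
      (∏ P ∈ TT F N, (1 + f F x P)) * ∑ K ∈ JJ F N, f F x K ^ 2 := by
  classical
  choose! U K hU hK hdec using fun I (hI : I ∈ JJ F N) => exists_decomp F hI
  have h1 : ∑ I ∈ JJ F N, f F x I =
      ∑ I ∈ JJ F N, (∏ P ∈ U I, f F x P) * f F x (K I) ^ 2 := by
    refine Finset.sum_congr rfl fun I hI => ?_
    conv_lhs => rw [hdec I hI]
    rw [f_mul, f_mul, f_prod, sq]
  have hinj : Set.InjOn (fun I => (U I, K I)) (JJ F N : Set (Ideal (𝓞 F))) := by
    intro I hI J hJ hIJ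
    simp only [Prod.mk.injEq] at hIJ
    rw [hdec I hI, hdec J hJ, hIJ.1, hIJ.2]
  have h2 : ∑ I ∈ JJ F N, (∏ P ∈ U I, f F x P) * f F x (K I) ^ 2 =
      ∑ q ∈ (JJ F N).image (fun I => (U I, K I)), (∏ P ∈ q.1, f F x P) * f F x q.2 ^ 2 := by
    rw [Finset.sum_image hinj]
  rw [h1, h2]
  have hsub : (JJ F N).image (fun I => (U I, K I)) ⊆ (TT F N).powerset ×ˢ JJ F N := by
    intro q hq
    rw [Finset.mem_image] at hq
    obtain ⟨I, hI, rfl⟩ := hq
    exact Finset.mem_product.mpr ⟨Finset.mem_powerset.mpr (hU I hI), hK I hI⟩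
  refine (Finset.sum_le_sum_of_subset_of_nonneg hsub fun q _ _ =>
    mul_nonneg (Finset.prod_nonneg fun P _ => f_nonneg F x P) (sq_nonneg _)).trans ?_
  rw [Finset.sum_product, Finset.prod_one_add, Finset.sum_mul]
  refine le_of_eq (Finset.sum_congr rfl fun V _ => ?_)
  rw [Finset.mul_sum]

/-- lower bound of the zeta sum by the primes. -/
lemma prod_TT_le (x : ℝ) (N : ℕ) : ∃ M : ℕ,
    ∏ P ∈ TT F N, (1 + f F x P) ≤ ∑ I ∈ JJ F M, f F x I := by
  classical
  refine ⟨∑ U ∈ (TT F N).powerset, Ideal.absNorm (∏ P ∈ U, P), ?_⟩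
  set M := ∑ U ∈ (TT F N).powerset, Ideal.absNorm (∏ P ∈ U, P)
  rw [Finset.prod_one_add]
  have hinj : Set.InjOn (fun U : Finset (Ideal (𝓞 F)) => ∏ P ∈ U, P)
      ((TT F N).powerset : Set (Finset (Ideal (𝓞 F)))) := by
    intro U hU V hV h
    have key : ∀ W : Finset (Ideal (𝓞 F)), W ⊆ TT F N →
        UniqueFactorizationMonoid.normalizedFactors (∏ P ∈ W, P) = W.val := by
      intro W hW
      have : ∀ P ∈ W.val, Prime P := by
        intro P hP
        have := (mem_TT F).mp (hW hP)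
        exact Ideal.prime_of_isPrime this.1.2 this.2
      have h1 := UniqueFactorizationMonoid.normalizedFactors_prod_of_prime this
      rw [← h1, Finset.prod_val]
      congr 1
    have h1 := key U (Finset.mem_powerset.mp hU)
    have h2 := key V (Finset.mem_powerset.mp hV)
    simp only at h
    rw [h] at h1
    exact Finset.val_injective (h1.symm.trans h2)
  have h1 : ∑ U ∈ (TT F N).powerset, ∏ P ∈ U, f F x P =
      ∑ I ∈ (TT F N).powerset.image (fun U => ∏ P ∈ U, P), f F x I := by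
    rw [Finset.sum_image hinj]
    exact Finset.sum_congr rfl fun U _ => (f_prod F x U id).symm
  rw [h1]
  refine Finset.sum_le_sum_of_subset_of_nonneg ?_ fun I _ _ => f_nonneg F x I
  intro I hI
  rw [Finset.mem_image] at hI
  obtain ⟨U, hU, rfl⟩ := hI
  rw [mem_JJ]
  refine ⟨Finset.single_le_sum (f := fun U : Finset (Ideal (𝓞 F)) => Ideal.absNorm (∏ P ∈ U, P))
    (fun _ _ => Nat.zero_le _) hU, ?_⟩
  intro h
  rw [← Ideal.zero_eq_bot, Finset.prod_eq_zero_iff] at h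
  obtain ⟨P, hP, hP0⟩ := h
  exact ((mem_TT F).mp (Finset.mem_powerset.mp hU hP)).1.2 hP0

/-- number of ideals of norm `n`. -/
noncomputable def A (n : ℕ) : ℝ := (Nat.card {I : Ideal (𝓞 F) // Ideal.absNorm I = n} : ℝ)

lemma A_nonneg (n : ℕ) : 0 ≤ A F n := Nat.cast_nonneg _

lemma absNorm_pos {I : Ideal (𝓞 F)} (h : I ≠ ⊥) : 0 < Ideal.absNorm I :=
  Nat.pos_of_ne_zero fun h' => h (Ideal.absNorm_eq_zero_iff.mp h')

lemma card_eq_A {n : ℕ} (s : Finset (Ideal (𝓞 F)))
    (hs : ∀ I, I ∈ s ↔ Ideal.absNorm I = n) : A F n = s.card := by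
  unfold A
  rw [Nat.subtype_card s hs]

lemma sum_JJ_eq (x : ℝ) (N : ℕ) :
    ∑ I ∈ JJ F N, f F x I = ∑ n ∈ Finset.Icc 1 N, A F n * (n : ℝ) ^ (-x) := by
  classical
  have hmaps : ∀ I ∈ JJ F N, Ideal.absNorm I ∈ Finset.Icc 1 N := by
    intro I hI
    rw [mem_JJ] at hI
    exact Finset.mem_Icc.mpr ⟨absNorm_pos F hI.2, hI.1⟩
  rw [← Finset.sum_fiberwise_of_maps_to hmaps]
  refine Finset.sum_congr rfl fun n hn => ?_
  rw [Finset.mem_Icc] at hn
  have hc : A F n = ((JJ F N).filter (fun I => Ideal.absNorm I = n)).card := by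
    refine card_eq_A F _ fun I => ?_
    rw [Finset.mem_filter, mem_JJ]
    refine ⟨fun h => h.2, fun h => ⟨⟨h.le.trans hn.2, ?_⟩, h⟩⟩
    rintro rfl
    rw [Ideal.absNorm_bot] at h
    omega
  rw [hc, ← nsmul_eq_mul, ← Finset.sum_const]
  refine Finset.sum_congr rfl fun I hI => ?_
  rw [Finset.mem_filter] at hI
  unfold f
  rw [hI.2]

/-- primes up to `N`. -/
def PP (N : ℕ) : Finset ℕ := (Finset.range (N + 1)).filter Nat.Prime

lemma mem_PP {N p : ℕ} : p ∈ PP N ↔ p ≤ N ∧ p.Prime := by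
  unfold PP
  simp

lemma sum_TT_prime (x : ℝ) (N : ℕ) :
    ∑ P ∈ (TT F N).filter (fun P => (Ideal.absNorm P).Prime), f F x P =
      ∑ p ∈ PP N, A F p * (p : ℝ) ^ (-x) := by
  classical
  have hmaps : ∀ P ∈ (TT F N).filter (fun P => (Ideal.absNorm P).Prime),
      Ideal.absNorm P ∈ PP N := by
    intro P hP
    rw [Finset.mem_filter, mem_TT] at hP
    exact mem_PP.mpr ⟨hP.1.1.1, hP.2⟩
  rw [← Finset.sum_fiberwise_of_maps_to hmaps]
  refine Finset.sum_congr rfl fun p hp => ?_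
  rw [mem_PP] at hp
  have hc : A F p = (((TT F N).filter (fun P => (Ideal.absNorm P).Prime)).filter
      (fun I => Ideal.absNorm I = p)).card := by
    refine card_eq_A F _ fun I => ?_
    rw [Finset.mem_filter, Finset.mem_filter, mem_TT]
    refine ⟨fun h => h.2, fun h => ⟨⟨⟨⟨h.le.trans hp.1, ?_⟩, ?_⟩, ?_⟩, h⟩⟩
    · rintro rfl
      rw [Ideal.absNorm_bot] at h
      exact hp.2.ne_zero h.symm
    · refine Ideal.isPrime_of_irreducible_absNorm ?_
      rw [h]
      exact hp.2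
    · rw [h]
      exact hp.2
  rw [hc, ← nsmul_eq_mul, ← Finset.sum_const]
  refine Finset.sum_congr rfl fun I hI => ?_
  rw [Finset.mem_filter] at hI
  unfold f
  rw [hI.2]

/-- the rational prime below a prime ideal together with the norm. -/
lemma exists_below {N : ℕ} {P : Ideal (𝓞 F)} (hP : P ∈ TT F N) :
    ∃ p n : ℕ, 0 < n ∧ (p : 𝓞 F) ∈ P ∧ p.Prime ∧ Ideal.absNorm P = p ^ n ∧ p ≤ N := by
  rw [mem_TT] at hP
  have : P.IsMaximal := hP.2.isMaximal hP.1.2
  obtain ⟨p, n, hn, hpP, hp, hN⟩ := Ideal.exists_prime_and_absNorm_eq_pow P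
  refine ⟨p, n, hn, hpP, hp, hN, ?_⟩
  calc p = p ^ 1 := (pow_one p).symm
    _ ≤ p ^ n := Nat.pow_le_pow_right hp.pos hn
    _ = Ideal.absNorm P := hN.symm
    _ ≤ N := hP.1.1

lemma sum_below {N : ℕ} (s : Finset (Ideal (𝓞 F))) (hs : s ⊆ TT F N) (h : Ideal (𝓞 F) → ℝ)
    (hh : ∀ P ∈ s, ∀ p n : ℕ, 0 < n → p.Prime → Ideal.absNorm P = p ^ n → h P ≤ 1 / (p : ℝ) ^ 2) :
    ∑ P ∈ s, h P ≤ (Module.finrank ℚ F : ℝ) * ∑' n : ℕ, 1 / (n : ℝ) ^ 2 := by
  classical
  choose! p n hn hpP hp hN hle using fun P (hP : P ∈ TT F N) => exists_below F hP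
  have hmaps : ∀ P ∈ s, p P ∈ PP N := fun P hP => mem_PP.mpr ⟨hle P (hs hP), hp P (hs hP)⟩
  rw [← Finset.sum_fiberwise_of_maps_to hmaps]
  calc ∑ q ∈ PP N, ∑ P ∈ s with p P = q, h P
      ≤ ∑ q ∈ PP N, (Module.finrank ℚ F : ℝ) * (1 / (q : ℝ) ^ 2) := by
        refine Finset.sum_le_sum fun q hq => ?_
        calc ∑ P ∈ s with p P = q, h P ≤ ∑ P ∈ s with p P = q, 1 / (q : ℝ) ^ 2 := by
              refine Finset.sum_le_sum fun P hP => ?_
              rw [Finset.mem_filter] at hP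
              have := hh P hP.1 (p P) (n P) (hn P (hs hP.1)) (hp P (hs hP.1)) (hN P (hs hP.1))
              rwa [hP.2] at this
          _ = ((s.filter (fun P => p P = q)).card : ℝ) * (1 / (q : ℝ) ^ 2) := by
              rw [Finset.sum_const, nsmul_eq_mul]
          _ ≤ (Module.finrank ℚ F : ℝ) * (1 / (q : ℝ) ^ 2) := by
              refine mul_le_mul_of_nonneg_right ?_ (by positivity)
              norm_cast
              refine card_le_finrank F (mem_PP.mp hq).2 _ fun P hP => ?_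
              rw [Finset.mem_filter] at hP
              refine ⟨((mem_TT F).mp (hs hP.1)).2, ?_⟩
              have := hpP P (hs hP.1)
              rwa [hP.2] at this
    _ = (Module.finrank ℚ F : ℝ) * ∑ q ∈ PP N, 1 / (q : ℝ) ^ 2 := by rw [Finset.mul_sum]
    _ ≤ (Module.finrank ℚ F : ℝ) * ∑' n : ℕ, 1 / (n : ℝ) ^ 2 := by
        refine mul_le_mul_of_nonneg_left ?_ (Nat.cast_nonneg _)
        exact (Real.summable_one_div_nat_pow.mpr (by norm_num)).sum_le_tsum _
          fun n _ => by positivity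

/-- the constant `[F:ℚ] ζ(2)`. -/
noncomputable def cc : ℝ := (Module.finrank ℚ F : ℝ) * ∑' n : ℕ, 1 / (n : ℝ) ^ 2

lemma sum_TT_nonprime {x : ℝ} (hx : 1 ≤ x) (N : ℕ) :
    ∑ P ∈ (TT F N).filter (fun P => ¬ (Ideal.absNorm P).Prime), f F x P ≤ cc F := by
  classical
  unfold cc
  refine sum_below F _ (Finset.filter_subset _ _) _ fun P hP p n hn hp hN => ?_
  rw [Finset.mem_filter] at hP
  have hn2 : 2 ≤ n := by
    by_contra h
    have : n = 1 := by omega
    rw [this, pow_one] at hN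
    exact hP.2 (hN ▸ hp)
  have hp1 : (1 : ℝ) ≤ p := by exact_mod_cast hp.one_lt.le
  unfold f
  rw [hN, Nat.cast_pow, ← Real.rpow_natCast, ← Real.rpow_mul (by linarith)]
  calc (p : ℝ) ^ ((n : ℝ) * -x) ≤ (p : ℝ) ^ (-2 : ℝ) := by
        refine Real.rpow_le_rpow_of_exponent_le hp1 ?_
        have : (2 : ℝ) ≤ n := by exact_mod_cast hn2
        nlinarith
    _ = 1 / (p : ℝ) ^ 2 := by
        rw [Real.rpow_neg (by linarith), one_div]
        norm_cast

lemma sum_TT_sq {x : ℝ} (hx : 1 ≤ x) (N : ℕ) :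
    ∑ P ∈ TT F N, f F x P ^ 2 ≤ cc F := by
  unfold cc
  refine sum_below F _ (le_refl _) _ fun P hP p n hn hp hN => ?_
  have hp1 : (1 : ℝ) ≤ p := by exact_mod_cast hp.one_lt.le
  have h1 : f F x P ≤ 1 / (p : ℝ) := by
    unfold f
    rw [hN, Nat.cast_pow, ← Real.rpow_natCast, ← Real.rpow_mul (by linarith)]
    calc (p : ℝ) ^ ((n : ℝ) * -x) ≤ (p : ℝ) ^ (-1 : ℝ) := by
          refine Real.rpow_le_rpow_of_exponent_le hp1 ?_
          have : (1 : ℝ) ≤ n := by exact_mod_cast hn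
          nlinarith
      _ = 1 / (p : ℝ) := by rw [Real.rpow_neg_one, one_div]
  calc f F x P ^ 2 ≤ (1 / (p : ℝ)) ^ 2 := by
        exact pow_le_pow_left₀ (f_nonneg F x P) h1 2
    _ = 1 / (p : ℝ) ^ 2 := by rw [div_pow, one_pow]

lemma sum_TT_le {x : ℝ} (hx : 1 ≤ x) (N : ℕ) :
    ∑ P ∈ TT F N, f F x P ≤ ∑ p ∈ PP N, A F p * (p : ℝ) ^ (-x) + cc F := by
  classical
  rw [← Finset.sum_filter_add_sum_filter_not (TT F N) (fun P => (Ideal.absNorm P).Prime),
    sum_TT_prime]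
  exact add_le_add le_rfl (sum_TT_nonprime F hx N)

lemma le_sum_TT (x : ℝ) (N : ℕ) :
    ∑ p ∈ PP N, A F p * (p : ℝ) ^ (-x) ≤ ∑ P ∈ TT F N, f F x P := by
  classical
  rw [← sum_TT_prime]
  exact Finset.sum_le_sum_of_subset_of_nonneg (Finset.filter_subset _ _)
    fun P _ _ => f_nonneg F x P

/-- real zeta function. -/
noncomputable def Z (x : ℝ) : ℝ := ∑' n : ℕ, A F n * (n : ℝ) ^ (-x)

lemma lseriesSummable {x : ℝ} (hx : 1 < x) :
    LSeriesSummable (fun n => ((A F n : ℝ) : ℂ)) x := by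
  have key := NumberField.Ideal.tendsto_norm_le_div_atTop F
  refine LSeriesSummable_of_sum_norm_bigO_and_nonneg (r := 1) ?_ (A_nonneg F) zero_le_one
    (by simpa using hx)
  have h1 : Tendsto (fun n : ℕ => (Nat.card {I : Ideal (𝓞 F) // (Ideal.absNorm I : ℝ) ≤ n} : ℝ)
      / (n : ℝ)) atTop (𝓝 _) := key.comp tendsto_natCast_atTop_atTop
  have h2 := h1.isBigO_one ℝ
  have h3 : (fun n : ℕ => ∑ k ∈ Finset.Icc 1 n, A F k) =O[atTop]
      fun n : ℕ => (Nat.card {I : Ideal (𝓞 F) // (Ideal.absNorm I : ℝ) ≤ n} : ℝ) := by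
    refine Asymptotics.IsBigO.of_bound 1 (Eventually.of_forall fun n => ?_)
    rw [one_mul, Real.norm_of_nonneg (Finset.sum_nonneg fun k _ => A_nonneg F k),
      Real.norm_of_nonneg (Nat.cast_nonneg _)]
    have h4 : ∑ k ∈ Finset.Icc 1 n, A F k = ((JJ F n).card : ℝ) := by
      have := sum_JJ_eq F 0 n
      simp only [f, neg_zero, Real.rpow_zero, mul_one, Finset.sum_const, nsmul_eq_mul] at this
      exact this.symm
    rw [h4]
    norm_cast
    classical
    have hfin := Ideal.finite_setOfPred_absNorm_le (S := 𝓞 F) n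
    rw [Nat.subtype_card (p := fun I : Ideal (𝓞 F) => Ideal.absNorm I ≤ n) hfin.toFinset
      (fun I => by simp)]
    refine Finset.card_le_card fun I hI => ?_
    rw [mem_JJ] at hI
    simpa using hI.1
  refine h3.trans ?_
  have h5 := h2.mul (Asymptotics.isBigO_refl (fun n : ℕ => (n : ℝ)) atTop)
  refine (h5.congr' ?_ ?_)
  · filter_upwards [eventually_ne_atTop 0] with n hn
    have : (n : ℝ) ≠ 0 := by exact_mod_cast hn
    field_simp
  · filter_upwards with n
    simp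

lemma term_eq {x : ℝ} (hx : x ≠ 0) (n : ℕ) :
    LSeries.term (fun n => ((A F n : ℝ) : ℂ)) x n = ((A F n * (n : ℝ) ^ (-x) : ℝ) : ℂ) := by
  rcases eq_or_ne n 0 with rfl | hn
  · simp [LSeries.term, Real.zero_rpow (neg_ne_zero.mpr hx)]
  · rw [LSeries.term_of_ne_zero hn, Complex.ofReal_mul, Real.rpow_neg (Nat.cast_nonneg _),
      Complex.ofReal_inv, Complex.ofReal_cpow (Nat.cast_nonneg _), div_eq_mul_inv]
    simp

lemma summable_Z {x : ℝ} (hx : 1 < x) : Summable fun n : ℕ => A F n * (n : ℝ) ^ (-x) := by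
  have h := lseriesSummable F hx
  unfold LSeriesSummable at h
  rw [show LSeries.term (fun n => ((A F n : ℝ) : ℂ)) x =
    fun n => ((A F n * (n : ℝ) ^ (-x) : ℝ) : ℂ) from funext (term_eq F (by linarith))] at h
  exact Complex.summable_ofReal.mp h

lemma dedekindZeta_eq {x : ℝ} (hx : x ≠ 0) : dedekindZeta F x = ((Z F x : ℝ) : ℂ) := by
  unfold dedekindZeta LSeries Z
  rw [Complex.ofReal_tsum]
  refine tsum_congr fun n => ?_
  rw [← term_eq F hx n]
  simp [A]

lemma term_nonneg (x : ℝ) (n : ℕ) : 0 ≤ A F n * (n : ℝ) ^ (-x) :=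
  mul_nonneg (A_nonneg F n) (Real.rpow_nonneg (Nat.cast_nonneg _) _)

lemma sum_JJ_le_Z {x : ℝ} (hx : 1 < x) (N : ℕ) : ∑ I ∈ JJ F N, f F x I ≤ Z F x := by
  rw [sum_JJ_eq]
  exact (summable_Z F hx).sum_le_tsum _ fun n _ => term_nonneg F x n

lemma one_le_Z {x : ℝ} (hx : 1 < x) : 1 ≤ Z F x := by
  refine le_trans ?_ (sum_JJ_le_Z F hx 1)
  have h1 : (⊤ : Ideal (𝓞 F)) ∈ JJ F 1 := by
    rw [mem_JJ, Ideal.absNorm_top]
    exact ⟨le_rfl, top_ne_bot⟩
  calc (1 : ℝ) = f F x ⊤ := by rw [← Ideal.one_eq_top, f_one]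
    _ ≤ _ := Finset.single_le_sum (fun I _ => f_nonneg F x I) h1

lemma sum_TT_le_log {x : ℝ} (hx : 1 < x) (N : ℕ) :
    ∑ P ∈ TT F N, f F x P ≤ Real.log (Z F x) + cc F := by
  obtain ⟨M, hM⟩ := prod_TT_le F x N
  have h1 : ∏ P ∈ TT F N, (1 + f F x P) ≤ Z F x := hM.trans (sum_JJ_le_Z F hx M)
  have hpos : ∀ P ∈ TT F N, (0 : ℝ) < 1 + f F x P := fun P _ => by
    have := f_nonneg F x P
    linarith
  have h2 : ∑ P ∈ TT F N, Real.log (1 + f F x P) ≤ Real.log (Z F x) := by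
    rw [← Real.log_prod fun P hP => (hpos P hP).ne']
    exact Real.log_le_log (Finset.prod_pos hpos) h1
  have h3 : ∑ P ∈ TT F N, f F x P ≤
      ∑ P ∈ TT F N, (Real.log (1 + f F x P) + f F x P ^ 2) := by
    refine Finset.sum_le_sum fun P _ => ?_
    have h0 := f_nonneg F x P
    have h4 := Real.le_log_one_add_of_nonneg h0
    have h5 : f F x P - f F x P ^ 2 ≤ 2 * f F x P / (f F x P + 2) := by
      rw [le_div_iff₀ (by linarith)]
      nlinarith [mul_nonneg h0 (sq_nonneg (f F x P)), sq_nonneg (f F x P)]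
    linarith
  rw [Finset.sum_add_distrib] at h3
  have h6 := sum_TT_sq F hx.le N
  linarith

/-- prime sum. -/
noncomputable def S (x : ℝ) : ℝ := ∑' p : Nat.Primes, A F p * (p : ℝ) ^ (-x)

lemma finset_primes_le (x : ℝ) (s : Finset Nat.Primes) : ∃ N : ℕ,
    ∑ p ∈ s, A F p * (p : ℝ) ^ (-x) ≤ ∑ p ∈ PP N, A F p * (p : ℝ) ^ (-x) := by
  classical
  refine ⟨∑ p ∈ s, (p : ℕ), ?_⟩
  have h1 : ∑ p ∈ s, A F p * ((p : ℕ) : ℝ) ^ (-x) =
      ∑ p ∈ s.image (fun p : Nat.Primes => (p : ℕ)), A F p * (p : ℝ) ^ (-x) := by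
    exact (Finset.sum_image (g := fun p : Nat.Primes => (p : ℕ))
      (f := fun n : ℕ => A F n * (n : ℝ) ^ (-x)) fun a _ b _ h => Subtype.ext h).symm
  rw [h1]
  refine Finset.sum_le_sum_of_subset_of_nonneg ?_ fun n _ _ => term_nonneg F x n
  intro p hp
  rw [Finset.mem_image] at hp
  obtain ⟨q, hq, rfl⟩ := hp
  exact mem_PP.mpr ⟨Finset.single_le_sum (f := fun p : Nat.Primes => (p : ℕ))
    (fun _ _ => Nat.zero_le _) hq, q.2⟩

lemma sum_primes_le {x : ℝ} (hx : 1 < x) (s : Finset Nat.Primes) :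
    ∑ p ∈ s, A F p * (p : ℝ) ^ (-x) ≤ Real.log (Z F x) + cc F := by
  obtain ⟨N, hN⟩ := finset_primes_le F x s
  exact hN.trans ((le_sum_TT F x N).trans (sum_TT_le_log F hx N))

lemma summable_S {x : ℝ} (hx : 1 < x) :
    Summable fun p : Nat.Primes => A F p * (p : ℝ) ^ (-x) :=
  summable_of_sum_le (fun p => term_nonneg F x p) (sum_primes_le F hx)

lemma S_le {x : ℝ} (hx : 1 < x) : S F x ≤ Real.log (Z F x) + cc F :=
  (summable_S F hx).tsum_le_of_sum_le (sum_primes_le F hx)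

lemma sum_PP_le_S {x : ℝ} (hx : 1 < x) (N : ℕ) :
    ∑ p ∈ PP N, A F p * (p : ℝ) ^ (-x) ≤ S F x := by
  classical
  have h1 : ∑ p ∈ PP N, A F p * (p : ℝ) ^ (-x) =
      ∑ p ∈ (PP N).attach.image (fun p => (⟨p.1, (mem_PP.mp p.2).2⟩ : Nat.Primes)),
        A F p * (p : ℝ) ^ (-x) := by
    rw [Finset.sum_image]
    · rw [← Finset.sum_attach]
    · intro a _ b _ h
      exact Subtype.ext (congrArg (fun q : Nat.Primes => (q : ℕ)) h)
  rw [h1]
  have h2 := Summable.sum_le_tsum (ι := Nat.Primes)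
    (f := fun p : Nat.Primes => A F p * (p : ℝ) ^ (-x))
    ((PP N).attach.image (fun p => (⟨p.1, (mem_PP.mp p.2).2⟩ : Nat.Primes)))
    (fun p _ => term_nonneg F x p) (summable_S F hx)
  exact h2

lemma Z_le {x : ℝ} (hx : 1 < x) : Z F x ≤ Real.exp (S F x + cc F) * Z F 2 := by
  have hbound : ∀ N : ℕ, ∑ n ∈ Finset.range (N + 1), A F n * (n : ℝ) ^ (-x) ≤
      Real.exp (S F x + cc F) * Z F 2 := by
    intro N
    have h0 : ∑ n ∈ Finset.range (N + 1), A F n * (n : ℝ) ^ (-x) =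
        ∑ n ∈ Finset.Icc 1 N, A F n * (n : ℝ) ^ (-x) := by
      rw [Finset.range_eq_Ico, Finset.sum_eq_sum_Ico_succ_bot (Nat.succ_pos N)]
      rw [Nat.cast_zero, Real.zero_rpow (by linarith), mul_zero, zero_add]
      rfl
    rw [h0, ← sum_JJ_eq]
    refine (sum_JJ_le F x N).trans ?_
    refine mul_le_mul ?_ ?_ (Finset.sum_nonneg fun _ _ => sq_nonneg _) (Real.exp_pos _).le
    · calc ∏ P ∈ TT F N, (1 + f F x P) ≤ ∏ P ∈ TT F N, Real.exp (f F x P) := by
            refine Finset.prod_le_prod (fun P _ => ?_) fun P _ => ?_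
            · have := f_nonneg F x P
              linarith
            · have := Real.add_one_le_exp (f F x P)
              linarith
        _ = Real.exp (∑ P ∈ TT F N, f F x P) := (Real.exp_sum _ _).symm
        _ ≤ Real.exp (S F x + cc F) := by
            refine Real.exp_le_exp.mpr ?_
            exact (sum_TT_le F hx.le N).trans (add_le_add (sum_PP_le_S F hx N) le_rfl)
    · refine le_trans ?_ (sum_JJ_le_Z F (x := 2) (by norm_num) N)
      refine Finset.sum_le_sum fun K hK => ?_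
      have h1 : (1 : ℝ) ≤ Ideal.absNorm K := by
        exact_mod_cast absNorm_pos F ((mem_JJ F).mp hK).2
      unfold f
      rw [← Real.rpow_natCast, ← Real.rpow_mul (by linarith)]
      refine Real.rpow_le_rpow_of_exponent_le h1 ?_
      push_cast
      linarith
  have hlim := (summable_Z F hx).hasSum.tendsto_sum_nat
  refine le_of_tendsto ((tendsto_add_atTop_iff_nat 1).mpr hlim) (Eventually.of_forall hbound)

lemma log_Z_le {x : ℝ} (hx : 1 < x) : Real.log (Z F x) ≤ S F x + cc F + Real.log (Z F 2) := by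
  have h1 := Real.log_le_log (by linarith [one_le_Z F hx]) (Z_le F hx)
  rw [Real.log_mul (Real.exp_pos _).ne' (by linarith [one_le_Z F (x := 2) (by norm_num)]),
    Real.log_exp] at h1
  exact h1

end Ded

theorem card_norm_prime_le (F : Type*) [Field F] [NumberField F] (p : ℕ) (hp : p.Prime) :
    Nat.card {I : Ideal (NumberField.RingOfIntegers F) // Ideal.absNorm I = p} ≤
      Module.finrank ℚ F := by
  have hfin := Ideal.finite_setOfPred_absNorm_eq (S := 𝓞 F) p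
  rw [Nat.subtype_card (p := fun I : Ideal (𝓞 F) => Ideal.absNorm I = p) hfin.toFinset
    (fun I => by simp)]
  refine Ded.card_le_finrank F hp _ fun P hP => ?_
  have hP' : Ideal.absNorm P = p := by simpa using hP
  refine ⟨Ideal.isPrime_of_irreducible_absNorm (by rw [hP']; exact hp), ?_⟩
  rw [← hP']
  exact Ideal.absNorm_mem P

theorem dedekind_primeSum (F : Type*) [Field F] [NumberField F] :
    ∃ K : ℝ, ∀ᶠ x in 𝓝[>] (1:ℝ),
      |(∑' p : Nat.Primes, (Nat.card {I : Ideal (NumberField.RingOfIntegers F) //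
        Ideal.absNorm I = (p:ℕ)} : ℝ) * (p:ℝ) ^ (-x)) - Real.log (1 / (x - 1))| ≤ K := by
  have hres := NumberField.tendsto_sub_one_mul_dedekindZeta_nhdsGT F
  have hκ := NumberField.dedekindZeta_residue_pos F
  have h1 : Tendsto (fun x : ℝ => (x - 1) * Ded.Z F x) (𝓝[>] 1)
      (𝓝 (NumberField.dedekindZeta_residue F)) := by
    have h2 : Tendsto (fun x : ℝ => (((x - 1) * Ded.Z F x : ℝ) : ℂ)) (𝓝[>] 1)
        (𝓝 ((NumberField.dedekindZeta_residue F : ℝ) : ℂ)) := by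
      refine hres.congr' ?_
      filter_upwards [self_mem_nhdsWithin] with x hx
      have hx' : (1 : ℝ) < x := hx
      rw [Ded.dedekindZeta_eq F (by linarith : x ≠ 0)]
      push_cast
      rfl
    exact (Complex.continuous_re.tendsto _).comp h2
  have h3 := (Real.continuousAt_log hκ.ne').tendsto.comp h1
  set κ := Real.log (NumberField.dedekindZeta_residue F)
  have h4 : ∀ᶠ x in 𝓝[>] (1:ℝ), |Real.log ((x - 1) * Ded.Z F x) - κ| < 1 := by
    have := (Metric.tendsto_nhds.mp h3) 1 one_pos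
    filter_upwards [this] with x hx
    simpa [Real.dist_eq] using hx
  refine ⟨|κ| + 1 + Ded.cc F + Real.log (Ded.Z F 2), ?_⟩
  filter_upwards [h4, self_mem_nhdsWithin] with x hx hx1
  have hx' : (1 : ℝ) < x := hx1
  have hZ := Ded.one_le_Z F hx'
  have hZ2 := Ded.one_le_Z F (x := 2) (by norm_num)
  have hlog2 := Real.log_nonneg hZ2
  have hc : 0 ≤ Ded.cc F := by
    unfold Ded.cc
    exact mul_nonneg (Nat.cast_nonneg _) (tsum_nonneg fun n => by positivity)
  have h5 := Ded.S_le F hx'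
  have h6 := Ded.log_Z_le F hx'
  have h7 : Real.log ((x - 1) * Ded.Z F x) = Real.log (Ded.Z F x) - Real.log (1 / (x - 1)) := by
    rw [Real.log_mul (by linarith) (by linarith), one_div, Real.log_inv]
    ring
  rw [h7, abs_lt] at hx
  have h8 := abs_le.mp (le_refl |κ|)
  change |Ded.S F x - Real.log (1 / (x - 1))| ≤ _
  rw [abs_le]
  constructor <;> linarith [hx.1, hx.2, h8.1, h8.2]

end TatePole
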