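import Mathlib

open Filter Topology Polynomial Set Complex

namespace TatePole

variable {b : ℕ}

/-- logarithm of a local factor. -/
noncomputable def ell (α : Fin b → ℂ) (x : ℂ) : ℂ := ∑ j, log ((1 - α j * x)⁻¹)

lemma exp_ell {α : Fin b → ℂ} {x : ℂ} (h : ∀ j, ‖α j * x‖ < 1) :
    cexp (ell α x) = (∏ j, (1 - α j * x))⁻¹ := by
  unfold ell
  rw [Complex.exp_sum, ← Finset.prod_inv_distrib]
  refine Finset.prod_congr rfl fun j _ => ?_
  rw [Complex.exp_log]
  rw [ne_eq, inv_eq_zero, sub_eq_zero]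
  intro h1
  have := h j
  rw [← h1] at this
  simp at this

lemma ell_sub_le {α : Fin b → ℂ} {x : ℂ} (h : ∀ j, ‖α j‖ ≤ 1) (hx : ‖x‖ ≤ 1 / 2) :
    ‖ell α x - (∑ j, α j) * x‖ ≤ b * ‖x‖ ^ 2 := by
  unfold ell
  rw [Finset.sum_mul, ← Finset.sum_sub_distrib]
  refine (norm_sum_le _ _).trans ?_
  calc ∑ j, ‖log ((1 - α j * x)⁻¹) - α j * x‖ ≤ ∑ _j : Fin b, ‖x‖ ^ 2 := by
        refine Finset.sum_le_sum fun j _ => ?_
        have h1 : ‖α j * x‖ ≤ ‖x‖ := by
          rw [norm_mul]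
          calc ‖α j‖ * ‖x‖ ≤ 1 * ‖x‖ := mul_le_mul_of_nonneg_right (h j) (norm_nonneg _)
            _ = ‖x‖ := one_mul _
        have h2 : ‖α j * x‖ < 1 := by linarith
        refine (norm_log_one_sub_inv_sub_self_le h2).trans ?_
        have h3 : (1 - ‖α j * x‖)⁻¹ ≤ 2 := by
          rw [inv_le_comm₀ (by linarith) (by norm_num)]
          linarith
        have h4 : ‖α j * x‖ ^ 2 ≤ ‖x‖ ^ 2 := by gcongr
        have h5 : 0 ≤ (1 - ‖α j * x‖)⁻¹ := by
          rw [inv_nonneg]; linarith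
        have h6 : 0 ≤ ‖x‖ ^ 2 := by positivity
        nlinarith [mul_le_mul h4 h3 h5 h6]
    _ = b * ‖x‖ ^ 2 := by simp

/-- `p ^ (-x)` as a complex number. -/
noncomputable def pw (p : ℕ) (x : ℝ) : ℂ := (((p : ℝ) ^ (-x) : ℝ) : ℂ)

lemma norm_pw {p : ℕ} (x : ℝ) : ‖pw p x‖ = (p : ℝ) ^ (-x) := by
  unfold pw
  rw [Complex.norm_real, Real.norm_of_nonneg]
  exact Real.rpow_nonneg (Nat.cast_nonneg _) _

lemma norm_pw_le_half {p : ℕ} (hp : p.Prime) {x : ℝ} (hx : 1 ≤ x) : ‖pw p x‖ ≤ 1 / 2 := by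
  rw [norm_pw]
  have h2 : (2:ℝ) ≤ p := by exact_mod_cast hp.two_le
  calc (p : ℝ) ^ (-x) ≤ (p : ℝ) ^ (-1 : ℝ) :=
        Real.rpow_le_rpow_of_exponent_le (by linarith) (by linarith)
    _ = (p : ℝ)⁻¹ := Real.rpow_neg_one _
    _ ≤ 1 / 2 := by
        rw [one_div]
        exact inv_anti₀ (by norm_num) h2

lemma norm_pw_le_inv {p : ℕ} (hp : p.Prime) {x : ℝ} (hx : 1 ≤ x) : ‖pw p x‖ ≤ (p : ℝ)⁻¹ := by
  rw [norm_pw]
  have h2 : (2:ℝ) ≤ p := by exact_mod_cast hp.two_le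
  calc (p : ℝ) ^ (-x) ≤ (p : ℝ) ^ (-1 : ℝ) :=
        Real.rpow_le_rpow_of_exponent_le (by linarith) (by linarith)
    _ = (p : ℝ)⁻¹ := Real.rpow_neg_one _

lemma summable_pw {x : ℝ} (hx : 1 < x) : Summable fun p : Nat.Primes => ‖pw p x‖ := by
  simp_rw [norm_pw]
  exact Nat.Primes.summable_rpow.mpr (by linarith)

lemma summable_inv_sq : Summable fun p : Nat.Primes => ((p : ℝ)⁻¹) ^ 2 := by
  have h := Nat.Primes.summable_rpow.mpr (show (-2:ℝ) < -1 by norm_num)
  refine h.congr fun p => ?_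
  rw [Real.rpow_neg (Nat.cast_nonneg _), inv_pow]
  norm_cast

/-- sum over primes of `A p * p ^ (-x)`. -/
noncomputable def FF (A : ℕ → ℂ) (x : ℝ) : ℂ := ∑' p : Nat.Primes, A p * pw p x

lemma summable_FF {A : ℕ → ℂ} {C : ℝ} (hA : ∀ p : ℕ, p.Prime → ‖A p‖ ≤ C) {x : ℝ} (hx : 1 < x) :
    Summable fun p : Nat.Primes => A p * pw p x := by
  refine Summable.of_norm_bounded ((summable_pw hx).mul_left C) fun p => ?_
  rw [norm_mul]
  exact mul_le_mul_of_nonneg_right (hA p p.2) (norm_nonneg _)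

section

variable (P : ℕ → ℂ[X]) (S : Finset ℕ) (α : ℕ → Fin b → ℂ) (u : ℕ → ℂ)

/-- the coefficient `A_p`: twisted trace of Frobenius outside `S`, zero on `S`. -/
noncomputable def coefA (p : ℕ) : ℂ := if p ∈ S then 0 else (∑ j, α p j) * u p

/-- the correction term -/
noncomputable def corr (p : ℕ) (x : ℝ) : ℂ :=
  if p ∈ S then 0 else ell (α p) (u p * pw p x) - (∑ j, α p j) * (u p * pw p x)

/-- sum of the correction terms -/
noncomputable def GG (x : ℝ) : ℂ := ∑' p : Nat.Primes, corr S α u p x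

/-- the Euler product -/
noncomputable def ZZ (x : ℝ) : ℂ := ∏' p : Nat.Primes, ((P p).eval (u p * pw p x))⁻¹

/-- the finitely many exceptional factors -/
noncomputable def EE (x : ℝ) : ℂ :=
  ∏ p ∈ S.filter Nat.Prime, ((P p).eval (u p * pw p x))⁻¹

end

variable {P : ℕ → ℂ[X]} {S : Finset ℕ} {α : ℕ → Fin b → ℂ} {u : ℕ → ℂ}

lemma norm_upw_le {p : ℕ} (hu : ‖u p‖ ≤ 1) (x : ℝ) : ‖u p * pw p x‖ ≤ ‖pw p x‖ := by
  rw [norm_mul]
  calc ‖u p‖ * ‖pw p x‖ ≤ 1 * ‖pw p x‖ := mul_le_mul_of_nonneg_right hu (norm_nonneg _)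
    _ = _ := one_mul _

lemma norm_corr_le (hα : ∀ p : ℕ, p.Prime → p ∉ S → ∀ j, ‖α p j‖ ≤ 1)
    (hu : ∀ p : ℕ, p.Prime → ‖u p‖ ≤ 1) (p : Nat.Primes) {x : ℝ} (hx : 1 ≤ x) :
    ‖corr S α u p x‖ ≤ b * ((p : ℝ)⁻¹) ^ 2 := by
  unfold corr
  split_ifs with h
  · simp; positivity
  · have h1 := norm_upw_le (u := u) (hu p p.2) x
    have h2 := norm_pw_le_half p.2 hx
    have h3 := norm_pw_le_inv p.2 hx
    refine (ell_sub_le (hα p p.2 h) (h1.trans h2)).trans ?_
    gcongr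
    exact h1.trans h3

lemma summable_corr (hα : ∀ p : ℕ, p.Prime → p ∉ S → ∀ j, ‖α p j‖ ≤ 1)
    (hu : ∀ p : ℕ, p.Prime → ‖u p‖ ≤ 1) {x : ℝ} (hx : 1 ≤ x) :
    Summable fun p : Nat.Primes => corr S α u p x :=
  Summable.of_norm_bounded (summable_inv_sq.mul_left (b : ℝ))
    fun p => norm_corr_le hα hu p hx

lemma norm_coefA_le (hα : ∀ p : ℕ, p.Prime → p ∉ S → ∀ j, ‖α p j‖ ≤ 1)
    (hu : ∀ p : ℕ, p.Prime → ‖u p‖ ≤ 1) (p : ℕ) (hp : p.Prime) : ‖coefA S α u p‖ ≤ b := by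
  unfold coefA
  split_ifs with h
  · simp
  · rw [norm_mul]
    have h1 : ‖∑ j, α p j‖ ≤ b := by
      refine (norm_sum_le _ _).trans ?_
      calc ∑ j, ‖α p j‖ ≤ ∑ _j : Fin b, (1:ℝ) := Finset.sum_le_sum fun j _ => hα p hp h j
        _ = b := by simp
    calc ‖∑ j, α p j‖ * ‖u p‖ ≤ b * 1 :=
          mul_le_mul h1 (hu p hp) (norm_nonneg _) (Nat.cast_nonneg _)
      _ = b := mul_one _

lemma continuous_pw {p : ℕ} (hp : p.Prime) : Continuous (pw p) := by
  unfold pw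
  refine Complex.continuous_ofReal.comp ?_
  have h2 : (0:ℝ) < p := by exact_mod_cast hp.pos
  exact Continuous.rpow continuous_const continuous_neg (fun x => Or.inl h2.ne')

lemma continuousOn_corr (hα : ∀ p : ℕ, p.Prime → p ∉ S → ∀ j, ‖α p j‖ ≤ 1)
    (hu : ∀ p : ℕ, p.Prime → ‖u p‖ ≤ 1) (p : Nat.Primes) :
    ContinuousOn (corr S α u p) (Ici 1) := by
  unfold corr
  by_cases h : (p : ℕ) ∈ S
  · simp only [h, if_true]; exact continuousOn_const
  · simp only [h, if_false]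
    have hc : Continuous fun x => u p * pw p x := continuous_const.mul (continuous_pw p.2)
    refine ContinuousOn.sub ?_ ((continuous_const.mul hc).continuousOn)
    unfold ell
    refine continuousOn_finsetSum _ fun j _ => ?_
    have key : ∀ x ∈ Ici (1:ℝ), ‖α p j * (u p * pw p x)‖ < 1 := by
      intro x hx
      have h1 := norm_upw_le (u := u) (hu p p.2) x
      have h2 := norm_pw_le_half p.2 hx
      rw [norm_mul]
      have h3 := hα p p.2 h j
      have := mul_le_mul_of_nonneg_right h3 (norm_nonneg (u p * pw p x))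
      linarith
    have hne : ∀ x ∈ Ici (1:ℝ), 1 - α p j * (u p * pw p x) ≠ 0 := by
      intro x hx h0
      have h1 := key x hx
      rw [sub_eq_zero] at h0
      rw [← h0] at h1
      simp at h1
    refine ContinuousOn.clog ?_ ?_
    · refine ContinuousOn.inv₀ ?_ hne
      exact (continuous_const.sub (continuous_const.mul hc)).continuousOn
    · intro x hx
      rw [Complex.mem_slitPlane_iff]
      left
      have h1 := key x hx
      have h2 : 0 < (1 - α p j * (u p * pw p x)).re := by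
        rw [Complex.sub_re, Complex.one_re]
        have := (Complex.abs_re_le_norm (α p j * (u p * pw p x)))
        have := (abs_le.mp this).2
        linarith
      rw [Complex.inv_re]
      exact div_pos h2 (Complex.normSq_pos.mpr (hne x hx))

lemma continuousOn_GG (hα : ∀ p : ℕ, p.Prime → p ∉ S → ∀ j, ‖α p j‖ ≤ 1)
    (hu : ∀ p : ℕ, p.Prime → ‖u p‖ ≤ 1) : ContinuousOn (GG S α u) (Ici 1) := by
  unfold GG
  exact continuousOn_tsum (fun p => continuousOn_corr hα hu p)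
    (summable_inv_sq.mul_left (b : ℝ)) fun p x hx => norm_corr_le hα hu p hx

lemma norm_GG_le (hα : ∀ p : ℕ, p.Prime → p ∉ S → ∀ j, ‖α p j‖ ≤ 1)
    (hu : ∀ p : ℕ, p.Prime → ‖u p‖ ≤ 1) {x : ℝ} (hx : 1 ≤ x) :
    ‖GG S α u x‖ ≤ b * ∑' p : Nat.Primes, ((p : ℝ)⁻¹) ^ 2 := by
  unfold GG
  rw [← tsum_mul_left]
  exact tsum_of_norm_bounded ((summable_inv_sq.mul_left (b : ℝ)).hasSum)
    fun p => norm_corr_le hα hu p hx

/-- the good part of the local factor in exponential form. -/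
lemma good_factor (hα : ∀ p : ℕ, p.Prime → p ∉ S → ∀ j, ‖α p j‖ ≤ 1)
    (hP : ∀ p : ℕ, p.Prime → p ∉ S → ∀ x, (P p).eval x = ∏ j, (1 - α p j * x))
    (hu : ∀ p : ℕ, p.Prime → ‖u p‖ ≤ 1) {p : ℕ} (hp : p.Prime) (hpS : p ∉ S)
    {x : ℝ} (hx : 1 ≤ x) :
    ((P p).eval (u p * pw p x))⁻¹ = cexp (coefA S α u p * pw p x + corr S α u p x) := by
  have h1 : coefA S α u p * pw p x + corr S α u p x = ell (α p) (u p * pw p x) := by
    unfold coefA corr
    rw [if_neg hpS, if_neg hpS]; ring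
  rw [h1, exp_ell, hP p hp hpS]
  intro j
  have h1 := norm_upw_le (u := u) (hu p hp) x
  have h2 := norm_pw_le_half hp hx
  rw [norm_mul]
  have h3 := hα p hp hpS j
  have := mul_le_mul_of_nonneg_right h3 (norm_nonneg (u p * pw p x))
  linarith

/-- Euler product in exponential form. -/
theorem ZZ_eq (hα : ∀ p : ℕ, p.Prime → p ∉ S → ∀ j, ‖α p j‖ ≤ 1)
    (hP : ∀ p : ℕ, p.Prime → p ∉ S → ∀ x, (P p).eval x = ∏ j, (1 - α p j * x))
    (hu : ∀ p : ℕ, p.Prime → ‖u p‖ ≤ 1) {x : ℝ} (hx : 1 < x) :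
    ZZ P u x = EE P S u x * cexp (FF (coefA S α u) x + GG S α u x) := by
  have hs1 : HasSum (fun p : Nat.Primes => coefA S α u p * pw p x + corr S α u p x)
      (FF (coefA S α u) x + GG S α u x) :=
    (summable_FF (norm_coefA_le hα hu) hx).hasSum.add (summable_corr hα hu hx.le).hasSum
  have hp1 := hs1.cexp
  -- exceptional factors
  have hfin : HasProd (fun p : Nat.Primes => if (p : ℕ) ∈ S then
      ((P p).eval (u p * pw p x))⁻¹ else 1) (EE P S u x) := by
    have hinj : Set.InjOn (fun p : Nat.Primes => (p : ℕ)) Set.univ :=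
      fun a _ b _ h => Subtype.ext h
    set T : Finset Nat.Primes := S.preimage (fun p : Nat.Primes => (p : ℕ))
      (hinj.mono (Set.subset_univ _)) with hT
    have h1 : HasProd (fun p : Nat.Primes => if (p : ℕ) ∈ S then
      ((P p).eval (u p * pw p x))⁻¹ else 1) (∏ p ∈ T, if (p : ℕ) ∈ S then
      ((P p).eval (u p * pw p x))⁻¹ else 1) := by
      refine hasProd_prod_of_ne_finset_one ?_
      intro p hp
      rw [if_neg]
      intro h
      exact hp (by rw [hT, Finset.mem_preimage]; exact h)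
    convert h1 using 1
    unfold EE
    symm
    refine Finset.prod_bij (fun p _ => (p : ℕ)) ?_ ?_ ?_ ?_
    · intro p hp
      rw [hT, Finset.mem_preimage] at hp
      exact Finset.mem_filter.mpr ⟨hp, p.2⟩
    · intro a _ b _ h
      exact Subtype.ext h
    · intro q hq
      rw [Finset.mem_filter] at hq
      refine ⟨(⟨q, hq.2⟩ : Nat.Primes), ?_, rfl⟩
      rw [hT]
      exact Finset.mem_preimage.mpr hq.1
    · intro p hp
      rw [hT, Finset.mem_preimage] at hp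
      rw [if_pos hp]
  have hmul := hfin.mul hp1
  unfold ZZ
  refine HasProd.tprod_eq ?_
  convert hmul using 1
  funext p
  by_cases h : (p : ℕ) ∈ S
  · rw [if_pos h]
    simp only [Function.comp]
    have : coefA S α u p * pw p x + corr S α u p x = 0 := by
      unfold coefA corr
      rw [if_pos h, if_pos h]; simp
    rw [this]; simp
  · rw [if_neg h, one_mul]
    exact good_factor hα hP hu p.2 h hx.le

end TatePole
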