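import Mathlib

open Filter Topology Polynomial Set

namespace TatePole

/-- The cut-off function used in the Tauberian argument. -/
noncomputable def cut (x : ℝ) : ℝ := if Real.exp (-1) ≤ x then 1 else 0

lemma cut_nonneg (x : ℝ) : 0 ≤ cut x := by unfold cut; split_ifs <;> norm_num

lemma cut_le_one (x : ℝ) : cut x ≤ 1 := by unfold cut; split_ifs <;> norm_num

lemma exp_neg_one_lt_half : Real.exp (-1) < 1 / 2 := by
  rw [Real.exp_neg]
  have : (2 : ℝ) < Real.exp 1 := by
    have := Real.exp_one_gt_d9
    linarith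
  rw [inv_lt_comm₀ (Real.exp_pos 1) (by norm_num)]
  simpa using this

/-- Ramp function. -/
noncomputable def ramp (a η x : ℝ) : ℝ := max 0 (min 1 ((x - a) / η))

lemma ramp_cont (a η : ℝ) : Continuous (ramp a η) := by
  unfold ramp
  fun_prop

lemma ramp_nonneg (a η x : ℝ) : 0 ≤ ramp a η x := le_max_left _ _

lemma ramp_le_one (a η x : ℝ) : ramp a η x ≤ 1 := by
  unfold ramp
  exact max_le (by norm_num) (min_le_left _ _)

lemma ramp_eq_zero {a η x : ℝ} (hη : 0 < η) (hx : x ≤ a) : ramp a η x = 0 := by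
  unfold ramp
  have : (x - a) / η ≤ 0 := div_nonpos_of_nonpos_of_nonneg (by linarith) hη.le
  rw [max_eq_left]
  exact (min_le_right _ _).trans this

lemma ramp_eq_one {a η x : ℝ} (hη : 0 < η) (hx : a + η ≤ x) : ramp a η x = 1 := by
  unfold ramp
  have : 1 ≤ (x - a) / η := by
    rw [le_div_iff₀ hη]; linarith
  rw [min_eq_left this]
  norm_num

/-- the two continuous envelopes of the (discontinuous) quotient `(cut x - x) / (x (1 - x))`. -/
noncomputable def Lfun (x : ℝ) : ℝ := -1 / (1 - min x (Real.exp (-1)))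
noncomputable def Rfun (x : ℝ) : ℝ := 1 / max x (Real.exp (-1))

lemma Lfun_cont : Continuous Lfun := by
  unfold Lfun
  refine Continuous.div continuous_const (by fun_prop) ?_
  intro x
  have h1 := min_le_right x (Real.exp (-1))
  have h2 := exp_neg_one_lt_half
  have : (0:ℝ) < 1 - min x (Real.exp (-1)) := by linarith
  exact this.ne'

lemma Rfun_cont : Continuous Rfun := by
  unfold Rfun
  refine Continuous.div continuous_const (by fun_prop) ?_
  intro x
  have h1 := le_max_right x (Real.exp (-1))
  have h2 := Real.exp_pos (-1)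
  exact (lt_of_lt_of_le h2 h1).ne'

lemma Lfun_nonpos (x : ℝ) : Lfun x ≤ 0 := by
  unfold Lfun
  have h1 := min_le_right x (Real.exp (-1))
  have h2 := exp_neg_one_lt_half
  exact div_nonpos_of_nonpos_of_nonneg (by norm_num) (by linarith)

lemma Lfun_ge (x : ℝ) : -2 ≤ Lfun x := by
  unfold Lfun
  have h1 := min_le_right x (Real.exp (-1))
  have h2 := exp_neg_one_lt_half
  have h3 : (1:ℝ)/2 < 1 - min x (Real.exp (-1)) := by linarith
  rw [le_div_iff₀ (by linarith)]
  linarith

lemma Rfun_nonneg (x : ℝ) : 0 ≤ Rfun x := by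
  unfold Rfun
  have h1 := le_max_right x (Real.exp (-1))
  have h2 := Real.exp_pos (-1)
  positivity

lemma Rfun_le (x : ℝ) : Rfun x ≤ 3 := by
  unfold Rfun
  have h1 := le_max_right x (Real.exp (-1))
  have h2 := Real.exp_pos (-1)
  have h3 : (1:ℝ)/3 < Real.exp (-1) := by
    rw [Real.exp_neg, one_div, inv_lt_inv₀ (by norm_num) (Real.exp_pos 1)]
    have := Real.exp_one_lt_d9
    linarith
  rw [div_le_iff₀ (by linarith)]
  linarith

/-- pointwise identity on `(0,1)`. -/
lemma cut_eq (x : ℝ) (hx0 : 0 ≤ x) (hx1 : x ≤ 1) :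
    cut x = x + x * (1 - x) * (if Real.exp (-1) ≤ x then Rfun x else Lfun x) := by
  unfold cut Rfun Lfun
  have h2 := exp_neg_one_lt_half
  have h3 := Real.exp_pos (-1)
  split_ifs with h
  · rw [max_eq_left h]
    have : x ≠ 0 := by linarith [h3.trans_le h] |> fun (h : 0 < x) => h.ne'
    field_simp
    ring
  · push Not at h
    rw [min_eq_left h.le]
    have : (1 - x) ≠ 0 := by
      have : 0 < 1 - x := by linarith
      exact this.ne'
    field_simp
    ring

end TatePole
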