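import Mathlib
import Pool.Agent.Lib.MP_058a58_ag.Tauber

open Filter Topology Polynomial Set MeasureTheory

namespace TatePole

lemma exists_approx (ε : ℝ) (hε : 0 < ε) : ∃ Q₁ Q₂ : ℝ[X],
    (∀ x ∈ Icc (0:ℝ) 1, x + x * (1 - x) * Q₁.eval x ≤ cut x) ∧
    (∀ x ∈ Icc (0:ℝ) 1, cut x ≤ x + x * (1 - x) * Q₂.eval x) ∧
    (∀ x ∈ Icc (0:ℝ) 1, 0 ≤ (Q₂ - Q₁).eval x) ∧
    ∫ x in (0:ℝ)..1, (Q₂ - Q₁).eval x ≤ ε := by
  set a := Real.exp (-1) with ha
  set η := ε / 20 with hη
  have hηpos : 0 < η := by positivity
  set e := ε / 8 with he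
  have hepos : 0 < e := by positivity
  set D : ℝ → ℝ := fun x => Rfun x - Lfun x with hD
  have hD0 : ∀ x, 0 ≤ D x := fun x => by
    have := Rfun_nonneg x; have := Lfun_nonpos x; simp only [hD]; linarith
  have hD5 : ∀ x, D x ≤ 5 := fun x => by
    have := Rfun_le x; have := Lfun_ge x; simp only [hD]; linarith
  have hDc : Continuous D := Rfun_cont.sub Lfun_cont
  set h₁ : ℝ → ℝ := fun x => Lfun x + ramp a η x * D x with hh₁
  set h₂ : ℝ → ℝ := fun x => Lfun x + ramp (a - η) η x * D x with hh₂
  have hc₁ : Continuous h₁ := Lfun_cont.add ((ramp_cont a η).mul hDc)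
  have hc₂ : Continuous h₂ := Lfun_cont.add ((ramp_cont (a - η) η).mul hDc)
  obtain ⟨Q₁, hQ₁⟩ := exists_polynomial_near_of_continuousOn 0 1 (fun x => h₁ x - e)
    (hc₁.sub continuous_const).continuousOn e hepos
  obtain ⟨Q₂, hQ₂⟩ := exists_polynomial_near_of_continuousOn 0 1 (fun x => h₂ x + e)
    (hc₂.add continuous_const).continuousOn e hepos
  -- comparison with the step function
  have hstep : ∀ x, h₁ x ≤ (if a ≤ x then Rfun x else Lfun x) ∧
      (if a ≤ x then Rfun x else Lfun x) ≤ h₂ x := by
    intro x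
    split_ifs with hx
    · refine ⟨?_, ?_⟩
      · simp only [hh₁]
        have h1 := ramp_le_one a η x
        have h2 := mul_le_mul_of_nonneg_right h1 (hD0 x)
        simp only [hD] at h2 ⊢
        linarith
      · simp only [hh₂]
        rw [ramp_eq_one hηpos (by linarith)]
        simp only [hD]
        linarith
    · push Not at hx
      refine ⟨?_, ?_⟩
      · simp only [hh₁]
        rw [ramp_eq_zero hηpos hx.le]
        linarith
      · simp only [hh₂]
        have h1 := ramp_nonneg (a - η) η x
        have h2 := mul_nonneg h1 (hD0 x)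
        linarith
  refine ⟨Q₁, Q₂, ?_, ?_, ?_, ?_⟩
  · intro x hx
    rw [cut_eq x hx.1 hx.2]
    have h1 := (abs_lt.mp (hQ₁ x hx)).2
    have h2 := (hstep x).1
    have h3 : 0 ≤ x * (1 - x) := mul_nonneg hx.1 (by linarith [hx.2])
    have h4 : Q₁.eval x ≤ (if a ≤ x then Rfun x else Lfun x) := by linarith
    have := mul_le_mul_of_nonneg_left h4 h3
    linarith
  · intro x hx
    rw [cut_eq x hx.1 hx.2]
    have h1 := (abs_lt.mp (hQ₂ x hx)).1
    have h2 := (hstep x).2
    have h3 : 0 ≤ x * (1 - x) := mul_nonneg hx.1 (by linarith [hx.2])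
    have h4 : (if a ≤ x then Rfun x else Lfun x) ≤ Q₂.eval x := by linarith
    have := mul_le_mul_of_nonneg_left h4 h3
    linarith
  · intro x hx
    rw [eval_sub]
    have h1 := (abs_lt.mp (hQ₂ x hx)).1
    have h2 := (abs_lt.mp (hQ₁ x hx)).2
    have h3 := hstep x
    linarith [h3.1, h3.2]
  · have hle : ∀ x ∈ Icc (0:ℝ) 1, (Q₂ - Q₁).eval x ≤
        4 * e + 5 * (Icc (a - η) (a + η)).indicator (fun _ => (1:ℝ)) x := by
      intro x hx
      rw [eval_sub]
      have h1 := (abs_lt.mp (hQ₂ x hx)).2
      have h2 := (abs_lt.mp (hQ₁ x hx)).1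
      have h3 : h₂ x - h₁ x ≤ 5 * (Icc (a - η) (a + η)).indicator (fun _ => (1:ℝ)) x := by
        have : h₂ x - h₁ x = (ramp (a - η) η x - ramp a η x) * D x := by
          simp only [hh₁, hh₂]; ring
        rw [this]
        by_cases hx' : x ∈ Icc (a - η) (a + η)
        · rw [indicator_of_mem hx']
          have h4 := ramp_le_one (a - η) η x
          have h5 := ramp_nonneg a η x
          have h6 : ramp (a - η) η x - ramp a η x ≤ 1 := by linarith
          calc (ramp (a - η) η x - ramp a η x) * D x ≤ 1 * D x :=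
                mul_le_mul_of_nonneg_right h6 (hD0 x)
            _ ≤ 5 * 1 := by linarith [hD5 x]
        · rw [indicator_of_notMem hx']
          rw [mem_Icc, not_and_or] at hx'
          push Not at hx'
          rcases hx' with h | h
          · rw [ramp_eq_zero hηpos h.le, ramp_eq_zero hηpos (by linarith)]
            simp
          · rw [ramp_eq_one hηpos (by linarith), ramp_eq_one hηpos h.le]
            simp
      linarith
    have hint : IntervalIntegrable (fun x => 4 * e + 5 *
        (Icc (a - η) (a + η)).indicator (fun _ => (1:ℝ)) x) volume 0 1 := by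
      refine (continuous_const.intervalIntegrable _ _).add ?_
      refine IntervalIntegrable.const_mul ?_ _
      rw [intervalIntegrable_iff_integrableOn_Ioc_of_le (by norm_num)]
      refine Integrable.indicator ?_ measurableSet_Icc
      exact integrable_const _
    have h1 : ∫ x in (0:ℝ)..1, (Q₂ - Q₁).eval x ≤ ∫ x in (0:ℝ)..1, (4 * e + 5 *
        (Icc (a - η) (a + η)).indicator (fun _ => (1:ℝ)) x) :=
      intervalIntegral.integral_mono_on (by norm_num)
        ((Polynomial.continuous _).intervalIntegrable _ _) hint hle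
    refine h1.trans ?_
    rw [intervalIntegral.integral_add (continuous_const.intervalIntegrable _ _)]
    · have e1 : ∫ _ in (0:ℝ)..1, (4 * e) = 4 * e := by simp
      have e2 : ∫ x in (0:ℝ)..1, 5 * (Icc (a - η) (a + η)).indicator (fun _ => (1:ℝ)) x =
          5 * ∫ x in (0:ℝ)..1, (Icc (a - η) (a + η)).indicator (fun _ => (1:ℝ)) x :=
        intervalIntegral.integral_const_mul _ _
      rw [e1, e2, intervalIntegral.integral_of_le (by norm_num), integral_indicator measurableSet_Icc,
        Measure.restrict_restrict measurableSet_Icc]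
      have hfin : (volume : Measure ℝ).real (Icc (a - η) (a + η) ∩ Ioc (0:ℝ) 1) ≤ 2 * η := by
        calc (volume : Measure ℝ).real (Icc (a - η) (a + η) ∩ Ioc (0:ℝ) 1)
            ≤ (volume : Measure ℝ).real (Icc (a - η) (a + η)) :=
              measureReal_mono inter_subset_left (by simp)
          _ = 2 * η := by
              rw [measureReal_def, Real.volume_Icc, ENNReal.toReal_ofReal (by linarith)]; ring
      simp only [integral_const, smul_eq_mul, mul_one, MeasurableSet.univ,
        measureReal_restrict_apply, univ_inter]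
      linarith
    · refine IntervalIntegrable.const_mul ?_ _
      rw [intervalIntegrable_iff_integrableOn_Ioc_of_le (by norm_num)]
      refine Integrable.indicator ?_ measurableSet_Icc
      exact integrable_const _

end TatePole
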