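import Mathlib
import Pool.Agent.Lib.MP_058a58_ag.T2

open Filter Topology Polynomial Set MeasureTheory

namespace TatePole

variable {ι : Type*} (w t : ι → ℝ)

/-- weighted sum of `φ (exp (-δ t_i))`. -/
noncomputable def wsum (φ : ℝ → ℝ) (δ : ℝ) : ℝ := ∑' i, w i * φ (Real.exp (-(δ * t i)))

/-- the logarithmic functional of a polynomial. -/
noncomputable def logFun (P : ℝ[X]) : ℝ := -∑ k ∈ P.support, P.coeff k * Real.log k

variable {w t}

lemma exp_pow_eq (δ : ℝ) (i : ι) (k : ℕ) :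
    (Real.exp (-(δ * t i))) ^ k = Real.exp (-((k * δ) * t i)) := by
  rw [← Real.exp_nat_mul]; ring_nf

lemma term_poly (P : ℝ[X]) (δ : ℝ) (i : ι) :
    w i * P.eval (Real.exp (-(δ * t i))) =
      ∑ k ∈ P.support, P.coeff k * (w i * Real.exp (-((k * δ) * t i))) := by
  rw [Polynomial.eval_eq_sum, Polynomial.sum, Finset.mul_sum]
  refine Finset.sum_congr rfl fun k _ => ?_
  rw [exp_pow_eq]; ring

lemma support_pos {P : ℝ[X]} (hP : P.coeff 0 = 0) {k : ℕ} (hk : k ∈ P.support) : 0 < k := by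
  rcases Nat.eq_zero_or_pos k with h | h
  · subst h; simp [hP] at hk
  · exact h

lemma summable_poly (hsum : ∀ δ : ℝ, 0 < δ → Summable fun i => w i * Real.exp (-(δ * t i)))
    {P : ℝ[X]} (hP : P.coeff 0 = 0) {δ : ℝ} (hδ : 0 < δ) :
    Summable fun i => w i * P.eval (Real.exp (-(δ * t i))) := by
  simp_rw [term_poly]
  refine summable_sum fun k hk => ?_
  refine (hsum _ ?_).mul_left _
  have := support_pos hP hk
  positivity

lemma wsum_poly (hsum : ∀ δ : ℝ, 0 < δ → Summable fun i => w i * Real.exp (-(δ * t i)))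
    {P : ℝ[X]} (hP : P.coeff 0 = 0) {δ : ℝ} (hδ : 0 < δ) :
    wsum w t (fun x => P.eval x) δ =
      ∑ k ∈ P.support, P.coeff k * ∑' i, w i * Real.exp (-((k * δ) * t i)) := by
  unfold wsum
  simp_rw [term_poly]
  rw [Summable.tsum_finsetSum]
  · refine Finset.sum_congr rfl fun k _ => ?_
    rw [tsum_mul_left]
  · intro k hk
    refine (hsum _ ?_).mul_left _
    have := support_pos hP hk
    positivity

lemma tendsto_wsum_poly (hsum : ∀ δ : ℝ, 0 < δ → Summable fun i => w i * Real.exp (-(δ * t i)))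
    {K c : ℝ}
    (hf : Tendsto (fun δ : ℝ => (∑' i, w i * Real.exp (-(δ * t i))) + K * Real.log δ)
      (𝓝[>] 0) (𝓝 c))
    {P : ℝ[X]} (hP : P.coeff 0 = 0) (hP1 : P.eval 1 = 1) :
    Tendsto (fun δ : ℝ => wsum w t (fun x => P.eval x) δ + K * Real.log δ)
      (𝓝[>] 0) (𝓝 (c + K * logFun P)) := by
  have h1 : ∀ k ∈ P.support, Tendsto (fun δ : ℝ => P.coeff k *
      ((∑' i, w i * Real.exp (-((k * δ) * t i))) + K * Real.log (k * δ)))
      (𝓝[>] 0) (𝓝 (P.coeff k * c)) := by
    intro k hk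
    refine Tendsto.const_mul _ ?_
    have hk0 := support_pos hP hk
    have hm : Tendsto (fun δ : ℝ => (k:ℝ) * δ) (𝓝[>] 0) (𝓝[>] 0) := by
      rw [tendsto_nhdsWithin_iff]
      refine ⟨?_, ?_⟩
      · have : Tendsto (fun δ : ℝ => (k:ℝ) * δ) (𝓝 0) (𝓝 ((k:ℝ) * 0)) :=
          tendsto_id.const_mul _
        rw [mul_zero] at this
        exact this.mono_left nhdsWithin_le_nhds
      · filter_upwards [self_mem_nhdsWithin] with δ hδ
        simp only [mem_Ioi] at hδ ⊢
        positivity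
    exact hf.comp hm
  have h2 := tendsto_finsetSum P.support h1
  have hsumcoeff : ∑ k ∈ P.support, P.coeff k = 1 := by
    rw [← hP1, Polynomial.eval_eq_sum, Polynomial.sum]
    simp
  have h3 : ∑ k ∈ P.support, P.coeff k * c = c := by
    rw [← Finset.sum_mul, hsumcoeff, one_mul]
  rw [h3] at h2
  have h4 : Tendsto (fun δ : ℝ => ∑ k ∈ P.support, P.coeff k *
      ((∑' i, w i * Real.exp (-((k * δ) * t i))) + K * Real.log (k * δ)) + K * logFun P)
      (𝓝[>] 0) (𝓝 (c + K * logFun P)) := h2.add_const _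
  refine h4.congr' ?_
  filter_upwards [self_mem_nhdsWithin] with δ hδ
  simp only [mem_Ioi] at hδ
  rw [wsum_poly hsum hP hδ]
  have h5 : ∀ k ∈ P.support, P.coeff k *
      ((∑' i, w i * Real.exp (-((k * δ) * t i))) + K * Real.log (k * δ)) =
      P.coeff k * (∑' i, w i * Real.exp (-((k * δ) * t i))) + (K * (P.coeff k * Real.log k) +
        P.coeff k * (K * Real.log δ)) := by
    intro k hk
    have hk0 := support_pos hP hk
    rw [Real.log_mul (by positivity) hδ.ne']
    ring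
  rw [Finset.sum_congr rfl h5, Finset.sum_add_distrib, Finset.sum_add_distrib, ← Finset.mul_sum,
    ← Finset.sum_mul, hsumcoeff, logFun]
  ring

end TatePole
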