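import Mathlib
import Pool.Agent.Lib.MP_058a58_ag.T3

open Filter Topology Polynomial Set MeasureTheory

namespace TatePole

/-- reference weights -/
noncomputable def rw0 (n : ℕ) : ℝ := 1 / ((n : ℝ) + 1)
/-- reference positions -/
noncomputable def rt0 (n : ℕ) : ℝ := (n : ℝ) + 1

lemma exp_neg_lt_one {δ : ℝ} (hδ : 0 < δ) : Real.exp (-δ) < 1 := by
  rw [Real.exp_lt_one_iff]; linarith

lemma ref_hasSum {δ : ℝ} (hδ : 0 < δ) :
    HasSum (fun n : ℕ => rw0 n * Real.exp (-(δ * rt0 n))) (-Real.log (1 - Real.exp (-δ))) := by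
  have h1 : |Real.exp (-δ)| < 1 := by
    rw [abs_of_pos (Real.exp_pos _)]; exact exp_neg_lt_one hδ
  have h2 := Real.hasSum_pow_div_log_of_abs_lt_one h1
  convert h2 using 2 with n
  unfold rw0 rt0
  rw [← Real.exp_nat_mul]
  push_cast
  rw [div_mul_eq_mul_div, one_mul]
  ring_nf

lemma one_sub_exp_div_tendsto : Tendsto (fun δ : ℝ => (1 - Real.exp (-δ)) / δ) (𝓝[>] 0) (𝓝 1) := by
  have h : HasDerivAt (fun x : ℝ => - Real.exp (-x)) 1 0 := by
    have h1 : HasDerivAt (fun x : ℝ => Real.exp (-x)) (Real.exp (-0) * (-1)) 0 :=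
      (hasDerivAt_neg 0).exp
    have h2 := h1.neg
    simp only [neg_zero, Real.exp_zero, mul_neg, mul_one, neg_neg] at h2
    exact h2
  rw [hasDerivAt_iff_tendsto_slope] at h
  have h3 := h.mono_left (nhdsWithin_mono 0 (fun x (hx : x ∈ Ioi (0:ℝ)) => (ne_of_gt hx : x ≠ 0)))
  refine h3.congr' ?_
  filter_upwards [self_mem_nhdsWithin] with x hx
  rw [slope_def_field]
  simp only [neg_zero, Real.exp_zero, sub_neg_eq_add, sub_zero]
  ring

lemma ref_tendsto : Tendsto (fun δ : ℝ => (∑' n : ℕ, rw0 n * Real.exp (-(δ * rt0 n)))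
    + 1 * Real.log δ) (𝓝[>] 0) (𝓝 0) := by
  have h1 : Tendsto (fun δ : ℝ => - Real.log ((1 - Real.exp (-δ)) / δ)) (𝓝[>] 0) (𝓝 (-Real.log 1)) :=
    ((Real.continuousAt_log one_ne_zero).tendsto.comp one_sub_exp_div_tendsto).neg
  rw [Real.log_one, neg_zero] at h1
  refine h1.congr' ?_
  filter_upwards [self_mem_nhdsWithin] with δ hδ
  simp only [mem_Ioi] at hδ
  rw [(ref_hasSum hδ).tsum_eq, Real.log_div _ hδ.ne']
  · ring
  · have := exp_neg_lt_one hδ
    linarith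

lemma ref_summable (δ : ℝ) (hδ : 0 < δ) :
    Summable fun n : ℕ => rw0 n * Real.exp (-(δ * rt0 n)) := (ref_hasSum hδ).summable

lemma cut_exp {δ t : ℝ} : cut (Real.exp (-(δ * t))) = if δ * t ≤ 1 then 1 else 0 := by
  unfold cut
  congr 1
  rw [Real.exp_le_exp, eq_iff_iff]
  constructor <;> intro h <;> linarith

lemma ref_cut {δ : ℝ} (hδ : 0 < δ) :
    wsum rw0 rt0 cut δ = (harmonic ⌊1 / δ⌋₊ : ℝ) := by
  unfold wsum
  rw [harmonic]
  push_cast
  have h1 : ∀ n : ℕ, rw0 n * cut (Real.exp (-(δ * rt0 n))) =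
      if n ∈ Finset.range ⌊1 / δ⌋₊ then ((n : ℝ) + 1)⁻¹ else 0 := by
    intro n
    rw [cut_exp]
    unfold rw0 rt0
    have : (δ * ((n:ℝ) + 1) ≤ 1) ↔ n ∈ Finset.range ⌊1 / δ⌋₊ := by
      rw [Finset.mem_range, ← Nat.succ_le_iff, Nat.le_floor_iff (by positivity), le_div_iff₀ hδ]
      push_cast
      rw [mul_comm]
    by_cases h : δ * ((n:ℝ) + 1) ≤ 1
    · rw [if_pos h, if_pos (this.mp h)]; simp
    · rw [if_neg h, if_neg (fun h' => h (this.mpr h'))]; simp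
  simp_rw [h1]
  rw [tsum_eq_sum (s := Finset.range ⌊1 / δ⌋₊) (fun n hn => by rw [if_neg hn])]
  rw [Finset.sum_congr rfl (fun n hn => by rw [if_pos hn])]

end TatePole
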