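import Mathlib
import Pool.Agent.Lib.MP_058a58_ag.T4

open Filter Topology Polynomial Set MeasureTheory

namespace TatePole

lemma tendsto_inv_nhdsGT_atTop : Tendsto (fun δ : ℝ => 1 / δ) (𝓝[>] 0) atTop := by
  simp_rw [one_div]; exact tendsto_inv_nhdsGT_zero

lemma ref_cut_tendsto : Tendsto (fun δ : ℝ => wsum rw0 rt0 cut δ + Real.log δ)
    (𝓝[>] 0) (𝓝 Real.eulerMascheroniConstant) := by
  have h1 : Tendsto (fun δ : ℝ => (harmonic ⌊1 / δ⌋₊ : ℝ) - Real.log ((⌊1 / δ⌋₊ : ℕ) : ℝ))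
      (𝓝[>] 0) (𝓝 Real.eulerMascheroniConstant) :=
    Real.tendsto_harmonic_sub_log.comp (tendsto_nat_floor_atTop.comp tendsto_inv_nhdsGT_atTop)
  have h2 : Tendsto (fun δ : ℝ => Real.log (((⌊1 / δ⌋₊ : ℕ) : ℝ) / (1 / δ)))
      (𝓝[>] 0) (𝓝 (Real.log 1)) :=
    (Real.continuousAt_log one_ne_zero).tendsto.comp
      ((tendsto_nat_floor_div_atTop (R := ℝ)).comp tendsto_inv_nhdsGT_atTop)
  rw [Real.log_one] at h2
  have h3 := h1.add h2
  rw [add_zero] at h3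
  refine h3.congr' ?_
  have hev : ∀ᶠ δ : ℝ in 𝓝[>] 0, 1 ≤ 1 / δ := tendsto_inv_nhdsGT_atTop.eventually_ge_atTop 1
  filter_upwards [self_mem_nhdsWithin, hev] with δ hδ h1δ
  simp only [mem_Ioi] at hδ
  rw [ref_cut hδ]
  have hN : (0:ℝ) < ((⌊1 / δ⌋₊ : ℕ) : ℝ) := by
    have : 0 < ⌊1 / δ⌋₊ := Nat.floor_pos.mpr h1δ
    exact_mod_cast this
  rw [Real.log_div hN.ne' (by positivity), one_div, Real.log_inv]
  ring

/-- admissible approximating polynomials -/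
noncomputable def app (Q : ℝ[X]) : ℝ[X] := X + X * (1 - X) * Q

lemma app_coeff_zero (Q : ℝ[X]) : (app Q).coeff 0 = 0 := by
  rw [coeff_zero_eq_eval_zero]; simp [app]

lemma app_eval_one (Q : ℝ[X]) : (app Q).eval 1 = 1 := by simp [app]

lemma app_eval (Q : ℝ[X]) (x : ℝ) : (app Q).eval x = x + x * (1 - x) * Q.eval x := by simp [app]

lemma summable_cut {ι : Type*} {w t : ι → ℝ} (hw : ∀ i, 0 ≤ w i)
    (hsum : ∀ δ : ℝ, 0 < δ → Summable fun i => w i * Real.exp (-(δ * t i))) {δ : ℝ} (hδ : 0 < δ) :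
    Summable fun i => w i * cut (Real.exp (-(δ * t i))) := by
  refine Summable.of_nonneg_of_le (fun i => mul_nonneg (hw i) (cut_nonneg _)) (fun i => ?_)
    ((hsum δ hδ).mul_left (Real.exp 1))
  rw [cut_exp]
  split_ifs with h
  · have : 1 ≤ Real.exp 1 * Real.exp (-(δ * t i)) := by
      rw [← Real.exp_add]
      exact Real.one_le_exp (by linarith)
    calc w i * 1 ≤ w i * (Real.exp 1 * Real.exp (-(δ * t i))) :=
          mul_le_mul_of_nonneg_left this (hw i)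
      _ = _ := by ring
  · have := hw i
    have := Real.exp_pos 1
    have := Real.exp_pos (-(δ * t i))
    rw [mul_zero]
    positivity

lemma exp_mem_Icc {δ t : ℝ} (hδ : 0 < δ) (ht : 0 ≤ t) :
    Real.exp (-(δ * t)) ∈ Icc (0:ℝ) 1 := by
  refine ⟨(Real.exp_pos _).le, ?_⟩
  rw [Real.exp_le_one_iff]
  have := mul_nonneg hδ.le ht
  linarith

lemma wsum_mono_cut_app {ι : Type*} {w t : ι → ℝ} (hw : ∀ i, 0 ≤ w i) (ht : ∀ i, 0 ≤ t i)
    (hsum : ∀ δ : ℝ, 0 < δ → Summable fun i => w i * Real.exp (-(δ * t i))) {Q : ℝ[X]}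
    (hQ : ∀ x ∈ Icc (0:ℝ) 1, cut x ≤ x + x * (1 - x) * Q.eval x) {δ : ℝ} (hδ : 0 < δ) :
    wsum w t cut δ ≤ wsum w t (fun x => (app Q).eval x) δ := by
  unfold wsum
  refine Summable.tsum_le_tsum (fun i => ?_) (summable_cut hw hsum hδ)
    (summable_poly hsum (app_coeff_zero Q) hδ)
  refine mul_le_mul_of_nonneg_left ?_ (hw i)
  simp only [app_eval]
  exact hQ _ (exp_mem_Icc hδ (ht i))

lemma wsum_mono_app_cut {ι : Type*} {w t : ι → ℝ} (hw : ∀ i, 0 ≤ w i) (ht : ∀ i, 0 ≤ t i)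
    (hsum : ∀ δ : ℝ, 0 < δ → Summable fun i => w i * Real.exp (-(δ * t i))) {Q : ℝ[X]}
    (hQ : ∀ x ∈ Icc (0:ℝ) 1, x + x * (1 - x) * Q.eval x ≤ cut x) {δ : ℝ} (hδ : 0 < δ) :
    wsum w t (fun x => (app Q).eval x) δ ≤ wsum w t cut δ := by
  unfold wsum
  refine Summable.tsum_le_tsum (fun i => ?_)
    (summable_poly hsum (app_coeff_zero Q) hδ) (summable_cut hw hsum hδ)
  refine mul_le_mul_of_nonneg_left ?_ (hw i)
  simp only [app_eval]
  exact hQ _ (exp_mem_Icc hδ (ht i))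

lemma rw0_nonneg (n : ℕ) : 0 ≤ rw0 n := by unfold rw0; positivity
lemma rt0_nonneg (n : ℕ) : 0 ≤ rt0 n := by unfold rt0; positivity

lemma ref_app_tendsto (Q : ℝ[X]) : Tendsto (fun δ : ℝ =>
    wsum rw0 rt0 (fun x => (app Q).eval x) δ + Real.log δ) (𝓝[>] 0) (𝓝 (logFun (app Q))) := by
  have h := tendsto_wsum_poly ref_summable ref_tendsto (app_coeff_zero Q) (app_eval_one Q)
  simpa using h

lemma gamma_le_logFun {Q : ℝ[X]}
    (hQ : ∀ x ∈ Icc (0:ℝ) 1, cut x ≤ x + x * (1 - x) * Q.eval x) :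
    Real.eulerMascheroniConstant ≤ logFun (app Q) := by
  refine le_of_tendsto_of_tendsto ref_cut_tendsto (ref_app_tendsto Q) ?_
  filter_upwards [self_mem_nhdsWithin] with δ hδ
  have := wsum_mono_cut_app rw0_nonneg rt0_nonneg ref_summable hQ hδ
  linarith

lemma logFun_le_gamma {Q : ℝ[X]}
    (hQ : ∀ x ∈ Icc (0:ℝ) 1, x + x * (1 - x) * Q.eval x ≤ cut x) :
    logFun (app Q) ≤ Real.eulerMascheroniConstant := by
  refine le_of_tendsto_of_tendsto (ref_app_tendsto Q) ref_cut_tendsto ?_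
  filter_upwards [self_mem_nhdsWithin] with δ hδ
  have := wsum_mono_app_cut rw0_nonneg rt0_nonneg ref_summable hQ hδ
  linarith

lemma exp_geom_hasSum {a : ℝ} (ha : 0 < a) :
    HasSum (fun n : ℕ => Real.exp (-(a * ((n:ℝ) + 1)))) (Real.exp (-a) / (1 - Real.exp (-a))) := by
  have h1 : |Real.exp (-a)| < 1 := by
    rw [abs_of_pos (Real.exp_pos _)]; exact exp_neg_lt_one ha
  have h2 := (hasSum_geometric_of_abs_lt_one h1).mul_left (Real.exp (-a))
  have h3 : (fun n : ℕ => Real.exp (-(a * ((n:ℝ) + 1)))) =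
      fun n : ℕ => Real.exp (-a) * Real.exp (-a) ^ n := by
    funext n
    rw [← Real.exp_nat_mul, ← Real.exp_add]
    ring_nf
  rw [h3, div_eq_mul_inv]
  exact h2

lemma geom_tendsto (k : ℕ) : Tendsto (fun δ : ℝ => δ * (Real.exp (-(((k:ℝ) + 1) * δ)) /
    (1 - Real.exp (-(((k:ℝ) + 1) * δ))))) (𝓝[>] 0) (𝓝 (1 / ((k:ℝ) + 1))) := by
  have hm : Tendsto (fun δ : ℝ => ((k:ℝ) + 1) * δ) (𝓝[>] 0) (𝓝[>] 0) := by
    rw [tendsto_nhdsWithin_iff]
    refine ⟨?_, ?_⟩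
    · have : Tendsto (fun δ : ℝ => ((k:ℝ) + 1) * δ) (𝓝 0) (𝓝 (((k:ℝ) + 1) * 0)) :=
        tendsto_id.const_mul _
      rw [mul_zero] at this
      exact this.mono_left nhdsWithin_le_nhds
    · filter_upwards [self_mem_nhdsWithin] with δ hδ
      simp only [mem_Ioi] at hδ ⊢
      positivity
  have h1 := (one_sub_exp_div_tendsto.comp hm).inv₀ one_ne_zero
  have h2 : Tendsto (fun δ : ℝ => Real.exp (-(((k:ℝ) + 1) * δ))) (𝓝[>] 0) (𝓝 1) := by
    have h3 : Continuous (fun x : ℝ => Real.exp (-x)) := by fun_prop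
    have h4 : Tendsto (fun δ : ℝ => Real.exp (-(((k:ℝ) + 1) * δ))) (𝓝[>] 0) (𝓝 (Real.exp (-0))) :=
      (h3.tendsto 0).comp (hm.mono_right nhdsWithin_le_nhds)
    rwa [neg_zero, Real.exp_zero] at h4
  have h5 := (h1.mul h2).const_mul (1 / ((k:ℝ) + 1))
  simp only [inv_one, mul_one] at h5
  refine h5.congr' ?_
  filter_upwards [self_mem_nhdsWithin] with δ hδ
  simp only [mem_Ioi] at hδ
  simp only [Function.comp]
  have : 0 < ((k:ℝ) + 1) * δ := by positivity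
  have h6 := exp_neg_lt_one this
  have h7 : (1 - Real.exp (-(((k:ℝ) + 1) * δ))) ≠ 0 := by linarith [h6] |> fun (h : 0 < _) => h.ne'
  field_simp

lemma integral_poly (R : ℝ[X]) : ∫ x in (0:ℝ)..1, R.eval x =
    ∑ k ∈ R.support, R.coeff k * (1 / ((k:ℝ) + 1)) := by
  simp_rw [Polynomial.eval_eq_sum, Polynomial.sum]
  rw [intervalIntegral.integral_finsetSum]
  · refine Finset.sum_congr rfl fun k _ => ?_
    rw [intervalIntegral.integral_const_mul, integral_pow]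
    simp
  · intro k _
    exact (Continuous.intervalIntegrable (by fun_prop) _ _)

end TatePole
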