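import Mathlib
import Pool.Agent.Lib.MP_058a58_ag.T5

open Filter Topology Polynomial Set MeasureTheory

namespace TatePole

lemma riemann_hasSum (R : ℝ[X]) {δ : ℝ} (hδ : 0 < δ) :
    HasSum (fun n : ℕ => δ * (Real.exp (-(δ * rt0 n)) * R.eval (Real.exp (-(δ * rt0 n)))))
      (∑ k ∈ R.support, R.coeff k * (δ * (Real.exp (-(((k:ℝ) + 1) * δ)) /
        (1 - Real.exp (-(((k:ℝ) + 1) * δ)))))) := by
  have h1 : (fun n : ℕ => δ * (Real.exp (-(δ * rt0 n)) * R.eval (Real.exp (-(δ * rt0 n))))) =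
      fun n : ℕ => ∑ k ∈ R.support, R.coeff k *
        (δ * Real.exp (-((((k:ℝ) + 1) * δ) * ((n:ℝ) + 1)))) := by
    funext n
    rw [Polynomial.eval_eq_sum, Polynomial.sum, Finset.mul_sum, Finset.mul_sum]
    refine Finset.sum_congr rfl fun k _ => ?_
    rw [← Real.exp_nat_mul]
    have : Real.exp (-((((k:ℝ) + 1) * δ) * ((n:ℝ) + 1))) =
        Real.exp (-(δ * rt0 n)) * Real.exp ((k:ℝ) * -(δ * rt0 n)) := by
      rw [← Real.exp_add]; unfold rt0; ring_nf
    rw [this]; ring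
  rw [h1]
  refine hasSum_sum fun k _ => ?_
  refine HasSum.mul_left _ (HasSum.mul_left _ ?_)
  exact exp_geom_hasSum (by positivity)

lemma logFun_sub_le {Q₁ Q₂ : ℝ[X]} (hQ : ∀ x ∈ Icc (0:ℝ) 1, 0 ≤ (Q₂ - Q₁).eval x) :
    logFun (app Q₂) - logFun (app Q₁) ≤ ∫ x in (0:ℝ)..1, (Q₂ - Q₁).eval x := by
  have h1 : Tendsto (fun δ : ℝ =>
      (wsum rw0 rt0 (fun x => (app Q₂).eval x) δ + Real.log δ) -
      (wsum rw0 rt0 (fun x => (app Q₁).eval x) δ + Real.log δ))
      (𝓝[>] 0) (𝓝 (logFun (app Q₂) - logFun (app Q₁))) :=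
    (ref_app_tendsto Q₂).sub (ref_app_tendsto Q₁)
  have h2 : Tendsto (fun δ : ℝ => ∑ k ∈ (Q₂ - Q₁).support, (Q₂ - Q₁).coeff k *
      (δ * (Real.exp (-(((k:ℝ) + 1) * δ)) / (1 - Real.exp (-(((k:ℝ) + 1) * δ))))))
      (𝓝[>] 0) (𝓝 (∫ x in (0:ℝ)..1, (Q₂ - Q₁).eval x)) := by
    rw [integral_poly]
    refine tendsto_finsetSum _ fun k _ => ?_
    exact (geom_tendsto k).const_mul _
  refine le_of_tendsto_of_tendsto h1 h2 ?_
  filter_upwards [self_mem_nhdsWithin] with δ hδ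
  simp only [mem_Ioi] at hδ
  rw [← (riemann_hasSum (Q₂ - Q₁) hδ).tsum_eq]
  have e1 : (wsum rw0 rt0 (fun x => (app Q₂).eval x) δ + Real.log δ) -
      (wsum rw0 rt0 (fun x => (app Q₁).eval x) δ + Real.log δ) =
      ∑' n, (rw0 n * (app Q₂).eval (Real.exp (-(δ * rt0 n))) -
        rw0 n * (app Q₁).eval (Real.exp (-(δ * rt0 n)))) := by
    rw [Summable.tsum_sub (summable_poly ref_summable (app_coeff_zero Q₂) hδ)
      (summable_poly ref_summable (app_coeff_zero Q₁) hδ)]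
    unfold wsum
    ring
  rw [e1]
  refine Summable.tsum_le_tsum (fun n => ?_)
    ((summable_poly ref_summable (app_coeff_zero Q₂) hδ).sub
      (summable_poly ref_summable (app_coeff_zero Q₁) hδ))
    (riemann_hasSum (Q₂ - Q₁) hδ).summable
  set x := Real.exp (-(δ * rt0 n)) with hx
  have hxm : x ∈ Icc (0:ℝ) 1 := exp_mem_Icc hδ (rt0_nonneg n)
  have h3 : rw0 n * (app Q₂).eval x - rw0 n * (app Q₁).eval x =
      (rw0 n * (1 - x)) * (x * (Q₂ - Q₁).eval x) := by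
    rw [app_eval, app_eval, eval_sub]; ring
  rw [h3]
  have h4 : rw0 n * (1 - x) ≤ δ := by
    have h5 : 1 - x ≤ δ * rt0 n := by
      have := Real.add_one_le_exp (-(δ * rt0 n))
      rw [← hx] at this
      linarith
    have h6 : (0:ℝ) < (n:ℝ) + 1 := by positivity
    calc rw0 n * (1 - x) ≤ rw0 n * (δ * rt0 n) := mul_le_mul_of_nonneg_left h5 (rw0_nonneg n)
      _ = δ := by unfold rw0 rt0; field_simp
  exact mul_le_mul_of_nonneg_right h4 (mul_nonneg hxm.1 (hQ x hxm))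

/-- **Karamata type Tauberian theorem with logarithmic main term.** -/
theorem tauber_log {ι : Type*} {w t : ι → ℝ} (hw : ∀ i, 0 ≤ w i) (ht : ∀ i, 0 ≤ t i)
    (hsum : ∀ δ : ℝ, 0 < δ → Summable fun i => w i * Real.exp (-(δ * t i))) {K c : ℝ}
    (hf : Tendsto (fun δ : ℝ => (∑' i, w i * Real.exp (-(δ * t i))) + K * Real.log δ)
      (𝓝[>] 0) (𝓝 c)) :
    Tendsto (fun δ : ℝ => wsum w t cut δ + K * Real.log δ) (𝓝[>] 0)
      (𝓝 (c + K * Real.eulerMascheroniConstant)) := by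
  rw [Metric.tendsto_nhds]
  intro ε hε
  set ε' := ε / (2 * (|K| + 1)) with hε'
  have hK : 0 < |K| + 1 := by positivity
  have hε'pos : 0 < ε' := by positivity
  obtain ⟨Q₁, Q₂, h1, h2, h3, h4⟩ := exists_approx ε' hε'pos
  have g1 := logFun_le_gamma h1
  have g2 := gamma_le_logFun h2
  have g3 := (logFun_sub_le h3).trans h4
  have t1 := tendsto_wsum_poly hsum hf (app_coeff_zero Q₁) (app_eval_one Q₁)
  have t2 := tendsto_wsum_poly hsum hf (app_coeff_zero Q₂) (app_eval_one Q₂)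
  rw [Metric.tendsto_nhds] at t1 t2
  filter_upwards [self_mem_nhdsWithin, t1 (ε / 2) (by positivity), t2 (ε / 2) (by positivity)]
    with δ hδ d1 d2
  have m1 := wsum_mono_app_cut hw ht hsum h1 hδ
  have m2 := wsum_mono_cut_app hw ht hsum h2 hδ
  rw [Real.dist_eq, abs_lt] at d1 d2
  have b1 : |K * (logFun (app Q₁) - Real.eulerMascheroniConstant)| ≤ |K| * ε' := by
    rw [abs_mul]
    refine mul_le_mul_of_nonneg_left ?_ (abs_nonneg _)
    rw [abs_le]; constructor <;> linarith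
  have b2 : |K * (logFun (app Q₂) - Real.eulerMascheroniConstant)| ≤ |K| * ε' := by
    rw [abs_mul]
    refine mul_le_mul_of_nonneg_left ?_ (abs_nonneg _)
    rw [abs_le]; constructor <;> linarith
  have b3 : |K| * ε' < ε / 2 := by
    rw [hε', ← mul_div_assoc, div_lt_iff₀ (by positivity)]
    have : |K| * ε < (|K| + 1) * ε := by nlinarith
    linarith
  rw [abs_le] at b1 b2
  rw [Real.dist_eq, abs_lt]
  constructor <;> linarith [b1.1, b1.2, b2.1, b2.2, d1.1, d1.2, d2.1, d2.2]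

end TatePole
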