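import Mathlib
import Pool.Agent.Lib.MP_058a58_ag.Euler
import Pool.Agent.Lib.MP_058a58_ag.T6

open Filter Topology Polynomial Set Complex

namespace TatePole

/-- one-dimensional data used for Dirichlet `L`-functions -/
noncomputable def P1 (_ : ℕ) : ℂ[X] := 1 - X

/-- the constant function one -/
def α1 (_ : ℕ) (_ : Fin 1) : ℂ := 1

lemma norm_α1 : ∀ p : ℕ, p.Prime → p ∉ (∅ : Finset ℕ) → ∀ j, ‖α1 p j‖ ≤ 1 := by
  intro p _ _ j; simp [α1]

lemma eval_P1 : ∀ p : ℕ, p.Prime → p ∉ (∅ : Finset ℕ) →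
    ∀ x, (P1 p).eval x = ∏ j, (1 - α1 p j * x) := by
  intro p _ _ x; simp [P1, α1]

/-- the twisting function `χ(p) p^{-it}`. -/
noncomputable def tw {N : ℕ} (χ : DirichletCharacter ℂ N) (t : ℝ) (p : ℕ) : ℂ :=
  χ p * (p : ℂ) ^ (-(t * I))

lemma norm_cpow_it {p : ℕ} (hp : p.Prime) (t : ℝ) : ‖(p : ℂ) ^ (-(t * I))‖ = 1 := by
  rw [Complex.norm_natCast_cpow_of_pos hp.pos]
  simp

lemma norm_tw_le {N : ℕ} (χ : DirichletCharacter ℂ N) (t : ℝ) : ∀ p : ℕ, p.Prime →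
    ‖tw χ t p‖ ≤ 1 := by
  intro p hp
  unfold tw
  rw [norm_mul, norm_cpow_it hp, mul_one]
  exact χ.norm_le_one _

lemma cpow_eq {p : ℕ} (hp : p.Prime) (x t : ℝ) :
    (p : ℂ) ^ (-((x : ℂ) + t * I)) = (p : ℂ) ^ (-(t * I)) * pw p x := by
  have h0 : (p : ℂ) ≠ 0 := by exact_mod_cast hp.ne_zero
  rw [neg_add, add_comm, Complex.cpow_add _ _ h0]
  congr 1
  unfold pw
  rw [Complex.ofReal_cpow (Nat.cast_nonneg _)]
  push_cast
  rfl

lemma tw_mul_pw {N : ℕ} (χ : DirichletCharacter ℂ N) {p : ℕ} (hp : p.Prime) (x t : ℝ) :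
    tw χ t p * pw p x = χ p * (p : ℂ) ^ (-((x : ℂ) + t * I)) := by
  unfold tw
  rw [cpow_eq hp]; ring

/-- `L(χ, x + it)` as a `ZZ`. -/
lemma ZZ_char {N : ℕ} (χ : DirichletCharacter ℂ N) (t : ℝ) {x : ℝ} (hx : 1 < x) :
    ZZ P1 (tw χ t) x = LSeries (fun n => χ n) (x + t * I) := by
  have hre : 1 < ((x : ℂ) + t * I).re := by simpa using hx
  rw [← DirichletCharacter.LSeries_eulerProduct_tprod χ hre]
  unfold ZZ
  refine tprod_congr fun p => ?_
  rw [tw_mul_pw χ p.2]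
  simp [P1]

/-- the function `∑ χ(p) p^{-it} p^{-x}`. -/
noncomputable def charSum {N : ℕ} (χ : DirichletCharacter ℂ N) (t : ℝ) (x : ℝ) : ℂ :=
  FF (tw χ t) x

lemma coefA_one {N : ℕ} (χ : DirichletCharacter ℂ N) (t : ℝ) :
    coefA ∅ α1 (tw χ t) = tw χ t := by
  funext p; simp [coefA, α1]

lemma EE_empty {x : ℝ} (P : ℕ → ℂ[X]) (u : ℕ → ℂ) : EE P ∅ u x = 1 := by simp [EE]

lemma exp_charSum {N : ℕ} (χ : DirichletCharacter ℂ N) (t : ℝ) {x : ℝ} (hx : 1 < x) :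
    cexp (charSum χ t x + GG ∅ α1 (tw χ t) x) = LSeries (fun n => χ n) (x + t * I) := by
  rw [← ZZ_char χ t hx, ZZ_eq norm_α1 eval_P1 (norm_tw_le χ t) hx, EE_empty, one_mul, coefA_one]
  rfl

/-- constant in the bound for the correction -/
noncomputable def κ₀ : ℝ := ∑' p : Nat.Primes, ((p : ℝ)⁻¹) ^ 2

lemma abs_re_GG_char_le {N : ℕ} (χ : DirichletCharacter ℂ N) (t : ℝ) {x : ℝ} (hx : 1 ≤ x) :
    |(GG ∅ α1 (tw χ t) x).re| ≤ κ₀ := by
  refine (Complex.abs_re_le_norm _).trans ?_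
  have := norm_GG_le (S := ∅) (α := α1) norm_α1 (norm_tw_le χ t) hx
  simpa [κ₀] using this

lemma re_charSum {N : ℕ} (χ : DirichletCharacter ℂ N) (t : ℝ) {x : ℝ} (hx : 1 < x) :
    (charSum χ t x).re = Real.log ‖LSeries (fun n => χ n) (x + t * I)‖ -
      (GG ∅ α1 (tw χ t) x).re := by
  rw [← exp_charSum χ t hx, Complex.norm_exp, Real.log_exp, Complex.add_re]
  ring

/-- the twisted prime sums are bounded near `1` for a nontrivial twist. -/
lemma charSum_bounded {N : ℕ} [NeZero N] (χ : DirichletCharacter ℂ N) (t : ℝ)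
    (h : χ ≠ 1 ∨ t ≠ 0) :
    ∃ C : ℝ, ∀ᶠ x in 𝓝[>] (1:ℝ), |(charSum χ t x).re| ≤ C := by
  have h1 : ((1 : ℂ) + t * I ≠ 1) ∨ χ ≠ 1 := by
    rcases h with h | h
    · exact Or.inr h
    · left
      intro h2
      have := congrArg Complex.im h2
      simp at this
      exact h this
  have hdiff := DirichletCharacter.differentiableAt_LFunction χ ((1 : ℂ) + t * I) h1
  have hne : DirichletCharacter.LFunction χ ((1 : ℂ) + t * I) ≠ 0 := by
    refine DirichletCharacter.LFunction_ne_zero_of_one_le_re χ h1.symm ?_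
    simp
  have hcont : Tendsto (fun x : ℝ => (x : ℂ) + t * I) (𝓝[>] 1) (𝓝 ((1 : ℂ) + t * I)) := by
    have : Continuous (fun x : ℝ => (x : ℂ) + t * I) := by fun_prop
    have h2 := (this.tendsto 1).mono_left (nhdsWithin_le_nhds (s := Ioi (1:ℝ)))
    simpa using h2
  have hlim := (hdiff.continuousAt.tendsto.comp hcont).norm
  have hlog := ((Real.continuousAt_log (norm_ne_zero_iff.mpr hne)).tendsto).comp hlim
  have hb := hlog.abs.eventually_le_const (u := |Real.log ‖DirichletCharacter.LFunction χ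
    ((1 : ℂ) + t * I)‖| + 1) (by linarith)
  refine ⟨|Real.log ‖DirichletCharacter.LFunction χ ((1 : ℂ) + t * I)‖| + 1 + κ₀, ?_⟩
  filter_upwards [hb, self_mem_nhdsWithin] with x hx hx1
  simp only [mem_Ioi] at hx1
  rw [re_charSum χ t hx1]
  have hre : 1 < ((x : ℂ) + t * I).re := by simpa using hx1
  rw [← DirichletCharacter.LFunction_eq_LSeries χ hre]
  have h3 := abs_re_GG_char_le χ t hx1.le
  have h4 := abs_sub (Real.log ‖DirichletCharacter.LFunction χ (x + t * I)‖)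
    (GG ∅ α1 (tw χ t) x).re
  simp only [Function.comp] at hx
  linarith

/-- the real prime zeta sum -/
noncomputable def primeSum (δ : ℝ) : ℝ := ∑' p : Nat.Primes, (p : ℝ) ^ (-(1 + δ))

lemma summable_primeSum {δ : ℝ} (hδ : 0 < δ) :
    Summable fun p : Nat.Primes => (p : ℝ) ^ (-(1 + δ)) :=
  Nat.Primes.summable_rpow.mpr (by linarith)

/-- the constant in Mertens' theorem, minus gamma. -/
noncomputable def mertC : ℝ := -(GG ∅ α1 (tw (1 : DirichletCharacter ℂ 1) 0) 1).re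

lemma tw_one_zero (p : ℕ) (hp : p.Prime) : tw (1 : DirichletCharacter ℂ 1) 0 p = 1 := by
  unfold tw
  have : (1 : DirichletCharacter ℂ 1) (p : ZMod 1) = 1 := by
    rw [MulChar.one_apply]
    exact isUnit_of_subsingleton _
  rw [this]
  simp

lemma FF_congr {A B : ℕ → ℂ} (h : ∀ p : ℕ, p.Prime → A p = B p) (x : ℝ) : FF A x = FF B x := by
  unfold FF
  exact tsum_congr fun p => by rw [h p p.2]

lemma FF_one (δ : ℝ) : FF (fun _ => 1) (1 + δ) = (primeSum δ : ℂ) := by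
  unfold FF primeSum pw
  push_cast
  simp

lemma charSum_one (δ : ℝ) : charSum (1 : DirichletCharacter ℂ 1) 0 (1 + δ) = (primeSum δ : ℂ) := by
  unfold charSum
  rw [FF_congr (B := fun _ => 1) (fun p hp => tw_one_zero p hp), FF_one]

lemma tendsto_one_add {l : Filter ℝ} {f : ℝ → ℝ} (hf : Tendsto f l (𝓝[>] 0)) :
    Tendsto (fun δ => 1 + f δ) l (𝓝[>] 1) := by
  rw [tendsto_nhdsWithin_iff] at hf ⊢
  refine ⟨?_, ?_⟩
  · have := hf.1.const_add 1
    simpa using this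
  · filter_upwards [hf.2] with a ha
    simp only [mem_Ioi] at ha ⊢
    linarith

/-- asymptotics of the prime zeta function near its singularity. -/
theorem primeSum_tendsto : Tendsto (fun δ : ℝ => primeSum δ + Real.log δ) (𝓝[>] 0) (𝓝 mertC) := by
  have h1 : Tendsto (fun δ : ℝ => 1 + δ) (𝓝[>] 0) (𝓝[>] (1:ℝ)) := tendsto_one_add tendsto_id
  have h2 : Tendsto (fun δ : ℝ => ((1 + δ : ℝ) : ℂ)) (𝓝[>] 0) (𝓝[≠] (1:ℂ)) := by
    rw [tendsto_nhdsWithin_iff]
    refine ⟨?_, ?_⟩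
    · have h3 : Continuous (fun δ : ℝ => ((1 + δ : ℝ) : ℂ)) := by fun_prop
      have h4 := (h3.tendsto 0).mono_left (nhdsWithin_le_nhds (s := Ioi (0:ℝ)))
      simpa using h4
    · filter_upwards [self_mem_nhdsWithin] with δ hδ
      simp only [mem_Ioi] at hδ
      intro h5
      have : ((1 + δ : ℝ) : ℂ).re = 1 := by rw [h5]; simp
      simp at this
      linarith
  have h3 := (riemannZeta_residue_one.comp h2).norm
  rw [norm_one] at h3
  have h4 := ((Real.continuousAt_log one_ne_zero).tendsto).comp h3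
  rw [Real.log_one] at h4
  have hG : Tendsto (fun δ : ℝ => (GG ∅ α1 (tw (1 : DirichletCharacter ℂ 1) 0) (1 + δ)).re)
      (𝓝[>] 0) (𝓝 (GG ∅ α1 (tw (1 : DirichletCharacter ℂ 1) 0) 1).re) := by
    have hc := continuousOn_GG (S := ∅) (α := α1) norm_α1
      (norm_tw_le (1 : DirichletCharacter ℂ 1) 0) 1 (by simp)
    have h5 := (hc.tendsto.mono_left (nhdsWithin_mono 1 Ioi_subset_Ici_self)).comp h1
    exact (Complex.continuous_re.tendsto _).comp h5
  have h5 := h4.sub hG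
  rw [zero_sub] at h5
  refine h5.congr' ?_
  filter_upwards [self_mem_nhdsWithin] with δ hδ
  simp only [mem_Ioi] at hδ
  have h6 : 1 < 1 + δ := by linarith
  have h7 := re_charSum (1 : DirichletCharacter ℂ 1) 0 h6
  rw [charSum_one, Complex.ofReal_re] at h7
  rw [h7]
  simp only [Function.comp]
  have hre : 1 < (((1 + δ : ℝ) : ℂ) + ((0:ℝ):ℂ) * I).re := by simpa using hδ
  rw [← DirichletCharacter.LFunction_eq_LSeries (1 : DirichletCharacter ℂ 1) hre,
    DirichletCharacter.LFunction_modOne_eq]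
  have h8 : (((1 + δ : ℝ) : ℂ) + ((0:ℝ):ℂ) * I) = ((1 + δ : ℝ) : ℂ) := by simp
  rw [h8, norm_mul]
  have h9 : ‖((1 + δ : ℝ) : ℂ) - 1‖ = δ := by
    have : ((1 + δ : ℝ) : ℂ) - 1 = (δ : ℂ) := by push_cast; ring
    rw [this, Complex.norm_real, Real.norm_of_nonneg hδ.le]
  rw [h9]
  have h10 : ‖riemannZeta ((1 + δ : ℝ) : ℂ)‖ ≠ 0 := by
    rw [norm_ne_zero_iff]
    exact riemannZeta_ne_zero_of_one_le_re (by simp; exact hδ.le)
  rw [Real.log_mul hδ.ne' h10]
  ring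

end TatePole
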