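import Mathlib

open Polynomial Filter Topology

namespace TatePole

/-- An algebraic closure of `ℚ`. -/
abbrev QBar : Type := AlgebraicClosure ℚ

/-- The absolute Galois group of `ℚ`. -/
abbrev GQ : Type := QBar ≃ₐ[ℚ] QBar

/-- The ring of all algebraic integers. -/
noncomputable abbrev ZBar : Subalgebra ℤ QBar := integralClosure ℤ QBar

/-- `σ` is an arithmetic Frobenius element at the prime ideal `𝔓` over `p` of the ring of all
algebraic integers: `σ x ≡ x ^ p (mod 𝔓)` for every algebraic integer `x`. -/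
def IsArithFrob (p : ℕ) (𝔓 : Ideal ZBar) (σ : GQ) : Prop :=
  ∀ x : ZBar, ∃ y ∈ 𝔓, σ (x : QBar) = (x : QBar) ^ p + (y : QBar)

/-- `τ` lies in the inertia group of `𝔓`: `τ x ≡ x (mod 𝔓)` for every algebraic integer `x`. -/
def IsInertia (𝔓 : Ideal ZBar) (τ : GQ) : Prop :=
  ∀ x : ZBar, ∃ y ∈ 𝔓, τ (x : QBar) = (x : QBar) + (y : QBar)

/-- For a finite-dimensional `ℓ`-adic representation `(ρ, W)` of the absolute Galois group of `ℚ`,
an embedding `ι` of `ℚ_ℓ` into `ℂ` and a prime `p`: the representation is unramified at `p`, the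
complex polynomial `P` is `det (1 - T · Frob_p | W)` (with `Frob_p` a geometric Frobenius, i.e. the
inverse of an arithmetic one), and `W` is pure of weight `0` at `p`: all zeros of `P` have absolute
value `1`. -/
structure IsPureLocalFactor {ℓ : ℕ} [Fact ℓ.Prime] {W : Type*} [AddCommGroup W]
    [Module ℚ_[ℓ] W] [FiniteDimensional ℚ_[ℓ] W] (ρ : Representation ℚ_[ℓ] GQ W)
    (ι : ℚ_[ℓ] →+* ℂ) (p : ℕ) (P : ℂ[X]) : Prop where
  unramified : ∀ 𝔓 : Ideal ZBar, 𝔓.IsPrime → (p : ZBar) ∈ 𝔓 → ∀ τ : GQ, IsInertia 𝔓 τ → ρ τ = 1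
  eq_det : ∀ 𝔓 : Ideal ZBar, 𝔓.IsPrime → (p : ZBar) ∈ 𝔓 → ∀ σ : GQ, IsArithFrob p 𝔓 σ →
    P = ((ρ σ⁻¹).charpoly.map ι).reverse
  pure : ∀ z : ℂ, P.eval z = 0 → ‖z‖ = 1

/-- The `L`-function `∏_p P_p(p^{m-s})⁻¹`. -/
noncomputable def LFun (P : ℕ → ℂ[X]) (m : ℕ) (s : ℂ) : ℂ :=
  ∏' p : Nat.Primes, ((P p).eval ((p : ℂ) ^ ((m : ℂ) - s)))⁻¹

end TatePole
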