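import Mathlib
import Pool.Agent.Lib.MP_058a58_ag.Defs

open Polynomial Filter Topology

namespace TatePole

instance isAlgQBar : Algebra.IsAlgebraic ℚ QBar := by
  constructor
  intro x
  obtain ⟨p, hp, hpx⟩ := (AlgebraicClosure.isAlgebraic ℚ).isAlgebraic x
  refine ⟨p, hp, ?_⟩
  rw [Polynomial.aeval_def] at hpx ⊢
  convert hpx
  exact Subsingleton.elim _ _

instance isAlgClosureQBar : IsAlgClosure ℚ QBar := ⟨inferInstance, inferInstance⟩

instance isGaloisQBar : IsGalois ℚ QBar := by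
  have : Normal ℚ QBar := IsAlgClosure.normal ℚ QBar
  exact {}

instance isAlgZQBar : Algebra.IsAlgebraic ℤ QBar :=
  (IsFractionRing.comap_isAlgebraic_iff (A := ℤ) (K := ℚ) (C := QBar)).mpr inferInstance

instance isFracZBar : IsFractionRing ZBar QBar := integralClosure.isFractionRing_of_algebraic
  (fun x hx => by
    rw [← map_zero (algebraMap ℤ QBar)] at hx
    exact (algebraMap ℤ QBar).injective_int hx)

noncomputable instance actZBar : MulSemiringAction GQ ZBar :=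
  IsIntegralClosure.MulSemiringAction ℤ ℚ QBar ZBar

lemma coe_smul_ZBar (σ : GQ) (x : ZBar) : ((σ • x : ZBar) : QBar) = σ (x : QBar) :=
  algebraMap_galRestrict_apply ℤ (K := ℚ) (L := QBar) (B := ZBar) σ x

instance smulCommZBar : SMulCommClass GQ ℤ ZBar := ⟨fun σ n x => by
  apply Subtype.ext
  rw [coe_smul_ZBar]
  simp [coe_smul_ZBar]⟩

local instance topZBar : TopologicalSpace ZBar := ⊥
local instance discZBar : DiscreteTopology ZBar := ⟨rfl⟩

local instance contZBar : ContinuousSMul GQ ZBar := by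
  refine (continuousSMul_iff_stabilizer_isOpen (M := GQ) (X := ZBar)).2 fun x => ?_
  have h := stabilizer_isOpen_of_isIntegral (K := ℚ) (L := QBar) (x : QBar)
  convert h using 2
  ext σ
  rw [MulAction.mem_stabilizer_iff, MulAction.mem_stabilizer_iff]
  constructor
  · intro h
    have := congrArg (fun y : ZBar => (y : QBar)) h
    simp only [coe_smul_ZBar] at this
    exact this
  · intro h
    apply Subtype.ext
    rw [coe_smul_ZBar]
    exact h

local instance invZBar : Algebra.IsInvariant ℤ ZBar GQ := by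
  constructor
  intro b hb
  have h1 : ∀ σ : GQ, σ (b : QBar) = (b : QBar) := by
    intro σ
    rw [← coe_smul_ZBar, hb σ]
  have h2 : (b : QBar) ∈ (⊥ : IntermediateField ℚ QBar) := by
    rw [InfiniteGalois.mem_bot_iff_fixed]
    exact h1
  rw [IntermediateField.mem_bot] at h2
  obtain ⟨q, hq⟩ := h2
  have h3 : IsIntegral ℤ (b : QBar) := b.2
  rw [← hq, isIntegral_algebraMap_iff (algebraMap ℚ QBar).injective] at h3
  obtain ⟨a, ha⟩ := IsIntegrallyClosed.algebraMap_eq_of_integral h3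
  refine ⟨a, ?_⟩
  apply Subtype.ext
  rw [← hq, ← ha]
  simp

lemma exists_prime_over (p : ℕ) (hp : p.Prime) :
    ∃ 𝔓 : Ideal ZBar, 𝔓.IsPrime ∧ (p : ZBar) ∈ 𝔓 := by
  have hne : Ideal.span {(p : ZBar)} ≠ ⊤ := by
    intro h
    rw [Ideal.span_singleton_eq_top] at h
    obtain ⟨y, hy⟩ := h.exists_right_inv
    have h3 : (p : QBar) * (y : QBar) = 1 := by
      have := congrArg (fun y : ZBar => (y : QBar)) hy
      simpa using this
    have hp0 : (p : QBar) ≠ 0 := by exact_mod_cast hp.ne_zero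
    have h4 : (y : QBar) = algebraMap ℚ QBar ((p : ℚ)⁻¹) := by
      rw [map_inv₀, map_natCast]
      field_simp
      rw [mul_comm]; exact h3
    have h5 : IsIntegral ℤ (y : QBar) := y.2
    rw [h4, isIntegral_algebraMap_iff (algebraMap ℚ QBar).injective] at h5
    obtain ⟨a, ha⟩ := IsIntegrallyClosed.algebraMap_eq_of_integral h5
    have h6 : (a : ℚ) * p = 1 := by
      have : (algebraMap ℤ ℚ a) = (a : ℚ) := rfl
      rw [← this, ha]
      have : (p : ℚ) ≠ 0 := by exact_mod_cast hp.ne_zero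
      field_simp
    have h7 : a * (p : ℤ) = 1 := by exact_mod_cast h6
    have h8 : IsUnit (p : ℤ) := IsUnit.of_mul_eq_one a (by rw [mul_comm]; exact h7)
    rw [Int.ofNat_isUnit, Nat.isUnit_iff] at h8
    exact hp.one_lt.ne' h8
  obtain ⟨𝔓, hmax, hle⟩ := Ideal.exists_le_maximal _ hne
  exact ⟨𝔓, hmax.isPrime, hle (Ideal.mem_span_singleton_self _)⟩

lemma exists_arithFrob (p : ℕ) (hp : p.Prime) (𝔓 : Ideal ZBar) (h𝔓 : 𝔓.IsPrime)
    (hp𝔓 : (p : ZBar) ∈ 𝔓) : ∃ σ : GQ, IsArithFrob p 𝔓 σ := by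
  classical
  have : Fact p.Prime := ⟨hp⟩
  have hchar : CharP (ZBar ⧸ 𝔓) p := by
    have h0 : ((p : ℕ) : ZBar ⧸ 𝔓) = 0 := by
      have := Ideal.Quotient.eq_zero_iff_mem.mpr hp𝔓
      simpa using this
    exact (CharP.charP_iff_prime_eq_zero hp).2 h0
  let P : Ideal ℤ := 𝔓.under ℤ
  have : 𝔓.LiesOver P := ⟨rfl⟩
  let φ : (ZBar ⧸ 𝔓) →ₐ[ℤ ⧸ P] (ZBar ⧸ 𝔓) :=
    { toRingHom := frobenius (ZBar ⧸ 𝔓) p
      commutes' := by
        intro r
        obtain ⟨n, rfl⟩ := Ideal.Quotient.mk_surjective r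
        have : (algebraMap (ℤ ⧸ P) (ZBar ⧸ 𝔓)) ((Ideal.Quotient.mk P) n) = (n : ZBar ⧸ 𝔓) := by
          simp
        rw [this]
        exact map_intCast (frobenius (ZBar ⧸ 𝔓) p) n }
  have hinj : Function.Injective φ := by
    intro a b hab
    exact frobenius_inj (ZBar ⧸ 𝔓) p hab
  have hsurj : Function.Surjective φ := by
    intro a
    obtain ⟨x, rfl⟩ := Ideal.Quotient.mk_surjective a
    obtain ⟨y, hy⟩ := IsAlgClosed.exists_pow_nat_eq (x : QBar) hp.pos
    have hyint : IsIntegral ℤ y := by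
      refine IsIntegral.of_pow hp.pos ?_
      rw [hy]; exact x.2
    refine ⟨Ideal.Quotient.mk 𝔓 ⟨y, hyint⟩, ?_⟩
    change (Ideal.Quotient.mk 𝔓 ⟨y, hyint⟩) ^ p = _
    rw [← map_pow]
    congr 1
    apply Subtype.ext
    simpa using hy
  obtain ⟨g, hg⟩ := Ideal.Quotient.stabilizerHom_surjective_of_profinite (G := GQ) P 𝔓
    (AlgEquiv.ofBijective φ ⟨hinj, hsurj⟩)
  refine ⟨g.1, fun x => ?_⟩
  have h1 := Ideal.Quotient.stabilizerHom_apply (P := 𝔓) (p := P) (G := GQ) g x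
  rw [hg] at h1
  have h2 : (Ideal.Quotient.mk 𝔓 x) ^ p = Ideal.Quotient.mk 𝔓 (g • x) := h1
  rw [← map_pow, Ideal.Quotient.eq] at h2
  refine ⟨-(x ^ p - g • x), neg_mem h2, ?_⟩
  have h3 : ((g • x : ZBar) : QBar) = g.1 (x : QBar) := coe_smul_ZBar g.1 x
  push_cast
  rw [h3]
  ring

end TatePole
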