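import Mathlib
import Pool.Agent.Lib.MP_058a58_ag.Frob

open Polynomial Filter Topology

namespace TatePole

lemma exists_fin_enum (s : Multiset ℂ) (n : ℕ) (h : s.card = n) :
    ∃ α : Fin n → ℂ, Multiset.map α Finset.univ.val = s := by
  subst h
  refine ⟨fun i => s.toList.get (i.cast (by simp)), ?_⟩
  rw [Fin.univ_val_map]
  conv_rhs => rw [← s.coe_toList]
  congr 1
  apply List.ext_get
  · simp
  · intro n h1 h2
    simp

lemma reverse_eval_eq_prod (Q : ℂ[X]) (hQ : Q.Monic) (x : ℂ) :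
    Q.reverse.eval x = (Q.roots.map (fun β => 1 - β * x)).prod := by
  have hsplit : Q.Splits := IsAlgClosed.splits Q
  have hQ' : Q = (Q.roots.map (fun a => X - C a)).prod := hsplit.eq_prod_roots_of_monic hQ
  by_cases hx : x = 0
  · subst hx
    rw [← coeff_zero_eq_eval_zero, coeff_zero_reverse, hQ.leadingCoeff]
    simp
  · let _ : Invertible x⁻¹ := invertibleOfNonzero (inv_ne_zero hx)
    have h1 := eval₂_reverse_mul_pow (RingHom.id ℂ) x⁻¹ Q
    simp only [invOf_eq_inv, inv_inv] at h1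
    have h2 : Q.reverse.eval x * (x⁻¹) ^ Q.natDegree = Q.eval x⁻¹ := h1
    have h3 : Q.reverse.eval x = x ^ Q.natDegree * Q.eval x⁻¹ := by
      have h30 : x ^ Q.natDegree * (x⁻¹) ^ Q.natDegree = 1 := by
        rw [← mul_pow, mul_inv_cancel₀ hx, one_pow]
      rw [← h2]
      linear_combination (-(Q.reverse.eval x)) * h30
    rw [h3]
    have h4 : Q.eval x⁻¹ = (Q.roots.map (fun a => x⁻¹ - a)).prod := by
      conv_lhs => rw [hQ']
      rw [eval_multiset_prod, Multiset.map_map]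
      congr 2
      ext a
      simp
    have h5 : Q.natDegree = Q.roots.card := hsplit.natDegree_eq_card_roots
    rw [h4, h5]
    have h6 : x ^ Q.roots.card = (Q.roots.map (fun _ => x)).prod := by simp
    rw [h6, ← Multiset.prod_map_mul]
    congr 2
    ext a
    field_simp

/-- The inverse roots of the local factor as the eigenvalues of a given Frobenius element. -/
theorem IsPureLocalFactor.roots_of_frob {ℓ : ℕ} [Fact ℓ.Prime] {W : Type*} [AddCommGroup W]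
    [Module ℚ_[ℓ] W] [FiniteDimensional ℚ_[ℓ] W] {ρ : Representation ℚ_[ℓ] GQ W}
    {ι : ℚ_[ℓ] →+* ℂ} {p : ℕ} {P : ℂ[X]} (h : IsPureLocalFactor ρ ι p P)
    {𝔓 : Ideal ZBar} (h𝔓 : 𝔓.IsPrime) (hp𝔓 : (p : ZBar) ∈ 𝔓) {σ : GQ}
    (hσ : IsArithFrob p 𝔓 σ) :
    ∃ α : Fin (Module.finrank ℚ_[ℓ] W) → ℂ,
      Multiset.map α Finset.univ.val = ((ρ σ⁻¹).charpoly.map ι).roots ∧
      (∀ j, ‖α j‖ = 1) ∧
      ∀ x : ℂ, P.eval x = ∏ j, (1 - α j * x) := by
  have hP := h.eq_det 𝔓 h𝔓 hp𝔓 σ hσ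
  set Q : ℂ[X] := (ρ σ⁻¹).charpoly.map ι with hQdef
  have hmonic : Q.Monic := (LinearMap.charpoly_monic _).map ι
  have hdeg : Q.natDegree = Module.finrank ℚ_[ℓ] W := by
    rw [hQdef, (LinearMap.charpoly_monic _).natDegree_map, LinearMap.charpoly_natDegree]
  have hcard : Q.roots.card = Module.finrank ℚ_[ℓ] W := by
    rw [← hdeg]; exact (IsAlgClosed.splits Q).natDegree_eq_card_roots.symm
  obtain ⟨α, hα⟩ := exists_fin_enum _ _ hcard
  have heval : ∀ x : ℂ, P.eval x = ∏ j, (1 - α j * x) := by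
    intro x
    rw [hP, reverse_eval_eq_prod Q hmonic, ← hα, Multiset.map_map]
    rfl
  refine ⟨α, hα, fun j => ?_, heval⟩
  have hroot : α j ∈ Q.roots := by
    rw [← hα]
    exact Multiset.mem_map_of_mem _ (Finset.mem_univ j)
  have hne : α j ≠ 0 := by
    intro h0
    rw [h0, mem_roots hmonic.ne_zero, IsRoot.def, ← coeff_zero_eq_eval_zero, hQdef, coeff_map,
      map_eq_zero] at hroot
    have hdet : LinearMap.det (ρ σ⁻¹) = 0 := by
      rw [LinearMap.det_eq_sign_charpoly_coeff, hroot, mul_zero]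
    have hunit : ρ σ⁻¹ * ρ σ = 1 := by
      rw [← map_mul]; simp
    have h2 : LinearMap.det (ρ σ⁻¹) * LinearMap.det (ρ σ) = 1 := by
      rw [← map_mul, hunit, map_one]
    rw [hdet, zero_mul] at h2
    exact zero_ne_one h2
  have hz : P.eval (α j)⁻¹ = 0 := by
    rw [heval]
    apply Finset.prod_eq_zero (Finset.mem_univ j)
    rw [mul_inv_cancel₀ hne, sub_self]
  have := h.pure _ hz
  rw [norm_inv, inv_eq_one] at this
  exact this

theorem IsPureLocalFactor.exists_roots {ℓ : ℕ} [Fact ℓ.Prime] {W : Type*} [AddCommGroup W]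
    [Module ℚ_[ℓ] W] [FiniteDimensional ℚ_[ℓ] W] {ρ : Representation ℚ_[ℓ] GQ W}
    {ι : ℚ_[ℓ] →+* ℂ} {p : ℕ} (hp : p.Prime) {P : ℂ[X]} (h : IsPureLocalFactor ρ ι p P) :
    ∃ α : Fin (Module.finrank ℚ_[ℓ] W) → ℂ, (∀ j, ‖α j‖ = 1) ∧
      ∀ x : ℂ, P.eval x = ∏ j, (1 - α j * x) := by
  obtain ⟨𝔓, h𝔓, hp𝔓⟩ := exists_prime_over p hp
  obtain ⟨σ, hσ⟩ := exists_arithFrob p hp 𝔓 h𝔓 hp𝔓
  obtain ⟨α, -, h1, h2⟩ := h.roots_of_frob h𝔓 hp𝔓 hσ
  exact ⟨α, h1, h2⟩

end TatePole
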