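import Mathlib
import Pool.Agent.Lib.MP_058a58_ag.LocalFactor

open Polynomial Filter Topology

namespace TatePole

lemma norm_multiset_sum_le_card (t : Multiset ℂ) (h : ∀ z ∈ t, ‖z‖ ≤ 1) :
    ‖t.sum‖ ≤ t.card := by
  induction t using Multiset.induction with
  | empty => simp
  | cons a t ih =>
    rw [Multiset.sum_cons, Multiset.card_cons]
    push_cast
    have h1 := ih fun z hz => h z (Multiset.mem_cons_of_mem hz)
    have h2 := h a (Multiset.mem_cons_self a t)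
    have h3 := norm_add_le a t.sum
    linarith

/-- The inverse roots of the local factor, when `ρ` fixes the subspace `B` pointwise. -/
theorem IsPureLocalFactor.exists_roots_fixed {ℓ : ℕ} [Fact ℓ.Prime] {W : Type*} [AddCommGroup W]
    [Module ℚ_[ℓ] W] [FiniteDimensional ℚ_[ℓ] W] {ρ : Representation ℚ_[ℓ] GQ W}
    {ι : ℚ_[ℓ] →+* ℂ} {p : ℕ} (hp : p.Prime) {P : ℂ[X]} (h : IsPureLocalFactor ρ ι p P)
    (B : Submodule ℚ_[ℓ] W) (hB : ∀ g : GQ, ∀ w ∈ B, ρ g w = w) :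
    ∃ α : Fin (Module.finrank ℚ_[ℓ] W) → ℂ, (∀ j, ‖α j‖ = 1) ∧
      (∀ x : ℂ, P.eval x = ∏ j, (1 - α j * x)) ∧
      ‖∑ j, α j - Module.finrank ℚ_[ℓ] B‖ ≤
        (Module.finrank ℚ_[ℓ] W : ℝ) - Module.finrank ℚ_[ℓ] B := by
  obtain ⟨𝔓, h𝔓, hp𝔓⟩ := exists_prime_over p hp
  obtain ⟨σ, hσ⟩ := exists_arithFrob p hp 𝔓 h𝔓 hp𝔓
  obtain ⟨α, hα, hα1, heval⟩ := h.roots_of_frob h𝔓 hp𝔓 hσ
  refine ⟨α, hα1, heval, ?_⟩
  set r := Module.finrank ℚ_[ℓ] B with hr
  set φ := ρ σ⁻¹ with hφ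
  have h1 : r ≤ φ.charpoly.rootMultiplicity 1 := by
    refine le_trans ?_ (LinearMap.finrank_eigenspace_le φ 1)
    refine Submodule.finrank_mono ?_
    intro w hw
    rw [Module.End.mem_eigenspace_iff, one_smul]
    exact hB _ w hw
  have hmonic : (φ.charpoly).Monic := LinearMap.charpoly_monic _
  have h2 : (X - C (1 : ℚ_[ℓ])) ^ r ∣ φ.charpoly :=
    (le_rootMultiplicity_iff hmonic.ne_zero).mp h1
  have h3 : (X - C (1 : ℂ)) ^ r ∣ φ.charpoly.map ι := by
    have h4 := Polynomial.map_dvd ι h2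
    simpa using h4
  have h4 : r ≤ (φ.charpoly.map ι).rootMultiplicity 1 :=
    (le_rootMultiplicity_iff (hmonic.map ι).ne_zero).mpr h3
  rw [← count_roots, Multiset.le_count_iff_replicate_le] at h4
  obtain ⟨t, ht⟩ := Multiset.le_iff_exists_add.mp h4
  have h5 : ∑ j, α j = (φ.charpoly.map ι).roots.sum := by
    rw [← hα]; rfl
  have hcard : Module.finrank ℚ_[ℓ] W = r + t.card := by
    have := congrArg Multiset.card hα
    rw [ht] at this
    simpa using this
  have h6 : ∀ z ∈ t, ‖z‖ ≤ 1 := by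
    intro z hz
    have h7 : z ∈ (φ.charpoly.map ι).roots := by
      rw [ht]; exact Multiset.mem_add.mpr (Or.inr hz)
    rw [← hα] at h7
    obtain ⟨j, -, rfl⟩ := Multiset.mem_map.mp h7
    exact (hα1 j).le
  rw [h5, ht, Multiset.sum_add, Multiset.sum_replicate, nsmul_one, hcard]
  push_cast
  rw [add_sub_cancel_left, add_sub_cancel_left]
  exact norm_multiset_sum_le_card t h6

end TatePole
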