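import Mathlib
import Pool.Agent.Lib.MP_058a58_ag.Primes

open Filter Topology Polynomial Set Complex

namespace TatePole

/-- the primes up to `N`. -/
def primesTo (N : ℕ) : Finset ℕ := (Finset.Icc 1 N).filter Nat.Prime

lemma mem_primesTo {N p : ℕ} : p ∈ primesTo N ↔ p.Prime ∧ p ≤ N := by
  unfold primesTo
  rw [Finset.mem_filter, Finset.mem_Icc]
  constructor
  · rintro ⟨⟨_, h2⟩, h3⟩; exact ⟨h3, h2⟩
  · rintro ⟨h1, h2⟩; exact ⟨⟨h1.one_lt.le, h2⟩, h1⟩

lemma tsum_primes_cut (f : ℕ → ℝ) (N : ℕ) :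
    (∑' p : Nat.Primes, if (p : ℕ) ≤ N then f p else 0) = ∑ p ∈ primesTo N, f p := by
  have hinj : Set.InjOn (fun p : Nat.Primes => (p : ℕ)) Set.univ :=
    fun a _ b _ h => Subtype.ext h
  set T : Finset Nat.Primes := (primesTo N).preimage (fun p : Nat.Primes => (p : ℕ))
    (hinj.mono (Set.subset_univ _)) with hT
  rw [tsum_eq_sum (s := T)]
  · refine Finset.sum_bij (fun p _ => (p : ℕ)) ?_ ?_ ?_ ?_
    · intro p hp
      rw [hT, Finset.mem_preimage] at hp
      exact hp
    · intro a _ b _ h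
      exact Subtype.ext h
    · intro q hq
      refine ⟨(⟨q, (mem_primesTo.mp hq).1⟩ : Nat.Primes), ?_, rfl⟩
      rw [hT]
      exact Finset.mem_preimage.mpr hq
    · intro p hp
      rw [hT, Finset.mem_preimage] at hp
      rw [if_pos (mem_primesTo.mp hp).2]
  · intro p hp
    rw [if_neg]
    intro h
    exact hp (by rw [hT]; exact Finset.mem_preimage.mpr (mem_primesTo.mpr ⟨p.2, h⟩))

lemma exp_log_prime (p : Nat.Primes) (δ : ℝ) :
    Real.exp (-(δ * Real.log p)) = (p : ℝ) ^ (-δ) := by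
  have h2 : (0:ℝ) < p := by exact_mod_cast p.2.pos
  rw [Real.rpow_def_of_pos h2]; ring_nf

lemma rpow_neg_one_add (p : Nat.Primes) (δ : ℝ) :
    (p : ℝ) ^ (-(1 + δ)) = (p : ℝ)⁻¹ * (p : ℝ) ^ (-δ) := by
  have h2 : (0:ℝ) < p := by exact_mod_cast p.2.pos
  rw [neg_add, Real.rpow_add h2, Real.rpow_neg_one]

/-- Tauberian theorem for nonnegative bounded weights on the primes. -/
theorem real_tauber {B : ℕ → ℝ} {C : ℝ} (hB : ∀ p : ℕ, p.Prime → 0 ≤ B p)
    (hBC : ∀ p : ℕ, p.Prime → B p ≤ C) {K c : ℝ}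
    (h : Tendsto (fun δ : ℝ => (∑' p : Nat.Primes, B p * (p : ℝ) ^ (-(1 + δ))) + K * Real.log δ)
      (𝓝[>] 0) (𝓝 c)) :
    Tendsto (fun N : ℕ => (∑ p ∈ primesTo N, B p / p) - K * Real.log (Real.log N)) atTop
      (𝓝 (c + K * Real.eulerMascheroniConstant)) := by
  set w : Nat.Primes → ℝ := fun p => B p * (p : ℝ)⁻¹ with hw
  set t : Nat.Primes → ℝ := fun p => Real.log p with ht
  have hterm : ∀ (δ : ℝ) (p : Nat.Primes), w p * Real.exp (-(δ * t p)) =
      B p * (p : ℝ) ^ (-(1 + δ)) := by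
    intro δ p
    rw [ht, hw]
    simp only
    rw [exp_log_prime, rpow_neg_one_add]; ring
  have hw0 : ∀ p, 0 ≤ w p := fun p => mul_nonneg (hB p p.2) (by positivity)
  have ht0 : ∀ p, 0 ≤ t p := fun p => Real.log_nonneg (by exact_mod_cast p.2.one_lt.le)
  have hsum : ∀ δ : ℝ, 0 < δ → Summable fun p => w p * Real.exp (-(δ * t p)) := by
    intro δ hδ
    simp_rw [hterm]
    refine Summable.of_nonneg_of_le (fun p => mul_nonneg (hB p p.2) (by positivity)) (fun p => ?_)
      ((summable_primeSum hδ).mul_left C)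
    exact mul_le_mul_of_nonneg_right (hBC p p.2) (by positivity)
  have hf : Tendsto (fun δ : ℝ => (∑' p, w p * Real.exp (-(δ * t p))) + K * Real.log δ)
      (𝓝[>] 0) (𝓝 c) := by
    simp_rw [hterm]; exact h
  have hT := tauber_log hw0 ht0 hsum hf
  have hδ : Tendsto (fun N : ℕ => 1 / Real.log (N : ℝ)) atTop (𝓝[>] 0) := by
    have h1 : Tendsto (fun N : ℕ => Real.log (N : ℝ)) atTop atTop :=
      Real.tendsto_log_atTop.comp tendsto_natCast_atTop_atTop
    have h2 := tendsto_inv_atTop_nhdsGT_zero.comp h1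
    simpa [Function.comp_def, one_div] using h2
  have h2 := hT.comp hδ
  refine h2.congr' ?_
  filter_upwards [eventually_ge_atTop 2] with N hN
  have hlog : 0 < Real.log (N : ℝ) := Real.log_pos (by exact_mod_cast hN)
  simp only [Function.comp]
  have h3 : wsum w t cut (1 / Real.log (N : ℝ)) = ∑ p ∈ primesTo N, B p / p := by
    rw [← tsum_primes_cut (fun p => B p / p) N]
    unfold wsum
    refine tsum_congr fun p => ?_
    rw [cut_exp]
    have h4 : (1 / Real.log (N:ℝ) * t p ≤ 1) ↔ (p : ℕ) ≤ N := by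
      rw [ht]
      simp only
      rw [one_div, inv_mul_le_iff₀ hlog, mul_one,
        Real.log_le_log_iff (by exact_mod_cast p.2.pos) (by positivity)]
      norm_cast
    by_cases h5 : (p : ℕ) ≤ N
    · rw [if_pos (h4.mpr h5), if_pos h5, hw]
      simp only
      rw [mul_one, div_eq_mul_inv]
    · rw [if_neg (fun h => h5 (h4.mp h)), if_neg h5, mul_zero]
  rw [h3, one_div, Real.log_inv]
  ring

lemma primesTo_inv_tendsto : Tendsto (fun N : ℕ => (∑ p ∈ primesTo N, (1:ℝ) / p) -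
    Real.log (Real.log N)) atTop (𝓝 (mertC + Real.eulerMascheroniConstant)) := by
  have h := real_tauber (B := fun _ => 1) (C := 1) (K := 1) (c := mertC) (fun _ _ => by norm_num)
    (fun _ _ => le_refl _) (by simpa [primeSum] using primeSum_tendsto)
  simpa using h

lemma FF_re {A : ℕ → ℂ} {C : ℝ} (hA : ∀ p : ℕ, p.Prime → ‖A p‖ ≤ C) {x : ℝ} (hx : 1 < x) :
    (FF A x).re = ∑' p : Nat.Primes, (A p).re * (p : ℝ) ^ (-x) := by
  unfold FF
  rw [Complex.re_tsum (summable_FF hA hx)]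
  refine tsum_congr fun p => ?_
  unfold pw
  rw [Complex.re_mul_ofReal]

lemma FF_im {A : ℕ → ℂ} {C : ℝ} (hA : ∀ p : ℕ, p.Prime → ‖A p‖ ≤ C) {x : ℝ} (hx : 1 < x) :
    (FF A x).im = ∑' p : Nat.Primes, (A p).im * (p : ℝ) ^ (-x) := by
  unfold FF
  rw [Complex.im_tsum (summable_FF hA hx)]
  refine tsum_congr fun p => ?_
  unfold pw
  rw [Complex.im_mul_ofReal]

/-- signed version -/
theorem signed_tauber {B : ℕ → ℝ} {C : ℝ} (hB : ∀ p : ℕ, p.Prime → |B p| ≤ C) {r c : ℝ}
    (h : Tendsto (fun δ : ℝ => (∑' p : Nat.Primes, B p * (p : ℝ) ^ (-(1 + δ))) + r * Real.log δ)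
      (𝓝[>] 0) (𝓝 c)) :
    Tendsto (fun N : ℕ => (∑ p ∈ primesTo N, B p / p) - r * Real.log (Real.log N)) atTop
      (𝓝 (c + r * Real.eulerMascheroniConstant)) := by
  have h1 : Tendsto (fun δ : ℝ => (∑' p : Nat.Primes, (B p + C) * (p : ℝ) ^ (-(1 + δ))) +
      (r + C) * Real.log δ) (𝓝[>] 0) (𝓝 (c + C * mertC)) := by
    have h2 := h.add (primeSum_tendsto.const_mul C)
    refine h2.congr' ?_
    filter_upwards [self_mem_nhdsWithin] with δ hδ
    have s1 : Summable fun p : Nat.Primes => B p * (p : ℝ) ^ (-(1 + δ)) := by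
      refine Summable.of_norm_bounded ((summable_primeSum hδ).mul_left C) fun p => ?_
      rw [norm_mul, Real.norm_eq_abs, Real.norm_of_nonneg (by positivity)]
      exact mul_le_mul_of_nonneg_right (hB p p.2) (by positivity)
    have s2 := (summable_primeSum hδ).mul_left C
    have e : (∑' p : Nat.Primes, (B p + C) * (p : ℝ) ^ (-(1 + δ))) =
        (∑' p : Nat.Primes, B p * (p : ℝ) ^ (-(1 + δ))) + C * primeSum δ := by
      unfold primeSum
      rw [← tsum_mul_left, ← Summable.tsum_add s1 s2]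
      refine tsum_congr fun p => ?_
      ring
    rw [e]; ring
  have h3 := real_tauber (B := fun p => B p + C) (C := 2 * C)
    (fun p hp => by have := (abs_le.mp (hB p hp)).1; linarith)
    (fun p hp => by have := (abs_le.mp (hB p hp)).2; linarith) h1
  have h4 := h3.sub (primesTo_inv_tendsto.const_mul C)
  have e2 : c + C * mertC + (r + C) * Real.eulerMascheroniConstant -
      C * (mertC + Real.eulerMascheroniConstant) = c + r * Real.eulerMascheroniConstant := by ring
  rw [e2] at h4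
  refine h4.congr fun N => ?_
  have e3 : ∑ p ∈ primesTo N, (B p + C) / (p:ℝ) = (∑ p ∈ primesTo N, B p / p) +
      C * ∑ p ∈ primesTo N, (1:ℝ) / p := by
    rw [Finset.mul_sum, ← Finset.sum_add_distrib]
    refine Finset.sum_congr rfl fun p _ => ?_
    ring
  rw [e3]; ring

/-- complex version -/
theorem complex_tauber {A : ℕ → ℂ} {C : ℝ} (hA : ∀ p : ℕ, p.Prime → ‖A p‖ ≤ C) {r : ℝ} {c : ℂ}
    (h : Tendsto (fun δ : ℝ => FF A (1 + δ) + (r * Real.log δ : ℝ)) (𝓝[>] 0) (𝓝 c)) :
    Tendsto (fun N : ℕ => (∑ p ∈ primesTo N, A p / p) - (r * Real.log (Real.log N) : ℝ)) atTop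
      (𝓝 (c + (r * Real.eulerMascheroniConstant : ℝ))) := by
  have hre : Tendsto (fun δ : ℝ => (∑' p : Nat.Primes, (A p).re * (p : ℝ) ^ (-(1 + δ))) +
      r * Real.log δ) (𝓝[>] 0) (𝓝 c.re) := by
    have h1 := (Complex.continuous_re.tendsto c).comp h
    refine h1.congr' ?_
    filter_upwards [self_mem_nhdsWithin] with δ hδ
    simp only [mem_Ioi] at hδ
    simp only [Function.comp, Complex.add_re, Complex.ofReal_re]
    rw [FF_re hA (by linarith)]
  have him : Tendsto (fun δ : ℝ => (∑' p : Nat.Primes, (A p).im * (p : ℝ) ^ (-(1 + δ))) +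
      0 * Real.log δ) (𝓝[>] 0) (𝓝 c.im) := by
    have h1 := (Complex.continuous_im.tendsto c).comp h
    refine h1.congr' ?_
    filter_upwards [self_mem_nhdsWithin] with δ hδ
    simp only [mem_Ioi] at hδ
    simp only [Function.comp, Complex.add_im, Complex.ofReal_im]
    rw [FF_im hA (by linarith)]
    ring
  have h1 := signed_tauber (C := C) (fun p hp => (Complex.abs_re_le_norm _).trans (hA p hp)) hre
  have h2 := signed_tauber (C := C) (fun p hp => (Complex.abs_im_le_norm _).trans (hA p hp)) him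
  have h3 : Tendsto (fun N : ℕ => (((∑ p ∈ primesTo N, (A p).re / p) -
      r * Real.log (Real.log N) : ℝ) : ℂ) + (((∑ p ∈ primesTo N, (A p).im / p) -
      0 * Real.log (Real.log N) : ℝ) : ℂ) * I) atTop
      (𝓝 (((c.re + r * Real.eulerMascheroniConstant : ℝ) : ℂ) +
        ((c.im + 0 * Real.eulerMascheroniConstant : ℝ) : ℂ) * I)) :=
    ((Complex.continuous_ofReal.tendsto _).comp h1).add
      (((Complex.continuous_ofReal.tendsto _).comp h2).mul_const I)
  have e1 : (((c.re + r * Real.eulerMascheroniConstant : ℝ) : ℂ) +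
        ((c.im + 0 * Real.eulerMascheroniConstant : ℝ) : ℂ) * I) =
      c + (r * Real.eulerMascheroniConstant : ℝ) := by
    rw [zero_mul, add_zero]
    conv_rhs => rw [← Complex.re_add_im c]
    push_cast; ring
  rw [e1] at h3
  refine h3.congr fun N => ?_
  rw [zero_mul, sub_zero]
  push_cast
  have e2 : ∑ p ∈ primesTo N, A p / (p:ℂ) = (∑ p ∈ primesTo N, ((A p).re : ℂ) / (p:ℂ)) +
      (∑ p ∈ primesTo N, ((A p).im : ℂ) / (p:ℂ)) * I := by
    rw [Finset.sum_mul, ← Finset.sum_add_distrib]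
    refine Finset.sum_congr rfl fun p _ => ?_
    conv_lhs => rw [← Complex.re_add_im (A p)]
    ring
  rw [e2]; ring

end TatePole
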