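import Mathlib
import Pool.Agent.Lib.MP_058a58_ag.TauberPrimes

open Filter Topology Polynomial Set Complex

namespace TatePole

lemma abel_identity (d : ℕ → ℂ) (g : ℕ → ℝ) (E : ℂ) (N : ℕ) :
    (∑ n ∈ Finset.range N, d n * g n) - E * g 0 =
      ((∑ k ∈ Finset.range N, d k) - E) * g N +
      ∑ n ∈ Finset.range N, ((∑ k ∈ Finset.range (n + 1), d k) - E) * ((g n : ℂ) - g (n + 1)) := by
  induction N with
  | zero => simp
  | succ N ih =>
    rw [Finset.sum_range_succ, add_sub_right_comm, ih,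
      Finset.sum_range_succ (fun n => ((∑ k ∈ Finset.range (n + 1), d k) - E) *
        ((g n : ℂ) - g (n + 1)))]
    rw [Finset.sum_range_succ d N]
    ring

lemma abel_bound {d : ℕ → ℂ} {g : ℕ → ℝ} {E : ℂ} (hg : Antitone g) (hg0 : ∀ n, 0 ≤ g n)
    {M ε : ℝ} {n₀ : ℕ} (hM : ∀ n, ‖(∑ k ∈ Finset.range n, d k) - E‖ ≤ M)
    (hε : ∀ n, n₀ ≤ n → ‖(∑ k ∈ Finset.range n, d k) - E‖ ≤ ε) {N : ℕ} (hN : n₀ ≤ N) :
    ‖(∑ n ∈ Finset.range N, d n * g n) - E * g 0‖ ≤
      ε * g 0 + M * (g 0 - g n₀) := by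
  have hM0 : 0 ≤ M := (norm_nonneg _).trans (hM 0)
  have hε0 : 0 ≤ ε := (norm_nonneg _).trans (hε n₀ le_rfl)
  rw [abel_identity]
  have hterm : ∀ n, ‖((g n : ℂ) - g (n + 1))‖ = g n - g (n + 1) := by
    intro n
    rw [← Complex.ofReal_sub, Complex.norm_real, Real.norm_of_nonneg]
    have := hg (Nat.le_succ n)
    simp only [Nat.succ_eq_add_one] at this
    linarith
  have key : ∀ N, n₀ ≤ N → ‖∑ n ∈ Finset.range N, ((∑ k ∈ Finset.range (n + 1), d k) - E) *
      ((g n : ℂ) - g (n + 1))‖ ≤ M * (g 0 - g n₀) + ε * (g n₀ - g N) := by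
    have h1 : ∀ N, ‖∑ n ∈ Finset.range N, ((∑ k ∈ Finset.range (n + 1), d k) - E) *
        ((g n : ℂ) - g (n + 1))‖ ≤ M * (g 0 - g N) := by
      intro N
      refine (norm_sum_le _ _).trans ?_
      calc ∑ n ∈ Finset.range N, ‖((∑ k ∈ Finset.range (n + 1), d k) - E) *
            ((g n : ℂ) - g (n + 1))‖ ≤ ∑ n ∈ Finset.range N, M * (g n - g (n + 1)) := by
            refine Finset.sum_le_sum fun n _ => ?_
            rw [norm_mul, hterm]
            refine mul_le_mul_of_nonneg_right (hM _) ?_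
            have := hg (Nat.le_succ n)
            simp only [Nat.succ_eq_add_one] at this
            linarith
        _ = M * (g 0 - g N) := by
            rw [← Finset.mul_sum, Finset.sum_range_sub']
    intro N hN
    induction N, hN using Nat.le_induction with
    | base => have := h1 n₀; linarith
    | succ N hN ih =>
      rw [Finset.sum_range_succ]
      refine (norm_add_le _ _).trans ?_
      have h2 : ‖((∑ k ∈ Finset.range (N + 1), d k) - E) * ((g N : ℂ) - g (N + 1))‖ ≤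
          ε * (g N - g (N + 1)) := by
        rw [norm_mul, hterm]
        refine mul_le_mul_of_nonneg_right (hε _ (by omega)) ?_
        have := hg (Nat.le_succ N)
        simp only [Nat.succ_eq_add_one] at this
        linarith
      nlinarith
  refine (norm_add_le _ _).trans ?_
  have h3 : ‖((∑ k ∈ Finset.range N, d k) - E) * (g N : ℂ)‖ ≤ ε * g N := by
    rw [norm_mul, Complex.norm_real, Real.norm_of_nonneg (hg0 N)]
    exact mul_le_mul_of_nonneg_right (hε N hN) (hg0 N)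
  have h4 := key N hN
  have h5 : g n₀ ≤ g 0 := hg (Nat.zero_le _)
  have h6 : 0 ≤ ε * (g 0 - g n₀) := mul_nonneg hε0 (by linarith)
  linarith

/-- Abel's theorem for general weights. -/
theorem abel_general {d : ℕ → ℂ} {E : ℂ} {g : ℝ → ℕ → ℝ}
    (hd : Tendsto (fun N => ∑ n ∈ Finset.range N, d n) atTop (𝓝 E))
    (hg : ∀ δ, 0 < δ → Antitone (g δ)) (hg0 : ∀ δ n, 0 < δ → 0 ≤ g δ n) (hg1 : ∀ δ, g δ 0 = 1)
    (hlim : ∀ n, Tendsto (fun δ => g δ n) (𝓝[>] 0) (𝓝 1))
    (hsum : ∀ δ, 0 < δ → Summable fun n => d n * (g δ n : ℂ)) :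
    Tendsto (fun δ => ∑' n, d n * (g δ n : ℂ)) (𝓝[>] 0) (𝓝 E) := by
  -- boundedness of the partial sums
  obtain ⟨M, hM⟩ : ∃ M, ∀ n, ‖(∑ k ∈ Finset.range n, d k) - E‖ ≤ M := by
    have h1 : Tendsto (fun N => ‖(∑ n ∈ Finset.range N, d n) - E‖) atTop (𝓝 ‖E - E‖) :=
      (hd.sub_const E).norm
    obtain ⟨M, hM⟩ := h1.bddAbove_range
    exact ⟨M, fun n => hM ⟨n, rfl⟩⟩
  rw [Metric.tendsto_nhds]
  intro ε hε
  have hev : ∀ᶠ N in atTop, ‖(∑ n ∈ Finset.range N, d n) - E‖ ≤ ε / 4 := by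
    have := (Metric.tendsto_nhds.mp hd) (ε / 4) (by positivity)
    filter_upwards [this] with N hN
    rw [dist_eq_norm] at hN
    exact hN.le
  obtain ⟨n₀, hn₀⟩ := eventually_atTop.mp hev
  have hM0 : 0 ≤ M := (norm_nonneg _).trans (hM 0)
  have h2 := (Metric.tendsto_nhds.mp (hlim n₀)) (ε / (4 * (M + 1))) (by positivity)
  filter_upwards [self_mem_nhdsWithin, h2] with δ hδ h3
  simp only [mem_Ioi] at hδ
  have h4 : ∀ N, n₀ ≤ N → ‖(∑ n ∈ Finset.range N, d n * g δ n) - E * g δ 0‖ ≤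
      ε / 4 * g δ 0 + M * (g δ 0 - g δ n₀) :=
    fun N hN => abel_bound (hg δ hδ) (fun n => hg0 δ n hδ) hM hn₀ hN
  have h5 := (hsum δ hδ).hasSum.tendsto_sum_nat
  have h6 : ‖(∑' n, d n * (g δ n : ℂ)) - E * g δ 0‖ ≤ ε / 4 * g δ 0 + M * (g δ 0 - g δ n₀) :=
    le_of_tendsto (h5.sub_const _).norm (eventually_atTop.mpr ⟨n₀, h4⟩)
  rw [hg1] at h6
  rw [dist_eq_norm]
  simp only [Complex.ofReal_one, mul_one] at h6
  have h7 : 1 - g δ n₀ ≤ ε / (4 * (M + 1)) := by
    rw [Real.dist_eq, abs_lt] at h3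
    linarith [h3.1]
  have h8 : M * (1 - g δ n₀) ≤ ε / 4 := by
    calc M * (1 - g δ n₀) ≤ M * (ε / (4 * (M + 1))) := mul_le_mul_of_nonneg_left h7 hM0
      _ ≤ (M + 1) * (ε / (4 * (M + 1))) := by
          refine mul_le_mul_of_nonneg_right (by linarith) (by positivity)
      _ = ε / 4 := by field_simp
  linarith

/-- the weights used -/
noncomputable def gw (δ : ℝ) (n : ℕ) : ℝ := ((max n 1 : ℕ) : ℝ) ^ (-δ)

lemma gw_antitone {δ : ℝ} (hδ : 0 < δ) : Antitone (gw δ) := by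
  intro a b hab
  unfold gw
  refine Real.rpow_le_rpow_of_nonpos ?_ ?_ (by linarith)
  · have : 1 ≤ max a 1 := le_max_right _ _
    exact_mod_cast this
  · exact_mod_cast max_le_max hab le_rfl

lemma gw_tendsto (n : ℕ) : Tendsto (fun δ => gw δ n) (𝓝[>] 0) (𝓝 1) := by
  unfold gw
  have h1 : (0:ℝ) < ((max n 1 : ℕ) : ℝ) := by
    have : 1 ≤ max n 1 := le_max_right _ _
    exact_mod_cast this
  have hc : Continuous (fun δ : ℝ => ((max n 1 : ℕ) : ℝ) ^ (-δ)) :=
    Continuous.rpow continuous_const continuous_neg (fun x => Or.inl h1.ne')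
  have h2 := (hc.tendsto 0).mono_left (nhdsWithin_le_nhds (s := Ioi (0:ℝ)))
  simpa using h2

/-- Abelian theorem over the primes. -/
theorem abel_primes {D : ℕ → ℂ} {C : ℝ} (hD : ∀ p : ℕ, p.Prime → ‖D p‖ ≤ C) {E : ℂ}
    (h : Tendsto (fun N : ℕ => ∑ p ∈ primesTo N, D p / p) atTop (𝓝 E)) :
    Tendsto (fun δ : ℝ => FF D (1 + δ)) (𝓝[>] 0) (𝓝 E) := by
  classical
  set d : ℕ → ℂ := fun n => if n.Prime then D n / n else 0 with hd
  have hpart : ∀ N : ℕ, ∑ n ∈ Finset.range (N + 1), d n = ∑ p ∈ primesTo N, D p / p := by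
    intro N
    rw [hd]
    simp only
    rw [← Finset.sum_filter]
    refine Finset.sum_congr ?_ fun _ _ => rfl
    ext p
    rw [Finset.mem_filter, Finset.mem_range, mem_primesTo]
    constructor
    · rintro ⟨h1, h2⟩; exact ⟨h2, by omega⟩
    · rintro ⟨h1, h2⟩; exact ⟨by omega, h1⟩
  have hd' : Tendsto (fun N => ∑ n ∈ Finset.range N, d n) atTop (𝓝 E) := by
    rw [← tendsto_add_atTop_iff_nat 1]
    simp_rw [hpart]
    exact h
  have hprod : ∀ (δ : ℝ) (p : ℕ), p.Prime → d p * (gw δ p : ℂ) = D p * pw p (1 + δ) := by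
    intro δ p hp
    have h2 : (0:ℝ) < p := by exact_mod_cast hp.pos
    rw [hd]
    simp only
    rw [if_pos hp]
    unfold gw pw
    rw [max_eq_left hp.one_lt.le, neg_add, Real.rpow_add h2, Real.rpow_neg_one]
    push_cast
    ring
  have hzero : ∀ (δ : ℝ) (n : ℕ), ¬ n.Prime → d n * (gw δ n : ℂ) = 0 := by
    intro δ n hn
    rw [hd]
    simp only
    rw [if_neg hn, zero_mul]
  have hfun : ∀ δ : ℝ, (fun n => d n * (gw δ n : ℂ)) =
      Set.indicator {p : ℕ | p.Prime} (fun p => D p * pw p (1 + δ)) := by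
    intro δ
    funext n
    by_cases hn : n.Prime
    · rw [Set.indicator_of_mem (by exact hn), hprod δ n hn]
    · rw [Set.indicator_of_notMem (by exact hn), hzero δ n hn]
  have hsum : ∀ δ, 0 < δ → Summable fun n => d n * (gw δ n : ℂ) := by
    intro δ hδ
    rw [hfun, ← summable_subtype_iff_indicator]
    exact summable_FF hD (by linarith)
  have key := abel_general hd' (fun δ hδ => gw_antitone hδ)
    (fun δ n _ => by unfold gw; positivity) (fun δ => by unfold gw; simp) gw_tendsto hsum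
  refine key.congr' ?_
  filter_upwards [self_mem_nhdsWithin] with δ hδ
  rw [hfun, ← tsum_subtype]
  rfl

end TatePole
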