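import Mathlib
import Pool.Agent.Lib.MP_058a58_ag.Abel

open Filter Topology Polynomial Set Complex

namespace TatePole

/-- Abelian direction with logarithmic main term. -/
theorem complex_abel {A : ℕ → ℂ} {C : ℝ} (hA : ∀ p : ℕ, p.Prime → ‖A p‖ ≤ C) {r : ℝ} {c : ℂ}
    (h : Tendsto (fun N : ℕ => (∑ p ∈ primesTo N, A p / p) - (r * Real.log (Real.log N) : ℝ)) atTop
      (𝓝 c)) :
    Tendsto (fun δ : ℝ => FF A (1 + δ) + (r * Real.log δ : ℝ)) (𝓝[>] 0)
      (𝓝 (c - (r * Real.eulerMascheroniConstant : ℝ))) := by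
  have h1 : Tendsto (fun N : ℕ => ((r * ((∑ p ∈ primesTo N, (1:ℝ) / p) -
      Real.log (Real.log N)) : ℝ) : ℂ)) atTop
      (𝓝 ((r * (mertC + Real.eulerMascheroniConstant) : ℝ) : ℂ)) :=
    (Complex.continuous_ofReal.tendsto _).comp (primesTo_inv_tendsto.const_mul r)
  have h2 := h.sub h1
  have hD : ∀ p : ℕ, p.Prime → ‖A p - r‖ ≤ C + |r| := by
    intro p hp
    refine (norm_sub_le _ _).trans ?_
    have := hA p hp
    rw [Complex.norm_real, Real.norm_eq_abs]
    linarith
  have h3 : Tendsto (fun N : ℕ => ∑ p ∈ primesTo N, (A p - r) / p) atTop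
      (𝓝 (c - ((r * (mertC + Real.eulerMascheroniConstant) : ℝ) : ℂ))) := by
    refine h2.congr fun N => ?_
    have e : ∑ p ∈ primesTo N, (A p - r) / (p:ℂ) = (∑ p ∈ primesTo N, A p / p) -
        r * ∑ p ∈ primesTo N, (1:ℂ) / p := by
      rw [Finset.mul_sum, ← Finset.sum_sub_distrib]
      refine Finset.sum_congr rfl fun p _ => ?_
      ring
    rw [e]
    push_cast
    ring
  have h4 := abel_primes hD h3
  have h5 : Tendsto (fun δ : ℝ => ((r * (primeSum δ + Real.log δ) : ℝ) : ℂ)) (𝓝[>] 0)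
      (𝓝 ((r * mertC : ℝ) : ℂ)) :=
    (Complex.continuous_ofReal.tendsto _).comp (primeSum_tendsto.const_mul r)
  have h6 := h4.add h5
  have e1 : c - ((r * (mertC + Real.eulerMascheroniConstant) : ℝ) : ℂ) + ((r * mertC : ℝ) : ℂ) =
      c - (r * Real.eulerMascheroniConstant : ℝ) := by push_cast; ring
  rw [e1] at h6
  refine h6.congr' ?_
  filter_upwards [self_mem_nhdsWithin] with δ hδ
  simp only [mem_Ioi] at hδ
  have hx : 1 < 1 + δ := by linarith
  have e2 : FF (fun p => A p - r) (1 + δ) = FF A (1 + δ) - r * FF (fun _ => 1) (1 + δ) := by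
    unfold FF
    rw [← tsum_mul_left, ← Summable.tsum_sub (summable_FF hA hx)
      ((summable_FF (A := fun _ => 1) (C := 1) (fun _ _ => by simp) hx).mul_left _)]
    refine tsum_congr fun p => ?_
    ring
  rw [e2, FF_one]
  push_cast
  ring

lemma integer_valued_const {f : ℝ → ℝ} {a b : ℝ} (hf : ContinuousOn f (Ioo a b))
    (hint : ∀ x ∈ Ioo a b, ∃ n : ℤ, f x = n) {x y : ℝ} (hx : x ∈ Ioo a b) (hy : y ∈ Ioo a b) :
    f x = f y := by
  have hconn := (isPreconnected_Ioo.image f hf).ordConnected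
  by_contra hne
  wlog hlt : f x < f y generalizing x y with H
  · exact H hy hx (Ne.symm hne) (lt_of_le_of_ne (not_lt.mp hlt) (Ne.symm hne))
  obtain ⟨n, hn⟩ := hint x hx
  obtain ⟨m, hm⟩ := hint y hy
  have hnm : n + 1 ≤ m := by
    rw [hn, hm] at hlt
    have : n < m := by exact_mod_cast hlt
    omega
  have hnm' : (n:ℝ) + 1 ≤ m := by exact_mod_cast hnm
  have hmem : (n:ℝ) + 1/2 ∈ f '' Ioo a b :=
    hconn.out (mem_image_of_mem f hx) (mem_image_of_mem f hy) ⟨by rw [hn]; linarith,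
      by rw [hm]; linarith⟩
  obtain ⟨z, hz, hz2⟩ := hmem
  obtain ⟨k, hk⟩ := hint z hz
  rw [hk] at hz2
  have h1 : (k:ℝ) * 2 = n * 2 + 1 := by linarith
  have h2 : k * 2 = n * 2 + 1 := by exact_mod_cast h1
  omega

/-- continuous logarithm -/
theorem tendsto_of_exp_tendsto {h : ℝ → ℂ} (hc : ContinuousOn h (Ioi 1)) {w : ℂ} (hw : w ≠ 0)
    (hlim : Tendsto (fun x => cexp (h x)) (𝓝[>] 1) (𝓝 w)) :
    ∃ h₀ : ℂ, cexp h₀ = w ∧ Tendsto h (𝓝[>] 1) (𝓝 h₀) := by
  -- ratio tends to one
  have h1 : Tendsto (fun x => cexp (h x) / w) (𝓝[>] 1) (𝓝 1) := by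
    have := hlim.div_const w
    rwa [div_self hw] at this
  have hslit : (1:ℂ) ∈ slitPlane := one_mem_slitPlane
  have hev : ∀ᶠ x in 𝓝[>] (1:ℝ), cexp (h x) / w ∈ slitPlane :=
    h1 (Complex.isOpen_slitPlane.mem_nhds hslit)
  have hlog : Tendsto (fun x => log (cexp (h x) / w)) (𝓝[>] 1) (𝓝 0) := by
    have := (continuousAt_clog hslit).tendsto.comp h1
    rwa [log_one] at this
  obtain ⟨b, hb1, hb⟩ := (mem_nhdsGT_iff_exists_Ioo_subset).mp hev
  simp only [mem_Ioi] at hb1
  set f : ℝ → ℂ := fun x => (h x - log w - log (cexp (h x) / w)) / (2 * Real.pi * I) with hf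
  have hfint : ∀ x ∈ Ioo 1 b, ∃ n : ℤ, f x = n := by
    intro x hx
    have h2 : cexp (h x) / w ≠ 0 := div_ne_zero (Complex.exp_ne_zero _) hw
    have h3 : cexp (h x) = cexp (log w + log (cexp (h x) / w)) := by
      rw [Complex.exp_add, Complex.exp_log hw, Complex.exp_log h2]
      field_simp
    obtain ⟨n, hn⟩ := Complex.exp_eq_exp_iff_exists_int.mp h3
    refine ⟨n, ?_⟩
    rw [hf]
    simp only
    have h4 : (2 * (Real.pi : ℂ) * I) ≠ 0 := Complex.two_pi_I_ne_zero
    rw [div_eq_iff h4]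
    linear_combination hn
  have hfc : ContinuousOn f (Ioo 1 b) := by
    have hc' : ContinuousOn h (Ioo 1 b) := hc.mono fun x hx => hx.1
    refine ContinuousOn.div_const ?_ _
    refine (hc'.sub continuousOn_const).sub ?_
    refine ContinuousOn.clog ?_ fun x hx => hb hx
    exact (Complex.continuous_exp.comp_continuousOn hc').div_const _
  set x₀ : ℝ := (1 + b) / 2 with hx₀
  have hx₀m : x₀ ∈ Ioo 1 b := by constructor <;> rw [hx₀] <;> linarith
  obtain ⟨n₀, hn₀⟩ := hfint x₀ hx₀m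
  have hconst : ∀ x ∈ Ioo 1 b, f x = n₀ := by
    intro x hx
    have h2 : (f x).re = (f x₀).re := by
      refine integer_valued_const (f := fun x => (f x).re) (a := 1) (b := b)
        (Complex.continuous_re.comp_continuousOn hfc) ?_ hx hx₀m
      intro y hy
      obtain ⟨n, hn⟩ := hfint y hy
      exact ⟨n, by simp [hn]⟩
    obtain ⟨n, hn⟩ := hfint x hx
    rw [hn, hn₀] at h2
    simp only [Complex.intCast_re, Int.cast_inj] at h2
    rw [hn, h2]
  refine ⟨log w + n₀ * (2 * Real.pi * I), ?_, ?_⟩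
  · rw [Complex.exp_add, Complex.exp_log hw, Complex.exp_int_mul_two_pi_mul_I, mul_one]
  · have h5 : Tendsto (fun x => log w + n₀ * (2 * Real.pi * I) + log (cexp (h x) / w)) (𝓝[>] 1)
        (𝓝 (log w + n₀ * (2 * Real.pi * I) + 0)) := hlog.const_add _
    rw [add_zero] at h5
    refine h5.congr' ?_
    filter_upwards [Ioo_mem_nhdsGT hb1] with x hx
    have h6 := hconst x hx
    rw [hf] at h6
    simp only at h6
    have h4 : (2 * (Real.pi : ℂ) * I) ≠ 0 := Complex.two_pi_I_ne_zero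
    rw [div_eq_iff h4] at h6
    linear_combination -h6

/-- discrete version -/
theorem tendsto_of_exp_tendsto_nat {H : ℕ → ℂ} {w : ℂ} (hw : w ≠ 0)
    (hstep : Tendsto (fun n => H (n + 1) - H n) atTop (𝓝 0))
    (hlim : Tendsto (fun n => cexp (H n)) atTop (𝓝 w)) :
    ∃ h₀ : ℂ, cexp h₀ = w ∧ Tendsto H atTop (𝓝 h₀) := by
  have h1 : Tendsto (fun n => cexp (H n) / w) atTop (𝓝 1) := by
    have := hlim.div_const w
    rwa [div_self hw] at this
  have hlog : Tendsto (fun n => log (cexp (H n) / w)) atTop (𝓝 0) := by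
    have := (continuousAt_clog one_mem_slitPlane).tendsto.comp h1
    rwa [log_one] at this
  have hex : ∀ n, ∃ k : ℤ, H n = log w + log (cexp (H n) / w) + k * (2 * Real.pi * I) := by
    intro n
    have h2 : cexp (H n) / w ≠ 0 := div_ne_zero (Complex.exp_ne_zero _) hw
    have h3 : cexp (H n) = cexp (log w + log (cexp (H n) / w)) := by
      rw [Complex.exp_add, Complex.exp_log hw, Complex.exp_log h2]
      field_simp
    exact Complex.exp_eq_exp_iff_exists_int.mp h3
  choose k hk using hex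
  have h4 : (2 * (Real.pi : ℂ) * I) ≠ 0 := Complex.two_pi_I_ne_zero
  have hdiff : Tendsto (fun n => ((k (n + 1) - k n : ℤ) : ℂ)) atTop (𝓝 0) := by
    have h5 : Tendsto (fun n => ((H (n + 1) - H n) - (log (cexp (H (n + 1)) / w) -
        log (cexp (H n) / w))) / (2 * Real.pi * I)) atTop (𝓝 ((0 - (0 - 0)) / (2 * Real.pi * I))) := by
      refine Tendsto.div_const ?_ _
      refine hstep.sub ?_
      exact ((tendsto_add_atTop_iff_nat 1).mpr hlog).sub hlog
    simp only [sub_zero, zero_div] at h5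
    refine h5.congr fun n => ?_
    rw [div_eq_iff h4]
    push_cast
    have e1 := hk (n + 1)
    have e2 := hk n
    linear_combination e1 - e2
  have hev : ∀ᶠ n in atTop, k (n + 1) = k n := by
    have := (Metric.tendsto_nhds.mp hdiff) 1 one_pos
    filter_upwards [this] with n hn
    rw [dist_zero_right, Complex.norm_intCast] at hn
    have : |k (n + 1) - k n| < 1 := by exact_mod_cast hn
    have := Int.abs_lt_one_iff.mp this
    omega
  obtain ⟨n₀, hn₀⟩ := eventually_atTop.mp hev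
  have hconst : ∀ n, n₀ ≤ n → k n = k n₀ := by
    intro n hn
    induction n, hn using Nat.le_induction with
    | base => rfl
    | succ n hn ih => rw [hn₀ n hn, ih]
  refine ⟨log w + k n₀ * (2 * Real.pi * I), ?_, ?_⟩
  · rw [Complex.exp_add, Complex.exp_log hw, Complex.exp_int_mul_two_pi_mul_I, mul_one]
  · have h5 : Tendsto (fun n => log w + k n₀ * (2 * Real.pi * I) + log (cexp (H n) / w)) atTop
        (𝓝 (log w + k n₀ * (2 * Real.pi * I) + 0)) := hlog.const_add _
    rw [add_zero] at h5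
    refine h5.congr' ?_
    filter_upwards [eventually_ge_atTop n₀] with n hn
    have e := hk n
    rw [hconst n hn] at e
    conv_rhs => rw [e]
    ring

end TatePole
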