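import Mathlib
import Pool.Agent.Lib.MP_058a58_ag.Mertens

open Filter Topology Polynomial Set Complex

namespace TatePole

variable {b : ℕ} {P : ℕ → ℂ[X]} {S : Finset ℕ} {α : ℕ → Fin b → ℂ} {u : ℕ → ℂ}

lemma continuousOn_FF {A : ℕ → ℂ} {C : ℝ} (hA : ∀ p : ℕ, p.Prime → ‖A p‖ ≤ C) :
    ContinuousOn (FF A) (Ioi 1) := by
  intro x hx
  simp only [mem_Ioi] at hx
  set y := (1 + x) / 2 with hy
  have hy1 : 1 < y := by rw [hy]; linarith
  have hyx : y < x := by rw [hy]; linarith
  have hC : 0 ≤ C := (norm_nonneg _).trans (hA 2 Nat.prime_two)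
  have h1 : ContinuousOn (FF A) (Ici y) := by
    unfold FF
    refine continuousOn_tsum (fun p => (continuous_const.mul (continuous_pw p.2)).continuousOn)
      ((summable_pw hy1).mul_left C) fun p z hz => ?_
    rw [norm_mul]
    refine mul_le_mul (hA p p.2) ?_ (norm_nonneg _) hC
    rw [norm_pw, norm_pw]
    have h2 : (1:ℝ) ≤ p := by exact_mod_cast p.2.one_lt.le
    exact Real.rpow_le_rpow_of_exponent_le h2 (by simp only [mem_Ici] at hz; linarith)
  exact (h1.continuousAt (Ici_mem_nhds hyx)).continuousWithinAt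

lemma tsum_primes_finset (f : ℕ → ℂ) (hf : Summable fun p : Nat.Primes => f p) :
    Tendsto (fun N : ℕ => ∑ p ∈ primesTo N, f p) atTop (𝓝 (∑' p : Nat.Primes, f p)) := by
  classical
  have h1 : Summable (Set.indicator {p : ℕ | p.Prime} f) := by
    rw [← summable_subtype_iff_indicator]
    exact hf
  have h2 := h1.hasSum.tendsto_sum_nat
  have h3 : (∑' n, Set.indicator {p : ℕ | p.Prime} f n) = ∑' p : Nat.Primes, f p := by
    rw [← tsum_subtype]; rfl
  rw [h3] at h2
  rw [← tendsto_add_atTop_iff_nat 1] at h2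
  refine h2.congr fun N => ?_
  rw [Finset.sum_indicator_eq_sum_filter]
  refine Finset.sum_congr ?_ fun _ _ => rfl
  ext p
  simp only [Finset.mem_filter, Finset.mem_range, mem_ofPred_eq, mem_primesTo]
  constructor
  · rintro ⟨h1, h2⟩; exact ⟨h2, by omega⟩
  · rintro ⟨h1, h2⟩; exact ⟨by omega, h1⟩

lemma pw_one {p : ℕ} : pw p 1 = (p : ℂ)⁻¹ := by
  unfold pw
  rw [Real.rpow_neg_one]
  push_cast
  rfl

/-- finite partial products in exponential form -/
lemma partial_prod (hα : ∀ p : ℕ, p.Prime → p ∉ S → ∀ j, ‖α p j‖ ≤ 1)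
    (hP : ∀ p : ℕ, p.Prime → p ∉ S → ∀ x, (P p).eval x = ∏ j, (1 - α p j * x))
    (hu : ∀ p : ℕ, p.Prime → ‖u p‖ ≤ 1) {x : ℝ} (hx : 1 ≤ x) {N : ℕ} (hN : ∀ p ∈ S, p ≤ N) :
    ∏ p ∈ primesTo N, ((P p).eval (u p * pw p x))⁻¹ = EE P S u x *
      cexp ((∑ p ∈ primesTo N, coefA S α u p * pw p x) + ∑ p ∈ primesTo N, corr S α u p x) := by
  rw [← Finset.sum_add_distrib, Complex.exp_sum]
  rw [← Finset.prod_filter_mul_prod_filter_not (primesTo N) (fun p => p ∈ S)]
  rw [← Finset.prod_filter_mul_prod_filter_not (primesTo N) (fun p => p ∈ S)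
    (fun p => cexp (coefA S α u p * pw p x + corr S α u p x))]
  have e1 : (primesTo N).filter (fun p => p ∈ S) = S.filter Nat.Prime := by
    ext p
    simp only [Finset.mem_filter, mem_primesTo]
    constructor
    · rintro ⟨⟨h1, _⟩, h2⟩; exact ⟨h2, h1⟩
    · rintro ⟨h1, h2⟩; exact ⟨⟨h2, hN p h1⟩, h1⟩
  have e2 : ∏ p ∈ (primesTo N).filter (fun p => p ∈ S),
      cexp (coefA S α u p * pw p x + corr S α u p x) = 1 := by
    refine Finset.prod_eq_one fun p hp => ?_
    have h2 := (Finset.mem_filter.mp hp).2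
    unfold coefA corr
    rw [if_pos h2, if_pos h2]; simp
  rw [e2, one_mul, e1]
  unfold EE
  congr 1
  refine Finset.prod_congr rfl fun p hp => ?_
  have h2 := Finset.mem_filter.mp hp
  exact good_factor hα hP hu (mem_primesTo.mp h2.1).1 h2.2 hx

lemma continuousAt_EE (hbad : ∀ p ∈ S, p.Prime → (P p).eval (u p * pw p 1) ≠ 0) :
    Tendsto (EE P S u) (𝓝[>] 1) (𝓝 (EE P S u 1)) := by
  unfold EE
  refine Tendsto.mono_left ?_ (nhdsWithin_le_nhds (s := Ioi (1:ℝ)))
  refine tendsto_finsetProd _ fun p hp => ?_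
  have h1 := Finset.mem_filter.mp hp
  have hc : Continuous fun x => (P p).eval (u p * pw p x) :=
    (P p).continuous.comp (continuous_const.mul (continuous_pw h1.2))
  exact (hc.tendsto 1).inv₀ (hbad p h1.1 h1.2)

lemma EE_ne_zero (hbad : ∀ p ∈ S, p.Prime → (P p).eval (u p * pw p 1) ≠ 0) :
    EE P S u 1 ≠ 0 := by
  unfold EE
  refine Finset.prod_ne_zero_iff.mpr fun p hp => ?_
  have h1 := Finset.mem_filter.mp hp
  exact inv_ne_zero (hbad p h1.1 h1.2)

lemma sum_primesTo_succ (f : ℕ → ℂ) (n : ℕ) :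
    ∑ p ∈ primesTo (n + 1), f p = (∑ p ∈ primesTo n, f p) +
      (if (n + 1).Prime then f (n + 1) else 0) := by
  have h1 : Finset.Icc 1 (n + 1) = insert (n + 1) (Finset.Icc 1 n) := by
    ext k; simp only [Finset.mem_Icc, Finset.mem_insert]; omega
  unfold primesTo
  rw [h1, Finset.filter_insert]
  split_ifs with h
  · rw [Finset.sum_insert]
    · ring
    · simp
  · simp

lemma loglog_step : Tendsto (fun n : ℕ => Real.log (Real.log ((n + 1 : ℕ) : ℝ)) -
    Real.log (Real.log (n : ℝ))) atTop (𝓝 0) := by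
  have h1 : Tendsto (fun N : ℕ => Real.log (N : ℝ)) atTop atTop :=
    Real.tendsto_log_atTop.comp tendsto_natCast_atTop_atTop
  have h2 : Tendsto (fun n : ℕ => (Real.log ((n:ℝ) + 1) - Real.log n) / Real.log n) atTop (𝓝 0) :=
    Real.tendsto_log_nat_add_one_sub_log.div_atTop h1
  have h3 : Tendsto (fun n : ℕ => Real.log (1 + (Real.log ((n:ℝ) + 1) - Real.log n) / Real.log n))
      atTop (𝓝 (Real.log 1)) := by
    have h4 : Tendsto (fun n : ℕ => 1 + (Real.log ((n:ℝ) + 1) - Real.log n) / Real.log n) atTop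
        (𝓝 1) := by simpa using h2.const_add 1
    exact (Real.continuousAt_log one_ne_zero).tendsto.comp h4
  rw [Real.log_one] at h3
  refine h3.congr' ?_
  filter_upwards [eventually_ge_atTop 2] with n hn
  have hn' : (2:ℝ) ≤ n := by exact_mod_cast hn
  have hlog : 0 < Real.log (n : ℝ) := Real.log_pos (by linarith)
  have hlog2 : 0 < Real.log ((n : ℝ) + 1) := Real.log_pos (by linarith)
  have e : 1 + (Real.log ((n:ℝ) + 1) - Real.log n) / Real.log n =
      Real.log ((n:ℝ) + 1) / Real.log n := by field_simp; ring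
  rw [e, Real.log_div hlog2.ne' hlog.ne']
  push_cast
  rfl

lemma log_cpow_aux {y : ℝ} (hy : 0 < y) (r : ℤ) :
    cexp ((r * Real.log y : ℝ) : ℂ) = ((y : ℝ) : ℂ) ^ r := by
  have h1 : cexp ((Real.log y : ℝ) : ℂ) = (y : ℂ) := by
    rw [← Complex.ofReal_exp, Real.exp_log hy]
  have h2 : ((r * Real.log y : ℝ) : ℂ) = (r : ℂ) * ((Real.log y : ℝ) : ℂ) := by
    rw [Complex.ofReal_mul, Complex.ofReal_intCast]
  rw [h2, Complex.exp_int_mul, h1]

/-- **The equivalence between the order at the edge and the Mertens type asymptotic.** -/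
theorem main_iff (hα : ∀ p : ℕ, p.Prime → p ∉ S → ∀ j, ‖α p j‖ ≤ 1)
    (hP : ∀ p : ℕ, p.Prime → p ∉ S → ∀ x, (P p).eval x = ∏ j, (1 - α p j * x))
    (hu : ∀ p : ℕ, p.Prime → ‖u p‖ ≤ 1)
    (hbad : ∀ p ∈ S, p.Prime → (P p).eval (u p * pw p 1) ≠ 0) (r : ℤ) {c : ℂ} (hc : c ≠ 0) :
    Tendsto (fun x : ℝ => ((x - 1 : ℝ) : ℂ) ^ r * ZZ P u x) (𝓝[>] 1) (𝓝 c) ↔
    Tendsto (fun N : ℕ => ((Real.log N : ℝ) : ℂ) ^ (-r) *
      ∏ p ∈ primesTo N, ((P p).eval (u p * pw p 1))⁻¹) atTop
      (𝓝 (c * Real.exp (r * Real.eulerMascheroniConstant))) := by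
  set A := coefA S α u with hAdef
  have hA : ∀ p : ℕ, p.Prime → ‖A p‖ ≤ b := norm_coefA_le hα hu
  have hE := EE_ne_zero hbad
  have hEt := continuousAt_EE hbad
  have hG : Tendsto (GG S α u) (𝓝[>] 1) (𝓝 (GG S α u 1)) := by
    have := continuousOn_GG (S := S) hα hu 1 (by simp)
    exact this.tendsto.mono_left (nhdsWithin_mono 1 Ioi_subset_Ici_self)
  have hshift : Tendsto (fun δ : ℝ => 1 + δ) (𝓝[>] 0) (𝓝[>] (1:ℝ)) := tendsto_one_add tendsto_id
  have hshift' : Tendsto (fun x : ℝ => x - 1) (𝓝[>] 1) (𝓝[>] (0:ℝ)) := by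
    rw [tendsto_nhdsWithin_iff]
    refine ⟨?_, ?_⟩
    · have h3 : Continuous (fun x : ℝ => x - 1) := by fun_prop
      have h4 := (h3.tendsto 1).mono_left (nhdsWithin_le_nhds (s := Ioi (1:ℝ)))
      simpa using h4
    · filter_upwards [self_mem_nhdsWithin] with x hx
      simp only [mem_Ioi] at hx ⊢
      linarith
  have hcorr : Tendsto (fun N : ℕ => ∑ p ∈ primesTo N, corr S α u p 1) atTop
      (𝓝 (GG S α u 1)) := tsum_primes_finset (fun p => corr S α u p 1) (summable_corr hα hu le_rfl)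
  have hsumA : ∀ N : ℕ, ∑ p ∈ primesTo N, A p * pw p 1 = ∑ p ∈ primesTo N, A p / p := by
    intro N
    refine Finset.sum_congr rfl fun p _ => ?_
    rw [pw_one, div_eq_mul_inv]
  obtain ⟨N₀, hN₀⟩ : ∃ N₀ : ℕ, ∀ p ∈ S, p ≤ N₀ := ⟨S.sup id, fun p hp => Finset.le_sup (f := id) hp⟩
  have hexpγ : ((Real.exp (r * Real.eulerMascheroniConstant) : ℝ) : ℂ) =
      cexp ((r * Real.eulerMascheroniConstant : ℝ) : ℂ) := by push_cast; rfl
  have hEev : ∀ᶠ x in 𝓝[>] (1:ℝ), EE P S u x ≠ 0 := hEt.eventually_ne hE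
  have hmain : ∀ x : ℝ, 1 < x → cexp (FF A x + GG S α u x + (r * Real.log (x - 1) : ℝ)) *
      EE P S u x = ((x - 1 : ℝ) : ℂ) ^ r * ZZ P u x := by
    intro x hx
    rw [ZZ_eq hα hP hu hx, Complex.exp_add, log_cpow_aux (by linarith) r]
    ring
  have hpp : ∀ N : ℕ, N₀ ≤ N → 2 ≤ N → ((Real.log N : ℝ) : ℂ) ^ (-r) *
      ∏ p ∈ primesTo N, ((P p).eval (u p * pw p 1))⁻¹ = EE P S u 1 *
      cexp ((∑ p ∈ primesTo N, A p / p) - (r * Real.log (Real.log N) : ℝ) +
        ∑ p ∈ primesTo N, corr S α u p 1) := by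
    intro N hN hN2
    have hlog : 0 < Real.log (N : ℝ) := Real.log_pos (by exact_mod_cast hN2)
    rw [partial_prod hα hP hu le_rfl (fun p hp => (hN₀ p hp).trans hN), hsumA]
    have e1 : (∑ p ∈ primesTo N, A p / p) - (r * Real.log (Real.log N) : ℝ) +
        ∑ p ∈ primesTo N, corr S α u p 1 = ((((-r : ℤ) : ℝ) * Real.log (Real.log N) : ℝ) : ℂ) +
        ((∑ p ∈ primesTo N, A p / p) + ∑ p ∈ primesTo N, corr S α u p 1) := by
      push_cast; ring
    rw [e1]
    generalize (∑ p ∈ primesTo N, A p / (p:ℂ)) + ∑ p ∈ primesTo N, corr S α u p 1 = B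
    rw [Complex.exp_add, log_cpow_aux hlog (-r)]
    ring
  constructor
  · intro h
    have hcont : ContinuousOn (fun x => FF A x + GG S α u x + ((r * Real.log (x - 1) : ℝ) : ℂ))
        (Ioi 1) := by
      refine ((continuousOn_FF hA).add ((continuousOn_GG (S := S) hα hu).mono
        Ioi_subset_Ici_self)).add ?_
      refine Complex.continuous_ofReal.comp_continuousOn ?_
      refine continuousOn_const.mul (ContinuousOn.log (by fun_prop) ?_)
      intro x hx
      simp only [mem_Ioi] at hx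
      have h : 0 < x - 1 := by linarith
      exact h.ne'
    have hlim : Tendsto (fun x => cexp (FF A x + GG S α u x + ((r * Real.log (x - 1) : ℝ) : ℂ)))
        (𝓝[>] 1) (𝓝 (c / EE P S u 1)) := by
      refine (h.div hEt hE).congr' ?_
      filter_upwards [hEev, self_mem_nhdsWithin] with x hx hx1
      rw [Pi.div_apply, div_eq_iff hx]
      exact (hmain x hx1).symm
    obtain ⟨h₀, hh₀, hth⟩ := tendsto_of_exp_tendsto hcont (div_ne_zero hc hE) hlim
    have h1 : Tendsto (fun δ : ℝ => FF A (1 + δ) + (r * Real.log δ : ℝ)) (𝓝[>] 0)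
        (𝓝 (h₀ - GG S α u 1)) := by
      refine ((hth.sub hG).comp hshift).congr fun δ => ?_
      simp only [Function.comp, add_sub_cancel_left]
      ring
    have h2 := complex_tauber hA h1
    have h3 := (Complex.continuous_exp.tendsto _).comp (h2.add hcorr)
    have h4 := h3.const_mul (EE P S u 1)
    have e2 : EE P S u 1 * cexp (h₀ - GG S α u 1 + (r * Real.eulerMascheroniConstant : ℝ) +
        GG S α u 1) = c * Real.exp (r * Real.eulerMascheroniConstant) := by
      have : h₀ - GG S α u 1 + ((r * Real.eulerMascheroniConstant : ℝ) : ℂ) + GG S α u 1 =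
        h₀ + ((r * Real.eulerMascheroniConstant : ℝ) : ℂ) := by ring
      rw [this, Complex.exp_add, hh₀, hexpγ]
      field_simp
    rw [e2] at h4
    refine h4.congr' ?_
    filter_upwards [eventually_ge_atTop N₀, eventually_ge_atTop 2] with N hN hN2
    rw [hpp N hN hN2]
    rfl
  · intro h
    set H : ℕ → ℂ := fun N => (∑ p ∈ primesTo N, A p / p) - (r * Real.log (Real.log N) : ℝ) +
        ∑ p ∈ primesTo N, corr S α u p 1 with hH
    have hw : c * Real.exp (r * Real.eulerMascheroniConstant) / EE P S u 1 ≠ 0 :=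
      div_ne_zero (mul_ne_zero hc (by exact_mod_cast (Real.exp_pos _).ne')) hE
    have hlim : Tendsto (fun N => cexp (H N)) atTop
        (𝓝 (c * Real.exp (r * Real.eulerMascheroniConstant) / EE P S u 1)) := by
      refine (h.div_const (EE P S u 1)).congr' ?_
      filter_upwards [eventually_ge_atTop N₀, eventually_ge_atTop 2] with N hN hN2
      rw [hpp N hN hN2, mul_div_cancel_left₀ _ hE]
    have hstep : Tendsto (fun n => H (n + 1) - H n) atTop (𝓝 0) := by
      have s1 : Tendsto (fun n : ℕ => (if (n + 1).Prime then A (n + 1) / ((n + 1 : ℕ) : ℂ) else 0))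
          atTop (𝓝 0) := by
        have hb : Tendsto (fun n : ℕ => (b:ℝ) / ((n:ℝ) + 1)) atTop (𝓝 0) := by
          have := (tendsto_one_div_add_atTop_nhds_zero_nat (𝕜 := ℝ)).const_mul (b:ℝ)
          rw [mul_zero] at this
          refine this.congr fun n => ?_
          rw [mul_one_div]
        refine squeeze_zero_norm (fun n => ?_) hb
        split_ifs with h
        · rw [norm_div, Complex.norm_natCast]
          push_cast
          gcongr
          exact hA _ h
        · rw [norm_zero]; positivity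
      have s2 : Tendsto (fun n : ℕ => (((r:ℝ) * (Real.log (Real.log ((n + 1 : ℕ) : ℝ)) -
          Real.log (Real.log (n : ℝ))) : ℝ) : ℂ)) atTop (𝓝 0) := by
        have := (Complex.continuous_ofReal.tendsto _).comp (loglog_step.const_mul (r:ℝ))
        rw [mul_zero, Complex.ofReal_zero] at this
        exact this
      have s3 : Tendsto (fun n : ℕ => (∑ p ∈ primesTo (n + 1), corr S α u p 1) -
          ∑ p ∈ primesTo n, corr S α u p 1) atTop (𝓝 0) := by
        have := ((tendsto_add_atTop_iff_nat 1).mpr hcorr).sub hcorr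
        simpa using this
      have s4 := (s1.sub s2).add s3
      simp only [sub_zero, add_zero] at s4
      refine s4.congr fun n => ?_
      rw [hH]
      simp only
      rw [sum_primesTo_succ (fun p => A p / (p:ℂ))]
      push_cast
      ring
    obtain ⟨h₀, hh₀, hth⟩ := tendsto_of_exp_tendsto_nat hw hstep hlim
    have h1 : Tendsto (fun N : ℕ => (∑ p ∈ primesTo N, A p / p) -
        (r * Real.log (Real.log N) : ℝ)) atTop (𝓝 (h₀ - GG S α u 1)) := by
      refine (hth.sub hcorr).congr fun N => ?_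
      rw [hH]; ring
    have h2 := complex_abel hA h1
    have h3 : Tendsto (fun x : ℝ => FF A x + GG S α u x + ((r * Real.log (x - 1) : ℝ) : ℂ))
        (𝓝[>] 1) (𝓝 (h₀ - GG S α u 1 - (r * Real.eulerMascheroniConstant : ℝ) +
          GG S α u 1)) := by
      refine ((h2.comp hshift').add hG).congr fun x => ?_
      simp only [Function.comp, add_sub_cancel]
      ring
    have h4 := ((Complex.continuous_exp.tendsto _).comp h3).mul hEt
    have e2 : cexp (h₀ - GG S α u 1 - (r * Real.eulerMascheroniConstant : ℝ) +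
        GG S α u 1) * EE P S u 1 = c := by
      have : h₀ - GG S α u 1 - ((r * Real.eulerMascheroniConstant : ℝ) : ℂ) + GG S α u 1 =
        h₀ - ((r * Real.eulerMascheroniConstant : ℝ) : ℂ) := by ring
      rw [this, Complex.exp_sub, hh₀, hexpγ]
      have := Complex.exp_ne_zero ((r * Real.eulerMascheroniConstant : ℝ) : ℂ)
      field_simp
    rw [e2] at h4
    refine h4.congr' ?_
    filter_upwards [self_mem_nhdsWithin] with x hx
    simp only [Function.comp]
    exact hmain x hx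

end TatePole
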