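import Mathlib
import Pool.Agent.Lib.MP_058a58_ag.LocalFactor
import Pool.Agent.Lib.MP_058a58_ag.MainIff

open Polynomial Filter Topology Set

namespace TatePole

lemma cpow_neg_eq_pw (p : ℕ) (x : ℝ) : (p : ℂ) ^ (-(x : ℂ)) = pw p x := by
  unfold pw
  rw [Complex.ofReal_cpow (Nat.cast_nonneg _)]
  push_cast
  rfl

lemma LFun_eq_ZZ (P : ℕ → ℂ[X]) (m : ℕ) (x : ℝ) :
    LFun P m (((m : ℝ) + x : ℝ) : ℂ) = ZZ P (fun _ => 1) x := by
  unfold LFun ZZ
  congr 1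
  ext p
  congr 2
  rw [one_mul, ← cpow_neg_eq_pw]
  congr 1
  push_cast
  ring

theorem exists_alpha {ℓ : ℕ} [Fact ℓ.Prime] {W : Type*} [AddCommGroup W]
    [Module ℚ_[ℓ] W] [FiniteDimensional ℚ_[ℓ] W] {ρ : Representation ℚ_[ℓ] GQ W}
    {ι : ℚ_[ℓ] →+* ℂ} {S : Finset ℕ} {P : ℕ → ℂ[X]}
    (h : ∀ p : ℕ, p.Prime → p ∉ S → IsPureLocalFactor ρ ι p (P p)) :
    ∃ α : ℕ → Fin (Module.finrank ℚ_[ℓ] W) → ℂ,
      (∀ p : ℕ, p.Prime → p ∉ S → ∀ j, ‖α p j‖ = 1) ∧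
      (∀ p : ℕ, p.Prime → p ∉ S → ∀ x, (P p).eval x = ∏ j, (1 - α p j * x)) := by
  classical
  have h1 : ∀ p : ℕ, ∃ a : Fin (Module.finrank ℚ_[ℓ] W) → ℂ, p.Prime → p ∉ S →
      (∀ j, ‖a j‖ = 1) ∧ ∀ x, (P p).eval x = ∏ j, (1 - a j * x) := by
    intro p
    by_cases hp : p.Prime ∧ p ∉ S
    · obtain ⟨a, ha⟩ := (h p hp.1 hp.2).exists_roots hp.1
      exact ⟨a, fun _ _ => ha⟩
    · exact ⟨fun _ => 0, fun h1 h2 => (hp ⟨h1, h2⟩).elim⟩
  choose α hα using h1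
  exact ⟨α, fun p h1 h2 => (hα p h1 h2).1, fun p h1 h2 => (hα p h1 h2).2⟩

lemma coeff_one_of_eval_prod {b : ℕ} {Q : ℂ[X]} {a : Fin b → ℂ}
    (h : ∀ x, Q.eval x = ∏ j, (1 - a j * x)) : Q.coeff 1 = -∑ j, a j := by
  have hQ : Q = ∏ j, (1 - C (a j) * X) := by
    apply Polynomial.funext
    intro x
    rw [h, eval_prod]
    simp
  have key : ∀ s : Finset (Fin b), (∏ j ∈ s, (1 - C (a j) * X : ℂ[X])).coeff 0 = 1 ∧
      (∏ j ∈ s, (1 - C (a j) * X : ℂ[X])).coeff 1 = -∑ j ∈ s, a j := by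
    intro s
    induction s using Finset.induction with
    | empty => simp [coeff_one]
    | insert j s hj ih =>
      rw [Finset.prod_insert hj, Finset.sum_insert hj, mul_coeff_zero, mul_coeff_one, ih.1, ih.2]
      simp [coeff_one]
  rw [hQ]
  exact (key Finset.univ).2

lemma prod_one_sub_approx {b : ℕ} {a : Fin b → ℂ} (ha : ∀ j, ‖a j‖ ≤ 1) {x : ℂ} (hx : ‖x‖ ≤ 1) :
    ‖(∏ j, (1 - a j * x)) - (1 - (∑ j, a j) * x)‖ ≤ 3 ^ b * ‖x‖ ^ 2 := by
  have key : ∀ s : Finset (Fin b), ‖(∏ j ∈ s, (1 - a j * x)) - (1 - (∑ j ∈ s, a j) * x)‖ ≤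
      3 ^ s.card * ‖x‖ ^ 2 := by
    intro s
    induction s using Finset.induction with
    | empty => simp
    | insert j s hj ih =>
      rw [Finset.prod_insert hj, Finset.sum_insert hj, Finset.card_insert_of_notMem hj]
      set E := (∏ j ∈ s, (1 - a j * x)) - (1 - (∑ j ∈ s, a j) * x) with hE
      have h1 : (1 - a j * x) * (∏ j ∈ s, (1 - a j * x)) - (1 - (a j + ∑ j ∈ s, a j) * x) =
          E * (1 - a j * x) + (∑ j ∈ s, a j) * a j * x ^ 2 := by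
        rw [hE]; ring
      rw [h1]
      have h2 : ‖1 - a j * x‖ ≤ 2 := by
        calc ‖1 - a j * x‖ ≤ ‖(1:ℂ)‖ + ‖a j * x‖ := norm_sub_le _ _
          _ ≤ 1 + 1 * 1 := by
              rw [norm_one, norm_mul]
              gcongr
              exact ha j
          _ = 2 := by norm_num
      have h3 : ‖∑ j ∈ s, a j‖ ≤ s.card := by
        refine (norm_sum_le _ _).trans ?_
        calc ∑ j ∈ s, ‖a j‖ ≤ ∑ j ∈ s, (1:ℝ) := Finset.sum_le_sum fun j _ => ha j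
          _ = s.card := by simp
      have h4 : (s.card : ℝ) ≤ 3 ^ s.card := by
        have := Nat.lt_pow_self (n := s.card) (show 1 < 3 by norm_num)
        exact_mod_cast this.le
      calc ‖E * (1 - a j * x) + (∑ j ∈ s, a j) * a j * x ^ 2‖
          ≤ ‖E‖ * ‖1 - a j * x‖ + ‖∑ j ∈ s, a j‖ * ‖a j‖ * ‖x‖ ^ 2 := by
            refine (norm_add_le _ _).trans ?_
            rw [norm_mul, norm_mul, norm_mul, norm_pow]
        _ ≤ (3 ^ s.card * ‖x‖ ^ 2) * 2 + 3 ^ s.card * 1 * ‖x‖ ^ 2 := by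
            gcongr
            · exact h3.trans h4
            · exact ha j
        _ = 3 ^ (s.card + 1) * ‖x‖ ^ 2 := by ring
  simpa using key Finset.univ

/-- the primes up to `N` as a finite set of elements of `Nat.Primes`. -/
noncomputable def primesSub (N : ℕ) : Finset Nat.Primes :=
  (primesTo N).preimage (fun p : Nat.Primes => (p : ℕ)) (fun _ _ _ _ h => Subtype.ext h)

lemma mem_primesSub {N : ℕ} {p : Nat.Primes} : p ∈ primesSub N ↔ (p : ℕ) ≤ N := by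
  constructor
  · intro h
    exact (mem_primesTo.mp (Finset.mem_preimage.mp h)).2
  · intro h
    exact Finset.mem_preimage.mpr (mem_primesTo.mpr ⟨p.2, h⟩)

lemma tendsto_primesSub : Tendsto primesSub atTop atTop := by
  refine tendsto_atTop_finset_of_monotone ?_ ?_
  · intro M N hMN p hp
    exact mem_primesSub.mpr ((mem_primesSub.mp hp).trans hMN)
  · intro p
    exact ⟨p, mem_primesSub.mpr le_rfl⟩

lemma prod_primesSub (f : ℕ → ℂ) (N : ℕ) :
    ∏ p ∈ primesSub N, f p = ∏ p ∈ primesTo N, f p := by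
  refine Finset.prod_bij (fun p _ => (p : ℕ)) ?_ ?_ ?_ ?_
  · intro p hp
    exact mem_primesTo.mpr ⟨p.2, mem_primesSub.mp hp⟩
  · intro a _ b _ h
    exact Subtype.ext h
  · intro q hq
    exact ⟨(⟨q, (mem_primesTo.mp hq).1⟩ : Nat.Primes), mem_primesSub.mpr (mem_primesTo.mp hq).2, rfl⟩
  · intro p hp
    rfl

lemma tprod_primes_finset (f : ℕ → ℂ) (hf : Summable fun p : Nat.Primes => ‖f p - 1‖) :
    Tendsto (fun N : ℕ => ∏ p ∈ primesTo N, f p) atTop (𝓝 (∏' p : Nat.Primes, f p)) := by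
  have h1 : Multipliable fun p : Nat.Primes => 1 + (f p - 1) :=
    multipliable_one_add_of_summable hf
  have h2 : Multipliable fun p : Nat.Primes => f p := by
    refine h1.congr fun p => by ring
  have h3 := h2.hasProd
  have h4 := h3.comp tendsto_primesSub
  refine h4.congr fun N => ?_
  exact prod_primesSub f N

lemma tprod_primes_ne_zero (f : ℕ → ℂ) (hf : Summable fun p : Nat.Primes => ‖f p - 1‖)
    (h0 : ∀ p : ℕ, p.Prime → f p ≠ 0) : ∏' p : Nat.Primes, f p ≠ 0 := by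
  have h1 := tprod_one_add_ne_zero_of_summable (f := fun p : Nat.Primes => f p - 1)
    (fun p => by simpa using h0 p p.2) hf
  simpa using h1

/-- Replacing `P_p(1/p)⁻¹` by `n_p = 1 + a_p / p + O(p ^ (-3/2))` changes the partial products by
a factor that converges to a nonzero limit. -/
lemma exists_ratio_limit {b : ℕ} {P : ℕ → ℂ[X]} {S : Finset ℕ} {α : ℕ → Fin b → ℂ}
    (hα : ∀ p : ℕ, p.Prime → p ∉ S → ∀ j, ‖α p j‖ ≤ 1)
    (hP : ∀ p : ℕ, p.Prime → p ∉ S → ∀ x, (P p).eval x = ∏ j, (1 - α p j * x))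
    (hbad : ∀ p ∈ S, p.Prime → (P p).eval ((p : ℂ)⁻¹) ≠ 0)
    (n : ℕ → ℂ) (hn : ∀ p : ℕ, p.Prime → n p ≠ 0) (K : ℝ)
    (hK : ∀ p : ℕ, p.Prime → p ∉ S →
      ‖n p - (1 - (P p).coeff 1 * (p : ℂ)⁻¹)‖ ≤ K * (p : ℝ) ^ (-(3 / 2) : ℝ)) :
    (∏' p : Nat.Primes, (n p * (P p).eval ((p : ℂ)⁻¹))) ≠ 0 ∧
    Tendsto (fun N : ℕ => ∏ p ∈ primesTo N, (n p * (P p).eval ((p : ℂ)⁻¹)))
      atTop (𝓝 (∏' p : Nat.Primes, (n p * (P p).eval ((p : ℂ)⁻¹)))) := by
  set f : ℕ → ℂ := fun p => n p * (P p).eval ((p : ℂ)⁻¹) with hf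
  have hf0 : ∀ p : ℕ, p.Prime → f p ≠ 0 := by
    intro p hp
    refine mul_ne_zero (hn p hp) ?_
    by_cases hpS : p ∈ S
    · exact hbad p hpS hp
    · rw [hP p hp hpS]
      refine Finset.prod_ne_zero_iff.mpr fun j _ h0 => ?_
      have h1 : ‖α p j * (p : ℂ)⁻¹‖ < 1 := by
        rw [norm_mul, norm_inv, Complex.norm_natCast]
        have h2 : (2:ℝ) ≤ p := by exact_mod_cast hp.two_le
        calc ‖α p j‖ * (p : ℝ)⁻¹ ≤ 1 * (2:ℝ)⁻¹ := by
              gcongr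
              exact hα p hp hpS j
          _ < 1 := by norm_num
      rw [sub_eq_zero] at h0
      rw [← h0, norm_one] at h1
      exact lt_irrefl _ h1
  have hsum : Summable fun p : Nat.Primes => ‖f p - 1‖ := by
    set K' : ℝ := (b : ℝ) ^ 2 + (1 + b) * 3 ^ b + |K| * 2 ^ b with hK'
    have hs := (Nat.Primes.summable_rpow.mpr (show (-(3/2):ℝ) < -1 by norm_num)).mul_left K'
    have hfin : {p : Nat.Primes | (p : ℕ) ∈ S}.Finite :=
      (S.finite_toSet).preimage (fun _ _ _ _ h => Subtype.ext h)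
    refine Summable.of_norm_bounded_eventually hs ?_
    refine hfin.subset ?_
    intro p hp
    by_contra hpS
    apply hp
    have hpS' : (p : ℕ) ∉ S := hpS
    show ‖‖f p - 1‖‖ ≤ K' * (p : ℝ) ^ (-(3 / 2) : ℝ)
    rw [norm_norm]
    set x : ℂ := ((p : ℕ) : ℂ)⁻¹ with hx
    set A : ℂ := ∑ j, α p j with hA
    have hp2 : (2:ℝ) ≤ ((p : ℕ) : ℝ) := by exact_mod_cast p.2.two_le
    have hp0 : (0:ℝ) < ((p : ℕ) : ℝ) := by linarith
    have hxn : ‖x‖ = (((p : ℕ) : ℝ))⁻¹ := by rw [hx, norm_inv, Complex.norm_natCast]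
    have hx1 : ‖x‖ ≤ 1 := by
      rw [hxn]
      exact inv_le_one_of_one_le₀ (by linarith)
    have hx2 : ‖x‖ ^ 2 ≤ ((p : ℕ) : ℝ) ^ (-(3 / 2) : ℝ) := by
      rw [hxn, inv_pow, ← Real.rpow_natCast, ← Real.rpow_neg hp0.le]
      exact Real.rpow_le_rpow_of_exponent_le (by linarith) (by norm_num)
    have hAn : ‖A‖ ≤ b := by
      refine (norm_sum_le _ _).trans ?_
      calc ∑ j, ‖α p j‖ ≤ ∑ _j : Fin b, (1:ℝ) := Finset.sum_le_sum fun j _ => hα p p.2 hpS' j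
        _ = b := by simp
    have h1 := hK p p.2 hpS'
    rw [coeff_one_of_eval_prod (hP p p.2 hpS')] at h1
    have h2 := prod_one_sub_approx (hα p p.2 hpS') hx1
    rw [← hP p p.2 hpS'] at h2
    have h3 : ‖(P p).eval x‖ ≤ 2 ^ b := by
      rw [hP p p.2 hpS', norm_prod]
      calc ∏ j, ‖1 - α p j * x‖ ≤ ∏ _j : Fin b, (2:ℝ) := by
            refine Finset.prod_le_prod (fun j _ => norm_nonneg _) fun j _ => ?_
            refine (norm_sub_le _ _).trans ?_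
            rw [norm_one, norm_mul]
            have := hα p p.2 hpS' j
            nlinarith [norm_nonneg (α p j), norm_nonneg x]
        _ = 2 ^ b := by simp
    have h1' : ‖n p - (1 + A * x)‖ ≤ |K| * ((p : ℕ) : ℝ) ^ (-(3 / 2) : ℝ) := by
      have h5 : n p - (1 + A * x) = n p - (1 - -A * x) := by ring
      rw [h5]
      refine h1.trans ?_
      gcongr
      exact le_abs_self K
    have h4 : f p - 1 = -(A ^ 2 * x ^ 2) + (1 + A * x) * ((P p).eval x - (1 - A * x)) +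
        (n p - (1 + A * x)) * (P p).eval x := by
      show n p * (P p).eval x - 1 = _
      ring
    have h6 : ‖1 + A * x‖ ≤ 1 + b := by
      refine (norm_add_le _ _).trans ?_
      rw [norm_one, norm_mul]
      have hb : (0:ℝ) ≤ b := Nat.cast_nonneg b
      nlinarith [norm_nonneg A, norm_nonneg x]
    set q : ℝ := ((p : ℕ) : ℝ) ^ (-(3 / 2) : ℝ) with hq
    have hq0 : 0 ≤ q := by rw [hq]; positivity
    calc ‖f p - 1‖ ≤ ‖A‖ ^ 2 * ‖x‖ ^ 2 + ‖1 + A * x‖ * ‖(P p).eval x - (1 - A * x)‖ +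
        ‖n p - (1 + A * x)‖ * ‖(P p).eval x‖ := by
          rw [h4]
          refine (norm_add₃_le).trans ?_
          rw [norm_neg, norm_mul, norm_mul, norm_mul, norm_pow, norm_pow]
      _ ≤ (b : ℝ) ^ 2 * q + (1 + b) * (3 ^ b * q) + (|K| * q) * 2 ^ b := by
          have h7 : ‖(P p).eval x - (1 - A * x)‖ ≤ 3 ^ b * q := h2.trans (by gcongr)
          gcongr
      _ = K' * q := by rw [hK']; ring
  exact ⟨tprod_primes_ne_zero f hsum hf0, tprod_primes_finset f hsum⟩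

lemma tendsto_shift (m : ℕ) {β : Type*} {l : Filter β} (f : ℝ → β) :
    Tendsto (fun s : ℝ => f (s - m)) (𝓝[>] ((m : ℝ) + 1)) l ↔ Tendsto f (𝓝[>] (1 : ℝ)) l := by
  have h1 : Tendsto (fun s : ℝ => s - m) (𝓝[>] ((m : ℝ) + 1)) (𝓝[>] (1 : ℝ)) := by
    rw [tendsto_nhdsWithin_iff]
    refine ⟨?_, ?_⟩
    · have h3 : Continuous (fun x : ℝ => x - m) := by fun_prop
      have h4 := (h3.tendsto ((m : ℝ) + 1)).mono_left (nhdsWithin_le_nhds (s := Ioi ((m : ℝ) + 1)))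
      simpa using h4
    · filter_upwards [self_mem_nhdsWithin] with x hx
      simp only [mem_Ioi] at hx ⊢
      linarith
  have h2 : Tendsto (fun x : ℝ => x + m) (𝓝[>] (1 : ℝ)) (𝓝[>] ((m : ℝ) + 1)) := by
    rw [tendsto_nhdsWithin_iff]
    refine ⟨?_, ?_⟩
    · have h3 : Continuous (fun x : ℝ => x + m) := by fun_prop
      have h4 := (h3.tendsto (1 : ℝ)).mono_left (nhdsWithin_le_nhds (s := Ioi (1 : ℝ)))
      rw [add_comm (m : ℝ) 1]
      exact h4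
    · filter_upwards [self_mem_nhdsWithin] with x hx
      simp only [mem_Ioi] at hx ⊢
      linarith
  constructor
  · intro h
    have := h.comp h2
    refine this.congr fun x => ?_
    simp [Function.comp]
  · intro h
    exact h.comp h1

theorem mertens_form {ℓ : ℕ} [Fact ℓ.Prime] {W : Type*} [AddCommGroup W] [Module ℚ_[ℓ] W]
    [FiniteDimensional ℚ_[ℓ] W] {ρ : Representation ℚ_[ℓ] GQ W} {ι : ℚ_[ℓ] →+* ℂ}
    {S : Finset ℕ} {P : ℕ → ℂ[X]}
    (hgood : ∀ p : ℕ, p.Prime → p ∉ S → IsPureLocalFactor ρ ι p (P p))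
    (hbad : ∀ p ∈ S, p.Prime → (P p).eval ((p : ℂ)⁻¹) ≠ 0)
    (n : ℕ → ℂ) (hn : ∀ p : ℕ, p.Prime → n p ≠ 0) (K : ℝ)
    (hK : ∀ p : ℕ, p.Prime → p ∉ S →
      ‖n p - (1 - (P p).coeff 1 * (p : ℂ)⁻¹)‖ ≤ K * (p : ℝ) ^ (-(3 / 2) : ℝ))
    (m : ℕ) (r : ℤ) {c : ℂ} (hc : c ≠ 0) :
    Tendsto (fun s : ℝ => ((s : ℂ) - (m + 1)) ^ r * LFun P m s) (𝓝[>] ((m : ℝ) + 1)) (𝓝 c) ↔
    Tendsto (fun N : ℕ => (Real.log N : ℂ) ^ (-r) *
      ∏ p ∈ (Finset.Icc 1 N).filter Nat.Prime, n p) atTop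
      (𝓝 (c * Real.exp (r * Real.eulerMascheroniConstant) *
        ∏' p : Nat.Primes, (n p * (P p).eval ((p : ℂ)⁻¹)))) := by
  obtain ⟨α, hα1, hP⟩ := exists_alpha hgood
  have hα : ∀ p : ℕ, p.Prime → p ∉ S → ∀ j, ‖α p j‖ ≤ 1 := fun p h1 h2 j => (hα1 p h1 h2 j).le
  obtain ⟨hD0, hD⟩ := exists_ratio_limit hα hP hbad n hn K hK
  set D := ∏' p : Nat.Primes, (n p * (P p).eval ((p : ℂ)⁻¹)) with hDdef
  have hbad' : ∀ p ∈ S, p.Prime → (P p).eval ((fun _ : ℕ => (1:ℂ)) p * pw p 1) ≠ 0 := by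
    intro p h1 h2
    simp only [one_mul, pw_one]
    exact hbad p h1 h2
  have h1 := main_iff hα hP (u := fun _ => 1) (fun p _ => by simp) hbad' r hc
  simp only [one_mul, pw_one] at h1
  have hL : (fun s : ℝ => ((s : ℂ) - (m + 1)) ^ r * LFun P m s) =
      fun s : ℝ => (fun x : ℝ => ((x - 1 : ℝ) : ℂ) ^ r * ZZ P (fun _ => 1) x) (s - m) := by
    funext s
    have h2 := LFun_eq_ZZ P m (s - m)
    rw [show ((m : ℝ) + (s - m) : ℝ) = s by ring] at h2
    simp only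
    rw [h2]
    congr 2
    push_cast
    ring
  rw [hL, tendsto_shift m (fun x : ℝ => ((x - 1 : ℝ) : ℂ) ^ r * ZZ P (fun _ => 1) x), h1]
  have hPne : ∀ p : ℕ, p.Prime → (P p).eval ((p : ℂ)⁻¹) ≠ 0 := by
    intro p hp
    by_cases hpS : p ∈ S
    · exact hbad p hpS hp
    · rw [hP p hp hpS]
      refine Finset.prod_ne_zero_iff.mpr fun j _ h0 => ?_
      have h1 : ‖α p j * (p : ℂ)⁻¹‖ < 1 := by
        rw [norm_mul, norm_inv, Complex.norm_natCast]
        have h2 : (2:ℝ) ≤ p := by exact_mod_cast hp.two_le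
        calc ‖α p j‖ * (p : ℝ)⁻¹ ≤ 1 * (2:ℝ)⁻¹ := by
              gcongr
              exact hα p hp hpS j
          _ < 1 := by norm_num
      rw [sub_eq_zero] at h0
      rw [← h0, norm_one] at h1
      exact lt_irrefl _ h1
  have hprod : ∀ N : ℕ, (∏ p ∈ primesTo N, ((P p).eval ((p : ℂ)⁻¹))⁻¹) *
      ∏ p ∈ primesTo N, (n p * (P p).eval ((p : ℂ)⁻¹)) = ∏ p ∈ primesTo N, n p := by
    intro N
    rw [← Finset.prod_mul_distrib]
    refine Finset.prod_congr rfl fun p hp => ?_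
    have := hPne p (mem_primesTo.mp hp).1
    rw [mul_comm (n p), ← mul_assoc, inv_mul_cancel₀ this, one_mul]
  have hprod0 : ∀ N : ℕ, ∏ p ∈ primesTo N, (n p * (P p).eval ((p : ℂ)⁻¹)) ≠ 0 := by
    intro N
    refine Finset.prod_ne_zero_iff.mpr fun p hp => ?_
    have hpp := (mem_primesTo.mp hp).1
    exact mul_ne_zero (hn p hpp) (hPne p hpp)
  constructor
  · intro h
    have h2 := h.mul hD
    refine h2.congr fun N => ?_
    rw [mul_assoc, hprod]
    rfl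
  · intro h
    have h2 := h.div hD hD0
    rw [mul_div_assoc, div_self hD0, mul_one] at h2
    refine h2.congr fun N => ?_
    have h3 : ∏ p ∈ (Finset.Icc 1 N).filter Nat.Prime, n p = ∏ p ∈ primesTo N, n p := rfl
    simp only [Pi.div_apply]
    rw [h3, ← hprod N, ← mul_assoc, mul_div_assoc, div_self (hprod0 N), mul_one]

end TatePole
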