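import Mathlib
import Pool.Agent.Lib.MP_058a58_ag.Bessel
import Pool.Agent.Lib.MP_058a58_ag.Fixed
import Pool.Agent.Lib.MP_058a58_ag.Pack

open Filter Topology Polynomial Set Complex ComplexConjugate

namespace TatePole

/-- The twisted `L`-function `∏_p P_p(χ(p) p^{m-s})⁻¹`. -/
noncomputable def LFunTw {N : ℕ} (P : ℕ → ℂ[X]) (m : ℕ) (χ : DirichletCharacter ℂ N) (s : ℂ) : ℂ :=
  ∏' p : Nat.Primes, ((P p).eval (χ p * (p : ℂ) ^ ((m : ℂ) - s)))⁻¹

lemma LFunTw_eq_ZZ {N : ℕ} (P : ℕ → ℂ[X]) (m : ℕ) (χ : DirichletCharacter ℂ N) (t x : ℝ) :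
    LFunTw P m χ ((((m : ℝ) + x : ℝ) : ℂ) + t * I) = ZZ P (tw χ t) x := by
  unfold LFunTw ZZ
  refine tprod_congr fun p => ?_
  rw [tw_mul_pw χ p.2]
  congr 4
  push_cast
  ring

section
variable {b : ℕ} {P : ℕ → ℂ[X]} {S : Finset ℕ} {α : ℕ → Fin b → ℂ} {u : ℕ → ℂ}

lemma log_norm_ZZ (hα : ∀ p : ℕ, p.Prime → p ∉ S → ∀ j, ‖α p j‖ ≤ 1)
    (hP : ∀ p : ℕ, p.Prime → p ∉ S → ∀ x, (P p).eval x = ∏ j, (1 - α p j * x))
    (hu : ∀ p : ℕ, p.Prime → ‖u p‖ ≤ 1)
    (hbad : ∀ p ∈ S, p.Prime → (P p).eval (u p * pw p 1) ≠ 0) :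
    ∃ C : ℝ, ∀ᶠ x in 𝓝[>] (1:ℝ),
      |Real.log ‖ZZ P u x‖ - (FF (coefA S α u) x).re| ≤ C := by
  have hE0 := EE_ne_zero hbad
  have hEt := continuousAt_EE hbad
  have hlog : Tendsto (fun x : ℝ => Real.log ‖EE P S u x‖) (𝓝[>] 1) (𝓝 (Real.log ‖EE P S u 1‖)) :=
    ((Real.continuousAt_log (norm_ne_zero_iff.mpr hE0)).tendsto).comp hEt.norm
  have hb := hlog.abs.eventually_le_const (u := |Real.log ‖EE P S u 1‖| + 1) (by linarith)
  refine ⟨|Real.log ‖EE P S u 1‖| + 1 + b * ∑' p : Nat.Primes, ((p : ℝ)⁻¹) ^ 2, ?_⟩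
  filter_upwards [hb, self_mem_nhdsWithin, hEt.eventually_ne hE0] with x hx hx1 hxE
  simp only [mem_Ioi] at hx1
  rw [ZZ_eq hα hP hu hx1, norm_mul, Real.log_mul (norm_ne_zero_iff.mpr hxE)
    (norm_ne_zero_iff.mpr (Complex.exp_ne_zero _)), Complex.norm_exp, Real.log_exp, Complex.add_re]
  have h1 : Real.log ‖EE P S u x‖ + ((FF (coefA S α u) x).re + (GG S α u x).re) -
      (FF (coefA S α u) x).re = Real.log ‖EE P S u x‖ + (GG S α u x).re := by ring
  rw [h1]
  refine (abs_add_le _ _).trans (add_le_add hx ?_)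
  exact (Complex.abs_re_le_norm _).trans (norm_GG_le hα hu hx1.le)

end

lemma RR_finite_support (S : Finset ℕ) (C : ℝ) :
    ∃ K : ℝ, ∀ g : ℕ → ℝ, (∀ p : ℕ, p.Prime → p ∉ S → g p = 0) → (∀ p : ℕ, p.Prime → |g p| ≤ C) →
      ∀ x : ℝ, 0 ≤ x → |RR g x| ≤ K := by
  classical
  have hfin : {p : Nat.Primes | (p : ℕ) ∈ S}.Finite :=
    (S.finite_toSet).preimage (fun _ _ _ _ h => Subtype.ext h)
  have hs : Summable fun p : Nat.Primes => if (p : ℕ) ∈ S then |C| else 0 := by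
    refine summable_of_ne_finset_zero (s := hfin.toFinset) fun p hp => ?_
    rw [if_neg]
    intro h
    exact hp (hfin.mem_toFinset.mpr h)
  refine ⟨∑' p : Nat.Primes, if (p : ℕ) ∈ S then |C| else 0, fun g hg hC x hx => ?_⟩
  unfold RR
  refine tsum_of_norm_bounded (E := ℝ) hs.hasSum fun p => ?_
  by_cases h : (p : ℕ) ∈ S
  · rw [if_pos h, Real.norm_eq_abs, abs_mul]
    have h1 : |((p : ℕ) : ℝ) ^ (-x)| ≤ 1 := by
      rw [abs_of_nonneg (Real.rpow_nonneg (Nat.cast_nonneg _) _)]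
      apply Real.rpow_le_one_of_one_le_of_nonpos
      · exact_mod_cast p.2.one_lt.le
      · linarith
    calc |g p| * |((p : ℕ) : ℝ) ^ (-x)| ≤ |C| * 1 :=
          mul_le_mul ((hC p p.2).trans (le_abs_self C)) h1 (abs_nonneg _) (abs_nonneg _)
      _ = |C| := mul_one _
  · rw [if_neg h, hg p p.2 h]
    simp

lemma tw_conj_mul {N : ℕ} [NeZero N] (χ ψ : DirichletCharacter ℂ N) (t u : ℝ) {p : ℕ}
    (hp : p.Prime) : conj (tw χ t p) * tw ψ u p = tw (χ⁻¹ * ψ) (u - t) p := by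
  have h0 : (p : ℂ) ≠ 0 := by exact_mod_cast hp.ne_zero
  have hχ : conj (χ (p : ZMod N)) = χ⁻¹ (p : ZMod N) := by
    have := congrArg (fun f : MulChar (ZMod N) ℂ => f (p : ZMod N)) (MulChar.star_eq_inv χ)
    simpa using this
  have hc : conj ((p : ℂ) ^ (-(t * I))) = (p : ℂ) ^ (t * I) := by
    have h := Complex.cpow_conj (p : ℂ) (-(t * I)) (by
      rw [Complex.natCast_arg]; exact Real.pi_pos.ne)
    rw [Complex.conj_natCast] at h
    rw [← h]
    simp
  unfold tw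
  rw [map_mul, hχ, hc, MulChar.mul_apply]
  have h1 : (p : ℂ) ^ (-(((u - t : ℝ) : ℂ) * I)) = (p : ℂ) ^ (t * I) * (p : ℂ) ^ (-(u * I)) := by
    rw [← Complex.cpow_add _ _ h0]
    congr 1
    push_cast
    ring
  rw [h1]
  ring

lemma charSum_re_RR {N : ℕ} (χ : DirichletCharacter ℂ N) (t : ℝ) {x : ℝ} (hx : 1 < x) :
    (charSum χ t x).re = RR (fun p => (tw χ t p).re) x :=
  FF_re_eq (norm_tw_le χ t) hx

/-- the family of almost orthonormal functions used in Bessel's inequality. -/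
noncomputable def ee {N : ℕ} : Option (DirichletCharacter ℂ N × ℝ) → ℕ → ℂ
  | none, _ => 1
  | some f, p => conj (tw f.1 f.2 p)

lemma norm_ee_le {N : ℕ} (i : Option (DirichletCharacter ℂ N × ℝ)) (p : ℕ) (hp : p.Prime) :
    ‖ee i p‖ ≤ 1 := by
  cases i with
  | none => simp [ee]
  | some f =>
    simp only [ee, RCLike.norm_conj]
    exact norm_tw_le f.1 f.2 p hp

lemma RR_congr {g h : ℕ → ℝ} (hgh : ∀ p : ℕ, p.Prime → g p = h p) (x : ℝ) : RR g x = RR h x := by
  unfold RR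
  exact tsum_congr fun p => by rw [hgh p p.2]

lemma ee_orth {N : ℕ} [NeZero N] (F : Finset (DirichletCharacter ℂ N × ℝ))
    (hF : ((1 : DirichletCharacter ℂ N), (0 : ℝ)) ∉ F) :
    ∀ i ∈ Finset.insertNone F, ∀ j ∈ Finset.insertNone F, i ≠ j → ∃ C : ℝ, ∀ᶠ x in 𝓝[>] (1:ℝ),
      |RR (fun p => (ee i p * conj (ee j p)).re) x| ≤ C := by
  have key : ∀ (χ : DirichletCharacter ℂ N) (t : ℝ), (χ ≠ 1 ∨ t ≠ 0) → ∃ C : ℝ,
      ∀ᶠ x in 𝓝[>] (1:ℝ), |RR (fun p => (tw χ t p).re) x| ≤ C := by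
    intro χ t h
    obtain ⟨C, hC⟩ := charSum_bounded χ t h
    refine ⟨C, ?_⟩
    filter_upwards [hC, self_mem_nhdsWithin] with x hx hx1
    simp only [mem_Ioi] at hx1
    rw [← charSum_re_RR χ t hx1]
    exact hx
  have hne : ∀ f ∈ F, f.1 ≠ 1 ∨ f.2 ≠ 0 := by
    intro f hf
    by_contra h
    push Not at h
    apply hF
    have : f = ((1 : DirichletCharacter ℂ N), (0 : ℝ)) := Prod.ext h.1 h.2
    rw [← this]; exact hf
  intro i hi j hj hij
  cases i with
  | none =>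
    cases j with
    | none => exact absurd rfl hij
    | some g =>
      have hg : g ∈ F := by simpa using hj
      obtain ⟨C, hC⟩ := key g.1 g.2 (hne g hg)
      refine ⟨C, ?_⟩
      filter_upwards [hC] with x hx
      have : RR (fun p => (ee (none : Option (DirichletCharacter ℂ N × ℝ)) p *
          conj (ee (some g) p)).re) x = RR (fun p => (tw g.1 g.2 p).re) x := by
        refine RR_congr (fun p _ => ?_) x
        simp [ee]
      rw [this]; exact hx
  | some f =>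
    have hf : f ∈ F := by simpa using hi
    cases j with
    | none =>
      obtain ⟨C, hC⟩ := key f.1 f.2 (hne f hf)
      refine ⟨C, ?_⟩
      filter_upwards [hC] with x hx
      have : RR (fun p => (ee (some f) p *
          conj (ee (none : Option (DirichletCharacter ℂ N × ℝ)) p)).re) x =
          RR (fun p => (tw f.1 f.2 p).re) x := by
        refine RR_congr (fun p _ => ?_) x
        simp [ee]
      rw [this]; exact hx
    | some g =>
      have hg : g ∈ F := by simpa using hj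
      have hfg : (f.1⁻¹ * g.1 ≠ 1) ∨ (g.2 - f.2 ≠ 0) := by
        by_contra h
        push Not at h
        apply hij
        congr 1
        refine Prod.ext ?_ ?_
        · exact (inv_mul_eq_one.mp h.1)
        · linarith [h.2]
      obtain ⟨C, hC⟩ := key (f.1⁻¹ * g.1) (g.2 - f.2) hfg
      refine ⟨C, ?_⟩
      filter_upwards [hC] with x hx
      have : RR (fun p => (ee (some f) p * conj (ee (some g) p)).re) x =
          RR (fun p => (tw (f.1⁻¹ * g.1) (g.2 - f.2) p).re) x := by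
        refine RR_congr (fun p hp => ?_) x
        simp only [ee, Complex.conj_conj]
        rw [tw_conj_mul f.1 g.1 f.2 g.2 hp]
      rw [this]; exact hx

lemma primeSum_sub_log_bounded : ∃ K : ℝ, ∀ᶠ x in 𝓝[>] (1:ℝ),
    |primeSum (x - 1) - Real.log (1 / (x - 1))| ≤ K := by
  have hshift' : Tendsto (fun x : ℝ => x - 1) (𝓝[>] 1) (𝓝[>] (0:ℝ)) := by
    rw [tendsto_nhdsWithin_iff]
    refine ⟨?_, ?_⟩
    · have h3 : Continuous (fun x : ℝ => x - 1) := by fun_prop
      have h4 := (h3.tendsto 1).mono_left (nhdsWithin_le_nhds (s := Ioi (1:ℝ)))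
      simpa using h4
    · filter_upwards [self_mem_nhdsWithin] with x hx
      simp only [mem_Ioi] at hx ⊢
      linarith
  have h := (primeSum_tendsto.comp hshift').abs.eventually_le_const (u := |mertC| + 1)
    (by linarith)
  refine ⟨|mertC| + 1, ?_⟩
  filter_upwards [h] with x hx
  simp only [Function.comp] at hx
  rw [one_div, Real.log_inv, sub_neg_eq_add]
  exact hx

section
variable {b : ℕ} {P : ℕ → ℂ[X]} {S : Finset ℕ} {α : ℕ → Fin b → ℂ}

/-- comparison of `log |L|` with the twisted prime sums of the defect `a_p - r`. -/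
lemma log_ZZ_sub (hα : ∀ p : ℕ, p.Prime → p ∉ S → ∀ j, ‖α p j‖ ≤ 1)
    (hP : ∀ p : ℕ, p.Prime → p ∉ S → ∀ x, (P p).eval x = ∏ j, (1 - α p j * x))
    (r : ℝ) {u : ℕ → ℂ} (hu : ∀ p : ℕ, p.Prime → ‖u p‖ ≤ 1)
    (hbad : ∀ p ∈ S, p.Prime → (P p).eval (u p * pw p 1) ≠ 0) :
    ∃ K : ℝ, ∀ᶠ x in 𝓝[>] (1:ℝ),
      |(Real.log ‖ZZ P u x‖ - r * RR (fun p => (u p).re) x) -
        RR (fun p => ((if p ∈ S then 0 else ∑ j, α p j - r) * u p).re) x| ≤ K := by
  obtain ⟨C, hC⟩ := log_norm_ZZ hα hP hu hbad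
  obtain ⟨K, hK⟩ := RR_finite_support S |r|
  refine ⟨C + K, ?_⟩
  filter_upwards [hC, self_mem_nhdsWithin] with x hx hx1
  simp only [mem_Ioi] at hx1
  have hA := norm_coefA_le (S := S) hα hu
  rw [FF_re_eq hA hx1] at hx
  set g1 : ℕ → ℝ := fun p => ((if p ∈ S then 0 else ∑ j, α p j - r) * u p).re with hg1
  set g2 : ℕ → ℝ := fun p => r * (u p).re with hg2
  set g3 : ℕ → ℝ := fun p => if p ∈ S then -(r * (u p).re) else 0 with hg3
  have hsum : (fun p => (coefA S α u p).re) = fun p => (g1 p + g2 p) + g3 p := by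
    funext p
    simp only [hg1, hg2, hg3, coefA]
    split_ifs with h
    · simp
    · rw [sub_mul, Complex.sub_re, Complex.re_ofReal_mul]
      ring
  have hre : ∀ p : ℕ, p.Prime → |(u p).re| ≤ 1 := fun p hp =>
    (Complex.abs_re_le_norm _).trans (hu p hp)
  have hb2 : ∀ p : ℕ, p.Prime → |g2 p| ≤ |r| := by
    intro p hp
    simp only [hg2]
    rw [abs_mul]
    calc |r| * |(u p).re| ≤ |r| * 1 := mul_le_mul_of_nonneg_left (hre p hp) (abs_nonneg _)
      _ = |r| := mul_one _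
  have hb3 : ∀ p : ℕ, p.Prime → |g3 p| ≤ |r| := by
    intro p hp
    simp only [hg3]
    split_ifs
    · rw [abs_neg]; exact hb2 p hp
    · simp
  have hb1 : ∀ p : ℕ, p.Prime → |g1 p| ≤ b + |r| := by
    intro p hp
    simp only [hg1]
    refine (Complex.abs_re_le_norm _).trans ?_
    rw [norm_mul]
    have h1 : ‖(if p ∈ S then 0 else ∑ j, α p j - r : ℂ)‖ ≤ b + |r| := by
      split_ifs with h
      · simp; positivity
      · refine (norm_sub_le _ _).trans ?_
        rw [Complex.norm_real, Real.norm_eq_abs]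
        gcongr
        refine (norm_sum_le _ _).trans ?_
        calc ∑ j, ‖α p j‖ ≤ ∑ _j : Fin b, (1:ℝ) := Finset.sum_le_sum fun j _ => hα p hp h j
          _ = b := by simp
    calc ‖(if p ∈ S then 0 else ∑ j, α p j - r : ℂ)‖ * ‖u p‖ ≤ (b + |r|) * 1 :=
          mul_le_mul h1 (hu p hp) (norm_nonneg _) (by positivity)
      _ = b + |r| := mul_one _
  have hb12 : ∀ p : ℕ, p.Prime → |g1 p + g2 p| ≤ (b + |r|) + |r| := fun p hp =>
    (abs_add_le _ _).trans (add_le_add (hb1 p hp) (hb2 p hp))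
  rw [hsum, RR_add hb12 hb3 hx1, RR_add hb1 hb2 hx1] at hx
  have hg2' : RR g2 x = r * RR (fun p => (u p).re) x := RR_const_mul r _ x
  rw [hg2'] at hx
  have h3 := hK g3 (fun p _ h => by simp only [hg3]; rw [if_neg h]) hb3 x (by linarith)
  have h4 : (Real.log ‖ZZ P u x‖ - r * RR (fun p => (u p).re) x) - RR g1 x =
      (Real.log ‖ZZ P u x‖ - (RR g1 x + r * RR (fun p => (u p).re) x + RR g3 x)) + RR g3 x := by
    ring
  rw [h4]
  exact (abs_add_le _ _).trans (add_le_add hx h3)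

theorem defect_core (hα : ∀ p : ℕ, p.Prime → p ∉ S → ∀ j, ‖α p j‖ ≤ 1)
    (hP : ∀ p : ℕ, p.Prime → p ∉ S → ∀ x, (P p).eval x = ∏ j, (1 - α p j * x))
    (r D : ℝ) (hr : ∀ p : ℕ, p.Prime → p ∉ S → ‖∑ j, α p j - r‖ ≤ D) (hD : 0 ≤ D)
    (hbad : ∀ p ∈ S, p.Prime → ∀ z : ℂ, ‖z‖ ≤ (p : ℝ)⁻¹ → (P p).eval z ≠ 0)
    {N : ℕ} [NeZero N] (F : Finset (DirichletCharacter ℂ N × ℝ))
    (hF : ((1 : DirichletCharacter ℂ N), (0 : ℝ)) ∉ F) :
    ∃ C : ℝ, ∀ᶠ x in 𝓝[>] (1:ℝ),
      (Real.log ‖ZZ P (fun _ => 1) x‖ - r * Real.log (1 / (x - 1))) ^ 2 +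
        ∑ f ∈ F, (Real.log ‖ZZ P (tw f.1 f.2) x‖) ^ 2 ≤ (D * Real.log (1 / (x - 1)) + C) ^ 2 := by
  classical
  set A : ℕ → ℂ := fun p => if p ∈ S then 0 else ∑ j, α p j - r with hAdef
  have hA : ∀ p : ℕ, p.Prime → ‖A p‖ ≤ D := by
    intro p hp
    simp only [hAdef]
    split_ifs with h
    · simpa using hD
    · exact hr p hp h
  obtain ⟨C0, hC0, hB⟩ := bessel_primes (Finset.insertNone F) ee
    (fun i _ p hp => norm_ee_le i p hp) (ee_orth F hF) A D hA
  have hbad' : ∀ u : ℕ → ℂ, (∀ p : ℕ, p.Prime → ‖u p‖ ≤ 1) → ∀ p ∈ S, p.Prime →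
      (P p).eval (u p * pw p 1) ≠ 0 := by
    intro u hu p hpS hp
    refine hbad p hpS hp _ ?_
    refine (norm_upw_le (hu p hp) 1).trans ?_
    exact norm_pw_le_inv hp le_rfl
  -- the quantities to be compared
  obtain ⟨K1, hK1⟩ := primeSum_sub_log_bounded
  have hcmp : ∀ i ∈ Finset.insertNone F, ∃ K : ℝ, ∀ᶠ x in 𝓝[>] (1:ℝ),
      |(match i with
        | none => Real.log ‖ZZ P (fun _ => 1) x‖ - r * Real.log (1 / (x - 1))
        | some f => Real.log ‖ZZ P (tw f.1 f.2) x‖) -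
        RR (fun p => (A p * conj (ee i p)).re) x| ≤ K := by
    intro i hi
    cases i with
    | none =>
      obtain ⟨K, hK⟩ := log_ZZ_sub hα hP r (u := fun _ => 1) (fun p _ => by simp)
        (hbad' _ (fun p _ => by simp))
      refine ⟨K + |r| * K1, ?_⟩
      filter_upwards [hK, hK1, self_mem_nhdsWithin] with x hx hx1 hx2
      simp only [mem_Ioi] at hx2
      have h1 : RR (fun _ => (1 : ℂ).re) x = primeSum (x - 1) := by
        unfold RR primeSum
        refine tsum_congr fun p => ?_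
        rw [Complex.one_re, one_mul]
        congr 1
        ring
      rw [h1] at hx
      have h2 : RR (fun p => (A p * conj (ee (none : Option (DirichletCharacter ℂ N × ℝ)) p)).re) x
          = RR (fun p => ((if p ∈ S then 0 else ∑ j, α p j - r) * 1 : ℂ).re) x := by
        refine RR_congr (fun p _ => ?_) x
        simp [ee, hAdef]
      rw [h2]
      have h3 : Real.log ‖ZZ P (fun _ => 1) x‖ - r * Real.log (1 / (x - 1)) -
          RR (fun p => ((if p ∈ S then 0 else ∑ j, α p j - r) * 1 : ℂ).re) x =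
          (Real.log ‖ZZ P (fun _ => 1) x‖ - r * primeSum (x - 1) -
          RR (fun p => ((if p ∈ S then 0 else ∑ j, α p j - r) * 1 : ℂ).re) x) +
          r * (primeSum (x - 1) - Real.log (1 / (x - 1))) := by ring
      rw [h3]
      refine (abs_add_le _ _).trans (add_le_add hx ?_)
      rw [abs_mul]
      exact mul_le_mul_of_nonneg_left hx1 (abs_nonneg _)
    | some f =>
      have hf : f ∈ F := by simpa using hi
      obtain ⟨K, hK⟩ := log_ZZ_sub hα hP r (u := tw f.1 f.2) (norm_tw_le f.1 f.2)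
        (hbad' _ (norm_tw_le f.1 f.2))
      obtain ⟨K2, hK2⟩ := charSum_bounded f.1 f.2 (by
        by_contra h
        push Not at h
        apply hF
        have : f = ((1 : DirichletCharacter ℂ N), (0 : ℝ)) := Prod.ext h.1 h.2
        rw [← this]; exact hf)
      refine ⟨K + |r| * K2, ?_⟩
      filter_upwards [hK, hK2, self_mem_nhdsWithin] with x hx hx1 hx2
      simp only [mem_Ioi] at hx2
      rw [charSum_re_RR f.1 f.2 hx2] at hx1
      have h2 : RR (fun p => (A p * conj (ee (some f) p)).re) x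
          = RR (fun p => ((if p ∈ S then 0 else ∑ j, α p j - r) * tw f.1 f.2 p : ℂ).re) x := by
        refine RR_congr (fun p _ => ?_) x
        simp only [ee, hAdef, Complex.conj_conj]
      rw [h2]
      have h3 : Real.log ‖ZZ P (tw f.1 f.2) x‖ -
          RR (fun p => ((if p ∈ S then 0 else ∑ j, α p j - r) * tw f.1 f.2 p : ℂ).re) x =
          (Real.log ‖ZZ P (tw f.1 f.2) x‖ - r * RR (fun p => (tw f.1 f.2 p).re) x -
          RR (fun p => ((if p ∈ S then 0 else ∑ j, α p j - r) * tw f.1 f.2 p : ℂ).re) x) +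
          r * RR (fun p => (tw f.1 f.2 p).re) x := by ring
      rw [h3]
      refine (abs_add_le _ _).trans (add_le_add hx ?_)
      rw [abs_mul]
      exact mul_le_mul_of_nonneg_left hx1 (abs_nonneg _)
  set lg : Option (DirichletCharacter ℂ N × ℝ) → ℝ → ℝ := fun i x => match i with
        | none => Real.log ‖ZZ P (fun _ => 1) x‖ - r * Real.log (1 / (x - 1))
        | some f => Real.log ‖ZZ P (tw f.1 f.2) x‖ with hlg
  have hcmp' : ∀ i ∈ Finset.insertNone F, ∃ K : ℝ, ∀ᶠ x in 𝓝[>] (1:ℝ),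
      |lg i x - RR (fun p => (A p * conj (ee i p)).re) x| ≤ K := hcmp
  choose! K hK using hcmp'
  set K0 : ℝ := ∑ i ∈ Finset.insertNone F, |K i| with hK0
  have hK0' : 0 ≤ K0 := Finset.sum_nonneg fun i _ => abs_nonneg _
  have hall : ∀ᶠ x in 𝓝[>] (1:ℝ), ∀ i ∈ Finset.insertNone F,
      |lg i x - RR (fun p => (A p * conj (ee i p)).re) x| ≤ K0 := by
    rw [Finset.eventually_all]
    intro i hi
    filter_upwards [hK i hi] with x hx
    refine hx.trans ((le_abs_self _).trans ?_)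
    exact Finset.single_le_sum (f := fun i => |K i|) (fun _ _ => abs_nonneg _) hi
  set n : ℝ := ((Finset.insertNone F).card : ℝ) with hn
  have hn1 : 1 ≤ n := by
    rw [hn, Finset.card_insertNone]
    push_cast
    have : (0:ℝ) ≤ F.card := Nat.cast_nonneg _
    linarith
  have hpos : ∀ᶠ x in 𝓝[>] (1:ℝ), 0 ≤ Real.log (1 / (x - 1)) := by
    have h1 : ∀ᶠ x in 𝓝[>] (1:ℝ), x ∈ Ioo (1:ℝ) 2 := Ioo_mem_nhdsGT (by norm_num)
    filter_upwards [h1] with x hx
    apply Real.log_nonneg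
    rw [le_div_iff₀ (by linarith [hx.1])]
    linarith [hx.2]
  refine ⟨D * |K1| + C0 + n * K0, ?_⟩
  filter_upwards [hB, hall, hK1, hpos, self_mem_nhdsWithin] with x hBx hx hx1 hxpos hx2
  simp only [mem_Ioi] at hx2
  set Λ := primeSum (x - 1) with hΛ
  set L := Real.log (1 / (x - 1)) with hL
  have hΛL : Λ ≤ L + |K1| := by
    have := (abs_le.mp hx1).2
    have := le_abs_self K1
    linarith
  have hΛ0 : 0 ≤ Λ := by
    rw [hΛ]
    exact tsum_nonneg fun p => Real.rpow_nonneg (Nat.cast_nonneg _) _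
  set T : ℝ := D * Λ + C0 with hT
  have hT0 : 0 ≤ T := by positivity
  have hsumeq : (Real.log ‖ZZ P (fun _ => 1) x‖ - r * L) ^ 2 +
        ∑ f ∈ F, (Real.log ‖ZZ P (tw f.1 f.2) x‖) ^ 2 =
        ∑ i ∈ Finset.insertNone F, (lg i x) ^ 2 := by
    rw [Finset.sum_insertNone]
  rw [hsumeq]
  have hRle : ∀ i ∈ Finset.insertNone F, |RR (fun p => (A p * conj (ee i p)).re) x| ≤ T := by
    intro i hi
    have h1 : (RR (fun p => (A p * conj (ee i p)).re) x) ^ 2 ≤ T ^ 2 :=
      (Finset.single_le_sum (f := fun i => (RR (fun p => (A p * conj (ee i p)).re) x) ^ 2)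
        (fun _ _ => sq_nonneg _) hi).trans hBx
    exact abs_le_of_sq_le_sq h1 hT0
  have hterm : ∀ i ∈ Finset.insertNone F, (lg i x) ^ 2 ≤
      (RR (fun p => (A p * conj (ee i p)).re) x) ^ 2 + (2 * K0 * T + K0 ^ 2) := by
    intro i hi
    set R := RR (fun p => (A p * conj (ee i p)).re) x with hR
    have h1 := hx i hi
    have h2 := hRle i hi
    have h3 : |lg i x| ≤ |R| + K0 := by
      have : lg i x = R + (lg i x - R) := by ring
      rw [this]
      exact (abs_add_le _ _).trans (by linarith)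
    have h4 : (lg i x) ^ 2 ≤ (|R| + K0) ^ 2 := by
      rw [← sq_abs (lg i x)]
      gcongr
    have h5 : |R| ^ 2 = R ^ 2 := sq_abs R
    nlinarith
  calc ∑ i ∈ Finset.insertNone F, (lg i x) ^ 2
      ≤ ∑ i ∈ Finset.insertNone F, ((RR (fun p => (A p * conj (ee i p)).re) x) ^ 2 +
        (2 * K0 * T + K0 ^ 2)) := Finset.sum_le_sum hterm
    _ = ∑ i ∈ Finset.insertNone F, (RR (fun p => (A p * conj (ee i p)).re) x) ^ 2 +
        n * (2 * K0 * T + K0 ^ 2) := by
          rw [Finset.sum_add_distrib, Finset.sum_const, nsmul_eq_mul]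
    _ ≤ T ^ 2 + n * (2 * K0 * T + K0 ^ 2) := by linarith [hBx]
    _ ≤ (T + n * K0) ^ 2 := by
        have h1 : n * K0 ^ 2 ≤ (n * K0) ^ 2 := by
          rw [mul_pow]
          apply mul_le_mul_of_nonneg_right _ (sq_nonneg _)
          nlinarith
        nlinarith
    _ ≤ (D * L + (D * |K1| + C0 + n * K0)) ^ 2 := by
        have h1 : T + n * K0 ≤ D * L + (D * |K1| + C0 + n * K0) := by
          rw [hT]
          nlinarith [mul_le_mul_of_nonneg_left hΛL hD]
        have h2 : 0 ≤ T + n * K0 := by positivity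
        gcongr

end

end TatePole
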