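import Mathlib
import Pool.Agent.Lib.MP_058a58_ag.Fixed

open Polynomial Filter Topology

namespace TatePole

section
variable {R V : Type*} [CommRing R] [AddCommGroup V]
    [Module R V] [Module.Finite R V] [Module.Free R V]
    (W : Submodule R V) [Module.Free R W] [Module.Finite R W] [Module.Free R (V ⧸ W)]

open Module.Basis in
theorem charpoly_eq_mul (e : V →ₗ[R] V) (he : W ≤ W.comap e) :
    e.charpoly = (e.restrict he).charpoly * (W.mapQ W e he).charpoly := by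
  classical
  let m := Module.Free.ChooseBasisIndex R W
  let bW : Module.Basis m R W := Module.Free.chooseBasis R W
  let n := Module.Free.ChooseBasisIndex R (V ⧸ W)
  let bQ : Module.Basis n R (V ⧸ W) := Module.Free.chooseBasis R (V ⧸ W)
  let b := sumQuot bW bQ
  let A : Matrix m m R := LinearMap.toMatrix bW bW (e.restrict he)
  let B : Matrix m n R := Matrix.of fun i l ↦
    ((sumQuot bW bQ).repr (e ((sumQuot bW bQ) (Sum.inr l)))) (Sum.inl i)
  let D : Matrix n n R := LinearMap.toMatrix bQ bQ (W.mapQ W e he)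
  suffices LinearMap.toMatrix b b e = Matrix.fromBlocks A B 0 D by
    rw [← LinearMap.charpoly_toMatrix e b, this, ← LinearMap.charpoly_toMatrix _ bW,
      ← LinearMap.charpoly_toMatrix _ bQ, Matrix.charpoly_fromBlocks_zero₂₁]
  ext u v
  cases u with
  | inl i =>
    cases v with
    | inl k =>
      simp only [b, sumQuot_inl, Matrix.fromBlocks_apply₁₁, A, LinearMap.toMatrix_apply]
      apply sumQuot_repr_inl_of_mem
    | inr l => simp [b, LinearMap.toMatrix_apply, Matrix.fromBlocks_apply₁₂, B]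
  | inr j =>
    cases v with
    | inl k =>
      suffices W.mkQ (e (bW k)) = 0 by simp [LinearMap.toMatrix_apply, b, this]
      rw [← LinearMap.mem_ker, Submodule.ker_mkQ]
      exact he (Submodule.coe_mem (bW k))
    | inr l =>
      simp only [LinearMap.toMatrix_apply, sumQuot_repr_inr,
        Matrix.fromBlocks_apply₂₂, b, D]
      rw [← sumQuot_inr bW bQ l, W.mapQ_apply]
      simp
end

lemma sum_roots_map_charpoly {K V : Type*} [Field K] [AddCommGroup V] [Module K V]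
    [FiniteDimensional K V] (ι : K →+* ℂ) (f : V →ₗ[K] V) :
    (f.charpoly.map ι).roots.sum = ι (LinearMap.trace K V f) := by
  classical
  let b := Module.Free.chooseBasis K V
  rw [← LinearMap.charpoly_toMatrix f b, LinearMap.trace_eq_matrix_trace K b]
  set M := LinearMap.toMatrix b b f
  have h1 : M.charpoly.map ι = (M.map ι).charpoly := (Matrix.charpoly_map M ι).symm
  rw [h1, ← Matrix.trace_eq_sum_roots_charpoly]
  simp [Matrix.trace]

lemma coeff_one_of_eval_prod' {b : ℕ} {Q : ℂ[X]} {a : Fin b → ℂ}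
    (h : ∀ x, Q.eval x = ∏ j, (1 - a j * x)) : Q.coeff 1 = -∑ j, a j := by
  have hQ : Q = ∏ j, (1 - C (a j) * X) := by
    apply Polynomial.funext
    intro x
    rw [h, eval_prod]
    simp
  have key : ∀ s : Finset (Fin b), (∏ j ∈ s, (1 - C (a j) * X : ℂ[X])).coeff 0 = 1 ∧
      (∏ j ∈ s, (1 - C (a j) * X : ℂ[X])).coeff 1 = -∑ j ∈ s, a j := by
    intro s
    induction s using Finset.induction with
    | empty => simp [coeff_one]
    | insert j s hj ih =>
      rw [Finset.prod_insert hj, Finset.sum_insert hj, mul_coeff_zero, mul_coeff_one, ih.1, ih.2]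
      simp [coeff_one]
  rw [hQ]
  exact (key Finset.univ).2

/-- The inverse roots of the local factor, when `B` is a stable subspace: the trace of Frobenius on
`W` differs from the one on `B` by at most the codimension. -/
theorem IsPureLocalFactor.roots_stable {ℓ : ℕ} [Fact ℓ.Prime] {W : Type*} [AddCommGroup W]
    [Module ℚ_[ℓ] W] [FiniteDimensional ℚ_[ℓ] W] {ρ : Representation ℚ_[ℓ] GQ W}
    {ι : ℚ_[ℓ] →+* ℂ} {p : ℕ} {P : ℂ[X]} (h : IsPureLocalFactor ρ ι p P)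
    {𝔓 : Ideal ZBar} (h𝔓 : 𝔓.IsPrime) (hp𝔓 : (p : ZBar) ∈ 𝔓) {σ : GQ}
    (hσ : IsArithFrob p 𝔓 σ)
    (B : Submodule ℚ_[ℓ] W) (hB : ∀ g : GQ, ∀ w ∈ B, ρ g w ∈ B) :
    ∃ α : Fin (Module.finrank ℚ_[ℓ] W) → ℂ, (∀ j, ‖α j‖ = 1) ∧
      (∀ x : ℂ, P.eval x = ∏ j, (1 - α j * x)) ∧
      ‖∑ j, α j - ι (LinearMap.trace ℚ_[ℓ] B ((ρ σ⁻¹).restrict (hB σ⁻¹)))‖ ≤
        (Module.finrank ℚ_[ℓ] W : ℝ) - Module.finrank ℚ_[ℓ] B := by
  obtain ⟨α, hα, hα1, heval⟩ := h.roots_of_frob h𝔓 hp𝔓 hσ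
  refine ⟨α, hα1, heval, ?_⟩
  set φ := ρ σ⁻¹ with hφ
  have hle : B ≤ B.comap φ := hB σ⁻¹
  have h1 := charpoly_eq_mul B φ hle
  set φB := φ.restrict hle with hφB
  set φQ := B.mapQ B φ hle with hφQ
  have hmB : (φB.charpoly.map ι).Monic := (LinearMap.charpoly_monic _).map ι
  have hmQ : (φQ.charpoly.map ι).Monic := (LinearMap.charpoly_monic _).map ι
  have h2 : (φ.charpoly.map ι).roots = (φB.charpoly.map ι).roots + (φQ.charpoly.map ι).roots := by
    rw [h1, Polynomial.map_mul, roots_mul (mul_ne_zero hmB.ne_zero hmQ.ne_zero)]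
  have h5 : ∑ j, α j = (φ.charpoly.map ι).roots.sum := by
    rw [← hα]; rfl
  have hcardQ : (φQ.charpoly.map ι).roots.card =
      Module.finrank ℚ_[ℓ] W - Module.finrank ℚ_[ℓ] B := by
    rw [← (IsAlgClosed.splits (φQ.charpoly.map ι)).natDegree_eq_card_roots,
      (LinearMap.charpoly_monic _).natDegree_map, LinearMap.charpoly_natDegree,
      Submodule.finrank_quotient]
  have h6 : ∀ z ∈ (φQ.charpoly.map ι).roots, ‖z‖ ≤ 1 := by
    intro z hz
    have h7 : z ∈ (φ.charpoly.map ι).roots := by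
      rw [h2]; exact Multiset.mem_add.mpr (Or.inr hz)
    rw [← hα] at h7
    obtain ⟨j, -, rfl⟩ := Multiset.mem_map.mp h7
    exact (hα1 j).le
  have h8 : (φB.charpoly.map ι).roots.sum = ι (LinearMap.trace ℚ_[ℓ] B φB) :=
    sum_roots_map_charpoly ι φB
  rw [h5, h2, Multiset.sum_add, h8, add_sub_cancel_left]
  refine (norm_multiset_sum_le_card _ h6).trans ?_
  rw [hcardQ, Nat.cast_sub (Submodule.finrank_le B)]

/-- the trace of Frobenius on `W` against the trace on a stable subspace. -/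
theorem roots_stable_trace {ℓ : ℕ} [Fact ℓ.Prime] {W : Type*} [AddCommGroup W]
    [Module ℚ_[ℓ] W] [FiniteDimensional ℚ_[ℓ] W] {ρ : Representation ℚ_[ℓ] GQ W}
    {ι : ℚ_[ℓ] →+* ℂ} {p : ℕ} {P : ℂ[X]} (h : IsPureLocalFactor ρ ι p P)
    {𝔓 : Ideal ZBar} (h𝔓 : 𝔓.IsPrime) (hp𝔓 : (p : ZBar) ∈ 𝔓) {σ : GQ}
    (hσ : IsArithFrob p 𝔓 σ)
    (B : Submodule ℚ_[ℓ] W) (hB : ∀ g : GQ, ∀ w ∈ B, ρ g w ∈ B) :
    ‖ι (LinearMap.trace ℚ_[ℓ] W (ρ σ⁻¹)) -
      ι (LinearMap.trace ℚ_[ℓ] B ((ρ σ⁻¹).restrict (hB σ⁻¹)))‖ ≤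
        (Module.finrank ℚ_[ℓ] W : ℝ) - Module.finrank ℚ_[ℓ] B := by
  obtain ⟨α, hα, hα1, heval⟩ := h.roots_of_frob h𝔓 hp𝔓 hσ
  obtain ⟨β, hβ1, hβ, hle⟩ := h.roots_stable h𝔓 hp𝔓 hσ B hB
  have h1 : ∑ j, α j = ι (LinearMap.trace ℚ_[ℓ] W (ρ σ⁻¹)) := by
    rw [← sum_roots_map_charpoly, ← hα]; rfl
  have h2 : ∑ j, α j = ∑ j, β j := by
    have h3 := coeff_one_of_eval_prod' heval
    have h4 := coeff_one_of_eval_prod' hβ
    rw [h3] at h4
    exact neg_inj.mp h4
  rw [← h1, h2]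
  exact hle

/-- A Frobenius element at `p` raises roots of unity of order prime to `p` to the power `p`. -/
lemma frob_root_of_unity {p : ℕ} {𝔓 : Ideal ZBar} (h𝔓 : 𝔓.IsPrime) (hp𝔓 : (p : ZBar) ∈ 𝔓)
    {σ : GQ} (hσ : IsArithFrob p 𝔓 σ) {N : ℕ} (hN : N ≠ 0) (hcop : Nat.Coprime p N) (ζ : QBar)
    (hζ : ζ ^ N = 1) : σ ζ = ζ ^ p := by
  have hint : ∀ ξ : QBar, ξ ^ N = 1 → IsIntegral ℤ ξ := by
    intro ξ hξ
    refine IsIntegral.of_pow (Nat.pos_of_ne_zero hN) ?_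
    rw [hξ]; exact isIntegral_one
  set x : ZBar := ⟨ζ, hint ζ hζ⟩ with hx
  have hσζ : (σ ζ) ^ N = 1 := by rw [← map_pow, hζ, map_one]
  set η : ZBar := ⟨σ ζ, hint _ hσζ⟩ with hη
  set θ : ZBar := x ^ p with hθ
  have hηN : η ^ N = 1 := by
    apply Subtype.ext
    simpa using hσζ
  have hθN : θ ^ N = 1 := by
    rw [hθ, ← pow_mul, mul_comm, pow_mul]
    have : x ^ N = 1 := by
      apply Subtype.ext
      simpa using hζ
    rw [this, one_pow]
  obtain ⟨y, hy, hyx⟩ := hσ x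
  have hyx' : η = θ + y := by
    apply Subtype.ext
    rw [hη, hθ]
    push_cast
    exact hyx
  by_contra hne
  have hne' : η - θ ≠ 0 := by
    rw [sub_ne_zero]
    intro h
    apply hne
    have := congrArg (fun z : ZBar => (z : QBar)) h
    simpa [hη, hθ, hx] using this
  have hgeom := geom_sum₂_mul η θ N
  rw [hηN, hθN, sub_self] at hgeom
  have hsum : ∑ i ∈ Finset.range N, η ^ i * θ ^ (N - 1 - i) = 0 :=
    (mul_eq_zero.mp hgeom).resolve_right hne'
  have hmk : Ideal.Quotient.mk 𝔓 η = Ideal.Quotient.mk 𝔓 θ := by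
    rw [hyx', map_add, Ideal.Quotient.eq_zero_iff_mem.mpr hy, add_zero]
  have h1 : Ideal.Quotient.mk 𝔓 ((N : ZBar) * θ ^ (N - 1)) = 0 := by
    have h2 := congrArg (Ideal.Quotient.mk 𝔓) hsum
    rw [map_zero, map_sum] at h2
    rw [← h2, map_mul, map_natCast, map_pow]
    rw [Finset.sum_congr rfl (g := fun _ => (Ideal.Quotient.mk 𝔓 θ) ^ (N - 1))]
    · rw [Finset.sum_const, Finset.card_range, nsmul_eq_mul]
    · intro i hi
      rw [map_mul, map_pow, map_pow, hmk, ← pow_add]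
      congr 1
      have := Finset.mem_range.mp hi
      omega
  rw [Ideal.Quotient.eq_zero_iff_mem] at h1
  have h1𝔓 : (1 : ZBar) ∉ 𝔓 := (Ideal.ne_top_iff_one 𝔓).mp h𝔓.ne_top
  rcases h𝔓.mem_or_mem h1 with h2 | h2
  · -- `N` and `p` are coprime
    apply h1𝔓
    have hbez := Nat.gcd_eq_gcd_ab p N
    rw [Nat.Coprime] at hcop
    rw [hcop] at hbez
    have h3 : (1 : ZBar) = (p : ZBar) * ((p.gcdA N : ℤ) : ZBar) +
        (N : ZBar) * ((p.gcdB N : ℤ) : ZBar) := by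
      have := congrArg (fun z : ℤ => (z : ZBar)) hbez
      push_cast at this
      exact this
    rw [h3]
    exact 𝔓.add_mem (𝔓.mul_mem_right _ hp𝔓) (𝔓.mul_mem_right _ h2)
  · apply h1𝔓
    have h3 : θ ∈ 𝔓 := h𝔓.mem_of_pow_mem _ h2
    rw [← hθN]
    exact 𝔓.pow_mem_of_mem h3 N (Nat.pos_of_ne_zero hN)

end TatePole
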