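import Mathlib
import Pool.Agent.Lib.MP_058a58_ag.Defect
import Pool.Agent.Lib.MP_058a58_ag.Stable

open Filter Topology Polynomial Set Complex ComplexConjugate

namespace TatePole

section
variable {b : ℕ} {Q : ℕ → ℂ[X]} {S : Finset ℕ} {β : ℕ → Fin b → ℂ}

/-- comparison of `log |L|` with the prime sums of a decomposition `a_p = A p + R0 p`. -/
lemma log_ZZ_split (hβ : ∀ p : ℕ, p.Prime → p ∉ S → ∀ j, ‖β p j‖ ≤ 1)
    (hQ : ∀ p : ℕ, p.Prime → p ∉ S → ∀ x, (Q p).eval x = ∏ j, (1 - β p j * x))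
    {v : ℕ → ℂ} (hv : ∀ p : ℕ, p.Prime → ‖v p‖ ≤ 1)
    (hbad : ∀ p ∈ S, p.Prime → (Q p).eval (v p * pw p 1) ≠ 0)
    {A R0 : ℕ → ℂ} {K1 K2 : ℝ} (hA : ∀ p : ℕ, p.Prime → ‖A p‖ ≤ K1)
    (hR0 : ∀ p : ℕ, p.Prime → ‖R0 p‖ ≤ K2)
    (hsplit : ∀ p : ℕ, p.Prime → p ∉ S → (∑ j, β p j) * v p = A p + R0 p) :
    ∃ K : ℝ, ∀ᶠ x in 𝓝[>] (1:ℝ),
      |Real.log ‖ZZ Q v x‖ - (RR (fun p => (A p).re) x + RR (fun p => (R0 p).re) x)| ≤ K := by
  obtain ⟨C, hC⟩ := log_norm_ZZ hβ hQ hv hbad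
  have hK1 : 0 ≤ K1 := (norm_nonneg _).trans (hA 2 Nat.prime_two)
  have hK2 : 0 ≤ K2 := (norm_nonneg _).trans (hR0 2 Nat.prime_two)
  obtain ⟨K, hK⟩ := RR_finite_support S (K1 + K2)
  refine ⟨C + K, ?_⟩
  filter_upwards [hC, self_mem_nhdsWithin] with x hx hx1
  simp only [mem_Ioi] at hx1
  have hcA := norm_coefA_le (S := S) hβ hv
  rw [FF_re_eq hcA hx1] at hx
  set g3 : ℕ → ℝ := fun p => if p ∈ S then -((A p).re + (R0 p).re) else 0 with hg3
  have hAre : ∀ p : ℕ, p.Prime → |(A p).re| ≤ K1 := fun p hp =>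
    (Complex.abs_re_le_norm _).trans (hA p hp)
  have hRre : ∀ p : ℕ, p.Prime → |(R0 p).re| ≤ K2 := fun p hp =>
    (Complex.abs_re_le_norm _).trans (hR0 p hp)
  have hsum : RR (fun p => (coefA S β v p).re) x =
      RR (fun p => ((A p).re + (R0 p).re) + g3 p) x := by
    refine RR_congr (fun p hp => ?_) x
    simp only [hg3, coefA]
    split_ifs with h
    · simp
    · rw [hsplit p hp h, Complex.add_re]
      ring
  have hb3 : ∀ p : ℕ, p.Prime → |g3 p| ≤ K1 + K2 := by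
    intro p hp
    simp only [hg3]
    split_ifs
    · rw [abs_neg]
      exact (abs_add_le _ _).trans (add_le_add (hAre p hp) (hRre p hp))
    · simp; positivity
  have hb12 : ∀ p : ℕ, p.Prime → |(A p).re + (R0 p).re| ≤ K1 + K2 := fun p hp =>
    (abs_add_le _ _).trans (add_le_add (hAre p hp) (hRre p hp))
  rw [hsum, RR_add hb12 hb3 hx1, RR_add hAre hRre hx1] at hx
  have h3 := hK g3 (fun p _ h => by simp only [hg3]; rw [if_neg h]) hb3 x (by linarith)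
  have h4 : Real.log ‖ZZ Q v x‖ - (RR (fun p => (A p).re) x + RR (fun p => (R0 p).re) x) =
      (Real.log ‖ZZ Q v x‖ - (RR (fun p => (A p).re) x + RR (fun p => (R0 p).re) x + RR g3 x)) +
        RR g3 x := by
    ring
  rw [h4]
  exact (abs_add_le _ _).trans (add_le_add hx h3)

end

lemma tw_trivial_sum {N : ℕ} [NeZero N] : ∃ K : ℝ, ∀ᶠ x in 𝓝[>] (1:ℝ),
    |RR (fun p => (tw (1 : DirichletCharacter ℂ N) 0 p).re) x - Real.log (1 / (x - 1))| ≤ K := by
  obtain ⟨K1, hK1⟩ := primeSum_sub_log_bounded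
  obtain ⟨K2, hK2⟩ := RR_finite_support (N.primeFactors) 1
  refine ⟨K1 + K2, ?_⟩
  filter_upwards [hK1, self_mem_nhdsWithin] with x hx hx1
  simp only [mem_Ioi] at hx1
  set g : ℕ → ℝ := fun p => if p ∈ N.primeFactors then -1 else 0 with hg
  have h1 : RR (fun p => (tw (1 : DirichletCharacter ℂ N) 0 p).re) x =
      RR (fun p => 1 + g p) x := by
    refine RR_congr (fun p hp => ?_) x
    have hcop : p ∈ N.primeFactors ↔ ¬ IsUnit (p : ZMod N) := by
      rw [ZMod.isUnit_prime_iff_not_dvd hp, not_not, Nat.mem_primeFactors]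
      constructor
      · intro h; exact h.2.1
      · intro h; exact ⟨hp, h, NeZero.ne N⟩
    unfold tw
    simp only [hg]
    split_ifs with h
    · rw [hcop] at h
      rw [MulChar.map_nonunit _ h]
      simp
    · rw [hcop, not_not] at h
      rw [MulChar.one_apply h]
      simp
  have hb1 : ∀ p : ℕ, p.Prime → |(1:ℝ)| ≤ 1 := by intro p _; simp
  have hb2 : ∀ p : ℕ, p.Prime → |g p| ≤ 1 := by
    intro p _
    simp only [hg]
    split_ifs <;> simp
  have h2 : RR (fun _ => (1:ℝ)) x = primeSum (x - 1) := by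
    unfold RR primeSum
    refine tsum_congr fun p => ?_
    rw [one_mul]
    congr 1
    ring
  rw [h1, RR_add hb1 hb2 hx1, h2]
  have h3 := hK2 g (fun p _ h => by simp only [hg]; rw [if_neg h]) hb2 x (by linarith)
  have h4 : primeSum (x - 1) + RR g x - Real.log (1 / (x - 1)) =
    (primeSum (x - 1) - Real.log (1 / (x - 1))) + RR g x := by ring
  rw [h4]
  exact (abs_add_le _ _).trans (add_le_add hx h3)

lemma tw_zero_conj_mul {N : ℕ} [NeZero N] (χ ψ : DirichletCharacter ℂ N) (t : ℝ) {p : ℕ}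
    (hp : p.Prime) : conj (χ (p : ZMod N)) * tw ψ t p = tw (χ⁻¹ * ψ) t p := by
  have h := tw_conj_mul χ ψ 0 t hp
  rw [sub_zero] at h
  rw [← h]
  congr 2
  simp [tw]

/-- The twisted prime sums of `∑_χ r_χ conj(χ(p))`. -/
lemma mult_sum {N : ℕ} [NeZero N] (mult : DirichletCharacter ℂ N → ℝ)
    (ψ : DirichletCharacter ℂ N) (t : ℝ) :
    ∃ K : ℝ, ∀ᶠ x in 𝓝[>] (1:ℝ),
      |RR (fun p => ((∑ χ, (mult χ : ℂ) * conj (χ (p : ZMod N))) * tw ψ t p).re) x -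
        (if t = 0 then mult ψ else 0) * Real.log (1 / (x - 1))| ≤ K := by
  classical
  have key : ∀ χ : DirichletCharacter ℂ N, ∃ K : ℝ, ∀ᶠ x in 𝓝[>] (1:ℝ),
      |RR (fun p => (tw (χ⁻¹ * ψ) t p).re) x -
        (if χ = ψ ∧ t = 0 then 1 else 0) * Real.log (1 / (x - 1))| ≤ K := by
    intro χ
    by_cases h : χ = ψ ∧ t = 0
    · obtain ⟨h1, h2⟩ := h
      subst h1; subst h2
      obtain ⟨K, hK⟩ := tw_trivial_sum (N := N)
      refine ⟨K, ?_⟩
      filter_upwards [hK] with x hx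
      rw [if_pos ⟨rfl, rfl⟩, one_mul, inv_mul_cancel]
      exact hx
    · have h' : (χ⁻¹ * ψ ≠ 1) ∨ t ≠ 0 := by
        by_contra h0
        push Not at h0
        exact h ⟨inv_mul_eq_one.mp h0.1, h0.2⟩
      obtain ⟨K, hK⟩ := charSum_bounded (χ⁻¹ * ψ) t h'
      refine ⟨K, ?_⟩
      filter_upwards [hK, self_mem_nhdsWithin] with x hx hx1
      simp only [mem_Ioi] at hx1
      rw [if_neg h, zero_mul, sub_zero, ← charSum_re_RR _ _ hx1]
      exact hx
  choose K hK using key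
  refine ⟨∑ χ, |mult χ| * |K χ|, ?_⟩
  have hall : ∀ᶠ x in 𝓝[>] (1:ℝ), ∀ χ : DirichletCharacter ℂ N,
      |RR (fun p => (tw (χ⁻¹ * ψ) t p).re) x -
        (if χ = ψ ∧ t = 0 then 1 else 0) * Real.log (1 / (x - 1))| ≤ K χ :=
    Filter.eventually_all.mpr hK
  filter_upwards [hall, self_mem_nhdsWithin] with x hx hx1
  simp only [mem_Ioi] at hx1
  have h1 : RR (fun p => ((∑ χ, (mult χ : ℂ) * conj (χ (p : ZMod N))) * tw ψ t p).re) x =
      ∑ χ, mult χ * RR (fun p => (tw (χ⁻¹ * ψ) t p).re) x := by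
    have h2 : RR (fun p => ((∑ χ, (mult χ : ℂ) * conj (χ (p : ZMod N))) * tw ψ t p).re) x =
        RR (fun p => ∑ χ, mult χ * (tw (χ⁻¹ * ψ) t p).re) x := by
      refine RR_congr (fun p hp => ?_) x
      rw [Finset.sum_mul, Complex.re_sum]
      refine Finset.sum_congr rfl fun χ _ => ?_
      rw [mul_assoc, tw_zero_conj_mul χ ψ t hp, Complex.re_ofReal_mul]
    rw [h2, RR_finset_sum Finset.univ (fun χ p => mult χ * (tw (χ⁻¹ * ψ) t p).re)
      (fun χ => |mult χ|) ?_ hx1]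
    · exact Finset.sum_congr rfl fun χ _ => RR_const_mul _ _ x
    · intro χ _ p hp
      rw [abs_mul]
      calc |mult χ| * |(tw (χ⁻¹ * ψ) t p).re| ≤ |mult χ| * 1 := by
            refine mul_le_mul_of_nonneg_left ?_ (abs_nonneg _)
            exact (Complex.abs_re_le_norm _).trans (norm_tw_le _ _ p hp)
        _ = |mult χ| := mul_one _
  have h3 : (if t = 0 then mult ψ else 0) * Real.log (1 / (x - 1)) =
      ∑ χ, mult χ * ((if χ = ψ ∧ t = 0 then 1 else 0) * Real.log (1 / (x - 1))) := by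
    by_cases ht : t = 0
    · simp [ht]
    · simp [ht]
  rw [h1, h3, ← Finset.sum_sub_distrib]
  refine (Finset.abs_sum_le_sum_abs _ _).trans (Finset.sum_le_sum fun χ _ => ?_)
  rw [← mul_sub, abs_mul]
  exact mul_le_mul_of_nonneg_left ((hx χ).trans (le_abs_self _)) (abs_nonneg _)

/-- the vertical twist `p ↦ p^{-it}`. -/
noncomputable def vt (t : ℝ) (p : ℕ) : ℂ := (p : ℂ) ^ (-(t * I))

lemma norm_vt (t : ℝ) : ∀ p : ℕ, p.Prime → ‖vt t p‖ ≤ 1 := fun _ hp => (norm_cpow_it hp t).le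

lemma LFun_eq_ZZ_vt (P : ℕ → ℂ[X]) (m : ℕ) (t x : ℝ) :
    LFun P m ((((m : ℝ) + x : ℝ) : ℂ) + t * I) = ZZ P (vt t) x := by
  unfold LFun ZZ
  refine tprod_congr fun p => ?_
  have h : (p : ℂ) ^ ((m : ℂ) - ((((m : ℝ) + x : ℝ) : ℂ) + t * I)) = vt t p * pw p x := by
    unfold vt
    rw [← cpow_eq p.2]
    congr 1
    push_cast
    ring
  rw [h]

section
variable {b : ℕ} {P : ℕ → ℂ[X]} {S : Finset ℕ} {α : ℕ → Fin b → ℂ}

theorem defect_abelian_core {N : ℕ} [NeZero N]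
    (hα : ∀ p : ℕ, p.Prime → p ∉ S → ∀ j, ‖α p j‖ ≤ 1)
    (hP : ∀ p : ℕ, p.Prime → p ∉ S → ∀ x, (P p).eval x = ∏ j, (1 - α p j * x))
    (mult : DirichletCharacter ℂ N → ℝ) (D : ℝ)
    (hr : ∀ p : ℕ, p.Prime → p ∉ S →
      ‖∑ j, α p j - ∑ χ, (mult χ : ℂ) * conj (χ (p : ZMod N))‖ ≤ D) (hD : 0 ≤ D)
    (Q : DirichletCharacter ℂ N → ℕ → ℂ[X])
    (hQ : ∀ χ, ∀ p : ℕ, p.Prime → p ∉ S → ∀ z, (Q χ p).eval z = (P p).eval (χ (p : ZMod N) * z))
    (hQbad : ∀ χ, ∀ p ∈ S, p.Prime → ∀ z : ℂ, ‖z‖ ≤ (p : ℝ)⁻¹ → (Q χ p).eval z ≠ 0)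
    (F : Finset (DirichletCharacter ℂ N × ℝ)) :
    ∃ C : ℝ, ∀ᶠ x in 𝓝[>] (1:ℝ),
      ∑ f ∈ F, (Real.log ‖ZZ (Q f.1) (vt f.2) x‖ -
        (if f.2 = 0 then mult f.1 else 0) * Real.log (1 / (x - 1))) ^ 2 ≤
        (D * Real.log (1 / (x - 1)) + C) ^ 2 := by
  classical
  set R0 : ℕ → ℂ := fun p => ∑ χ, (mult χ : ℂ) * conj (χ (p : ZMod N)) with hR0def
  set A : ℕ → ℂ := fun p => if p ∈ S then 0 else ∑ j, α p j - R0 p with hAdef
  have hA : ∀ p : ℕ, p.Prime → ‖A p‖ ≤ D := by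
    intro p hp
    simp only [hAdef]
    split_ifs with h
    · simpa using hD
    · exact hr p hp h
  have hR0 : ∀ p : ℕ, p.Prime → ‖R0 p‖ ≤ ∑ χ : DirichletCharacter ℂ N, |mult χ| := by
    intro p hp
    refine (norm_sum_le _ _).trans (Finset.sum_le_sum fun χ _ => ?_)
    rw [norm_mul, Complex.norm_real, Real.norm_eq_abs, RCLike.norm_conj]
    calc |mult χ| * ‖χ (p : ZMod N)‖ ≤ |mult χ| * 1 :=
          mul_le_mul_of_nonneg_left (χ.norm_le_one _) (abs_nonneg _)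
      _ = |mult χ| := mul_one _
  have horth : ∀ f ∈ F, ∀ g ∈ F, f ≠ g → ∃ C : ℝ, ∀ᶠ x in 𝓝[>] (1:ℝ),
      |RR (fun p => (conj (tw f.1 f.2 p) * conj (conj (tw g.1 g.2 p))).re) x| ≤ C := by
    intro f hf g hg hfg
    have hfg' : (f.1⁻¹ * g.1 ≠ 1) ∨ (g.2 - f.2 ≠ 0) := by
      by_contra h
      push Not at h
      apply hfg
      refine Prod.ext ?_ ?_
      · exact (inv_mul_eq_one.mp h.1)
      · linarith [h.2]
    obtain ⟨C, hC⟩ := charSum_bounded (f.1⁻¹ * g.1) (g.2 - f.2) hfg'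
    refine ⟨C, ?_⟩
    filter_upwards [hC, self_mem_nhdsWithin] with x hx hx1
    simp only [mem_Ioi] at hx1
    rw [charSum_re_RR _ _ hx1] at hx
    have : RR (fun p => (conj (tw f.1 f.2 p) * conj (conj (tw g.1 g.2 p))).re) x =
        RR (fun p => (tw (f.1⁻¹ * g.1) (g.2 - f.2) p).re) x := by
      refine RR_congr (fun p hp => ?_) x
      rw [Complex.conj_conj, tw_conj_mul f.1 g.1 f.2 g.2 hp]
    rw [this]; exact hx
  obtain ⟨C0, hC0, hB⟩ := bessel_primes F (fun f p => conj (tw f.1 f.2 p))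
    (fun f _ p hp => by rw [RCLike.norm_conj]; exact norm_tw_le f.1 f.2 p hp) horth A D hA
  simp only [Complex.conj_conj] at hB
  -- comparison
  have hcmp : ∀ f ∈ F, ∃ K : ℝ, ∀ᶠ x in 𝓝[>] (1:ℝ),
      |(Real.log ‖ZZ (Q f.1) (vt f.2) x‖ -
        (if f.2 = 0 then mult f.1 else 0) * Real.log (1 / (x - 1))) -
        RR (fun p => (A p * tw f.1 f.2 p).re) x| ≤ K := by
    intro f _
    have hβ : ∀ p : ℕ, p.Prime → p ∉ S → ∀ j, ‖α p j * f.1 (p : ZMod N)‖ ≤ 1 := by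
      intro p hp hpS j
      rw [norm_mul]
      exact mul_le_one₀ (hα p hp hpS j) (norm_nonneg _) (f.1.norm_le_one _)
    have hQ' : ∀ p : ℕ, p.Prime → p ∉ S → ∀ x, (Q f.1 p).eval x =
        ∏ j, (1 - α p j * f.1 (p : ZMod N) * x) := by
      intro p hp hpS x
      rw [hQ f.1 p hp hpS, hP p hp hpS]
      exact Finset.prod_congr rfl fun j _ => by ring
    have hbad' : ∀ p ∈ S, p.Prime → (Q f.1 p).eval (vt f.2 p * pw p 1) ≠ 0 := by
      intro p hpS hp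
      refine hQbad f.1 p hpS hp _ ?_
      refine (norm_upw_le (norm_vt f.2 p hp) 1).trans ?_
      exact norm_pw_le_inv hp le_rfl
    have hAtw : ∀ p : ℕ, p.Prime → ‖A p * tw f.1 f.2 p‖ ≤ D := by
      intro p hp
      rw [norm_mul]
      calc ‖A p‖ * ‖tw f.1 f.2 p‖ ≤ D * 1 :=
            mul_le_mul (hA p hp) (norm_tw_le _ _ p hp) (norm_nonneg _) hD
        _ = D := mul_one D
    have hRtw : ∀ p : ℕ, p.Prime → ‖R0 p * tw f.1 f.2 p‖ ≤
        ∑ χ : DirichletCharacter ℂ N, |mult χ| := by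
      intro p hp
      rw [norm_mul]
      calc ‖R0 p‖ * ‖tw f.1 f.2 p‖ ≤ (∑ χ : DirichletCharacter ℂ N, |mult χ|) * 1 :=
            mul_le_mul (hR0 p hp) (norm_tw_le _ _ p hp) (norm_nonneg _)
              (Finset.sum_nonneg fun _ _ => abs_nonneg _)
        _ = _ := mul_one _
    have hsplit : ∀ p : ℕ, p.Prime → p ∉ S → (∑ j, α p j * f.1 (p : ZMod N)) * vt f.2 p =
        A p * tw f.1 f.2 p + R0 p * tw f.1 f.2 p := by
      intro p hp hpS
      simp only [hAdef]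
      rw [if_neg hpS, ← add_mul, sub_add_cancel, ← Finset.sum_mul]
      unfold tw vt
      ring
    obtain ⟨K1, hK1⟩ := log_ZZ_split (Q := Q f.1) (S := S)
      (β := fun p j => α p j * f.1 (p : ZMod N)) hβ hQ' (norm_vt f.2) hbad' hAtw hRtw hsplit
    obtain ⟨K2, hK2⟩ := mult_sum mult f.1 f.2
    refine ⟨K1 + K2, ?_⟩
    filter_upwards [hK1, hK2] with x hx1 hx2
    set L := Real.log (1 / (x - 1))
    set a := Real.log ‖ZZ (Q f.1) (vt f.2) x‖
    set R1 := RR (fun p => (A p * tw f.1 f.2 p).re) x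
    have hx2' : |RR (fun p => (R0 p * tw f.1 f.2 p).re) x -
      (if f.2 = 0 then mult f.1 else 0) * L| ≤ K2 := hx2
    set R2 := RR (fun p => (R0 p * tw f.1 f.2 p).re) x
    have h4 : (a - (if f.2 = 0 then mult f.1 else 0) * L) - R1 =
      (a - (R1 + R2)) + (R2 - (if f.2 = 0 then mult f.1 else 0) * L) := by ring
    rw [h4]
    exact (abs_add_le _ _).trans (add_le_add hx1 hx2')
  set lg : (DirichletCharacter ℂ N × ℝ) → ℝ → ℝ := fun f x =>
    Real.log ‖ZZ (Q f.1) (vt f.2) x‖ -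
        (if f.2 = 0 then mult f.1 else 0) * Real.log (1 / (x - 1)) with hlg
  have hcmp' : ∀ f ∈ F, ∃ K : ℝ, ∀ᶠ x in 𝓝[>] (1:ℝ),
      |lg f x - RR (fun p => (A p * tw f.1 f.2 p).re) x| ≤ K := hcmp
  choose! K hK using hcmp'
  set K0 : ℝ := ∑ f ∈ F, |K f| with hK0
  have hK0' : 0 ≤ K0 := Finset.sum_nonneg fun i _ => abs_nonneg _
  have hall : ∀ᶠ x in 𝓝[>] (1:ℝ), ∀ f ∈ F,
      |lg f x - RR (fun p => (A p * tw f.1 f.2 p).re) x| ≤ K0 := by
    rw [Finset.eventually_all]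
    intro f hf
    filter_upwards [hK f hf] with x hx
    refine hx.trans ((le_abs_self _).trans ?_)
    exact Finset.single_le_sum (f := fun i => |K i|) (fun _ _ => abs_nonneg _) hf
  obtain ⟨K1, hK1⟩ := primeSum_sub_log_bounded
  set n : ℝ := (F.card : ℝ) with hn
  have hn0 : 0 ≤ n := Nat.cast_nonneg _
  have hpos : ∀ᶠ x in 𝓝[>] (1:ℝ), 0 ≤ Real.log (1 / (x - 1)) := by
    have h1 : ∀ᶠ x in 𝓝[>] (1:ℝ), x ∈ Ioo (1:ℝ) 2 := Ioo_mem_nhdsGT (by norm_num)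
    filter_upwards [h1] with x hx
    apply Real.log_nonneg
    rw [le_div_iff₀ (by linarith [hx.1])]
    linarith [hx.2]
  refine ⟨D * |K1| + C0 + (n + 1) * K0, ?_⟩
  filter_upwards [hB, hall, hK1, hpos, self_mem_nhdsWithin] with x hBx hx hx1 hxpos hx2
  simp only [mem_Ioi] at hx2
  set Λ := primeSum (x - 1) with hΛ
  set L := Real.log (1 / (x - 1)) with hL
  have hΛL : Λ ≤ L + |K1| := by
    have := (abs_le.mp hx1).2
    have := le_abs_self K1
    linarith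
  have hΛ0 : 0 ≤ Λ := by
    rw [hΛ]
    exact tsum_nonneg fun p => Real.rpow_nonneg (Nat.cast_nonneg _) _
  set T : ℝ := D * Λ + C0 with hT
  have hT0 : 0 ≤ T := by positivity
  have hRle : ∀ f ∈ F, |RR (fun p => (A p * tw f.1 f.2 p).re) x| ≤ T := by
    intro f hf
    have h1 : (RR (fun p => (A p * tw f.1 f.2 p).re) x) ^ 2 ≤ T ^ 2 :=
      (Finset.single_le_sum (f := fun f : DirichletCharacter ℂ N × ℝ =>
        (RR (fun p => (A p * tw f.1 f.2 p).re) x) ^ 2)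
        (fun _ _ => sq_nonneg _) hf).trans hBx
    exact abs_le_of_sq_le_sq h1 hT0
  have hterm : ∀ f ∈ F, (lg f x) ^ 2 ≤
      (RR (fun p => (A p * tw f.1 f.2 p).re) x) ^ 2 + (2 * K0 * T + K0 ^ 2) := by
    intro f hf
    set R := RR (fun p => (A p * tw f.1 f.2 p).re) x with hR
    have h1 := hx f hf
    have h2 := hRle f hf
    have h3 : |lg f x| ≤ |R| + K0 := by
      have : lg f x = R + (lg f x - R) := by ring
      rw [this]
      exact (abs_add_le _ _).trans (by linarith)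
    have h4 : (lg f x) ^ 2 ≤ (|R| + K0) ^ 2 := by
      rw [← sq_abs (lg f x)]
      gcongr
    have h5 : |R| ^ 2 = R ^ 2 := sq_abs R
    nlinarith
  calc ∑ f ∈ F, (lg f x) ^ 2
      ≤ ∑ f ∈ F, ((RR (fun p => (A p * tw f.1 f.2 p).re) x) ^ 2 +
        (2 * K0 * T + K0 ^ 2)) := Finset.sum_le_sum hterm
    _ = ∑ f ∈ F, (RR (fun p => (A p * tw f.1 f.2 p).re) x) ^ 2 +
        n * (2 * K0 * T + K0 ^ 2) := by
          rw [Finset.sum_add_distrib, Finset.sum_const, nsmul_eq_mul]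
    _ ≤ T ^ 2 + n * (2 * K0 * T + K0 ^ 2) := by linarith [hBx]
    _ ≤ (T + (n + 1) * K0) ^ 2 := by
        have h1 : 0 ≤ n * K0 ^ 2 := by positivity
        have h2 : 0 ≤ K0 * T := by positivity
        have h3 : 0 ≤ (n * K0) ^ 2 := sq_nonneg _
        have h4 : 0 ≤ K0 ^ 2 := sq_nonneg _
        nlinarith
    _ ≤ (D * L + (D * |K1| + C0 + (n + 1) * K0)) ^ 2 := by
        have h1 : T + (n + 1) * K0 ≤ D * L + (D * |K1| + C0 + (n + 1) * K0) := by
          rw [hT]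
          nlinarith [mul_le_mul_of_nonneg_left hΛL hD]
        have h2 : 0 ≤ T + (n + 1) * K0 := by positivity
        gcongr

end

end TatePole
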