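import Mathlib
import Pool.Agent.Lib.MP_058a58_ag.Frob

open Polynomial Filter Topology NumberField

namespace TatePole

attribute [local instance] topZBar discZBar contZBar invZBar

variable {K : Type*} [Field K] [NumberField K]

lemma isIntegral_emb (φ : K →ₐ[ℚ] QBar) (x : 𝓞 K) : IsIntegral ℤ (φ (x : K)) :=
  (RingOfIntegers.isIntegral_coe x).map (φ.restrictScalars ℤ)

/-- The ring homomorphism `𝓞 K → ZBar` induced by an embedding `K → ℚ̄`. -/
noncomputable def intMap (φ : K →ₐ[ℚ] QBar) : 𝓞 K →+* ZBar :=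
  ((φ : K →+* QBar).comp (algebraMap (𝓞 K) K)).codRestrict ZBar (fun x => isIntegral_emb φ x)

lemma coe_intMap (φ : K →ₐ[ℚ] QBar) (x : 𝓞 K) : ((intMap φ x : ZBar) : QBar) = φ (x : K) := rfl

lemma dvd_of_mem {p : ℕ} (hp : p.Prime) {𝔓 : Ideal ZBar} (h𝔓 : 𝔓.IsPrime) (hp𝔓 : (p : ZBar) ∈ 𝔓)
    (n : ℤ) : ((n : ZBar) ∈ 𝔓) ↔ (p : ℤ) ∣ n := by
  constructor
  · intro hn
    by_contra h
    have hcop : IsCoprime (p : ℤ) n := by
      rw [Prime.coprime_iff_not_dvd (Nat.prime_iff_prime_int.mp hp)]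
      exact h
    obtain ⟨a, b, hab⟩ := hcop
    apply (Ideal.ne_top_iff_one 𝔓).mp h𝔓.ne_top
    have h3 : (1 : ZBar) = (a : ZBar) * (p : ZBar) + (b : ZBar) * (n : ZBar) := by
      have := congrArg (fun z : ℤ => (z : ZBar)) hab
      push_cast at this
      exact this.symm
    rw [h3]
    exact 𝔓.add_mem (𝔓.mul_mem_left _ hp𝔓) (𝔓.mul_mem_left _ hn)
  · rintro ⟨k, rfl⟩
    push_cast
    exact 𝔓.mul_mem_right _ hp𝔓

/-- distinct embeddings of `K` stay distinct modulo the primes over `p`. -/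
def GoodFor (K : Type*) [Field K] [NumberField K] (p : ℕ) : Prop :=
  ∀ 𝔓 : Ideal ZBar, 𝔓.IsPrime → (p : ZBar) ∈ 𝔓 → ∀ φ ψ : K →ₐ[ℚ] QBar,
    (∀ x : 𝓞 K, intMap φ x - intMap ψ x ∈ 𝔓) → φ = ψ

lemma exists_int_multiple (y : ZBar) (hy : y ≠ 0) : ∃ n : ℤ, n ≠ 0 ∧ ∀ I : Ideal ZBar, y ∈ I →
    (n : ZBar) ∈ I := by
  have h1 : (Ideal.span {y}).comap (algebraMap ℤ ZBar) ≠ ⊥ :=
    Ideal.comap_ne_bot_of_integral_mem hy (Ideal.mem_span_singleton_self y)
      (Algebra.IsIntegral.isIntegral y)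
  obtain ⟨n, hn, hn0⟩ := Submodule.exists_mem_ne_zero_of_ne_bot h1
  refine ⟨n, hn0, fun I hI => ?_⟩
  rw [Ideal.mem_comap] at hn
  have h2 : Ideal.span {y} ≤ I := by
    rw [Ideal.span_singleton_le_iff_mem]; exact hI
  have := h2 hn
  simpa using this

lemma emb_ext {φ ψ : K →ₐ[ℚ] QBar} (h : ∀ x : 𝓞 K, intMap φ x = intMap ψ x) : φ = ψ := by
  have h1 : (φ : K →+* QBar) = (ψ : K →+* QBar) := by
    apply IsFractionRing.ringHom_ext (A := 𝓞 K)
    intro x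
    have := congrArg (fun z : ZBar => (z : QBar)) (h x)
    exact this
  apply AlgHom.coe_ringHom_injective
  exact h1

lemma finite_bad (K : Type*) [Field K] [NumberField K] :
    {p : ℕ | p.Prime ∧ ¬ GoodFor K p}.Finite := by
  classical
  have key : ∀ q : (K →ₐ[ℚ] QBar) × (K →ₐ[ℚ] QBar), ∃ n : ℤ, n ≠ 0 ∧ (q.1 ≠ q.2 →
      ∀ I : Ideal ZBar, (∀ x : 𝓞 K, intMap q.1 x - intMap q.2 x ∈ I) → (n : ZBar) ∈ I) := by
    rintro ⟨φ, ψ⟩
    by_cases h : φ = ψ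
    · exact ⟨1, one_ne_zero, fun h' => (h' h).elim⟩
    · have : ∃ x : 𝓞 K, intMap φ x ≠ intMap ψ x := by
        by_contra h0
        push Not at h0
        exact h (emb_ext h0)
      obtain ⟨x, hx⟩ := this
      obtain ⟨n, hn0, hn⟩ := exists_int_multiple (intMap φ x - intMap ψ x) (sub_ne_zero.mpr hx)
      exact ⟨n, hn0, fun _ I hI => hn I (hI x)⟩
  choose n hn0 hn using key
  have hfin : (⋃ q : (K →ₐ[ℚ] QBar) × (K →ₐ[ℚ] QBar), {p : ℕ | p ∣ (n q).natAbs}).Finite := by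
    refine Set.finite_iUnion fun q => ?_
    have h1 : (n q).natAbs ≠ 0 := Int.natAbs_ne_zero.mpr (hn0 q)
    refine (Nat.divisors (n q).natAbs).finite_toSet.subset ?_
    intro p hp
    simp only [Finset.mem_coe, Nat.mem_divisors]
    exact ⟨hp, h1⟩
  refine hfin.subset ?_
  rintro p ⟨hp, hbad⟩
  unfold GoodFor at hbad
  push Not at hbad
  obtain ⟨𝔓, h𝔓, hp𝔓, φ, ψ, hx, hne⟩ := hbad
  rw [Set.mem_iUnion]
  refine ⟨(φ, ψ), ?_⟩
  have h1 := hn (φ, ψ) hne 𝔓 hx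
  have h2 := (dvd_of_mem hp h𝔓 hp𝔓 _).mp h1
  exact Int.natCast_dvd.mp h2

lemma exists_int_sub_mem {p : ℕ} (hp : p.Prime) {I : Ideal (𝓞 K)} (hI : Ideal.absNorm I = p)
    (x : 𝓞 K) : ∃ a : ℤ, x - a ∈ I := by
  have hcard : Nat.card (𝓞 K ⧸ I) = p := by
    rw [← Submodule.cardQuot_apply, ← Ideal.absNorm_apply]; exact hI
  have : Fact p.Prime := ⟨hp⟩
  have hprime : I.IsPrime := Ideal.isPrime_of_irreducible_absNorm (by
    rw [hI]; exact hp)
  have h1 : (1 : 𝓞 K ⧸ I) ≠ 0 := by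
    intro h
    rw [← map_one (Ideal.Quotient.mk I), Ideal.Quotient.eq_zero_iff_mem] at h
    exact (Ideal.ne_top_iff_one I).mp hprime.ne_top h
  have h2 : (Ideal.Quotient.mk I x) ∈ AddSubgroup.zmultiples (1 : 𝓞 K ⧸ I) :=
    mem_zmultiples_of_prime_card hcard h1
  obtain ⟨a, ha⟩ := AddSubgroup.mem_zmultiples_iff.mp h2
  refine ⟨a, ?_⟩
  rw [← Ideal.Quotient.eq_zero_iff_mem, map_sub, ← ha, map_intCast]
  simp

lemma natCast_mem_of_absNorm {p : ℕ} {I : Ideal (𝓞 K)} (hI : Ideal.absNorm I = p) :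
    (p : 𝓞 K) ∈ I := by
  rw [← hI]; exact Ideal.absNorm_mem I

lemma pow_sub_self_mem {p : ℕ} (hp : p.Prime) {I : Ideal (𝓞 K)} (hI : Ideal.absNorm I = p)
    (x : 𝓞 K) : x ^ p - x ∈ I := by
  have : Fact p.Prime := ⟨hp⟩
  obtain ⟨a, ha⟩ := exists_int_sub_mem hp hI x
  have h1 : x ^ p - (a : 𝓞 K) ^ p ∈ I := I.mem_of_dvd (sub_dvd_pow_sub_pow x a p) ha
  have h2 : ((a ^ p - a : ℤ) : 𝓞 K) ∈ I := by
    have h3 : (p : ℤ) ∣ a ^ p - a := by
      rw [← ZMod.intCast_zmod_eq_zero_iff_dvd]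
      push_cast
      rw [ZMod.pow_card, sub_self]
    obtain ⟨k, hk⟩ := h3
    rw [hk]
    push_cast
    exact I.mul_mem_right _ (natCast_mem_of_absNorm hI)
  have h4 : x ^ p - x = (x ^ p - (a : 𝓞 K) ^ p) + ((a ^ p - a : ℤ) : 𝓞 K) - (x - a) := by
    push_cast
    ring
  rw [h4]
  exact I.sub_mem (I.add_mem h1 h2) ha

lemma red_eq_of_comap_eq {p : ℕ} (hp : p.Prime) {𝔓 : Ideal ZBar} {I : Ideal (𝓞 K)}
    (hI : Ideal.absNorm I = p) {φ ψ : K →ₐ[ℚ] QBar} (hφ : 𝔓.comap (intMap φ) = I)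
    (hψ : 𝔓.comap (intMap ψ) = I) (x : 𝓞 K) : intMap φ x - intMap ψ x ∈ 𝔓 := by
  obtain ⟨a, ha⟩ := exists_int_sub_mem hp hI x
  have h1 : intMap φ (x - a) ∈ 𝔓 := by
    rw [← Ideal.mem_comap, hφ]; exact ha
  have h2 : intMap ψ (x - a) ∈ 𝔓 := by
    rw [← Ideal.mem_comap, hψ]; exact ha
  have h3 : intMap φ x - intMap ψ x = intMap φ (x - a) - intMap ψ (x - a) := by
    rw [map_sub, map_sub, map_intCast, map_intCast]
    ring
  rw [h3]
  exact 𝔓.sub_mem h1 h2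

lemma exists_emb_comap {p : ℕ} (hp : p.Prime) {𝔓 : Ideal ZBar} (h𝔓 : 𝔓.IsPrime)
    (hp𝔓 : (p : ZBar) ∈ 𝔓) {I : Ideal (𝓞 K)} (hI : Ideal.absNorm I = p) :
    ∃ φ : K →ₐ[ℚ] QBar, 𝔓.comap (intMap φ) = I := by
  have hprime : I.IsPrime := Ideal.isPrime_of_irreducible_absNorm (by
    rw [hI]; exact hp)
  let φ₀ : K →ₐ[ℚ] QBar := IsAlgClosed.lift
  let alg : Algebra (𝓞 K) ZBar := (intMap φ₀).toAlgebra
  have htower : IsScalarTower ℤ (𝓞 K) ZBar := IsScalarTower.of_algebraMap_eq fun n => by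
    simp
  have hint : Algebra.IsIntegral (𝓞 K) ZBar := ⟨fun z => IsIntegral.tower_top (R := ℤ)
    (Algebra.IsIntegral.isIntegral z)⟩
  have hinj : Function.Injective (algebraMap (𝓞 K) ZBar) := by
    intro x y hxy
    have h1 : φ₀ (x : K) = φ₀ (y : K) := congrArg (fun z : ZBar => (z : QBar)) hxy
    exact RingOfIntegers.ext (φ₀.injective h1)
  obtain ⟨𝔓₀, h𝔓₀, hcomap⟩ := Ideal.exists_ideal_over_prime_of_isIntegral_of_isDomain (S := ZBar) I
    (by rw [(RingHom.injective_iff_ker_eq_bot _).mp hinj]; exact bot_le)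
  have hp𝔓₀ : (p : ZBar) ∈ 𝔓₀ := by
    have h1 : (p : 𝓞 K) ∈ 𝔓₀.comap (algebraMap (𝓞 K) ZBar) := by
      rw [hcomap]; exact natCast_mem_of_absNorm hI
    rw [Ideal.mem_comap, map_natCast] at h1
    exact h1
  have hunder : 𝔓₀.under ℤ = 𝔓.under ℤ := by
    ext n
    rw [Ideal.mem_comap, Ideal.mem_comap]
    have h1 := dvd_of_mem hp h𝔓₀ hp𝔓₀ n
    have h2 := dvd_of_mem hp h𝔓 hp𝔓 n
    simp only [eq_intCast] at h1 h2 ⊢
    rw [h1, h2]
  obtain ⟨g, hg⟩ := Algebra.IsInvariant.exists_smul_of_under_eq_of_profinite (A := ℤ) (G := GQ)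
    𝔓₀ 𝔓 hunder
  refine ⟨(g : QBar →ₐ[ℚ] QBar).comp φ₀, ?_⟩
  ext x
  have h1 : intMap ((g : QBar →ₐ[ℚ] QBar).comp φ₀) x = g • (intMap φ₀ x) := by
    apply Subtype.ext
    rw [coe_smul_ZBar]
    rfl
  rw [Ideal.mem_comap, h1, hg, Ideal.smul_mem_pointwise_smul_iff, ← hcomap, Ideal.mem_comap]
  rfl

lemma natDegree_X_pow_sub_X (k : Type*) [CommRing k] [Nontrivial k] {p : ℕ} (hp : 1 < p) :
    (X ^ p - X : k[X]).natDegree = p := by
  have h1 : (X ^ p - X : k[X]).natDegree = (X ^ p : k[X]).natDegree := by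
    apply natDegree_sub_eq_left_of_natDegree_lt
    rw [natDegree_X, natDegree_X_pow]
    exact hp
  rw [h1, natDegree_X_pow]

lemma card_quot_ker {R k : Type*} [CommRing R] [CommRing k] [IsDomain k] {p : ℕ} (hp : p.Prime)
    (f : R →+* k) (hf : ∀ x, f x ^ p = f x) (hp0 : (p : k) = 0) :
    Nat.card (R ⧸ RingHom.ker f) = p := by
  classical
  have hinj : Function.Injective (RingHom.kerLift f) := RingHom.kerLift_injective f
  have hfrob : ∀ z : R ⧸ RingHom.ker f, (RingHom.kerLift f z) ^ p = RingHom.kerLift f z := by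
    intro z
    obtain ⟨x, rfl⟩ := Ideal.Quotient.mk_surjective z
    rw [RingHom.kerLift_mk]
    exact hf x
  have hdeg : (X ^ p - X : k[X]).natDegree = p := natDegree_X_pow_sub_X k hp.one_lt
  have hQ0 : (X ^ p - X : k[X]) ≠ 0 := by
    intro h
    rw [h, natDegree_zero] at hdeg
    exact hp.ne_zero hdeg.symm
  have hroot : ∀ z : R ⧸ RingHom.ker f, RingHom.kerLift f z ∈
      ((X ^ p - X : k[X]).roots.toFinset : Set k) := by
    intro z
    rw [Finset.mem_coe, Multiset.mem_toFinset, mem_roots hQ0, IsRoot.def]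
    simp [hfrob z]
  have hfin : Finite (R ⧸ RingHom.ker f) := by
    refine Finite.of_injective (fun z => (⟨RingHom.kerLift f z, hroot z⟩ :
      ((X ^ p - X : k[X]).roots.toFinset : Set k))) ?_
    intro a b hab
    exact hinj (congrArg Subtype.val hab)
  have hle : Nat.card (R ⧸ RingHom.ker f) ≤ p := by
    calc Nat.card (R ⧸ RingHom.ker f)
        ≤ Nat.card ((X ^ p - X : k[X]).roots.toFinset : Set k) := by
          refine Nat.card_le_card_of_injective (fun z => ⟨RingHom.kerLift f z, hroot z⟩) ?_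
          intro a b hab
          exact hinj (congrArg Subtype.val hab)
      _ = (X ^ p - X : k[X]).roots.toFinset.card := by
          rw [Nat.card_eq_fintype_card]; simp
      _ ≤ (X ^ p - X : k[X]).roots.card := Multiset.toFinset_card_le _
      _ ≤ (X ^ p - X : k[X]).natDegree := card_roots' _
      _ = p := hdeg
  have : Fact p.Prime := ⟨hp⟩
  have hne : (1 : R ⧸ RingHom.ker f) ≠ 0 := by
    intro h
    have := congrArg (RingHom.kerLift f) h
    rw [map_one, map_zero] at this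
    exact one_ne_zero this
  have hp0 : p • (1 : R ⧸ RingHom.ker f) = 0 := by
    apply hinj
    rw [map_nsmul, map_one, map_zero, nsmul_one]
    exact hp0
  have hord : addOrderOf (1 : R ⧸ RingHom.ker f) = p := addOrderOf_eq_prime hp0 hne
  have hdvd : p ∣ Nat.card (R ⧸ RingHom.ker f) := by
    rw [← hord]; exact addOrderOf_dvd_natCard _
  have hpos : 0 < Nat.card (R ⧸ RingHom.ker f) := Nat.card_pos
  exact le_antisymm hle (Nat.le_of_dvd hpos hdvd)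

lemma absNorm_comap_of_fixed {p : ℕ} (hp : p.Prime) {𝔓 : Ideal ZBar} (h𝔓 : 𝔓.IsPrime)
    (hp𝔓 : (p : ZBar) ∈ 𝔓) {σ : GQ} (hσ : IsArithFrob p 𝔓 σ) {φ : K →ₐ[ℚ] QBar}
    (hφ : ∀ x, σ (φ x) = φ x) : Ideal.absNorm (𝔓.comap (intMap φ)) = p := by
  have hdom : IsDomain (ZBar ⧸ 𝔓) := Ideal.Quotient.isDomain 𝔓
  have hker : 𝔓.comap (intMap φ) = RingHom.ker ((Ideal.Quotient.mk 𝔓).comp (intMap φ)) := by
    ext x
    rw [Ideal.mem_comap, RingHom.mem_ker, RingHom.comp_apply, Ideal.Quotient.eq_zero_iff_mem]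
  rw [hker, Ideal.absNorm_apply, Submodule.cardQuot_apply]
  refine card_quot_ker hp _ (fun x => ?_) ?_
  · obtain ⟨y, hy, hyx⟩ := hσ (intMap φ x)
    rw [coe_intMap, hφ] at hyx
    have h1 : intMap φ x = (intMap φ x) ^ p + y := by
      apply Subtype.ext
      push_cast
      exact hyx
    rw [RingHom.comp_apply, ← map_pow]
    conv_rhs => rw [h1]
    rw [map_add, Ideal.Quotient.eq_zero_iff_mem.mpr hy, add_zero]
  · have := Ideal.Quotient.eq_zero_iff_mem.mpr hp𝔓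
    rw [map_natCast] at this
    exact this

/-- the number of embeddings `φ : K → ℚ̄` with `σ ∘ φ = φ`. -/
noncomputable def fixCount (K : Type*) [Field K] [NumberField K] (σ : GQ) : ℕ :=
  Nat.card {φ : K →ₐ[ℚ] QBar // ∀ x, σ (φ x) = φ x}

/-- For all but finitely many `p`, the embeddings fixed by a Frobenius element at `p` correspond
to the ideals of norm `p`. -/
theorem fixCount_eq {p : ℕ} (hp : p.Prime) (hgood : GoodFor K p) {𝔓 : Ideal ZBar}
    (h𝔓 : 𝔓.IsPrime) (hp𝔓 : (p : ZBar) ∈ 𝔓) {σ : GQ} (hσ : IsArithFrob p 𝔓 σ) :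
    fixCount K σ = Nat.card {I : Ideal (𝓞 K) // Ideal.absNorm I = p} := by
  unfold fixCount
  refine Nat.card_congr (Equiv.ofBijective
    (fun φ => ⟨𝔓.comap (intMap φ.1), absNorm_comap_of_fixed hp h𝔓 hp𝔓 hσ φ.2⟩) ⟨?_, ?_⟩)
  · rintro ⟨φ, hφ⟩ ⟨ψ, hψ⟩ h
    apply Subtype.ext
    have h1 : 𝔓.comap (intMap φ) = 𝔓.comap (intMap ψ) := congrArg Subtype.val h
    exact hgood 𝔓 h𝔓 hp𝔓 φ ψ fun x =>
      red_eq_of_comap_eq hp (absNorm_comap_of_fixed hp h𝔓 hp𝔓 hσ hφ) rfl h1.symm x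
  · rintro ⟨I, hI⟩
    obtain ⟨φ, hφ⟩ := exists_emb_comap hp h𝔓 hp𝔓 hI
    refine ⟨⟨φ, ?_⟩, Subtype.ext hφ⟩
    have h1 : (σ : QBar →ₐ[ℚ] QBar).comp φ = φ := by
      refine hgood 𝔓 h𝔓 hp𝔓 _ _ fun x => ?_
      obtain ⟨y, hy, hyx⟩ := hσ (intMap φ x)
      have h2 : intMap ((σ : QBar →ₐ[ℚ] QBar).comp φ) x - intMap φ x =
          intMap φ (x ^ p - x) + y := by
        apply Subtype.ext
        have h3 : ((intMap ((σ : QBar →ₐ[ℚ] QBar).comp φ) x : ZBar) : QBar) =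
            σ ((intMap φ x : ZBar) : QBar) := rfl
        rw [map_sub, map_pow]
        push_cast
        rw [h3, hyx]
        ring
      rw [h2]
      refine 𝔓.add_mem ?_ hy
      rw [← Ideal.mem_comap, hφ]
      exact pow_sub_self_mem hp hI x
    intro x
    exact congrArg (fun f : K →ₐ[ℚ] QBar => f x) h1

end TatePole
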