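import Mathlib
import Pool.Agent.Lib.MP_058a58_ag.FixCount

open Polynomial Filter Topology NumberField

namespace TatePole

/-- The Galois group acts transitively on the embeddings of a number field. -/
lemma exists_extend {K : Type*} [Field K] [NumberField K] (φ ψ : K →ₐ[ℚ] QBar) :
    ∃ g : GQ, ∀ x, g (φ x) = ψ x := by
  let alg : Algebra K QBar := (φ : K →+* QBar).toAlgebra
  have htower : IsScalarTower ℚ K QBar := IsScalarTower.of_algebraMap_eq fun q => by
    have : (algebraMap K QBar) = (φ : K →+* QBar) := rfl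
    rw [this]
    simp
  have halg : Algebra.IsAlgebraic K QBar := Algebra.IsAlgebraic.tower_top (K := ℚ) K
  obtain ⟨θ, hθ⟩ := IsAlgClosed.surjective_domRestrict_of_isAlgebraic (K := ℚ) (L := K)
    (M := QBar) (E := QBar) ψ
  refine ⟨AlgEquiv.ofBijective θ (Algebra.IsAlgebraic.algHom_bijective θ), fun x => ?_⟩
  exact congrArg (fun f : K →ₐ[ℚ] QBar => f x) hθ

/-- composition of an embedding with a Galois element. -/
noncomputable def actEmb {K : Type*} [Field K] [NumberField K] (g : GQ) (φ : K →ₐ[ℚ] QBar) :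
    K →ₐ[ℚ] QBar := (g : QBar →ₐ[ℚ] QBar).comp φ

section
variable {K : Type*} [Field K] [NumberField K]

@[simp] lemma actEmb_apply (g : GQ) (φ : K →ₐ[ℚ] QBar) (x : K) : actEmb g φ x = g (φ x) := rfl

lemma actEmb_one (φ : K →ₐ[ℚ] QBar) : actEmb 1 φ = φ := by
  ext x; simp

lemma actEmb_mul (g h : GQ) (φ : K →ₐ[ℚ] QBar) : actEmb (g * h) φ = actEmb g (actEmb h φ) := by
  ext x; simp

noncomputable instance embAction : MulAction GQ (K →ₐ[ℚ] QBar) where
  smul := actEmb
  one_smul := actEmb_one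
  mul_smul := actEmb_mul

lemma smul_emb_apply (g : GQ) (φ : K →ₐ[ℚ] QBar) (x : K) : (g • φ) x = g (φ x) := rfl

lemma fixCount_eq_card (g : GQ) : fixCount K g = Nat.card {φ : K →ₐ[ℚ] QBar // g • φ = φ} := by
  unfold fixCount
  refine Nat.card_congr (Equiv.subtypeEquivRight fun φ => ?_)
  constructor
  · intro h; ext x; rw [smul_emb_apply]; exact h x
  · intro h x; rw [← smul_emb_apply, h]

instance embPretransitive : MulAction.IsPretransitive GQ (K →ₐ[ℚ] QBar) := ⟨fun φ ψ => by
  obtain ⟨g, hg⟩ := exists_extend φ ψ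
  refine ⟨g, ?_⟩
  ext x
  rw [smul_emb_apply]
  exact hg x⟩

end

end TatePole
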