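import Mathlib
import Pool.Agent.Lib.MP_058a58_ag.Embed

open Polynomial Filter Topology NumberField

namespace TatePole

section
variable (N : Subgroup GQ) [N.Normal] {M : IntermediateField ℚ QBar} [FiniteDimensional ℚ M]
  (hN : N = M.fixingSubgroup)

include hN

omit [N.Normal] in
lemma finite_quot : Finite (GQ ⧸ N) := by
  have hopen : IsOpen (N : Set GQ) := by
    rw [hN]; exact IntermediateField.fixingSubgroup_isOpen M
  exact N.quotient_finite_of_isOpen hopen

omit [FiniteDimensional ℚ M] in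
lemma fixedField_le (H : Subgroup (GQ ⧸ N)) :
    IntermediateField.fixedField (H.comap (QuotientGroup.mk' N)) ≤ M := by
  have h1 : N ≤ H.comap (QuotientGroup.mk' N) := by
    intro g hg
    rw [Subgroup.mem_comap, QuotientGroup.mk'_apply, (QuotientGroup.eq_one_iff g).mpr hg]
    exact H.one_mem
  have h2 : IntermediateField.fixedField N = M := by
    rw [hN]; exact InfiniteGalois.fixedField_fixingSubgroup M
  rw [← h2]
  exact IntermediateField.fixedField_antitone h1

lemma finiteDimensional_fixedField (H : Subgroup (GQ ⧸ N)) :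
    FiniteDimensional ℚ (IntermediateField.fixedField (H.comap (QuotientGroup.mk' N))) := by
  have h := fixedField_le N hN H
  exact FiniteDimensional.of_injective
    (IntermediateField.inclusion h).toLinearMap (IntermediateField.inclusion h).injective

lemma fixingSubgroup_eq (H : Subgroup (GQ ⧸ N)) :
    (IntermediateField.fixedField (H.comap (QuotientGroup.mk' N))).fixingSubgroup =
      H.comap (QuotientGroup.mk' N) := by
  have hopenN : IsOpen (N : Set GQ) := by
    rw [hN]; exact IntermediateField.fixingSubgroup_isOpen M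
  have h1 : N ≤ H.comap (QuotientGroup.mk' N) := by
    intro g hg
    rw [Subgroup.mem_comap, QuotientGroup.mk'_apply, (QuotientGroup.eq_one_iff g).mpr hg]
    exact H.one_mem
  have hopen : IsOpen ((H.comap (QuotientGroup.mk' N) : Subgroup GQ) : Set GQ) :=
    Subgroup.isOpen_mono h1 hopenN
  have hclosed : IsClosed ((H.comap (QuotientGroup.mk' N) : Subgroup GQ) : Set GQ) :=
    Subgroup.isClosed_of_isOpen _ hopen
  exact InfiniteGalois.fixingSubgroup_fixedField ⟨H.comap (QuotientGroup.mk' N), hclosed⟩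


/-- the subfield of `ℚ̄` belonging to a subgroup of the finite quotient. -/
noncomputable abbrev fieldOf (N : Subgroup GQ) [N.Normal] (H : Subgroup (GQ ⧸ N)) :
    IntermediateField ℚ QBar :=
  IntermediateField.fixedField (H.comap (QuotientGroup.mk' N))

lemma numberField_fieldOf (H : Subgroup (GQ ⧸ N)) : NumberField (fieldOf N H) where
  to_charZero := inferInstance
  to_finiteDimensional := finiteDimensional_fixedField N hN H

/-- the count `#{x : x⁻¹ σ x ∈ H}` in terms of fixed embeddings. -/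
theorem card_conj_mem (H : Subgroup (GQ ⧸ N)) [NumberField (fieldOf N H)] (σ : GQ) :
    Nat.card {x : GQ ⧸ N // x⁻¹ * (σ : GQ ⧸ N) * x ∈ H} =
      Nat.card H * fixCount (fieldOf N H) σ := by
  classical
  have hfin := finite_quot N hN
  have hfix := fixingSubgroup_eq N hN H
  set φ₀ : (fieldOf N H) →ₐ[ℚ] QBar := (fieldOf N H).val with hφ₀
  have hstab : ∀ g : GQ, g • φ₀ = φ₀ ↔ ((g : GQ ⧸ N) ∈ H) := by
    intro g
    have h1 : g ∈ (fieldOf N H).fixingSubgroup ↔ (g : GQ ⧸ N) ∈ H := by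
      rw [hfix, Subgroup.mem_comap, QuotientGroup.mk'_apply]
    rw [← h1, IntermediateField.mem_fixingSubgroup_iff]
    constructor
    · intro h x hx
      exact congrArg (fun f : (fieldOf N H) →ₐ[ℚ] QBar => f ⟨x, hx⟩) h
    · intro h
      ext x
      exact h x x.2
  -- the map from the quotient to the embeddings
  set r : (GQ ⧸ N) → ((fieldOf N H) →ₐ[ℚ] QBar) := fun x => x.out • φ₀ with hr
  have hreq : ∀ (x : GQ ⧸ N) (g h : GQ), (QuotientGroup.mk h : GQ ⧸ N) = x →
      (r x = g • φ₀ ↔ ((g : GQ ⧸ N))⁻¹ * x ∈ H) := by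
    intro x g h hx
    rw [hr]
    simp only
    have h1 : x.out • φ₀ = g • φ₀ ↔ (g⁻¹ * x.out) • φ₀ = φ₀ := by
      rw [mul_smul, inv_smul_eq_iff]
    rw [h1, hstab]
    have h2 : ((g⁻¹ * x.out : GQ) : GQ ⧸ N) = (g : GQ ⧸ N)⁻¹ * x := by
      rw [QuotientGroup.mk_mul, QuotientGroup.mk_inv, QuotientGroup.out_eq']
    rw [h2]
  have hrout : ∀ (x : GQ ⧸ N) (g : GQ), (r x = g • φ₀ ↔ ((g : GQ ⧸ N))⁻¹ * x ∈ H) := by
    intro x g
    exact hreq x g x.out (QuotientGroup.out_eq' x)
  have hsurj : ∀ φ : (fieldOf N H) →ₐ[ℚ] QBar, ∃ g : GQ, g • φ₀ = φ := fun φ =>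
    MulAction.exists_smul_eq GQ φ₀ φ
  have hmem : ∀ x : GQ ⧸ N, (x⁻¹ * (σ : GQ ⧸ N) * x ∈ H ↔ σ • r x = r x) := by
    intro x
    have h1 : r x = x.out • φ₀ := rfl
    have h2 : r x = (σ * x.out) • φ₀ ↔ σ • r x = r x := by
      rw [mul_smul, ← h1]
      exact eq_comm
    rw [← h2, hrout]
    have h3 : ((σ * x.out : GQ) : GQ ⧸ N)⁻¹ * x = (x⁻¹ * (σ : GQ ⧸ N) * x)⁻¹ := by
      rw [QuotientGroup.mk_mul, QuotientGroup.out_eq']
      group
    rw [h3, inv_mem_iff]
  have e1 : {x : GQ ⧸ N // x⁻¹ * (σ : GQ ⧸ N) * x ∈ H} ≃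
      Σ φ : {φ : (fieldOf N H) →ₐ[ℚ] QBar // σ • φ = φ}, {x : GQ ⧸ N // r x = φ.1} :=
    { toFun := fun x => ⟨⟨r x.1, (hmem x.1).mp x.2⟩, ⟨x.1, rfl⟩⟩
      invFun := fun y => ⟨y.2.1, (hmem y.2.1).mpr (by rw [y.2.2]; exact y.1.2)⟩
      left_inv := fun x => rfl
      right_inv := by
        rintro ⟨⟨φ, hφ⟩, ⟨x, hx⟩⟩
        simp only at hx
        subst hx
        rfl }
  have hfib : ∀ φ : (fieldOf N H) →ₐ[ℚ] QBar, Nat.card {x : GQ ⧸ N // r x = φ} = Nat.card H := by
    intro φ
    obtain ⟨g, rfl⟩ := hsurj φ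
    refine Nat.card_congr
      { toFun := fun x => ⟨(g : GQ ⧸ N)⁻¹ * x.1, (hrout x.1 g).mp x.2⟩
        invFun := fun y => ⟨(g : GQ ⧸ N) * y.1, (hrout _ g).mpr (by
          rw [← mul_assoc, inv_mul_cancel, one_mul]; exact y.2)⟩
        left_inv := fun x => by simp
        right_inv := fun y => by simp }
  have hfinE : Finite ((fieldOf N H) →ₐ[ℚ] QBar) := inferInstance
  have : Fintype {φ : (fieldOf N H) →ₐ[ℚ] QBar // σ • φ = φ} := Fintype.ofFinite _
  rw [Nat.card_congr e1, Nat.card_sigma, Finset.sum_congr rfl (fun φ _ => hfib φ.1),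
    Finset.sum_const, smul_eq_mul, fixCount_eq_card, Finset.card_univ, ← Nat.card_eq_fintype_card,
    mul_comm]

end

end TatePole
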