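import Mathlib
import Pool.Agent.Lib.MP_058a58_ag.FixField
import Pool.Agent.Lib.MP_058a58_ag.Defect2

open Polynomial Filter Topology NumberField Set

namespace TatePole

/-- A choice of a Frobenius element at every prime. -/
def FrobSys (σ : ℕ → GQ) : Prop :=
  ∀ p : ℕ, p.Prime → ∃ 𝔓 : Ideal ZBar, 𝔓.IsPrime ∧ (p : ZBar) ∈ 𝔓 ∧ IsArithFrob p 𝔓 (σ p)

lemma exists_frobSys : ∃ σ : ℕ → GQ, FrobSys σ := by
  classical
  have h : ∀ p : ℕ, ∃ σ : GQ, p.Prime → ∃ 𝔓 : Ideal ZBar, 𝔓.IsPrime ∧ (p : ZBar) ∈ 𝔓 ∧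
      IsArithFrob p 𝔓 σ := by
    intro p
    by_cases hp : p.Prime
    · obtain ⟨𝔓, h𝔓, hp𝔓⟩ := exists_prime_over p hp
      obtain ⟨σ, hσ⟩ := exists_arithFrob p hp 𝔓 h𝔓 hp𝔓
      exact ⟨σ, fun _ => ⟨𝔓, h𝔓, hp𝔓, hσ⟩⟩
    · exact ⟨1, fun h => (hp h).elim⟩
  choose σ hσ using h
  exact ⟨σ, hσ⟩

/-- `g` has prime sum `c log (1/(x-1)) + O(1)`. -/
def HasMean (g : ℕ → ℝ) (c : ℝ) : Prop :=
  ∃ K : ℝ, ∀ᶠ x in 𝓝[>] (1:ℝ), |RR g x - c * Real.log (1 / (x - 1))| ≤ K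

/-- bounded on the primes -/
def BddPrimes (g : ℕ → ℝ) : Prop := ∃ C : ℝ, ∀ p : ℕ, p.Prime → |g p| ≤ C

lemma HasMean.const_mul {g : ℕ → ℝ} {c : ℝ} (h : HasMean g c) (a : ℝ) :
    HasMean (fun p => a * g p) (a * c) := by
  obtain ⟨K, hK⟩ := h
  refine ⟨|a| * K, ?_⟩
  filter_upwards [hK] with x hx
  rw [RR_const_mul, mul_assoc, ← mul_sub, abs_mul]
  exact mul_le_mul_of_nonneg_left hx (abs_nonneg _)

lemma HasMean.add {g h : ℕ → ℝ} {c d : ℝ} (hg : HasMean g c) (hh : HasMean h d)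
    (bg : BddPrimes g) (bh : BddPrimes h) : HasMean (fun p => g p + h p) (c + d) := by
  obtain ⟨K, hK⟩ := hg
  obtain ⟨K', hK'⟩ := hh
  obtain ⟨C, hC⟩ := bg
  obtain ⟨C', hC'⟩ := bh
  refine ⟨K + K', ?_⟩
  filter_upwards [hK, hK', self_mem_nhdsWithin] with x hx hx' hx1
  simp only [mem_Ioi] at hx1
  rw [RR_add hC hC' hx1]
  have h1 : RR g x + RR h x - (c + d) * Real.log (1 / (x - 1)) =
    (RR g x - c * Real.log (1 / (x - 1))) + (RR h x - d * Real.log (1 / (x - 1))) := by ring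
  rw [h1]
  exact (abs_add_le _ _).trans (add_le_add hx hx')

lemma BddPrimes.const_mul {g : ℕ → ℝ} (h : BddPrimes g) (a : ℝ) :
    BddPrimes (fun p => a * g p) := by
  obtain ⟨C, hC⟩ := h
  refine ⟨|a| * C, fun p hp => ?_⟩
  rw [abs_mul]
  exact mul_le_mul_of_nonneg_left (hC p hp) (abs_nonneg _)

lemma HasMean.sum {ι : Type*} (s : Finset ι) {g : ι → ℕ → ℝ} {c : ι → ℝ}
    (h : ∀ i ∈ s, HasMean (g i) (c i)) (b : ∀ i ∈ s, BddPrimes (g i)) :
    HasMean (fun p => ∑ i ∈ s, g i p) (∑ i ∈ s, c i) := by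
  classical
  choose! K hK using h
  choose! C hC using b
  refine ⟨∑ i ∈ s, K i, ?_⟩
  have hall : ∀ᶠ x in 𝓝[>] (1:ℝ), ∀ i ∈ s,
      |RR (g i) x - c i * Real.log (1 / (x - 1))| ≤ K i := by
    rw [Finset.eventually_all]
    exact fun i hi => hK i hi
  filter_upwards [hall, self_mem_nhdsWithin] with x hx hx1
  simp only [mem_Ioi] at hx1
  rw [RR_finset_sum s g C hC hx1, Finset.sum_mul, ← Finset.sum_sub_distrib]
  exact (Finset.abs_sum_le_sum_abs _ _).trans (Finset.sum_le_sum fun i hi => hx i hi)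

lemma HasMean.congr_finite {g h : ℕ → ℝ} {c : ℝ} (hg : HasMean g c)
    (S : Finset ℕ) (hS : ∀ p : ℕ, p.Prime → p ∉ S → h p = g p)
    (bg : BddPrimes g) (bh : BddPrimes h) : HasMean h c := by
  obtain ⟨K, hK⟩ := hg
  obtain ⟨C, hC⟩ := bg
  obtain ⟨C', hC'⟩ := bh
  obtain ⟨K', hK'⟩ := RR_finite_support S (C' + C)
  refine ⟨K + K', ?_⟩
  filter_upwards [hK, self_mem_nhdsWithin] with x hx hx1
  simp only [mem_Ioi] at hx1
  set d : ℕ → ℝ := fun p => h p - g p with hd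
  have hdb : ∀ p : ℕ, p.Prime → |d p| ≤ C' + C := fun p hp =>
    (abs_sub _ _).trans (add_le_add (hC' p hp) (hC p hp))
  have h1 : RR h x = RR g x + RR d x := by
    rw [← RR_add hC hdb hx1]
    refine RR_congr (fun p _ => ?_) x
    simp only [hd]; ring
  have h2 := hK' d (fun p hp hpS => by simp only [hd]; rw [hS p hp hpS, sub_self]) hdb x (by linarith)
  have h3 : RR h x - c * Real.log (1 / (x - 1)) =
    (RR g x - c * Real.log (1 / (x - 1))) + RR d x := by rw [h1]; ring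
  rw [h3]
  exact (abs_add_le _ _).trans (add_le_add hx h2)

lemma fixCount_le (K : Type*) [Field K] [NumberField K] (g : GQ) :
    fixCount K g ≤ Nat.card (K →ₐ[ℚ] QBar) := by
  unfold fixCount
  exact Nat.card_le_card_of_injective Subtype.val Subtype.val_injective

lemma bdd_fixCount (K : Type*) [Field K] [NumberField K] (σ : ℕ → GQ) :
    BddPrimes (fun p => (fixCount K (σ p) : ℝ)) := by
  refine ⟨Nat.card (K →ₐ[ℚ] QBar), fun p _ => ?_⟩
  simp only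
  rw [abs_of_nonneg (Nat.cast_nonneg _)]
  exact_mod_cast fixCount_le K (σ p)

/-- number of ideals of norm `p` -/
noncomputable def idealCount (K : Type*) [Field K] [NumberField K] (p : ℕ) : ℕ :=
  Nat.card {I : Ideal (𝓞 K) // Ideal.absNorm I = p}

theorem fixCount_mean (K : Type*) [Field K] [NumberField K] {σ : ℕ → GQ} (hσ : FrobSys σ)
    (hD : HasMean (fun p => (idealCount K p : ℝ)) 1)
    (hb : BddPrimes (fun p => (idealCount K p : ℝ))) :
    HasMean (fun p => (fixCount K (σ p) : ℝ)) 1 := by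
  refine hD.congr_finite (finite_bad K).toFinset (fun p hp hpS => ?_) hb (bdd_fixCount K σ)
  have hgood : GoodFor K p := by
    by_contra h
    exact hpS ((finite_bad K).mem_toFinset.mpr ⟨hp, h⟩)
  obtain ⟨𝔓, h𝔓, hp𝔓, hf⟩ := hσ p hp
  rw [fixCount_eq hp hgood h𝔓 hp𝔓 hf]
  rfl

end TatePole
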