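import Mathlib

set_option autoImplicit false

/-!
# Rational class functions and permutation characters

A class function on a finite group which depends only on the cyclic subgroup generated by the
element is a linear combination of the permutation characters of the coset spaces.
-/

namespace TatePole

open Finset

theorem rational_class_span (Γ : Type*) [Group Γ] [Finite Γ] (f : Γ → ℝ)
    (hconj : ∀ g x : Γ, f (x * g * x⁻¹) = f g)
    (hgen : ∀ g h : Γ, Subgroup.zpowers g = Subgroup.zpowers h → f g = f h) :
    ∃ (s : Finset (Subgroup Γ)) (a : Subgroup Γ → ℝ), ∀ g : Γ,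
      f g = ∑ H ∈ s, a H * (Nat.card {x : Γ // x⁻¹ * g * x ∈ H} : ℝ) := by
  classical
  have : Fintype Γ := Fintype.ofFinite Γ
  have : Fintype (Subgroup Γ) := Fintype.ofFinite _
  let w : Subgroup Γ → Γ → ℝ := fun H g => (Nat.card {x : Γ // x⁻¹ * g * x ∈ H} : ℝ)
  let ψ : Subgroup Γ → Γ → ℝ := fun C g =>
    ∑ x : Γ, if Subgroup.zpowers (x⁻¹ * g * x) = C then (1 : ℝ) else 0
  have hw : ∀ H g, w H g = ∑ x : Γ, if x⁻¹ * g * x ∈ H then (1 : ℝ) else 0 := by
    intro H g
    simp only [w]
    rw [Nat.card_eq_fintype_card, Fintype.card_subtype, sum_boole]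
  have hwψ : ∀ H, w H = ∑ D ∈ univ.filter (fun D => D ≤ H), ψ D := by
    intro H
    funext g
    rw [hw, Finset.sum_apply]
    simp only [ψ]
    rw [sum_comm]
    apply sum_congr rfl
    intro x _
    rw [sum_ite_eq]
    simp only [mem_filter, mem_univ, true_and, Subgroup.zpowers_le]
  set W : Submodule ℝ (Γ → ℝ) := Submodule.span ℝ (Set.range w) with hW
  have hψW : ∀ C, ψ C ∈ W := by
    intro C
    induction C using WellFoundedLT.induction with
    | ind C ih =>
      have h1 : ψ C = w C - ∑ D ∈ univ.filter (fun D => D < C), ψ D := by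
        rw [hwψ C]
        have h2 : univ.filter (fun D : Subgroup Γ => D ≤ C) =
            insert C (univ.filter (fun D => D < C)) := by
          ext D
          simp only [mem_filter, mem_univ, true_and, mem_insert]
          exact le_iff_eq_or_lt
        rw [h2, sum_insert (by simp)]
        abel
      rw [h1]
      apply Submodule.sub_mem _ (Submodule.subset_span (Set.mem_range_self C))
      apply Submodule.sum_mem
      intro D hD
      rw [mem_filter] at hD
      exact ih D hD.2
  -- values of `f` on cyclic subgroups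
  let c : Subgroup Γ → ℝ := fun C => if h : ∃ g : Γ, Subgroup.zpowers g = C then f h.choose else 0
  have hc : ∀ g : Γ, c (Subgroup.zpowers g) = f g := by
    intro g
    have h : ∃ g' : Γ, Subgroup.zpowers g' = Subgroup.zpowers g := ⟨g, rfl⟩
    simp only [c]
    rw [dif_pos h]
    exact hgen _ _ h.choose_spec
  have hf : f = ((Fintype.card Γ : ℝ)⁻¹) • ∑ C : Subgroup Γ, c C • ψ C := by
    funext g
    rw [Pi.smul_apply, Finset.sum_apply, smul_eq_mul]
    simp only [Pi.smul_apply, smul_eq_mul, ψ]
    simp_rw [mul_sum (univ : Finset Γ)]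
    rw [sum_comm]
    have h1 : ∀ x : Γ, ∑ C : Subgroup Γ,
        c C * (if Subgroup.zpowers (x⁻¹ * g * x) = C then (1 : ℝ) else 0) = f g := by
      intro x
      simp only [mul_ite, mul_one, mul_zero]
      rw [sum_ite_eq, if_pos (mem_univ _), hc]
      have := hconj g x⁻¹
      rwa [inv_inv] at this
    rw [sum_congr rfl fun x _ => h1 x, sum_const, card_univ, nsmul_eq_mul]
    have : (Fintype.card Γ : ℝ) ≠ 0 := by
      exact_mod_cast Fintype.card_ne_zero
    field_simp
  have hfW : f ∈ W := by
    rw [hf]
    apply Submodule.smul_mem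
    apply Submodule.sum_mem
    intro C _
    exact Submodule.smul_mem _ _ (hψW C)
  rw [hW, Submodule.mem_span_range_iff_exists_fun] at hfW
  obtain ⟨a, ha⟩ := hfW
  refine ⟨univ, a, fun g => ?_⟩
  rw [← ha, Finset.sum_apply]
  rfl

end TatePole
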