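import Mathlib

set_option autoImplicit false

/-!
# Traces of powers of an endomorphism of finite order with rational trace
-/

namespace TatePole

open Finset Polynomial

/-- Over a field containing a primitive `n`-th root of unity `ζ`: the traces of the powers of an
endomorphism of order dividing `n` are given by natural number multiplicities. -/
theorem exists_multiplicities {K V : Type*} [Field K] [CharZero K] [AddCommGroup V] [Module K V]
    [FiniteDimensional K V] (g : Module.End K V) (n : ℕ) (hn : 0 < n) (hg : g ^ n = 1)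
    (ζ : K) (hζ : IsPrimitiveRoot ζ n) :
    ∃ m : ℕ → ℕ, ∀ j : ℕ, LinearMap.trace K V (g ^ j) = ∑ i ∈ range n, (m i : K) * (ζ ^ j) ^ i := by
  have hn0 : (n : K) ≠ 0 := by exact_mod_cast hn.ne'
  have hζ0 : ζ ≠ 0 := hζ.ne_zero hn.ne'
  let e : ℕ → Module.End K V := fun i => (n : K)⁻¹ • ∑ l ∈ range n, (ζ⁻¹ ^ (i * l)) • g ^ l
  have hshift : ∀ i, g * e i = ζ ^ i • e i := by
    intro i
    simp only [e]
    rw [mul_smul_comm, mul_sum, smul_comm (ζ ^ i)]
    congr 1
    have h1 : ∀ l ∈ range n, g * (ζ⁻¹ ^ (i * l)) • g ^ l =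
        ζ ^ i • ((ζ⁻¹ ^ (i * (l + 1))) • g ^ (l + 1)) := by
      intro l _
      rw [mul_smul_comm, smul_smul, ← pow_succ']
      congr 1
      rw [mul_add, mul_one, pow_add, mul_comm (ζ⁻¹ ^ (i * l)), ← mul_assoc, ← mul_pow,
        mul_inv_cancel₀ hζ0, one_pow, one_mul]
    rw [sum_congr rfl h1, ← smul_sum]
    congr 1
    have h2 := sum_range_succ (fun l => (ζ⁻¹ ^ (i * l)) • g ^ l) n
    have h3 := sum_range_succ' (fun l => (ζ⁻¹ ^ (i * l)) • g ^ l) n
    have h4 : (ζ⁻¹ ^ (i * n)) • g ^ n = (ζ⁻¹ ^ (i * 0)) • g ^ 0 := by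
      rw [hg, mul_comm i n, pow_mul, inv_pow, hζ.pow_eq_one]
      simp
    rw [h2, h4] at h3
    exact (add_right_cancel h3).symm
  have hpow : ∀ i l, g ^ l * e i = (ζ ^ i) ^ l • e i := by
    intro i l
    induction l with
    | zero => simp
    | succ l ih =>
      rw [pow_succ, mul_assoc, hshift, mul_smul_comm, ih, smul_smul, ← pow_succ']
  have hidem : ∀ i, e i * e i = e i := by
    intro i
    have h1 : e i * e i = (n : K)⁻¹ • ∑ l ∈ range n, (ζ⁻¹ ^ (i * l)) • (g ^ l * e i) := by
      conv_lhs => rw [show e i * e i = ((n : K)⁻¹ • ∑ l ∈ range n, (ζ⁻¹ ^ (i * l)) • g ^ l) * e i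
        from rfl]
      rw [smul_mul_assoc, sum_mul]
      congr 1
    have h2 : ∀ l ∈ range n, (ζ⁻¹ ^ (i * l)) • (g ^ l * e i) = e i := by
      intro l _
      rw [hpow, smul_smul, ← pow_mul, ← mul_pow, inv_mul_cancel₀ hζ0, one_pow, one_smul]
    rw [h1, sum_congr rfl h2, sum_const, card_range, ← Nat.cast_smul_eq_nsmul K, smul_smul,
      inv_mul_cancel₀ hn0, one_smul]
  have hsum : ∑ i ∈ range n, e i = 1 := by
    simp only [e]
    rw [← smul_sum, sum_comm]
    have h1 : ∀ l ∈ range n, ∑ i ∈ range n, (ζ⁻¹ ^ (i * l)) • g ^ l =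
        if l = 0 then (n : K) • (1 : Module.End K V) else 0 := by
      intro l hl
      rw [← sum_smul]
      split_ifs with h
      · subst h
        simp
      · have h2 : ∑ i ∈ range n, ζ⁻¹ ^ (i * l) = 0 := by
          have h3 : ζ⁻¹ ^ l ≠ 1 := by
            rw [inv_pow]
            intro h4
            rw [inv_eq_one] at h4
            have h5 := hζ.dvd_of_pow_eq_one l h4
            have h6 := Nat.le_of_dvd (Nat.pos_of_ne_zero h) h5
            rw [mem_range] at hl
            omega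
          have h4 : ∀ i ∈ range n, ζ⁻¹ ^ (i * l) = (ζ⁻¹ ^ l) ^ i := by
            intro i _
            rw [← pow_mul, mul_comm]
          rw [sum_congr rfl h4, geom_sum_eq h3, ← pow_mul, mul_comm l n, pow_mul, inv_pow,
            hζ.pow_eq_one]
          simp
        rw [h2, zero_smul]
    rw [sum_congr rfl h1, sum_ite_eq', if_pos (mem_range.mpr hn), smul_smul,
      inv_mul_cancel₀ hn0, one_smul]
  refine ⟨fun i => Module.finrank K (LinearMap.range (e i)), fun j => ?_⟩
  have h1 : g ^ j = ∑ i ∈ range n, (ζ ^ i) ^ j • e i := by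
    calc g ^ j = g ^ j * ∑ i ∈ range n, e i := by rw [hsum, mul_one]
      _ = ∑ i ∈ range n, g ^ j * e i := by rw [mul_sum]
      _ = _ := sum_congr rfl fun i _ => hpow i j
  rw [h1, map_sum]
  apply sum_congr rfl
  intro i _
  have h2 : LinearMap.IsProj (LinearMap.range (e i)) (e i) :=
    LinearMap.IsIdempotentElem.isProj_range _ (hidem i)
  rw [map_smul, h2.trace, smul_eq_mul, mul_comm, ← pow_mul, ← pow_mul, mul_comm i j]

theorem trace_pow_of_rational {k V : Type*} [Field k] [CharZero k] [AddCommGroup V] [Module k V]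
    [FiniteDimensional k V] (g : V →ₗ[k] V) (n : ℕ) (hn : 0 < n) (hg : g ^ n = 1) (q : ℚ)
    (hq : LinearMap.trace k V g = (q : k)) (j : ℕ) (hj : Nat.Coprime j n) :
    LinearMap.trace k V (g ^ j) = (q : k) := by
  let K := AlgebraicClosure k
  have : CharZero K := charZero_of_injective_algebraMap (algebraMap k K).injective
  have : NeZero (n : K) := ⟨by exact_mod_cast hn.ne'⟩
  obtain ⟨ζ, hζ⟩ := HasEnoughRootsOfUnity.exists_primitiveRoot K n
  let G : Module.End K (TensorProduct k K V) := LinearMap.baseChange K g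
  have hGn : G ^ n = 1 := by
    rw [← LinearMap.baseChange_pow, hg, LinearMap.baseChange_one]
  obtain ⟨m, hm⟩ := exists_multiplicities G n hn hGn ζ hζ
  have htr : ∀ i, algebraMap k K (LinearMap.trace k V (g ^ i)) =
      ∑ l ∈ range n, (m l : K) * (ζ ^ i) ^ l := by
    intro i
    rw [← LinearMap.trace_baseChange, LinearMap.baseChange_pow]
    exact hm i
  let Φ : ℚ[X] := ∑ l ∈ range n, C (m l : ℚ) * X ^ l
  have hΦ : ∀ x : K, aeval x Φ = ∑ l ∈ range n, (m l : K) * x ^ l := by
    intro x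
    simp [Φ]
  have h1 : aeval ζ (Φ - C q) = 0 := by
    rw [map_sub, hΦ, aeval_C]
    have h2 := htr 1
    rw [pow_one, pow_one, hq] at h2
    rw [← h2]
    simp
  have h2 : minpoly ℚ ζ ∣ Φ - C q := minpoly.dvd ℚ ζ h1
  have hζj : IsPrimitiveRoot (ζ ^ j) n := hζ.pow_of_coprime j hj
  have h3 : minpoly ℚ ζ = minpoly ℚ (ζ ^ j) := by
    rw [← cyclotomic_eq_minpoly_rat hζ hn, ← cyclotomic_eq_minpoly_rat hζj hn]
  have h4 : aeval (ζ ^ j) (Φ - C q) = 0 := by
    rw [h3] at h2
    exact (minpoly.dvd_iff).mp h2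
  rw [map_sub, hΦ, aeval_C, ← htr j] at h4
  apply (algebraMap k K).injective
  rw [sub_eq_zero] at h4
  rw [h4]
  simp

end TatePole
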