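import Mathlib
import Pool.Agent.Lib.MP_058a58_ag.Dedekind
import Pool.Agent.Lib.MP_058a58_ag.GroupSpan
import Pool.Agent.Lib.MP_058a58_ag.TracePow
import Pool.Agent.Lib.MP_058a58_ag.ClassSum

open Polynomial Filter Topology NumberField Set

namespace TatePole

theorem fixCount_mean' (K : Type*) [Field K] [NumberField K] {σ : ℕ → GQ} (hσ : FrobSys σ) :
    HasMean (fun p => (fixCount K (σ p) : ℝ)) 1 := by
  refine fixCount_mean K hσ ?_ ?_
  · obtain ⟨C, hC⟩ := dedekind_primeSum K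
    refine ⟨C, ?_⟩
    filter_upwards [hC] with x hx
    rw [one_mul]
    exact hx
  · refine ⟨Module.finrank ℚ K, fun p hp => ?_⟩
    simp only
    rw [abs_of_nonneg (Nat.cast_nonneg _)]
    exact_mod_cast card_norm_prime_le K p hp

/-- average over a finite group -/
noncomputable def gavg {Γ : Type*} (f : Γ → ℝ) : ℝ := (∑ᶠ γ, f γ) / Nat.card Γ

lemma gavg_sum {Γ ι : Type*} [Finite Γ] (s : Finset ι) (f : ι → Γ → ℝ) :
    gavg (fun γ => ∑ i ∈ s, f i γ) = ∑ i ∈ s, gavg (f i) := by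
  have : Fintype Γ := Fintype.ofFinite Γ
  unfold gavg
  simp only [finsum_eq_sum_of_fintype]
  rw [Finset.sum_comm, Finset.sum_div]

lemma gavg_const_mul {Γ : Type*} [Finite Γ] (a : ℝ) (f : Γ → ℝ) :
    gavg (fun γ => a * f γ) = a * gavg f := by
  have : Fintype Γ := Fintype.ofFinite Γ
  unfold gavg
  simp only [finsum_eq_sum_of_fintype]
  rw [← Finset.mul_sum, mul_div_assoc]

lemma gavg_conj_count {Γ : Type*} [Group Γ] [Finite Γ] (H : Subgroup Γ) :
    gavg (fun g : Γ => (Nat.card {x : Γ // x⁻¹ * g * x ∈ H} : ℝ)) = Nat.card H := by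
  classical
  have : Fintype Γ := Fintype.ofFinite Γ
  unfold gavg
  simp only [finsum_eq_sum_of_fintype]
  have h1 : ∀ g : Γ, (Nat.card {x : Γ // x⁻¹ * g * x ∈ H} : ℝ) =
      ∑ x : Γ, if x⁻¹ * g * x ∈ H then (1:ℝ) else 0 := by
    intro g
    rw [Nat.card_eq_fintype_card, Fintype.card_subtype, Finset.sum_boole]
  have h2 : ∀ x : Γ, ∑ g : Γ, (if x⁻¹ * g * x ∈ H then (1:ℝ) else 0) = Nat.card H := by
    intro x
    have h3 : ∑ g : Γ, (if x⁻¹ * g * x ∈ H then (1:ℝ) else 0) =
        ∑ g : Γ, (if g ∈ H then (1:ℝ) else 0) := by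
      refine Fintype.sum_equiv (MulAut.conj x⁻¹).toEquiv _ _ fun g => ?_
      simp
    rw [h3, Finset.sum_boole, Nat.card_eq_fintype_card, Fintype.card_subtype]
  simp only [h1]
  rw [Finset.sum_comm, Finset.sum_congr rfl (fun x _ => h2 x), Finset.sum_const, nsmul_eq_mul,
    Finset.card_univ, ← Nat.card_eq_fintype_card]
  have h4 : (Nat.card Γ : ℝ) ≠ 0 := by
    exact_mod_cast Nat.card_pos.ne'
  field_simp

theorem classFun_mean (N : Subgroup GQ) [N.Normal] {M : IntermediateField ℚ QBar}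
    [FiniteDimensional ℚ M] (hN : N = M.fixingSubgroup) (f : GQ ⧸ N → ℝ)
    (hconj : ∀ g x : GQ ⧸ N, f (x * g * x⁻¹) = f g)
    (hgen : ∀ g h : GQ ⧸ N, Subgroup.zpowers g = Subgroup.zpowers h → f g = f h)
    {σ : ℕ → GQ} (hσ : FrobSys σ) :
    HasMean (fun p => f (σ p)) (gavg f) := by
  classical
  have hfin := finite_quot N hN
  obtain ⟨s, a, hs⟩ := rational_class_span (GQ ⧸ N) f hconj hgen
  have hf : f = fun g => ∑ H ∈ s, a H * (Nat.card {x : GQ ⧸ N // x⁻¹ * g * x ∈ H} : ℝ) :=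
    funext hs
  have havg : gavg f = ∑ H ∈ s, a H * (Nat.card H * 1 : ℝ) := by
    rw [hf, gavg_sum]
    refine Finset.sum_congr rfl fun H _ => ?_
    rw [gavg_const_mul, gavg_conj_count, mul_one]
  have hfun : (fun p => f (σ p)) = fun p => ∑ H ∈ s, a H *
      ((Nat.card H : ℝ) * @fixCount (fieldOf N H) _ (numberField_fieldOf N hN H) (σ p)) := by
    funext p
    rw [hs]
    refine Finset.sum_congr rfl fun H _ => ?_
    have := numberField_fieldOf N hN H
    rw [card_conj_mem N hN H (σ p)]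
    push_cast
    rfl
  rw [hfun, havg]
  refine HasMean.sum s (fun H _ => ?_) (fun H _ => ?_)
  · have := numberField_fieldOf N hN H
    exact ((fixCount_mean' (fieldOf N H) hσ).const_mul _).const_mul _
  · have := numberField_fieldOf N hN H
    exact ((bdd_fixCount (fieldOf N H) σ).const_mul _).const_mul _

end TatePole
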