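import Mathlib
import Pool.Agent.Lib.MP_058a58_ag.Embed

open Polynomial Filter Topology NumberField

namespace TatePole

section
variable {k W : Type*} [Field k] [AddCommGroup W] [Module k W]

/-- The action of `g` on `W`-valued functions on the embeddings of the number field `K`:
`(g f)(φ) = g (f (g⁻¹ ∘ φ))`. -/
noncomputable def indAct (ρ : Representation k GQ W) (K : Type*) [Field K] [NumberField K]
    (g : GQ) : ((K →ₐ[ℚ] QBar) → W) →ₗ[k] ((K →ₐ[ℚ] QBar) → W) :=
  LinearMap.pi fun φ => (ρ g).comp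
    (LinearMap.proj (((g⁻¹ : GQ) : QBar →ₐ[ℚ] QBar).comp φ))

lemma indAct_one (ρ : Representation k GQ W) (K : Type*) [Field K] [NumberField K] :
    indAct ρ K 1 = 1 := by
  ext f φ
  simp only [indAct, inv_one, map_one]
  rfl

lemma indAct_mul (ρ : Representation k GQ W) (K : Type*) [Field K] [NumberField K] (g h : GQ) :
    indAct ρ K (g * h) = indAct ρ K g * indAct ρ K h := by
  ext f φ
  simp only [indAct, mul_inv_rev, map_mul]
  rfl

/-- The representation of the Galois group on `W`-valued functions on the embeddings of the number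
field `K`: `(g f)(φ) = g (f (g⁻¹ ∘ φ))`.  If `W` is the cohomology of `X` over `ℚ̄`, this is the
cohomology of `X ×_ℚ K`, considered as a variety over `ℚ`. -/
noncomputable def indRep (ρ : Representation k GQ W) (K : Type*) [Field K] [NumberField K] :
    Representation k GQ ((K →ₐ[ℚ] QBar) → W) where
  toFun := indAct ρ K
  map_one' := indAct_one ρ K
  map_mul' := indAct_mul ρ K

lemma indRep_apply (ρ : Representation k GQ W) (K : Type*) [Field K] [NumberField K] (g : GQ)
    (f : (K →ₐ[ℚ] QBar) → W) (φ : K →ₐ[ℚ] QBar) :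
    indRep ρ K g f φ = ρ g (f (g⁻¹ • φ)) := rfl

lemma trace_indRep [FiniteDimensional k W] (ρ : Representation k GQ W) (K : Type*) [Field K]
    [NumberField K] (g : GQ) :
    LinearMap.trace k _ (indRep ρ K g) = (fixCount K g : k) * LinearMap.trace k W (ρ g) := by
  classical
  let b := Module.Free.chooseBasis k W
  let B : Module.Basis (Σ _ : K →ₐ[ℚ] QBar, Module.Free.ChooseBasisIndex k W) k
    ((K →ₐ[ℚ] QBar) → W) := Pi.basis fun _ => b
  rw [LinearMap.trace_eq_matrix_trace k B, LinearMap.trace_eq_matrix_trace k b]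
  simp only [Matrix.trace, Matrix.diag, LinearMap.toMatrix_apply]
  rw [Fintype.sum_sigma]
  have h1 : ∀ φ : K →ₐ[ℚ] QBar, ∑ i, B.repr (indRep ρ K g (B ⟨φ, i⟩)) ⟨φ, i⟩ =
      if g • φ = φ then ∑ i, b.repr (ρ g (b i)) i else 0 := by
    intro φ
    have h2 : ∀ i, B.repr (indRep ρ K g (B ⟨φ, i⟩)) ⟨φ, i⟩ =
        b.repr (ρ g (if g⁻¹ • φ = φ then b i else 0)) i := by
      intro i
      rw [Pi.basis_repr, indRep_apply]
      congr 3
      show B ⟨φ, i⟩ (g⁻¹ • φ) = _
      rw [Pi.basis_apply, Pi.single_apply]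
    simp only [h2]
    have h3 : (g⁻¹ • φ = φ) ↔ (g • φ = φ) := by
      rw [inv_smul_eq_iff]; exact eq_comm
    by_cases h : g • φ = φ
    · rw [if_pos h]
      refine Finset.sum_congr rfl fun i _ => ?_
      rw [if_pos (h3.mpr h)]
    · rw [if_neg h]
      refine Finset.sum_eq_zero fun i _ => ?_
      rw [if_neg (fun h' => h (h3.mp h'))]
      simp
  rw [Finset.sum_congr rfl fun φ _ => h1 φ, ← Finset.sum_filter, Finset.sum_const, nsmul_eq_mul]
  congr 1
  rw [fixCount_eq_card, Nat.card_eq_fintype_card, Fintype.card_subtype]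

end

end TatePole
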