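import Mathlib

open Polynomial Filter Topology

namespace TatePole

/-- dimension of the invariants of a representation with finite image. -/
theorem card_mul_finrank_invariants {k V G : Type*} [Field k] [CharZero k] [AddCommGroup V]
    [Module k V] [FiniteDimensional k V] [Group G] (τ : Representation k G V)
    (N : Subgroup G) [N.Normal] [Fintype (G ⧸ N)] (hτ : ∀ g ∈ N, τ g = 1) :
    (Fintype.card (G ⧸ N) : k) * Module.finrank k τ.invariants =
      ∑ γ : G ⧸ N, LinearMap.trace k V (τ γ.out) := by
  classical
  let τ' : Representation k (G ⧸ N) V := QuotientGroup.lift N τ (fun g hg => hτ g hg)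
  have hτ' : ∀ g : G, τ' (g : G ⧸ N) = τ g := fun g => rfl
  have hinv : τ'.invariants = τ.invariants := by
    ext v
    rw [Representation.mem_invariants, Representation.mem_invariants]
    constructor
    · intro h g
      rw [← hτ']; exact h g
    · intro h γ
      obtain ⟨g, rfl⟩ := QuotientGroup.mk_surjective γ
      rw [hτ']; exact h g
  have hcard : (Fintype.card (G ⧸ N) : k) ≠ 0 := by
    exact_mod_cast Fintype.card_ne_zero
  let inst : Invertible (Fintype.card (G ⧸ N) : k) := invertibleOfNonzero hcard
  have htr := LinearMap.IsProj.trace (Representation.isProj_averageMap τ')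
  have h1 : LinearMap.trace k V (Representation.averageMap τ') =
      ⅟(Fintype.card (G ⧸ N) : k) * ∑ γ : G ⧸ N, LinearMap.trace k V (τ' γ) := by
    unfold Representation.averageMap
    rw [GroupAlgebra.average, map_smul, map_sum, map_smul, map_sum, smul_eq_mul]
    simp
  rw [h1, hinv] at htr
  have h2 : ∀ γ : G ⧸ N, τ' γ = τ γ.out := by
    intro γ
    rw [← hτ', QuotientGroup.out_eq']
  simp only [h2] at htr
  rw [← htr, ← mul_assoc, mul_invOf_self, one_mul]

end TatePole
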