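import Mathlib
import Pool.Agent.Lib.MP_058a58_ag.IndRep
import Pool.Agent.Lib.MP_058a58_ag.Invar

open Polynomial Filter Topology NumberField

namespace TatePole

section
variable {k W : Type*} [Field k] [AddCommGroup W] [Module k W]

/-- For a subspace `B` of `W` (classes of algebraic cycles over `ℚ̄`): the dimension of the space of
Galois-invariant `B`-valued functions on the embeddings of `K`, i.e. the rank of the group of
classes of cycles on `X ×_ℚ K`. -/
noncomputable def cycleRank (ρ : Representation k GQ W) (B : Submodule k W) (K : Type*) [Field K]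
    [NumberField K] : ℕ :=
  Module.finrank k
    ↥(Submodule.pi Set.univ (fun _ : K →ₐ[ℚ] QBar => B) ⊓ (indRep ρ K).invariants)

/-- the restriction of a representation to a stable subspace. -/
noncomputable def resRep (ρ : Representation k GQ W) (B : Submodule k W)
    (hB : ∀ g : GQ, ∀ w ∈ B, ρ g w ∈ B) : Representation k GQ B where
  toFun g := (ρ g).restrict (hB g)
  map_one' := by
    ext w
    simp [LinearMap.restrict_apply]
  map_mul' g h := by
    ext w
    simp [LinearMap.restrict_apply]

lemma resRep_apply (ρ : Representation k GQ W) (B : Submodule k W)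
    (hB : ∀ g : GQ, ∀ w ∈ B, ρ g w ∈ B) (g : GQ) (w : B) :
    ((resRep ρ B hB g w : B) : W) = ρ g w := rfl

lemma cycleRank_eq (ρ : Representation k GQ W) (B : Submodule k W)
    (hB : ∀ g : GQ, ∀ w ∈ B, ρ g w ∈ B) (K : Type*) [Field K] [NumberField K] :
    cycleRank ρ B K = Module.finrank k (indRep (resRep ρ B hB) K).invariants := by
  unfold cycleRank
  refine LinearEquiv.finrank_eq ?_
  refine
    { toFun := fun f => ⟨fun φ => ⟨f.1 φ, f.2.1 φ (Set.mem_univ _)⟩, ?_⟩
      map_add' := fun f f' => rfl
      map_smul' := fun c f => rfl
      invFun := fun f => ⟨fun φ => (f.1 φ : W), ?_, ?_⟩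
      left_inv := fun f => rfl
      right_inv := fun f => rfl }
  · rw [Representation.mem_invariants]
    intro g
    ext φ
    exact congrFun ((Representation.mem_invariants _ _).mp f.2.2 g) φ
  · intro φ _
    exact (f.1 φ).2
  · refine (Representation.mem_invariants _ _).mpr fun g => ?_
    ext φ
    have h := congrFun ((Representation.mem_invariants _ _).mp f.2 g) φ
    exact congrArg Subtype.val h

/-- a finite Galois extension which splits `K` and contains `M`. -/
lemma exists_normal_field (M : IntermediateField ℚ QBar) [FiniteDimensional ℚ M]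
    (K : Type*) [Field K] [NumberField K] :
    ∃ M' : IntermediateField ℚ QBar, FiniteDimensional ℚ M' ∧ M'.fixingSubgroup.Normal ∧
      M'.fixingSubgroup ≤ M.fixingSubgroup ∧
      ∀ g ∈ M'.fixingSubgroup, ∀ φ : K →ₐ[ℚ] QBar, g • φ = φ := by
  set M' : IntermediateField ℚ QBar := IntermediateField.normalClosure ℚ M QBar ⊔
    IntermediateField.normalClosure ℚ K QBar with hM'
  have h1 : M ≤ M' := by
    refine le_trans ?_ le_sup_left
    have h := AlgHom.fieldRange_le_normalClosure (F := ℚ) (K := M) (L := QBar) M.val
    rwa [IntermediateField.fieldRange_val] at h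
  have n1 : Normal ℚ (IntermediateField.normalClosure ℚ M QBar) := normalClosure.normal ℚ M QBar
  have n2 : Normal ℚ (IntermediateField.normalClosure ℚ K QBar) := normalClosure.normal ℚ K QBar
  have f1 : FiniteDimensional ℚ (IntermediateField.normalClosure ℚ M QBar) :=
    normalClosure.is_finiteDimensional ℚ M QBar
  have f2 : FiniteDimensional ℚ (IntermediateField.normalClosure ℚ K QBar) :=
    normalClosure.is_finiteDimensional ℚ K QBar
  have hnorm : Normal ℚ M' := IntermediateField.normal_sup ℚ QBar _ _
  have hgal : IsGalois ℚ M' := {}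
  have hfin : FiniteDimensional ℚ M' := by
    rw [hM']; exact IntermediateField.finiteDimensional_sup _ _
  refine ⟨M', hfin, inferInstance, ?_, ?_⟩
  · exact IntermediateField.fixingSubgroup_antitone h1
  · intro g hg φ
    ext x
    rw [smul_emb_apply]
    rw [IntermediateField.mem_fixingSubgroup_iff] at hg
    refine hg (φ x) ?_
    have h2 : φ.fieldRange ≤ M' :=
      (AlgHom.fieldRange_le_normalClosure φ).trans le_sup_right
    exact h2 ⟨x, rfl⟩

end

end TatePole
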