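import Mathlib
import Pool.Agent.Lib.MP_058a58_ag.ClassMean
import Pool.Agent.Lib.MP_058a58_ag.CycRank

open Polynomial Filter Topology NumberField Set

namespace TatePole

section
variable {K : Type*} [Field K] [NumberField K]

lemma fixCount_congr {g h : GQ} (H : ∀ φ : K →ₐ[ℚ] QBar, g • φ = φ ↔ h • φ = φ) :
    fixCount K g = fixCount K h := by
  rw [fixCount_eq_card, fixCount_eq_card]
  exact Nat.card_congr (Equiv.subtypeEquivRight H)

lemma fixCount_inv (g : GQ) : fixCount K g⁻¹ = fixCount K g := by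
  refine fixCount_congr fun φ => ?_
  rw [inv_smul_eq_iff]; exact eq_comm

lemma fixCount_conj (x g : GQ) : fixCount K (x * g * x⁻¹) = fixCount K g := by
  rw [fixCount_eq_card, fixCount_eq_card]
  refine Nat.card_congr (Equiv.subtypeEquiv (MulAction.toPerm x⁻¹) fun φ => ?_)
  rw [MulAction.toPerm_apply, mul_smul, mul_smul, smul_eq_iff_eq_inv_smul]

end

theorem trace_mean {k W : Type*} [Field k] [CharZero k] [AddCommGroup W] [Module k W]
    [FiniteDimensional k W] (ρ : Representation k GQ W) (B : Submodule k W)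
    (hB : ∀ g : GQ, ∀ w ∈ B, ρ g w ∈ B) (M : IntermediateField ℚ QBar) [FiniteDimensional ℚ M]
    (hM : ∀ g ∈ M.fixingSubgroup, ∀ w ∈ B, ρ g w = w) (q : GQ → ℚ)
    (hq : ∀ g, LinearMap.trace k B (resRep ρ B hB g) = (q g : k))
    (K : Type*) [Field K] [NumberField K] {σ : ℕ → GQ} (hσ : FrobSys σ) :
    HasMean (fun p => (fixCount K (σ p) : ℝ) * (q (σ p)⁻¹ : ℝ)) (cycleRank ρ B K) := by
  classical
  obtain ⟨M', hM'fd, hnormal, hle, hsplit⟩ := exists_normal_field M K
  set N : Subgroup GQ := M'.fixingSubgroup with hN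
  have hfin : Finite (GQ ⧸ N) := finite_quot N hN
  have hfinT : Fintype (GQ ⧸ N) := Fintype.ofFinite _
  set τ := resRep ρ B hB with hτ
  have hNtriv : ∀ n ∈ N, τ n = 1 := by
    intro n hn
    ext w
    rw [hτ, resRep_apply]
    exact hM n (hle hn) w w.2
  have hτeq : ∀ g h : GQ, (g : GQ ⧸ N) = h → τ g = τ h := by
    intro g h hgh
    have h1 : g⁻¹ * h ∈ N := QuotientGroup.eq.mp hgh
    have h2 : h = g * (g⁻¹ * h) := by group
    rw [h2, map_mul, hNtriv _ h1, mul_one]
  have hqeq : ∀ g h : GQ, τ g = τ h → q g = q h := by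
    intro g h hgh
    have h1 := hq g
    have h2 := hq h
    rw [hgh, h2] at h1
    exact_mod_cast h1.symm
  have hfix : ∀ g h : GQ, (g : GQ ⧸ N) = h → fixCount K g = fixCount K h := by
    intro g h hgh
    have h1 : g⁻¹ * h ∈ N := QuotientGroup.eq.mp hgh
    refine fixCount_congr fun φ => ?_
    have h2 : h • φ = g • φ := by
      have h3 : h = g * (g⁻¹ * h) := by group
      rw [h3, mul_smul, hsplit _ h1]
    rw [h2]
  set f : GQ ⧸ N → ℝ := fun γ => (fixCount K γ.out : ℝ) * (q (γ.out)⁻¹ : ℝ) with hf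
  have hinv_eq : ∀ g h : GQ, (g : GQ ⧸ N) = h → ((g⁻¹ : GQ) : GQ ⧸ N) = ((h⁻¹ : GQ) : GQ ⧸ N) := by
    intro g h hgh
    rw [QuotientGroup.mk_inv, QuotientGroup.mk_inv, hgh]
  have hfmk : ∀ g : GQ, f (g : GQ ⧸ N) = (fixCount K g : ℝ) * (q g⁻¹ : ℝ) := by
    intro g
    have h1 : (((g : GQ ⧸ N).out : GQ) : GQ ⧸ N) = (g : GQ ⧸ N) := QuotientGroup.out_eq' _
    simp only [hf]
    rw [hfix _ _ h1, hqeq _ _ (hτeq _ _ (hinv_eq _ _ h1))]
  have hmean : HasMean (fun p => f (σ p)) (gavg f) := by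
    refine classFun_mean N hN f ?_ ?_ hσ
    · intro γ ξ
      obtain ⟨g, rfl⟩ := QuotientGroup.mk_surjective γ
      obtain ⟨x, rfl⟩ := QuotientGroup.mk_surjective ξ
      rw [← QuotientGroup.mk_inv, ← QuotientGroup.mk_mul, ← QuotientGroup.mk_mul, hfmk, hfmk,
        fixCount_conj]
      congr 2
      have h1 := hq (x * g * x⁻¹)⁻¹
      have h2 := hq g⁻¹
      have h3 : (x * g * x⁻¹)⁻¹ = x * (g⁻¹ * x⁻¹) := by group
      rw [h3, map_mul, LinearMap.trace_mul_comm, ← map_mul] at h1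
      have h4 : g⁻¹ * x⁻¹ * x = g⁻¹ := by group
      rw [h4, h2] at h1
      rw [h3]
      exact_mod_cast h1.symm
    · intro γ δ hγδ
      obtain ⟨g, rfl⟩ := QuotientGroup.mk_surjective γ
      obtain ⟨h, rfl⟩ := QuotientGroup.mk_surjective δ
      rw [hfmk, hfmk]
      have hmem : (h : GQ ⧸ N) ∈ Subgroup.zpowers (g : GQ ⧸ N) := by
        rw [hγδ]; exact Subgroup.mem_zpowers _
      have hmem' : (g : GQ ⧸ N) ∈ Subgroup.zpowers (h : GQ ⧸ N) := by
        rw [← hγδ]; exact Subgroup.mem_zpowers _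
      obtain ⟨j, hj⟩ := (mem_powers_iff_mem_zpowers.mpr hmem)
      obtain ⟨i, hi⟩ := (mem_powers_iff_mem_zpowers.mpr hmem')
      simp only at hj hi
      have hfx : fixCount K g = fixCount K h := by
        have key : ∀ (a b : GQ) (j : ℕ), (a : GQ ⧸ N) ^ j = b → ∀ φ : K →ₐ[ℚ] QBar,
            a • φ = φ → b • φ = φ := by
          intro a b j hab φ hφ
          have h1 : ((a ^ j : GQ) : GQ ⧸ N) = b := by rw [QuotientGroup.mk_pow, hab]
          have h2 : (a ^ j)⁻¹ * b ∈ N := QuotientGroup.eq.mp h1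
          have h3 : b = a ^ j * ((a ^ j)⁻¹ * b) := by group
          rw [h3, mul_smul, hsplit _ h2]
          clear h3 h2 h1 hab
          induction j with
          | zero => simp
          | succ n ih => rw [pow_succ, mul_smul, hφ, ih]
        exact fixCount_congr fun φ => ⟨key g h j hj φ, key h g i hi φ⟩
      rw [hfx]
      congr 2
      -- traces
      have hord : orderOf (g : GQ ⧸ N) = orderOf (h : GQ ⧸ N) := by
        rw [← Nat.card_zpowers, ← Nat.card_zpowers, hγδ]
      have hcop : Nat.Coprime j (orderOf (g : GQ ⧸ N)) := by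
        have h1 : orderOf ((g : GQ ⧸ N) ^ j) = orderOf (g : GQ ⧸ N) := by rw [hj, ← hord]
        have hpos : 0 < orderOf (g : GQ ⧸ N) := orderOf_pos _
        by_cases hj0 : j = 0
        · subst hj0
          rw [pow_zero, orderOf_one] at h1
          rw [← h1]; simp
        · rw [orderOf_pow' _ hj0] at h1
          have h2 : (orderOf (g : GQ ⧸ N)).gcd j = 1 := by
            have h3 := Nat.div_mul_cancel (Nat.gcd_dvd_left (orderOf (g : GQ ⧸ N)) j)
            rw [h1] at h3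
            exact Nat.eq_of_mul_eq_mul_left hpos (by rw [h3, mul_one])
          rw [Nat.coprime_comm]; exact h2
      have hone : (τ g⁻¹) ^ (orderOf (g : GQ ⧸ N)) = 1 := by
        rw [← map_pow]
        apply hNtriv
        rw [← QuotientGroup.eq_one_iff, QuotientGroup.mk_pow, QuotientGroup.mk_inv, inv_pow,
          pow_orderOf_eq_one, inv_one]
      have h1 := trace_pow_of_rational (τ g⁻¹) _ (orderOf_pos (g : GQ ⧸ N)) hone _ (hq g⁻¹) j hcop
      have h2 : (τ g⁻¹) ^ j = τ h⁻¹ := by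
        rw [← map_pow]
        apply hτeq
        rw [QuotientGroup.mk_pow, QuotientGroup.mk_inv, QuotientGroup.mk_inv, inv_pow, hj]
      rw [h2, hq h⁻¹] at h1
      exact_mod_cast h1.symm
  -- the average
  have havg : gavg f = cycleRank ρ B K := by
    have hτ2 : ∀ g ∈ N, indRep τ K g = 1 := by
      intro g hg
      refine LinearMap.ext fun w => funext fun φ => ?_
      rw [indRep_apply, hNtriv g hg, hsplit g⁻¹ (N.inv_mem hg)]
      rfl
    have h1 := card_mul_finrank_invariants (indRep τ K) N hτ2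
    rw [← cycleRank_eq] at h1
    have h2 : ∀ γ : GQ ⧸ N, LinearMap.trace k _ (indRep τ K γ.out) =
        ((fixCount K γ.out * q γ.out : ℚ) : k) := by
      intro γ
      rw [trace_indRep, hq]
      push_cast
      rfl
    simp only [h2] at h1
    have h3 : (Fintype.card (GQ ⧸ N) : ℚ) * cycleRank ρ B K =
        ∑ γ : GQ ⧸ N, (fixCount K γ.out * q γ.out : ℚ) := by
      have h4 : (((Fintype.card (GQ ⧸ N) : ℚ) * cycleRank ρ B K : ℚ) : k) =
          ((∑ γ : GQ ⧸ N, (fixCount K γ.out * q γ.out : ℚ) : ℚ) : k) := by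
        push_cast
        rw [h1]
        push_cast
        rfl
      exact_mod_cast h4
    have h5 : (Fintype.card (GQ ⧸ N) : ℝ) * cycleRank ρ B K =
        ∑ γ : GQ ⧸ N, ((fixCount K γ.out : ℝ) * (q γ.out : ℝ)) := by
      exact_mod_cast congrArg (fun z : ℚ => (z : ℝ)) h3
    unfold gavg
    rw [finsum_eq_sum_of_fintype, Nat.card_eq_fintype_card]
    have h6 : ∑ γ : GQ ⧸ N, f γ = ∑ γ : GQ ⧸ N, ((fixCount K γ.out : ℝ) * (q γ.out : ℝ)) := by
      refine Fintype.sum_equiv (Equiv.inv (GQ ⧸ N)) _ _ fun γ => ?_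
      obtain ⟨g, rfl⟩ := QuotientGroup.mk_surjective γ
      rw [hfmk, Equiv.inv_apply]
      have h7 : ((((g : GQ ⧸ N)⁻¹).out : GQ) : GQ ⧸ N) = ((g⁻¹ : GQ) : GQ ⧸ N) := by
        rw [QuotientGroup.out_eq', QuotientGroup.mk_inv]
      rw [hfix _ _ h7, fixCount_inv, hqeq _ _ (hτeq _ _ h7)]
    rw [h6, ← h5]
    have h8 : (Fintype.card (GQ ⧸ N) : ℝ) ≠ 0 := by
      exact_mod_cast Fintype.card_ne_zero
    field_simp
  rw [← havg]
  have hfun : (fun p => (fixCount K (σ p) : ℝ) * (q (σ p)⁻¹ : ℝ)) = fun p => f (σ p) := by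
    funext p; rw [hfmk]
  rw [hfun]
  exact hmean

end TatePole
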