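import Mathlib
import Pool.Agent.Lib.MP_058a58_ag.Dedekind

open Filter Topology NumberField Finset

namespace TatePole

namespace Ded

variable (F : Type*) [Field F] [NumberField F]

/-- Monotone limits: a family monotone in `N`, antitone in `x > 1` and bounded, has a limit
function which has a limit at `1+`. -/
lemma exists_limit (g : ℝ → ℕ → ℝ) (C : ℝ)
    (h1 : ∀ x, 1 < x → Monotone (g x))
    (h2 : ∀ N, AntitoneOn (fun x => g x N) (Set.Ioi 1))
    (h3 : ∀ x, 1 < x → ∀ N, g x N ≤ C) :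
    ∃ G : ℝ → ℝ, (∀ x, 1 < x → Tendsto (g x) atTop (𝓝 (G x))) ∧
      ∃ l : ℝ, Tendsto G (𝓝[>] 1) (𝓝 l) := by
  have hb : ∀ x, 1 < x → BddAbove (Set.range (g x)) := by
    intro x hx
    refine ⟨C, ?_⟩
    rintro _ ⟨N, rfl⟩
    exact h3 x hx N
  refine ⟨fun x => ⨆ N, g x N, fun x hx => tendsto_atTop_ciSup (h1 x hx) (hb x hx), ?_⟩
  have hanti : AntitoneOn (fun x => ⨆ N, g x N) (Set.Ioi (1:ℝ)) := by
    intro x hx y hy hxy
    exact ciSup_le fun N => (h2 N hx hy hxy).trans (le_ciSup (hb x hx) N)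
  have hbdd : BddAbove ((fun x => ⨆ N, g x N) '' Set.Ioi (1:ℝ)) := by
    refine ⟨C, ?_⟩
    rintro _ ⟨x, hx, rfl⟩
    exact ciSup_le fun N => h3 x hx N
  exact ⟨_, hanti.tendsto_nhdsGT hbdd⟩

lemma f_sq (x : ℝ) (I : Ideal (𝓞 F)) : f F x I ^ 2 = f F (2 * x) I := by
  unfold f
  rw [← Real.rpow_natCast, ← Real.rpow_mul (Nat.cast_nonneg _)]
  congr 1
  push_cast
  ring

lemma f_antitone {I : Ideal (𝓞 F)} (hI : I ≠ ⊥) : Antitone (fun x => f F x I) := by
  intro x y hxy
  have h1 : (1 : ℝ) ≤ Ideal.absNorm I := by exact_mod_cast absNorm_pos F hI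
  exact Real.rpow_le_rpow_of_exponent_le h1 (neg_le_neg hxy)

/-- lower bound of the zeta sum by the primes, sharp version. -/
lemma prod_TT_mul_le (x : ℝ) (N : ℕ) : ∃ M : ℕ,
    (∏ P ∈ TT F N, (1 + f F x P)) * ∑ K ∈ JJ F N, f F x K ^ 2 ≤ ∑ I ∈ JJ F M, f F x I := by
  classical
  refine ⟨∑ q ∈ (TT F N).powerset ×ˢ JJ F N, Ideal.absNorm ((∏ P ∈ q.1, P) * (q.2 * q.2)), ?_⟩
  set M := ∑ q ∈ (TT F N).powerset ×ˢ JJ F N, Ideal.absNorm ((∏ P ∈ q.1, P) * (q.2 * q.2))
  have hne : ∀ W : Finset (Ideal (𝓞 F)), W ⊆ TT F N → (∏ P ∈ W, P) ≠ ⊥ := by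
    intro W hW h
    rw [← Ideal.zero_eq_bot, Finset.prod_eq_zero_iff] at h
    obtain ⟨P, hP, hP0⟩ := h
    exact ((mem_TT F).mp (hW hP)).1.2 hP0
  have key : ∀ W : Finset (Ideal (𝓞 F)), W ⊆ TT F N →
      UniqueFactorizationMonoid.normalizedFactors (∏ P ∈ W, P) = W.val := by
    intro W hW
    have : ∀ P ∈ W.val, Prime P := by
      intro P hP
      have := (mem_TT F).mp (hW hP)
      exact Ideal.prime_of_isPrime this.1.2 this.2
    have h1 := UniqueFactorizationMonoid.normalizedFactors_prod_of_prime this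
    rw [← h1, Finset.prod_val]
    congr 1
  have hinj : Set.InjOn (fun q : Finset (Ideal (𝓞 F)) × Ideal (𝓞 F) =>
      (∏ P ∈ q.1, P) * (q.2 * q.2))
      ((TT F N).powerset ×ˢ JJ F N : Finset (Finset (Ideal (𝓞 F)) × Ideal (𝓞 F))) := by
    rintro ⟨U, K⟩ hU ⟨V, L⟩ hV h
    simp only [Finset.coe_product, Set.mem_prod, Finset.mem_coe, Finset.mem_powerset] at hU hV
    simp only at h
    have hK0 : K ≠ 0 := ((mem_JJ F).mp hU.2).2
    have hL0 : L ≠ 0 := ((mem_JJ F).mp hV.2).2
    have e : ∀ W : Finset (Ideal (𝓞 F)), W ⊆ TT F N → ∀ J : Ideal (𝓞 F), J ≠ 0 →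
        UniqueFactorizationMonoid.normalizedFactors ((∏ P ∈ W, P) * (J * J)) =
          W.val + (UniqueFactorizationMonoid.normalizedFactors J +
            UniqueFactorizationMonoid.normalizedFactors J) := by
      intro W hW J hJ
      rw [UniqueFactorizationMonoid.normalizedFactors_mul (hne W hW) (mul_ne_zero hJ hJ),
        UniqueFactorizationMonoid.normalizedFactors_mul hJ hJ, key W hW]
    have h1 := e U hU.1 K hK0
    rw [h, e V hV.1 L hL0] at h1
    have hUV : U = V := by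
      ext P
      have h2 := congrArg (Multiset.count P) h1
      simp only [Multiset.count_add] at h2
      have c1 : Multiset.count P U.val = if P ∈ U then 1 else 0 := by
        rw [Multiset.count_eq_of_nodup U.nodup]
        simp
      have c2 : Multiset.count P V.val = if P ∈ V then 1 else 0 := by
        rw [Multiset.count_eq_of_nodup V.nodup]
        simp
      rw [c1, c2] at h2
      by_cases hPU : P ∈ U <;> by_cases hPV : P ∈ V <;> simp only [hPU, hPV, if_true, if_false] at h2 ⊢ <;>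
        omega
    subst hUV
    have h3 := mul_left_cancel₀ (hne U hU.1) h
    have h4 : UniqueFactorizationMonoid.normalizedFactors K =
        UniqueFactorizationMonoid.normalizedFactors L := by
      ext P
      have h2 := congrArg (Multiset.count P) h1
      simp only [Multiset.count_add] at h2
      omega
    have h5 : K = L := by
      rw [← Ideal.prod_normalizedFactors_eq_self hK0, h4, Ideal.prod_normalizedFactors_eq_self hL0]
    rw [h5]
  have h1 : (∏ P ∈ TT F N, (1 + f F x P)) * ∑ K ∈ JJ F N, f F x K ^ 2 =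
      ∑ q ∈ (TT F N).powerset ×ˢ JJ F N, f F x ((∏ P ∈ q.1, P) * (q.2 * q.2)) := by
    rw [Finset.sum_product, Finset.prod_one_add, Finset.sum_mul]
    refine Finset.sum_congr rfl fun V _ => ?_
    rw [Finset.mul_sum]
    refine Finset.sum_congr rfl fun K _ => ?_
    rw [f_mul, f_mul, f_prod, sq]
  rw [h1, ← Finset.sum_image (f := fun I => f F x I) hinj]
  refine Finset.sum_le_sum_of_subset_of_nonneg ?_ fun I _ _ => f_nonneg F x I
  intro I hI
  rw [Finset.mem_image] at hI
  obtain ⟨q, hq, rfl⟩ := hI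
  rw [mem_JJ]
  refine ⟨Finset.single_le_sum (f := fun q : Finset (Ideal (𝓞 F)) × Ideal (𝓞 F) =>
    Ideal.absNorm ((∏ P ∈ q.1, P) * (q.2 * q.2))) (fun _ _ => Nat.zero_le _) hq, ?_⟩
  rw [Finset.mem_product, Finset.mem_powerset] at hq
  have hK0 : q.2 ≠ 0 := ((mem_JJ F).mp hq.2).2
  exact mul_ne_zero (hne _ hq.1) (mul_ne_zero hK0 hK0)

/-- sums over nonprime norms -/
noncomputable def aN (x : ℝ) (N : ℕ) : ℝ := by
  classical
  exact ∑ P ∈ (TT F N).filter (fun P => ¬ (Ideal.absNorm P).Prime), Real.log (1 + f F x P)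

/-- the defect over prime norms -/
noncomputable def bN (x : ℝ) (N : ℕ) : ℝ := by
  classical
  exact ∑ P ∈ (TT F N).filter (fun P => (Ideal.absNorm P).Prime),
    (f F x P - Real.log (1 + f F x P))

lemma TT_mono {N M : ℕ} (h : N ≤ M) : TT F N ⊆ TT F M := by
  intro P hP
  rw [mem_TT] at hP ⊢
  exact ⟨⟨hP.1.1.trans h, hP.1.2⟩, hP.2⟩

lemma log_nonneg' (x : ℝ) (P : Ideal (𝓞 F)) : 0 ≤ Real.log (1 + f F x P) :=
  Real.log_nonneg (by linarith [f_nonneg F x P])

lemma log_le_self (x : ℝ) (P : Ideal (𝓞 F)) : Real.log (1 + f F x P) ≤ f F x P := by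
  have := Real.log_le_sub_one_of_pos (x := 1 + f F x P) (by linarith [f_nonneg F x P])
  linarith

lemma sub_log_le_sq (x : ℝ) (P : Ideal (𝓞 F)) :
    f F x P - Real.log (1 + f F x P) ≤ f F x P ^ 2 := by
  have h0 := f_nonneg F x P
  have h4 := Real.le_log_one_add_of_nonneg h0
  have h5 : f F x P - f F x P ^ 2 ≤ 2 * f F x P / (f F x P + 2) := by
    rw [le_div_iff₀ (by linarith)]
    nlinarith [mul_nonneg h0 (sq_nonneg (f F x P)), sq_nonneg (f F x P)]
  linarith

lemma sub_log_mono {s t : ℝ} (hs : 0 ≤ s) (hst : s ≤ t) :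
    s - Real.log (1 + s) ≤ t - Real.log (1 + t) := by
  have h1 : Real.log (1 + t) - Real.log (1 + s) ≤ t - s := by
    rw [← Real.log_div (by linarith) (by linarith)]
    have h2 := Real.log_le_sub_one_of_pos (x := (1 + t) / (1 + s))
      (div_pos (by linarith) (by linarith))
    have h3 : (1 + t) / (1 + s) - 1 = (t - s) / (1 + s) := by
      field_simp
      ring
    have h4 : (t - s) / (1 + s) ≤ t - s := div_le_self (by linarith) (by linarith)
    linarith
  linarith

lemma exists_a : ∃ G : ℝ → ℝ, (∀ x, 1 < x → Tendsto (aN F x) atTop (𝓝 (G x))) ∧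
      ∃ l : ℝ, Tendsto G (𝓝[>] 1) (𝓝 l) := by
  classical
  refine exists_limit (aN F) (cc F) ?_ ?_ ?_
  · intro x _ N M hNM
    exact Finset.sum_le_sum_of_subset_of_nonneg
      (Finset.filter_subset_filter _ (TT_mono F hNM)) fun P _ _ => log_nonneg' F x P
  · intro N x hx y hy hxy
    refine Finset.sum_le_sum fun P hP => ?_
    have hP0 := ((mem_TT F).mp (Finset.mem_filter.mp hP).1).1.2
    refine Real.log_le_log (by linarith [f_nonneg F y P]) ?_
    have := f_antitone F hP0 hxy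
    simp only at this
    linarith
  · intro x hx N
    exact (Finset.sum_le_sum fun P _ => log_le_self F x P).trans (sum_TT_nonprime F hx.le N)

lemma exists_b : ∃ G : ℝ → ℝ, (∀ x, 1 < x → Tendsto (bN F x) atTop (𝓝 (G x))) ∧
      ∃ l : ℝ, Tendsto G (𝓝[>] 1) (𝓝 l) := by
  classical
  refine exists_limit (bN F) (cc F) ?_ ?_ ?_
  · intro x _ N M hNM
    exact Finset.sum_le_sum_of_subset_of_nonneg
      (Finset.filter_subset_filter _ (TT_mono F hNM)) fun P _ _ => by
        linarith [log_le_self F x P]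
  · intro N x hx y hy hxy
    refine Finset.sum_le_sum fun P hP => ?_
    have hP0 := ((mem_TT F).mp (Finset.mem_filter.mp hP).1).1.2
    exact sub_log_mono (f_nonneg F y P) (f_antitone F hP0 hxy)
  · intro x hx N
    refine (Finset.sum_le_sum fun P _ => sub_log_le_sq F x P).trans ?_
    exact (Finset.sum_le_sum_of_subset_of_nonneg (Finset.filter_subset _ _)
      fun P _ _ => sq_nonneg _).trans (sum_TT_sq F hx.le N)

lemma exists_z : ∃ l : ℝ, Tendsto (fun x => Real.log (Z F (2 * x))) (𝓝[>] 1) (𝓝 l) := by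
  have hanti : AntitoneOn (fun x => Real.log (Z F (2 * x))) (Set.Ioi (1:ℝ)) := by
    intro x hx y hy hxy
    have hx' : (1:ℝ) < x := hx
    have hy' : (1:ℝ) < y := hy
    refine Real.log_le_log (by linarith [one_le_Z F (x := 2 * y) (by linarith)]) ?_
    refine Summable.tsum_le_tsum (fun n => ?_) (summable_Z F (by linarith))
      (summable_Z F (by linarith))
    refine mul_le_mul_of_nonneg_left ?_ (A_nonneg F n)
    rcases Nat.eq_zero_or_pos n with rfl | hn
    · rw [Nat.cast_zero, Real.zero_rpow (by linarith), Real.zero_rpow (by linarith)]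
    · exact Real.rpow_le_rpow_of_exponent_le (by exact_mod_cast hn) (by linarith)
  have hbdd : BddAbove ((fun x => Real.log (Z F (2 * x))) '' Set.Ioi (1:ℝ)) := by
    refine ⟨Real.log (Z F 2), ?_⟩
    rintro _ ⟨x, hx, rfl⟩
    have hx' : (1:ℝ) < x := hx
    refine Real.log_le_log (by linarith [one_le_Z F (x := 2 * x) (by linarith)]) ?_
    refine Summable.tsum_le_tsum (fun n => ?_) (summable_Z F (by linarith))
      (summable_Z F (by norm_num))
    refine mul_le_mul_of_nonneg_left ?_ (A_nonneg F n)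
    rcases Nat.eq_zero_or_pos n with rfl | hn
    · rw [Nat.cast_zero, Real.zero_rpow (by linarith), Real.zero_rpow (by norm_num)]
    · exact Real.rpow_le_rpow_of_exponent_le (by exact_mod_cast hn) (by linarith)
  exact ⟨_, hanti.tendsto_nhdsGT hbdd⟩

lemma tendsto_sum_JJ {x : ℝ} (hx : 1 < x) :
    Tendsto (fun N => ∑ I ∈ JJ F N, f F x I) atTop (𝓝 (Z F x)) := by
  have hlim := (summable_Z F hx).hasSum.tendsto_sum_nat
  have h := (tendsto_add_atTop_iff_nat 1).mpr hlim
  refine h.congr fun N => ?_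
  rw [sum_JJ_eq, Finset.range_eq_Ico, Finset.sum_eq_sum_Ico_succ_bot (Nat.succ_pos N)]
  rw [Nat.cast_zero, Real.zero_rpow (by linarith), mul_zero, zero_add]
  rfl

lemma tendsto_sum_PP {x : ℝ} (hx : 1 < x) :
    Tendsto (fun N => ∑ p ∈ PP N, A F p * (p : ℝ) ^ (-x)) atTop (𝓝 (S F x)) := by
  classical
  have hmono : Monotone fun N => ∑ p ∈ PP N, A F p * (p : ℝ) ^ (-x) := by
    intro N M hNM
    refine Finset.sum_le_sum_of_subset_of_nonneg ?_ fun n _ _ => term_nonneg F x n
    intro p hp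
    rw [mem_PP] at hp ⊢
    exact ⟨hp.1.trans hNM, hp.2⟩
  refine tendsto_atTop_isLUB hmono ⟨?_, ?_⟩
  · rintro _ ⟨N, rfl⟩
    exact sum_PP_le_S F hx N
  · intro b hb
    refine (summable_S F hx).tsum_le_of_sum_le fun s => ?_
    obtain ⟨N, hN⟩ := finset_primes_le F x s
    exact hN.trans (hb ⟨N, rfl⟩)

lemma tendsto_log_prod {x : ℝ} (hx : 1 < x) :
    Tendsto (fun N => ∑ P ∈ TT F N, Real.log (1 + f F x P)) atTop
      (𝓝 (Real.log (Z F x) - Real.log (Z F (2 * x)))) := by
  have hZ := one_le_Z F hx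
  have hZ2 := one_le_Z F (x := 2 * x) (by linarith)
  have h2 : Tendsto (fun N => ∑ K ∈ JJ F N, f F x K ^ 2) atTop (𝓝 (Z F (2 * x))) := by
    have := tendsto_sum_JJ F (x := 2 * x) (by linarith)
    refine this.congr fun N => ?_
    exact Finset.sum_congr rfl fun K _ => (f_sq F x K).symm
  have h1 : Tendsto (fun N => (∏ P ∈ TT F N, (1 + f F x P)) * ∑ K ∈ JJ F N, f F x K ^ 2)
      atTop (𝓝 (Z F x)) := by
    refine tendsto_of_tendsto_of_tendsto_of_le_of_le (tendsto_sum_JJ F hx)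
      tendsto_const_nhds (fun N => sum_JJ_le F x N) fun N => ?_
    obtain ⟨M, hM⟩ := prod_TT_mul_le F x N
    exact hM.trans (sum_JJ_le_Z F hx M)
  have h3 : Tendsto (fun N => Real.log ((∏ P ∈ TT F N, (1 + f F x P)) *
      ∑ K ∈ JJ F N, f F x K ^ 2)) atTop (𝓝 (Real.log (Z F x))) :=
    (Real.continuousAt_log (by linarith)).tendsto.comp h1
  have h4 : Tendsto (fun N => Real.log (∑ K ∈ JJ F N, f F x K ^ 2)) atTop
      (𝓝 (Real.log (Z F (2 * x)))) :=
    (Real.continuousAt_log (by linarith)).tendsto.comp h2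
  refine (h3.sub h4).congr' ?_
  have h5 : ∀ᶠ N in atTop, 0 < ∑ K ∈ JJ F N, f F x K ^ 2 :=
    h2.eventually (lt_mem_nhds (by linarith))
  filter_upwards [h5] with N hN
  have hpos : ∀ P ∈ TT F N, (0 : ℝ) < 1 + f F x P := fun P _ => by
    have := f_nonneg F x P
    linarith
  rw [Real.log_mul (Finset.prod_pos hpos).ne' hN.ne', Real.log_prod fun P hP => (hpos P hP).ne']
  ring

lemma sum_TT_log (x : ℝ) (N : ℕ) : ∑ P ∈ TT F N, Real.log (1 + f F x P) =
    aN F x N + ∑ p ∈ PP N, A F p * (p : ℝ) ^ (-x) - bN F x N := by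
  classical
  rw [← sum_TT_prime, ← Finset.sum_filter_add_sum_filter_not (TT F N)
    (fun P => (Ideal.absNorm P).Prime)]
  unfold aN bN
  rw [Finset.sum_sub_distrib]
  ring

end Ded

theorem dedekind_primeSum_tendsto (F : Type*) [Field F] [NumberField F] :
    ∃ l : ℝ, Tendsto (fun x : ℝ => (∑' p : Nat.Primes,
      (Nat.card {I : Ideal (NumberField.RingOfIntegers F) // Ideal.absNorm I = (p:ℕ)} : ℝ)
        * (p:ℝ) ^ (-x)) - Real.log (1 / (x - 1))) (𝓝[>] (1:ℝ)) (𝓝 l) := by
  have hres := NumberField.tendsto_sub_one_mul_dedekindZeta_nhdsGT F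
  have hκ := NumberField.dedekindZeta_residue_pos F
  have h1 : Tendsto (fun x : ℝ => (x - 1) * Ded.Z F x) (𝓝[>] 1)
      (𝓝 (NumberField.dedekindZeta_residue F)) := by
    have h2 : Tendsto (fun x : ℝ => (((x - 1) * Ded.Z F x : ℝ) : ℂ)) (𝓝[>] 1)
        (𝓝 ((NumberField.dedekindZeta_residue F : ℝ) : ℂ)) := by
      refine hres.congr' ?_
      filter_upwards [self_mem_nhdsWithin] with x hx
      have hx' : (1 : ℝ) < x := hx
      rw [Ded.dedekindZeta_eq F (by linarith : x ≠ 0)]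
      push_cast
      rfl
    exact (Complex.continuous_re.tendsto _).comp h2
  have h3 : Tendsto (fun x : ℝ => Real.log ((x - 1) * Ded.Z F x)) (𝓝[>] 1)
      (𝓝 (Real.log (NumberField.dedekindZeta_residue F))) :=
    (Real.continuousAt_log hκ.ne').tendsto.comp h1
  obtain ⟨Ga, hGa, la, hla⟩ := Ded.exists_a F
  obtain ⟨Gb, hGb, lb, hlb⟩ := Ded.exists_b F
  obtain ⟨lz, hlz⟩ := Ded.exists_z F
  have hS : ∀ x, 1 < x → Ded.S F x =
      Real.log (Ded.Z F x) - Real.log (Ded.Z F (2 * x)) - Ga x + Gb x := by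
    intro x hx
    have e1 := ((hGa x hx).add (Ded.tendsto_sum_PP F hx)).sub (hGb x hx)
    have e2 := (Ded.tendsto_log_prod F hx).congr fun N => Ded.sum_TT_log F x N
    have e3 := tendsto_nhds_unique e1 e2
    linarith
  refine ⟨Real.log (NumberField.dedekindZeta_residue F) - lz - la + lb, ?_⟩
  refine (((h3.sub hlz).sub hla).add hlb).congr' ?_
  filter_upwards [self_mem_nhdsWithin] with x hx
  have hx' : (1 : ℝ) < x := hx
  have hZ := Ded.one_le_Z F hx'
  have h7 : Real.log ((x - 1) * Ded.Z F x) = Real.log (Ded.Z F x) - Real.log (1 / (x - 1)) := by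
    rw [Real.log_mul (by linarith) (by linarith), one_div, Real.log_inv]
    ring
  change _ = Ded.S F x - Real.log (1 / (x - 1))
  rw [hS x hx', h7]
  ring

end TatePole
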