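import Mathlib
import Pool.Agent.Lib.MP_058a58_ag.ClassMean

open Polynomial Filter Topology NumberField Set
open scoped TensorProduct

namespace TatePole

lemma fixCount_ringHom (K : Type*) [Field K] [NumberField K] (σ : GQ) :
    fixCount K σ = Nat.card {φ : K →+* QBar // ∀ x, σ (φ x) = φ x} := by
  unfold fixCount
  refine Nat.card_congr (Equiv.subtypeEquiv (RingHom.equivRatAlgHom (R := K) (S := QBar)).symm ?_)
  intro φ
  rfl

/-- the tensor product of two fields, as a field. -/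
def TE (K L : Type) [Field K] [NumberField K] [Field L] [NumberField L] : Type := K ⊗[ℚ] L

section
variable (K L : Type) [Field K] [NumberField K] [Field L] [NumberField L]

noncomputable instance commRingTE : CommRing (TE K L) := inferInstanceAs (CommRing (K ⊗[ℚ] L))

/-- the identity. -/
noncomputable def toTE : (K ⊗[ℚ] L) ≃+* TE K L := RingEquiv.refl (K ⊗[ℚ] L)

/-- the field structure. -/
noncomputable abbrev fieldTE (h : IsField (TE K L)) : Field (TE K L) := h.toField

lemma numberFieldTE (h : IsField (TE K L)) : @NumberField (TE K L) (fieldTE K L h) := by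
  let fE : Field (TE K L) := fieldTE K L h
  have hinj : Function.Injective ((toTE K L : (K ⊗[ℚ] L) →+* TE K L).comp
      (algebraMap ℚ (K ⊗[ℚ] L))) := RingHom.injective _
  have hchar : CharZero (TE K L) := charZero_of_injective_ringHom hinj
  let f : (K ⊗[ℚ] L) →ₗ[ℚ] TE K L := ((toTE K L : (K ⊗[ℚ] L) →+* TE K L) :
    (K ⊗[ℚ] L) →+ TE K L).toRatLinearMap
  have hf : Function.Surjective f := (toTE K L).surjective
  exact { to_charZero := hchar, to_finiteDimensional := Module.Finite.of_surjective f hf }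

end

/-- the field structure on `K ⊗ L`. -/
lemma fixCount_tensor (K L : Type) [Field K] [NumberField K] [Field L] [NumberField L]
    (h : IsField (K ⊗[ℚ] L)) :
    ∃ (E : Type) (_ : Field E) (_ : NumberField E), ∀ σ : GQ,
      fixCount E σ = fixCount K σ * fixCount L σ := by
  have h' : IsField (TE K L) := h
  let fE : Field (TE K L) := fieldTE K L h'
  have hnf : NumberField (TE K L) := numberFieldTE K L h'
  refine ⟨TE K L, fE, hnf, fun σ => ?_⟩
  rw [fixCount_ringHom (TE K L), fixCount_ringHom K, fixCount_ringHom L, ← Nat.card_prod]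
  set iK : K →+* TE K L := (toTE K L : (K ⊗[ℚ] L) →+* TE K L).comp
    (Algebra.TensorProduct.includeLeft : K →ₐ[ℚ] K ⊗[ℚ] L).toRingHom with hiK
  set iL : L →+* TE K L := (toTE K L : (K ⊗[ℚ] L) →+* TE K L).comp
    (Algebra.TensorProduct.includeRight : L →ₐ[ℚ] K ⊗[ℚ] L).toRingHom with hiL
  -- every element is a sum of products
  have hgen : ∀ χ χ' : TE K L →+* QBar, (∀ x, χ (iK x) = χ' (iK x)) →
      (∀ y, χ (iL y) = χ' (iL y)) → χ = χ' := by
    intro χ χ' h1 h2
    apply RingHom.ext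
    intro z
    obtain ⟨w, rfl⟩ := (toTE K L).surjective z
    induction w using TensorProduct.induction_on with
    | zero => simp
    | tmul a b =>
      have h3 : a ⊗ₜ[ℚ] b = (a ⊗ₜ[ℚ] (1 : L)) * ((1 : K) ⊗ₜ[ℚ] b) := by
        rw [Algebra.TensorProduct.tmul_mul_tmul, mul_one, one_mul]
      rw [h3, map_mul, map_mul, map_mul]
      have h4 : χ ((toTE K L) (a ⊗ₜ[ℚ] (1 : L))) = χ' ((toTE K L) (a ⊗ₜ[ℚ] (1 : L))) := h1 a
      have h5 : χ ((toTE K L) ((1 : K) ⊗ₜ[ℚ] b)) = χ' ((toTE K L) ((1 : K) ⊗ₜ[ℚ] b)) := h2 b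
      rw [h4, h5]
    | add a b ha hb => rw [map_add, map_add, map_add, ha, hb]
  refine Nat.card_congr (Equiv.ofBijective (fun χ => (⟨χ.1.comp iK, fun x => χ.2 (iK x)⟩,
    ⟨χ.1.comp iL, fun y => χ.2 (iL y)⟩)) ⟨?_, ?_⟩)
  · rintro ⟨χ, hχ⟩ ⟨χ', hχ'⟩ heq
    rw [Prod.mk.injEq] at heq
    apply Subtype.ext
    refine hgen χ χ' (fun x => ?_) (fun y => ?_)
    · exact congrArg (fun f : K →+* QBar => f x) (congrArg Subtype.val heq.1)
    · exact congrArg (fun f : L →+* QBar => f y) (congrArg Subtype.val heq.2)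
  · rintro ⟨⟨φ, hφ⟩, ⟨ψ, hψ⟩⟩
    let θ : (K ⊗[ℚ] L) →ₐ[ℚ] QBar := Algebra.TensorProduct.lift φ.toRatAlgHom ψ.toRatAlgHom
      (fun _ _ => Commute.all _ _)
    let χ : TE K L →+* QBar := (θ : (K ⊗[ℚ] L) →+* QBar).comp
      ((toTE K L).symm : TE K L →+* (K ⊗[ℚ] L))
    have hχK : ∀ x, χ (iK x) = φ x := by
      intro x
      have : χ (iK x) = θ (x ⊗ₜ[ℚ] (1 : L)) := rfl
      rw [this]
      simp [θ]
    have hχL : ∀ y, χ (iL y) = ψ y := by
      intro y
      have : χ (iL y) = θ ((1 : K) ⊗ₜ[ℚ] y) := rfl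
      rw [this]
      simp [θ]
    have hfix : ((σ : QBar →+* QBar)).comp χ = χ := by
      refine hgen _ _ (fun x => ?_) (fun y => ?_)
      · show σ (χ (iK x)) = χ (iK x)
        rw [hχK, hφ]
      · show σ (χ (iL y)) = χ (iL y)
        rw [hχL, hψ]
    refine ⟨⟨χ, fun z => congrArg (fun f : TE K L →+* QBar => f z) hfix⟩, ?_⟩
    apply Prod.ext
    · apply Subtype.ext
      apply RingHom.ext
      exact hχK
    · apply Subtype.ext
      apply RingHom.ext
      exact hχL

theorem disjoint_mean (K L : Type) [Field K] [NumberField K] [Field L] [NumberField L]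
    (h : IsField (K ⊗[ℚ] L)) {σ : ℕ → GQ} (hσ : FrobSys σ) :
    HasMean (fun p => (fixCount K (σ p) : ℝ) * (fixCount L (σ p) : ℝ)) 1 := by
  obtain ⟨E, fE, hE, hfc⟩ := fixCount_tensor K L h
  have h1 := fixCount_mean' E hσ
  have h2 : (fun p => (fixCount K (σ p) : ℝ) * (fixCount L (σ p) : ℝ)) =
      fun p => (fixCount E (σ p) : ℝ) := by
    funext p
    rw [hfc]
    push_cast
    rfl
  rw [h2]
  exact h1

end TatePole
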