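import Mathlib
import Pool.Agent.Lib.MP_058a58_ag.Bessel

open Filter Topology Polynomial Set Complex ComplexConjugate

namespace TatePole

/-- Bessel's inequality over the primes, general form. -/
theorem bessel_primes2 {ι : Type*} (F : Finset ι) (e : ι → ℕ → ℂ) (E0 : ℝ)
    (he : ∀ i ∈ F, ∀ p : ℕ, p.Prime → ‖e i p‖ ≤ E0)
    (hnorm : ∀ i ∈ F, ∃ C : ℝ, ∀ᶠ x in 𝓝[>] (1:ℝ),
      RR (fun p => (e i p * conj (e i p)).re) x ≤ primeSum (x - 1) + C)
    (horth : ∀ i ∈ F, ∀ j ∈ F, i ≠ j → ∃ C : ℝ, ∀ᶠ x in 𝓝[>] (1:ℝ),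
      |RR (fun p => (e i p * conj (e j p)).re) x| ≤ C)
    (A : ℕ → ℂ) (D : ℝ) (hD : ∀ p : ℕ, p.Prime → ‖A p‖ ≤ D) :
    ∃ C : ℝ, 0 ≤ C ∧ ∀ᶠ x in 𝓝[>] (1:ℝ),
      ∑ i ∈ F, (RR (fun p => (A p * conj (e i p)).re) x) ^ 2 ≤ (D * primeSum (x - 1) + C) ^ 2 := by
  classical
  rcases F.eq_empty_or_nonempty with hFe | ⟨i₀, hi₀⟩
  · subst hFe
    exact ⟨0, le_rfl, Filter.Eventually.of_forall fun x => by simp; positivity⟩
  have hE0 : 0 ≤ E0 := (norm_nonneg _).trans (he i₀ hi₀ 2 Nat.prime_two)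
  have hD0 : 0 ≤ D := (norm_nonneg _).trans (hD 2 Nat.prime_two)
  choose! Cij hCij using horth
  choose! Cn hCn using hnorm
  set C1 : ℝ := ∑ i ∈ F, |Cn i| with hC1
  have hC1' : 0 ≤ C1 := Finset.sum_nonneg fun i _ => abs_nonneg _
  have hbn : ∀ᶠ x in 𝓝[>] (1:ℝ), ∀ i ∈ F,
      RR (fun p => (e i p * conj (e i p)).re) x ≤ primeSum (x - 1) + C1 := by
    rw [Finset.eventually_all]
    intro i hi
    filter_upwards [hCn i hi] with x hx
    refine hx.trans ?_
    have h1 : |Cn i| ≤ C1 := Finset.single_le_sum (f := fun i => |Cn i|)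
      (fun _ _ => abs_nonneg _) hi
    linarith [le_abs_self (Cn i)]
  -- a common bound
  set C0 : ℝ := ∑ i ∈ F, ∑ j ∈ F, |Cij i j| with hC0
  have hC0' : 0 ≤ C0 := Finset.sum_nonneg fun i _ => Finset.sum_nonneg fun j _ => abs_nonneg _
  have hbd : ∀ᶠ x in 𝓝[>] (1:ℝ), ∀ i ∈ F, ∀ j ∈ F, i ≠ j →
      |RR (fun p => (e i p * conj (e j p)).re) x| ≤ C0 := by
    rw [Finset.eventually_all]
    intro i hi
    rw [Finset.eventually_all]
    intro j hj
    by_cases hij : i = j
    · exact Filter.Eventually.of_forall fun x h => (h hij).elim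
    · filter_upwards [hCij i hi j hj hij] with x hx _
      refine hx.trans ((le_abs_self _).trans ?_)
      calc |Cij i j| ≤ ∑ j ∈ F, |Cij i j| :=
            Finset.single_le_sum (f := fun j => |Cij i j|) (fun _ _ => abs_nonneg _) hj
        _ ≤ C0 := Finset.single_le_sum (f := fun i => ∑ j ∈ F, |Cij i j|)
            (fun _ _ => Finset.sum_nonneg fun _ _ => abs_nonneg _) hi
  refine ⟨(C1 + C0 * F.card) * F.card * (D * E0 ^ 2), by positivity, ?_⟩
  filter_upwards [hbd, hbn, self_mem_nhdsWithin] with x hx hxn hx1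
  simp only [mem_Ioi] at hx1
  set Λ := primeSum (x - 1) with hΛ
  have hΛ0 : 0 < Λ := by
    have hs := summable_primeSum (show 0 < x - 1 by linarith)
    have h2 : (0:ℝ) < ((⟨2, Nat.prime_two⟩ : Nat.Primes) : ℝ) ^ (-(1 + (x - 1))) := by
      apply Real.rpow_pos_of_pos
      norm_num
    refine hs.tsum_pos (fun p => Real.rpow_nonneg (Nat.cast_nonneg _) _) _ h2
  set R : ι → ℝ := fun i => RR (fun p => (A p * conj (e i p)).re) x with hR
  set E : ι → ι → ℝ := fun i j => RR (fun p => (e i p * conj (e j p)).re) x with hE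
  set c : ι → ℝ := fun i => R i / Λ with hc
  set D' : ℝ := D * E0 with hD'
  have hD'0 : 0 ≤ D' := by positivity
  have hbA : ∀ i ∈ F, ∀ p : ℕ, p.Prime → |(A p * conj (e i p)).re| ≤ D' := by
    intro i hi p hp
    refine (Complex.abs_re_le_norm _).trans ?_
    rw [norm_mul, RCLike.norm_conj]
    exact mul_le_mul (hD p hp) (he i hi p hp) (norm_nonneg _) hD0
  have hbE : ∀ i ∈ F, ∀ j ∈ F, ∀ p : ℕ, p.Prime → |(e i p * conj (e j p)).re| ≤ E0 * E0 := by
    intro i hi j hj p hp
    refine (Complex.abs_re_le_norm _).trans ?_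
    rw [norm_mul, RCLike.norm_conj]
    exact mul_le_mul (he i hi p hp) (he j hj p hp) (norm_nonneg _) hE0
  have hRle : ∀ i ∈ F, |R i| ≤ D' * Λ := by
    intro i hi
    rw [abs_le]
    constructor
    · have h1 : RR (fun p => (-1) * (A p * conj (e i p)).re) x ≤ D' * Λ := by
        refine RR_le (C := D') ?_ ?_ hx1
        · intro p hp
          rw [abs_mul, abs_neg, abs_one, one_mul]
          exact hbA i hi p hp
        · intro p hp
          have := (abs_le.mp (hbA i hi p hp)).1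
          linarith
      rw [RR_const_mul] at h1
      linarith
    · exact RR_le (hbA i hi) (fun p hp => (abs_le.mp (hbA i hi p hp)).2) hx1
  have hcle : ∀ i ∈ F, |c i| ≤ D' := by
    intro i hi
    rw [hc]
    simp only
    rw [abs_div, abs_of_pos hΛ0, div_le_iff₀ hΛ0]
    exact hRle i hi
  have hnn : 0 ≤ RR (fun p => ‖A p - ∑ i ∈ F, (c i : ℂ) * e i p‖ ^ 2) x :=
    RR_nonneg (fun p _ => by positivity) x
  have hexp : RR (fun p => ‖A p - ∑ i ∈ F, (c i : ℂ) * e i p‖ ^ 2) x =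
      RR (fun p => ‖A p‖ ^ 2) x - 2 * ∑ i ∈ F, c i * R i +
      ∑ i ∈ F, ∑ j ∈ F, c i * c j * E i j := by
    have h1 : (fun p => ‖A p - ∑ i ∈ F, (c i : ℂ) * e i p‖ ^ 2) = fun p => (‖A p‖ ^ 2 +
        (-2) * ∑ i ∈ F, c i * (A p * conj (e i p)).re) +
        ∑ i ∈ F, ∑ j ∈ F, c i * c j * (e i p * conj (e j p)).re := by
      funext p
      rw [normSq_expand]
      ring
    have hb1 : ∀ p : ℕ, p.Prime → |‖A p‖ ^ 2| ≤ D ^ 2 := by
      intro p hp
      rw [abs_of_nonneg (by positivity)]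
      have := hD p hp
      gcongr
    have hb2 : ∀ i ∈ F, ∀ p : ℕ, p.Prime → |c i * (A p * conj (e i p)).re| ≤ D' * D' := by
      intro i hi p hp
      rw [abs_mul]
      exact mul_le_mul (hcle i hi) (hbA i hi p hp) (abs_nonneg _) hD'0
    have hb2' : ∀ p : ℕ, p.Prime → |∑ i ∈ F, c i * (A p * conj (e i p)).re| ≤ F.card * (D' * D') := by
      intro p hp
      refine (Finset.abs_sum_le_sum_abs _ _).trans ?_
      rw [← nsmul_eq_mul]
      exact Finset.sum_le_card_nsmul _ _ _ fun i hi => hb2 i hi p hp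
    have hb2'' : ∀ p : ℕ, p.Prime → |(-2) * ∑ i ∈ F, c i * (A p * conj (e i p)).re| ≤
        2 * (F.card * (D' * D')) := by
      intro p hp
      rw [abs_mul, abs_neg, abs_two]
      exact mul_le_mul_of_nonneg_left (hb2' p hp) (by norm_num)
    have hb3 : ∀ i ∈ F, ∀ j ∈ F, ∀ p : ℕ, p.Prime →
        |c i * c j * (e i p * conj (e j p)).re| ≤ D' * D' * (E0 * E0) := by
      intro i hi j hj p hp
      rw [abs_mul, abs_mul]
      exact mul_le_mul (mul_le_mul (hcle i hi) (hcle j hj) (abs_nonneg _) hD'0)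
        (hbE i hi j hj p hp) (abs_nonneg _) (by positivity)
    have hb3' : ∀ i ∈ F, ∀ p : ℕ, p.Prime →
        |∑ j ∈ F, c i * c j * (e i p * conj (e j p)).re| ≤ F.card * (D' * D' * (E0 * E0)) := by
      intro i hi p hp
      refine (Finset.abs_sum_le_sum_abs _ _).trans ?_
      rw [← nsmul_eq_mul]
      exact Finset.sum_le_card_nsmul _ _ _ fun j hj => hb3 i hi j hj p hp
    have hb3'' : ∀ p : ℕ, p.Prime →
        |∑ i ∈ F, ∑ j ∈ F, c i * c j * (e i p * conj (e j p)).re| ≤
        F.card * (F.card * (D' * D' * (E0 * E0))) := by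
      intro p hp
      refine (Finset.abs_sum_le_sum_abs _ _).trans ?_
      rw [← nsmul_eq_mul]
      exact Finset.sum_le_card_nsmul _ _ _ fun i hi => hb3' i hi p hp
    have hb12 : ∀ p : ℕ, p.Prime → |‖A p‖ ^ 2 +
        (-2) * ∑ i ∈ F, c i * (A p * conj (e i p)).re| ≤ D ^ 2 + 2 * (F.card * (D' * D')) := by
      intro p hp
      exact (abs_add_le _ _).trans (add_le_add (hb1 p hp) (hb2'' p hp))
    rw [h1, RR_add hb12 hb3'' hx1, RR_add hb1 hb2'' hx1, RR_const_mul,
      RR_finset_sum F (fun i p => c i * (A p * conj (e i p)).re) (fun _ => D' * D') hb2 hx1,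
      RR_finset_sum F (fun i p => ∑ j ∈ F, c i * c j * (e i p * conj (e j p)).re)
        (fun _ => F.card * (D' * D' * (E0 * E0))) hb3' hx1]
    have h2 : ∀ i ∈ F, RR (fun p => ∑ j ∈ F, c i * c j * (e i p * conj (e j p)).re) x =
        ∑ j ∈ F, c i * c j * E i j := by
      intro i hi
      rw [RR_finset_sum F (fun j p => c i * c j * (e i p * conj (e j p)).re)
        (fun _ => D' * D' * (E0 * E0)) (hb3 i hi) hx1]
      refine Finset.sum_congr rfl fun j _ => ?_
      rw [RR_const_mul]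
    rw [Finset.sum_congr rfl h2]
    have h3 : ∀ i ∈ F, RR (fun p => c i * (A p * conj (e i p)).re) x = c i * R i := by
      intro i _
      rw [RR_const_mul]
    rw [Finset.sum_congr rfl h3]
    ring
  rw [hexp] at hnn
  have hAA : RR (fun p => ‖A p‖ ^ 2) x ≤ D ^ 2 * Λ := by
    refine RR_le (C := D ^ 2) ?_ ?_ hx1
    · intro p hp
      rw [abs_of_nonneg (by positivity)]
      have := hD p hp
      gcongr
    · intro p hp
      have := hD p hp
      gcongr
  have hEE : ∑ i ∈ F, ∑ j ∈ F, c i * c j * E i j ≤ ∑ i ∈ F, c i ^ 2 * Λ +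
      F.card * (D' * D' * C1 + F.card * (D' * D' * C0)) := by
    have h1 : ∀ i ∈ F, ∑ j ∈ F, c i * c j * E i j ≤ c i ^ 2 * Λ + (D' * D' * C1 +
        F.card * (D' * D' * C0)) := by
      intro i hi
      have h2 : ∀ j ∈ F, c i * c j * E i j ≤ (if j = i then c i ^ 2 * Λ + D' * D' * C1 else 0) +
          D' * D' * C0 := by
        intro j hj
        by_cases hij : j = i
        · subst hij
          rw [if_pos rfl]
          have h3 : E j j ≤ Λ + C1 := hxn j hj
          have h4 : c j * c j * E j j ≤ c j ^ 2 * (Λ + C1) := by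
            rw [← pow_two]
            exact mul_le_mul_of_nonneg_left h3 (sq_nonneg _)
          have h5 : 0 ≤ D' * D' * C0 := by positivity
          have h6 : c j ^ 2 ≤ D' * D' := by
            rw [← sq_abs, pow_two]
            exact mul_le_mul (hcle j hj) (hcle j hj) (abs_nonneg _) hD'0
          have h7 := mul_le_mul_of_nonneg_right h6 hC1'
          nlinarith
        · rw [if_neg hij, zero_add]
          have h3 : |E i j| ≤ C0 := hx i hi j hj (Ne.symm hij)
          refine (le_abs_self _).trans ?_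
          rw [abs_mul, abs_mul]
          exact mul_le_mul (mul_le_mul (hcle i hi) (hcle j hj) (abs_nonneg _) hD'0)
            h3 (abs_nonneg _) (by positivity)
      refine (Finset.sum_le_sum h2).trans ?_
      rw [Finset.sum_add_distrib, Finset.sum_ite_eq' F i, if_pos hi, Finset.sum_const,
        nsmul_eq_mul]
      linarith
    refine (Finset.sum_le_sum h1).trans ?_
    rw [Finset.sum_add_distrib, Finset.sum_const, nsmul_eq_mul]
  have hcR : ∀ i, c i * R i = R i ^ 2 / Λ := by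
    intro i; rw [hc]; simp only; ring
  have hc2 : ∀ i, c i ^ 2 * Λ = R i ^ 2 / Λ := by
    intro i; rw [hc]; simp only; field_simp
  rw [Finset.sum_congr rfl (fun i _ => hcR i)] at hnn
  rw [Finset.sum_congr rfl (fun i _ => hc2 i)] at hEE
  rw [← Finset.sum_div] at hnn hEE
  set T := ∑ i ∈ F, R i ^ 2 with hT
  have h6 : T / Λ ≤ D ^ 2 * Λ + F.card * (D' * D' * C1 + F.card * (D' * D' * C0)) := by linarith
  rw [div_le_iff₀ hΛ0] at h6
  have h7 : (D ^ 2 * Λ + F.card * (D' * D' * C1 + F.card * (D' * D' * C0))) * Λ ≤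
      (D * Λ + (C1 + C0 * F.card) * F.card * (D * E0 ^ 2)) ^ 2 := by
    have h8 : 0 ≤ D * Λ * ((C1 + C0 * F.card) * F.card * (D * E0 ^ 2)) := by positivity
    have h9 : (F.card * (D' * D' * C1 + F.card * (D' * D' * C0))) * Λ =
      D * Λ * ((C1 + C0 * F.card) * F.card * (D * E0 ^ 2)) := by rw [hD']; ring
    nlinarith [sq_nonneg ((C1 + C0 * F.card) * F.card * (D * E0 ^ 2))]
  exact h6.trans h7

end TatePole
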