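import Mathlib
import Pool.Agent.Lib.MP_058a58_ag.Defect2

open Filter Topology Polynomial Set Complex ComplexConjugate

namespace TatePole

lemma exists_inv_nat {p N : ℕ} [NeZero N] (h : Nat.Coprime p N) :
    ∃ a : ℕ, a * p ≡ 1 [MOD N] := by
  set u := ZMod.unitOfCoprime p h with hu
  refine ⟨((u⁻¹ : (ZMod N)ˣ) : ZMod N).val, ?_⟩
  rw [← ZMod.natCast_eq_natCast_iff]
  push_cast
  rw [ZMod.natCast_val, ZMod.cast_id]
  have : ((p : ℕ) : ZMod N) = (u : ZMod N) := by rw [hu, ZMod.coe_unitOfCoprime]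
  rw [this, Units.inv_mul]

lemma char_inv_eq_conj {p a N : ℕ} [NeZero N] (h : a * p ≡ 1 [MOD N])
    (χ : DirichletCharacter ℂ N) : χ (a : ZMod N) = conj (χ (p : ZMod N)) := by
  have h1 : ((a : ZMod N) * (p : ZMod N)) = 1 := by
    have := (ZMod.natCast_eq_natCast_iff _ _ _).mpr h
    push_cast at this
    exact this
  have h2 : χ (a : ZMod N) * χ (p : ZMod N) = 1 := by rw [← map_mul, h1, map_one]
  have hχ : conj (χ (p : ZMod N)) = χ⁻¹ (p : ZMod N) := by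
    have := congrArg (fun f : MulChar (ZMod N) ℂ => f (p : ZMod N)) (MulChar.star_eq_inv χ)
    simpa using this
  have h3 : χ⁻¹ (p : ZMod N) * χ (p : ZMod N) = 1 := by
    rw [← MulChar.mul_apply, inv_mul_cancel]
    exact MulChar.one_apply (IsUnit.of_mul_eq_one_right _ h1)
  have hne : χ (p : ZMod N) ≠ 0 := by
    intro h0
    rw [h0, mul_zero] at h2
    exact zero_ne_one h2
  rw [hχ]
  exact mul_right_cancel₀ hne (h2.trans h3.symm)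

lemma frob_inv_root_of_unity {p : ℕ} {𝔓 : Ideal ZBar} (h𝔓 : 𝔓.IsPrime) (hp𝔓 : (p : ZBar) ∈ 𝔓)
    {σ : GQ} (hσ : IsArithFrob p 𝔓 σ) {N : ℕ} (hN : N ≠ 0) (hcop : Nat.Coprime p N) {a : ℕ}
    (ha : a * p ≡ 1 [MOD N]) (ζ : QBar) (hζ : ζ ^ N = 1) : σ⁻¹ ζ = ζ ^ a := by
  have h1 : σ (ζ ^ a) = ζ := by
    rw [map_pow, frob_root_of_unity h𝔓 hp𝔓 hσ hN hcop ζ hζ, ← pow_mul, mul_comm]
    have := pow_eq_pow_of_modEq ha hζ
    rw [this, pow_one]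
  have h2 : σ⁻¹ (σ (ζ ^ a)) = ζ ^ a := by
    rw [← AlgEquiv.mul_apply, inv_mul_cancel, AlgEquiv.one_apply]
  rw [h1] at h2
  exact h2

theorem defect_abelian {ℓ : ℕ} [Fact ℓ.Prime] {W : Type*} [AddCommGroup W] [Module ℚ_[ℓ] W]
    [FiniteDimensional ℚ_[ℓ] W] {ρ : Representation ℚ_[ℓ] GQ W} {ι : ℚ_[ℓ] →+* ℂ}
    {S : Finset ℕ} {P : ℕ → ℂ[X]}
    (hgood : ∀ p : ℕ, p.Prime → p ∉ S → IsPureLocalFactor ρ ι p (P p))
    (B : Submodule ℚ_[ℓ] W) (hB : ∀ g : GQ, ∀ w ∈ B, ρ g w ∈ B)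
    {N : ℕ} [NeZero N] (hN : ∀ p : ℕ, p.Prime → p ∣ N → p ∈ S)
    (mult : DirichletCharacter ℂ N → ℕ)
    (hmult : ∀ g : GQ, ∀ a : ℕ, (∀ ζ : QBar, ζ ^ N = 1 → g ζ = ζ ^ a) →
      ι (LinearMap.trace ℚ_[ℓ] B ((ρ g).restrict (hB g))) =
        ∑ χ : DirichletCharacter ℂ N, (mult χ : ℂ) * χ (a : ZMod N))
    (Q : DirichletCharacter ℂ N → ℕ → ℂ[X])
    (hQ : ∀ χ, ∀ p : ℕ, p.Prime → p ∉ S → ∀ z, (Q χ p).eval z = (P p).eval (χ (p : ZMod N) * z))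
    (hQbad : ∀ χ, ∀ p ∈ S, p.Prime → ∀ z : ℂ, ‖z‖ ≤ (p : ℝ)⁻¹ → (Q χ p).eval z ≠ 0)
    (m : ℕ) (F : Finset (DirichletCharacter ℂ N × ℝ)) :
    ∃ C : ℝ, ∀ᶠ s : ℝ in 𝓝[>] ((m : ℝ) + 1),
      ∑ f ∈ F, (Real.log ‖LFun (Q f.1) m (s + f.2 * I)‖ -
        (if f.2 = 0 then (mult f.1 : ℝ) else 0) * Real.log (1 / (s - (m + 1)))) ^ 2 ≤
      (((Module.finrank ℚ_[ℓ] W : ℝ) - Module.finrank ℚ_[ℓ] B) *
        Real.log (1 / (s - (m + 1))) + C) ^ 2 := by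
  classical
  have hcop : ∀ p : ℕ, p.Prime → p ∉ S → Nat.Coprime p N := by
    intro p hp hpS
    rw [Nat.Prime.coprime_iff_not_dvd hp]
    intro h
    exact hpS (hN p hp h)
  have hex : ∀ p : ℕ, ∃ α : Fin (Module.finrank ℚ_[ℓ] W) → ℂ, p.Prime → p ∉ S →
      (∀ j, ‖α j‖ = 1) ∧ (∀ x : ℂ, (P p).eval x = ∏ j, (1 - α j * x)) ∧
      ‖∑ j, α j - ∑ χ : DirichletCharacter ℂ N, ((mult χ : ℝ) : ℂ) * conj (χ (p : ZMod N))‖ ≤
        (Module.finrank ℚ_[ℓ] W : ℝ) - Module.finrank ℚ_[ℓ] B := by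
    intro p
    by_cases hpp : p.Prime ∧ p ∉ S
    · obtain ⟨hp, hpS⟩ := hpp
      obtain ⟨𝔓, h𝔓, hp𝔓⟩ := exists_prime_over p hp
      obtain ⟨σ, hσ⟩ := exists_arithFrob p hp 𝔓 h𝔓 hp𝔓
      obtain ⟨α, h1, h2, h3⟩ := (hgood p hp hpS).roots_stable h𝔓 hp𝔓 hσ B hB
      obtain ⟨a, ha⟩ := exists_inv_nat (hcop p hp hpS)
      refine ⟨α, fun _ _ => ⟨h1, h2, ?_⟩⟩
      have h4 := hmult σ⁻¹ a (fun ζ hζ =>
        frob_inv_root_of_unity h𝔓 hp𝔓 hσ (NeZero.ne N) (hcop p hp hpS) ha ζ hζ)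
      rw [h4] at h3
      convert h3 using 4 with χ
      push_cast
      rw [char_inv_eq_conj ha χ]
    · exact ⟨fun _ => 0, fun h1 h2 => (hpp ⟨h1, h2⟩).elim⟩
  choose α hα using hex
  have hD : 0 ≤ (Module.finrank ℚ_[ℓ] W : ℝ) - Module.finrank ℚ_[ℓ] B := by
    rw [sub_nonneg]
    exact_mod_cast Submodule.finrank_le B
  obtain ⟨C, hC⟩ := defect_abelian_core (S := S) (α := α) (P := P)
    (fun p h1 h2 j => ((hα p h1 h2).1 j).le) (fun p h1 h2 => (hα p h1 h2).2.1)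
    (fun χ => (mult χ : ℝ)) _ (fun p h1 h2 => (hα p h1 h2).2.2) hD Q hQ hQbad F
  refine ⟨C, ?_⟩
  have hshift : Tendsto (fun s : ℝ => s - m) (𝓝[>] ((m : ℝ) + 1)) (𝓝[>] (1 : ℝ)) :=
    (tendsto_shift m (fun x : ℝ => x)).mpr tendsto_id
  filter_upwards [hshift.eventually hC] with s hs
  have h5 : s - m - 1 = s - (m + 1) := by ring
  rw [h5] at hs
  convert hs using 3 with f hf
  congr 2
  have h6 := LFun_eq_ZZ_vt (Q f.1) m f.2 (s - m)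
  rw [show ((m : ℝ) + (s - m) : ℝ) = s by ring] at h6
  rw [h6]

end TatePole
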