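import Mathlib
import Pool.Agent.Lib.MP_058a58_ag.TraceMean
import Pool.Agent.Lib.MP_058a58_ag.Bessel2
import Pool.Agent.Lib.MP_058a58_ag.Stable
import Pool.Agent.Lib.MP_058a58_ag.Defect3

open Filter Topology Polynomial Set Complex ComplexConjugate NumberField

namespace TatePole

/-- boundedness of the rational traces. -/
lemma q_bdd {k W : Type*} [Field k] [CharZero k] [AddCommGroup W] [Module k W]
    [FiniteDimensional k W] (ρ : Representation k GQ W) (B : Submodule k W)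
    (hB : ∀ g : GQ, ∀ w ∈ B, ρ g w ∈ B) (M : IntermediateField ℚ QBar) [FiniteDimensional ℚ M]
    (hM : ∀ g ∈ M.fixingSubgroup, ∀ w ∈ B, ρ g w = w) (q : GQ → ℚ)
    (hq : ∀ g, LinearMap.trace k B (resRep ρ B hB g) = (q g : k)) :
    ∃ C : ℝ, ∀ g, |(q g : ℝ)| ≤ C := by
  classical
  set N : Subgroup GQ := M.fixingSubgroup with hN
  have hfin : Finite (GQ ⧸ N) := finite_quot N hN
  have hqeq : ∀ g h : GQ, (g : GQ ⧸ N) = h → q g = q h := by
    intro g h hgh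
    have h1 : g⁻¹ * h ∈ N := QuotientGroup.eq.mp hgh
    have h2 : h = g * (g⁻¹ * h) := by group
    have h3 : resRep ρ B hB (g⁻¹ * h) = 1 := by
      ext w
      rw [resRep_apply]
      exact hM _ h1 w w.2
    have h4 : resRep ρ B hB h = resRep ρ B hB g := by
      rw [h2, map_mul, h3, mul_one]
    have h5 := hq g
    have h6 := hq h
    rw [h4, h5] at h6
    exact_mod_cast h6
  obtain ⟨C, hC⟩ := Finite.exists_le (fun γ : GQ ⧸ N => |(q γ.out : ℝ)|)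
  refine ⟨C, fun g => ?_⟩
  have := hC (g : GQ ⧸ N)
  rwa [hqeq _ _ (QuotientGroup.out_eq' (g : GQ ⧸ N))] at this

section
variable {ℓ : ℕ} [Fact ℓ.Prime] {W : Type*} [AddCommGroup W] [Module ℚ_[ℓ] W]
    [FiniteDimensional ℚ_[ℓ] W] {ρ : Representation ℚ_[ℓ] GQ W} {ι : ℚ_[ℓ] →+* ℂ}

/-- the defect of the trace of Frobenius. -/
noncomputable def defA (ρ : Representation ℚ_[ℓ] GQ W) (ι : ℚ_[ℓ] →+* ℂ) (S : Finset ℕ)
    (q : GQ → ℚ) (σ : ℕ → GQ) (p : ℕ) : ℂ :=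
  if p ∈ S then 0 else ι (LinearMap.trace ℚ_[ℓ] W (ρ (σ p)⁻¹)) - (q (σ p)⁻¹ : ℂ)

lemma norm_defA_le {S : Finset ℕ} {P : ℕ → ℂ[X]}
    (hgood : ∀ p : ℕ, p.Prime → p ∉ S → IsPureLocalFactor ρ ι p (P p))
    (B : Submodule ℚ_[ℓ] W) (hB : ∀ g : GQ, ∀ w ∈ B, ρ g w ∈ B) (q : GQ → ℚ)
    (hq : ∀ g, LinearMap.trace ℚ_[ℓ] B (resRep ρ B hB g) = (q g : ℚ_[ℓ]))
    {σ : ℕ → GQ} (hσ : FrobSys σ) (p : ℕ) (hp : p.Prime) :
    ‖defA ρ ι S q σ p‖ ≤ (Module.finrank ℚ_[ℓ] W : ℝ) - Module.finrank ℚ_[ℓ] B := by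
  unfold defA
  split_ifs with h
  · rw [norm_zero, sub_nonneg]
    exact_mod_cast Submodule.finrank_le B
  · obtain ⟨𝔓, h𝔓, hp𝔓, hf⟩ := hσ p hp
    have hB' := roots_stable_trace (hgood p hp h) h𝔓 hp𝔓 hf B hB
    have h1 : LinearMap.trace ℚ_[ℓ] B ((ρ (σ p)⁻¹).restrict (hB (σ p)⁻¹)) =
        (q (σ p)⁻¹ : ℚ_[ℓ]) := hq _
    rw [h1, map_ratCast] at hB'
    exact hB'

/-- the bounded real coefficient system attached to `K`. -/
lemma real_prime_bdd {g : ℕ → ℝ} (h : BddPrimes g) : ∃ C : ℝ, 0 ≤ C ∧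
    ∀ p : ℕ, p.Prime → |g p| ≤ C := by
  obtain ⟨C, hC⟩ := h
  exact ⟨C, (abs_nonneg _).trans (hC 2 Nat.prime_two), hC⟩

/-- comparison of `log |L(X_K, s)|` with prime sums. -/
theorem log_field_cmp {S : Finset ℕ} {P : ℕ → ℂ[X]}
    (hgood : ∀ p : ℕ, p.Prime → p ∉ S → IsPureLocalFactor ρ ι p (P p))
    (B : Submodule ℚ_[ℓ] W) (hB : ∀ g : GQ, ∀ w ∈ B, ρ g w ∈ B)
    (M : IntermediateField ℚ QBar) [FiniteDimensional ℚ M]
    (hM : ∀ g ∈ M.fixingSubgroup, ∀ w ∈ B, ρ g w = w) (q : GQ → ℚ)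
    (hq : ∀ g, LinearMap.trace ℚ_[ℓ] B (resRep ρ B hB g) = (q g : ℚ_[ℓ]))
    {σ : ℕ → GQ} (hσ : FrobSys σ) (K : Type*) [Field K] [NumberField K]
    (S' : Finset ℕ) (P' : ℕ → ℂ[X])
    (hgood' : ∀ p : ℕ, p.Prime → p ∉ S' → IsPureLocalFactor (indRep ρ K) ι p (P' p))
    (hbad' : ∀ p ∈ S', p.Prime → (P' p).eval ((p : ℂ)⁻¹) ≠ 0) :
    ∃ C : ℝ, ∀ᶠ x in 𝓝[>] (1:ℝ),
      |(Real.log ‖ZZ P' (fun _ => 1) x‖ - cycleRank ρ B K * Real.log (1 / (x - 1))) -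
        RR (fun p => (fixCount K (σ p) : ℝ) * (defA ρ ι S q σ p).re) x| ≤ C := by
  classical
  obtain ⟨Cq, hCq⟩ := q_bdd ρ B hB M hM q hq
  have hCq0 : 0 ≤ Cq := (abs_nonneg _).trans (hCq 1)
  have hD0 : 0 ≤ (Module.finrank ℚ_[ℓ] W : ℝ) - Module.finrank ℚ_[ℓ] B := by
    rw [sub_nonneg]
    exact_mod_cast Submodule.finrank_le B
  set D := (Module.finrank ℚ_[ℓ] W : ℝ) - Module.finrank ℚ_[ℓ] B with hD
  set n : ℝ := (Nat.card (K →ₐ[ℚ] QBar) : ℝ) with hn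
  have hn0 : 0 ≤ n := Nat.cast_nonneg _
  have hfc : ∀ p, ‖(fixCount K (σ p) : ℂ)‖ ≤ n := by
    intro p
    rw [Complex.norm_natCast, hn]
    exact_mod_cast fixCount_le K (σ p)
  have hAb := norm_defA_le (ρ := ρ) (ι := ι) hgood B hB q hq hσ
  obtain ⟨α', hα1', hP'⟩ := exists_alpha hgood'
  -- the trace formula
  have htrace : ∀ p : ℕ, p.Prime → p ∉ S' → ∑ j, α' p j =
      (fixCount K (σ p) : ℂ) * ι (LinearMap.trace ℚ_[ℓ] W (ρ (σ p)⁻¹)) := by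
    intro p hp hpS
    obtain ⟨𝔓, h𝔓, hp𝔓, hf⟩ := hσ p hp
    obtain ⟨β, hβ, hβ1, hβe⟩ := (hgood' p hp hpS).roots_of_frob h𝔓 hp𝔓 hf
    have h1 : ∑ j, β j = ι (LinearMap.trace ℚ_[ℓ] _ (indRep ρ K (σ p)⁻¹)) := by
      rw [← sum_roots_map_charpoly, ← hβ]; rfl
    have h2 : ∑ j, α' p j = ∑ j, β j := by
      have h3 := coeff_one_of_eval_prod' (hP' p hp hpS)
      have h4 := coeff_one_of_eval_prod' hβe
      rw [h3] at h4
      exact neg_inj.mp h4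
    rw [h2, h1, trace_indRep, map_mul, map_natCast, fixCount_inv]
  set A : ℕ → ℂ := fun p => (fixCount K (σ p) : ℂ) * defA ρ ι S q σ p with hA
  set R0 : ℕ → ℂ := fun p => (fixCount K (σ p) : ℂ) * (q (σ p)⁻¹ : ℂ) with hR0
  have hAbd : ∀ p : ℕ, p.Prime → ‖A p‖ ≤ n * D := by
    intro p hp
    simp only [hA]
    rw [norm_mul]
    exact mul_le_mul (hfc p) (hAb p hp) (norm_nonneg _) hn0
  have hR0bd : ∀ p : ℕ, p.Prime → ‖R0 p‖ ≤ n * Cq := by
    intro p hp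
    simp only [hR0]
    rw [norm_mul]
    refine mul_le_mul (hfc p) ?_ (norm_nonneg _) hn0
    have h1 : (q (σ p)⁻¹ : ℂ) = ((q (σ p)⁻¹ : ℝ) : ℂ) := by push_cast; rfl
    rw [h1, Complex.norm_real]
    exact hCq _
  have hsplit : ∀ p : ℕ, p.Prime → p ∉ S ∪ S' → (∑ j, α' p j) * (fun _ : ℕ => (1:ℂ)) p =
      A p + R0 p := by
    intro p hp hpS
    rw [Finset.mem_union, not_or] at hpS
    simp only [hA, hR0, defA]
    rw [if_neg hpS.1, htrace p hp hpS.2]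
    ring
  have hPne : ∀ p ∈ S ∪ S', p.Prime → (P' p).eval ((fun _ : ℕ => (1:ℂ)) p * pw p 1) ≠ 0 := by
    intro p _ hp
    simp only [one_mul, pw_one]
    by_cases h : p ∈ S'
    · exact hbad' p h hp
    · intro h0
      have h1 := (hgood' p hp h).pure _ h0
      rw [norm_inv, Complex.norm_natCast, inv_eq_one] at h1
      have h2 : (2:ℝ) ≤ p := by exact_mod_cast hp.two_le
      linarith
  obtain ⟨C1, hC1⟩ := log_ZZ_split (Q := P') (S := S ∪ S') (β := α') (v := fun _ => 1)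
    (fun p hp hpS j => (hα1' p hp (fun h => hpS (Finset.mem_union_right _ h)) j).le)
    (fun p hp hpS => hP' p hp (fun h => hpS (Finset.mem_union_right _ h)))
    (fun p _ => by simp) hPne hAbd hR0bd hsplit
  obtain ⟨C2, hC2⟩ := trace_mean ρ B hB M hM q hq K hσ
  refine ⟨C1 + C2, ?_⟩
  filter_upwards [hC1, hC2] with x hx1 hx2
  have e1 : RR (fun p => (A p).re) x =
      RR (fun p => (fixCount K (σ p) : ℝ) * (defA ρ ι S q σ p).re) x := by
    refine RR_congr (fun p _ => ?_) x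
    simp only [hA]
    rw [show ((fixCount K (σ p) : ℕ) : ℂ) = (((fixCount K (σ p) : ℕ) : ℝ) : ℂ) by push_cast; rfl,
      Complex.re_ofReal_mul]
  have e2 : RR (fun p => (R0 p).re) x =
      RR (fun p => (fixCount K (σ p) : ℝ) * (q (σ p)⁻¹ : ℝ)) x := by
    refine RR_congr (fun p _ => ?_) x
    simp only [hR0]
    rw [show ((fixCount K (σ p) : ℕ) : ℂ) = (((fixCount K (σ p) : ℕ) : ℝ) : ℂ) by push_cast; rfl,
      Complex.re_ofReal_mul]
    congr 1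
  rw [e1, e2] at hx1
  set L := Real.log (1 / (x - 1))
  set a := Real.log ‖ZZ P' (fun _ => 1) x‖
  set R1 := RR (fun p => (fixCount K (σ p) : ℝ) * (defA ρ ι S q σ p).re) x
  set R2 := RR (fun p => (fixCount K (σ p) : ℝ) * (q (σ p)⁻¹ : ℝ)) x
  have h4 : (a - cycleRank ρ B K * L) - R1 = (a - (R1 + R2)) + (R2 - cycleRank ρ B K * L) := by
    ring
  rw [h4]
  exact (abs_add_le _ _).trans (add_le_add hx1 hx2)

/-- Uniform bound: the defect over any number field is at most the transcendental rank. -/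
theorem uniform_core {S : Finset ℕ} {P : ℕ → ℂ[X]}
    (hgood : ∀ p : ℕ, p.Prime → p ∉ S → IsPureLocalFactor ρ ι p (P p))
    (B : Submodule ℚ_[ℓ] W) (hB : ∀ g : GQ, ∀ w ∈ B, ρ g w ∈ B)
    (M : IntermediateField ℚ QBar) [FiniteDimensional ℚ M]
    (hM : ∀ g ∈ M.fixingSubgroup, ∀ w ∈ B, ρ g w = w) (q : GQ → ℚ)
    (hq : ∀ g, LinearMap.trace ℚ_[ℓ] B (resRep ρ B hB g) = (q g : ℚ_[ℓ]))
    (K : Type*) [Field K] [NumberField K]
    (S' : Finset ℕ) (P' : ℕ → ℂ[X])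
    (hgood' : ∀ p : ℕ, p.Prime → p ∉ S' → IsPureLocalFactor (indRep ρ K) ι p (P' p))
    (hbad' : ∀ p ∈ S', p.Prime → (P' p).eval ((p : ℂ)⁻¹) ≠ 0) :
    ∃ C : ℝ, ∀ᶠ x in 𝓝[>] (1:ℝ),
      |Real.log ‖ZZ P' (fun _ => 1) x‖ - cycleRank ρ B K * Real.log (1 / (x - 1))| ≤
        ((Module.finrank ℚ_[ℓ] W : ℝ) - Module.finrank ℚ_[ℓ] B) * Real.log (1 / (x - 1)) + C := by
  obtain ⟨σ, hσ⟩ := exists_frobSys
  obtain ⟨C1, hC1⟩ := log_field_cmp hgood B hB M hM q hq hσ K S' P' hgood' hbad'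
  have hAb := norm_defA_le (ρ := ρ) (ι := ι) hgood B hB q hq hσ
  have hD0 : 0 ≤ (Module.finrank ℚ_[ℓ] W : ℝ) - Module.finrank ℚ_[ℓ] B := by
    rw [sub_nonneg]
    exact_mod_cast Submodule.finrank_le B
  set D := (Module.finrank ℚ_[ℓ] W : ℝ) - Module.finrank ℚ_[ℓ] B with hD
  obtain ⟨C2, hC2⟩ := fixCount_mean' K hσ
  obtain ⟨n, hn0, hn⟩ := real_prime_bdd (bdd_fixCount K σ)
  refine ⟨C1 + D * C2, ?_⟩
  filter_upwards [hC1, hC2, self_mem_nhdsWithin] with x hx1 hx2 hx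
  simp only [mem_Ioi] at hx
  set L := Real.log (1 / (x - 1)) with hL
  have key : ∀ ε : ℝ, |ε| ≤ 1 → RR (fun p => ε * ((fixCount K (σ p) : ℝ) *
      (defA ρ ι S q σ p).re)) x ≤ D * RR (fun p => (fixCount K (σ p) : ℝ)) x := by
    intro ε hε
    rw [← RR_const_mul]
    unfold RR
    have hb1 : ∀ p : ℕ, p.Prime → |ε * ((fixCount K (σ p) : ℝ) * (defA ρ ι S q σ p).re)| ≤
        n * D := by
      intro p hp
      rw [abs_mul, abs_mul]
      calc |ε| * (|(fixCount K (σ p) : ℝ)| * |(defA ρ ι S q σ p).re|) ≤ 1 * (n * D) := by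
            refine mul_le_mul hε ?_ (by positivity) zero_le_one
            exact mul_le_mul (hn p hp) ((Complex.abs_re_le_norm _).trans (hAb p hp))
              (abs_nonneg _) hn0
        _ = n * D := one_mul _
    have hb2 : ∀ p : ℕ, p.Prime → |D * (fixCount K (σ p) : ℝ)| ≤ D * n := by
      intro p hp
      rw [abs_mul, abs_of_nonneg hD0]
      exact mul_le_mul_of_nonneg_left (hn p hp) hD0
    refine (summable_RR hb1 hx).tsum_le_tsum (fun p => ?_) (summable_RR hb2 hx)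
    refine mul_le_mul_of_nonneg_right ?_ (Real.rpow_nonneg (Nat.cast_nonneg _) _)
    refine (le_abs_self _).trans ?_
    rw [abs_mul, abs_mul, abs_of_nonneg (Nat.cast_nonneg (fixCount K (σ p)) : (0:ℝ) ≤ _)]
    have h1 : |(defA ρ ι S q σ p).re| ≤ D := (Complex.abs_re_le_norm _).trans (hAb p p.2)
    have h2 : (0:ℝ) ≤ fixCount K (σ p) := Nat.cast_nonneg _
    calc |ε| * ((fixCount K (σ p) : ℝ) * |(defA ρ ι S q σ p).re|)
        ≤ 1 * ((fixCount K (σ p) : ℝ) * D) := by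
          refine mul_le_mul hε ?_ (by positivity) zero_le_one
          exact mul_le_mul_of_nonneg_left h1 h2
      _ = D * (fixCount K (σ p) : ℝ) := by ring
  have h1 := key 1 (by simp)
  have h2 := key (-1) (by simp)
  rw [RR_const_mul] at h1 h2
  set R1 := RR (fun p => (fixCount K (σ p) : ℝ) * (defA ρ ι S q σ p).re) x
  set U := RR (fun p => (fixCount K (σ p) : ℝ)) x
  have h3 : U ≤ L + C2 := by
    have := (abs_le.mp hx2).2
    linarith
  have h4 : |R1| ≤ D * U := by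
    rw [abs_le]
    constructor <;> linarith
  have h5 : D * U ≤ D * (L + C2) := mul_le_mul_of_nonneg_left h3 hD0
  have h6 : Real.log ‖ZZ P' (fun _ => 1) x‖ - cycleRank ρ B K * L =
    ((Real.log ‖ZZ P' (fun _ => 1) x‖ - cycleRank ρ B K * L) - R1) + R1 := by ring
  rw [h6]
  refine (abs_add_le _ _).trans ?_
  linarith

end

end TatePole
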