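import Mathlib
import Pool.Agent.Lib.MP_058a58_ag.FieldDefect
import Pool.Agent.Lib.MP_058a58_ag.Disjoint

open Filter Topology Polynomial Set Complex ComplexConjugate NumberField
open scoped TensorProduct

namespace TatePole

section
variable {K : Type*} [Field K] [NumberField K]

/-- a field all of whose elements are rational has just one embedding. -/
lemma subsingleton_emb (h : ∀ x : K, ∃ r : ℚ, (r : K) = x) : Subsingleton (K →ₐ[ℚ] QBar) := by
  refine ⟨fun φ ψ => ?_⟩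
  ext x
  obtain ⟨r, rfl⟩ := h x
  rw [map_ratCast, map_ratCast]

lemma fixCount_unique (h : ∀ x : K, ∃ r : ℚ, (r : K) = x) (g : GQ) : fixCount K g = 1 := by
  have hs := subsingleton_emb h
  have φ₀ : K →ₐ[ℚ] QBar := IsAlgClosed.lift
  rw [fixCount_eq_card, Nat.card_eq_one_iff_unique]
  refine ⟨⟨fun a b => Subtype.ext (Subsingleton.elim _ _)⟩, ⟨φ₀, Subsingleton.elim _ _⟩⟩

lemma cycleRank_unique (h : ∀ x : K, ∃ r : ℚ, (r : K) = x) {k W : Type*} [Field k]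
    [AddCommGroup W] [Module k W] (ρ : Representation k GQ W) (B : Submodule k W) :
    cycleRank ρ B K = Module.finrank k ↥(B ⊓ ρ.invariants) := by
  have hs := subsingleton_emb h
  have φ₀ : K →ₐ[ℚ] QBar := IsAlgClosed.lift
  unfold cycleRank
  have hsmul : ∀ (g : GQ) (φ : K →ₐ[ℚ] QBar), g • φ = φ := fun g φ => Subsingleton.elim _ _
  refine LinearEquiv.finrank_eq ?_
  refine
    { toFun := fun f => ⟨f.1 φ₀, f.2.1 φ₀ (Set.mem_univ _), ?_⟩
      map_add' := fun f f' => rfl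
      map_smul' := fun c f => rfl
      invFun := fun w => ⟨fun _ => (w : W), ?_, ?_⟩
      left_inv := fun f => ?_
      right_inv := fun w => rfl }
  · refine (Representation.mem_invariants _ _).mpr fun g => ?_
    have h := congrFun ((Representation.mem_invariants _ _).mp f.2.2 g) φ₀
    rw [indRep_apply, hsmul] at h
    exact h
  · intro φ _
    exact w.2.1
  · refine (Representation.mem_invariants _ _).mpr fun g => ?_
    ext φ
    rw [indRep_apply]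
    exact (Representation.mem_invariants _ _).mp w.2.2 g
  · apply Subtype.ext
    funext φ
    show f.1 φ₀ = f.1 φ
    rw [Subsingleton.elim φ φ₀]

end

lemma rat_all (x : ℚ) : ∃ r : ℚ, (r : ℚ) = x := ⟨x, rfl⟩

section
variable {ℓ : ℕ} [Fact ℓ.Prime] {W : Type*} [AddCommGroup W] [Module ℚ_[ℓ] W]
    [FiniteDimensional ℚ_[ℓ] W] {ρ : Representation ℚ_[ℓ] GQ W} {ι : ℚ_[ℓ] →+* ℂ}

/-- comparison of `log |L(X, s)|` with prime sums. -/
theorem log_self_cmp {S : Finset ℕ} {P : ℕ → ℂ[X]}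
    (hgood : ∀ p : ℕ, p.Prime → p ∉ S → IsPureLocalFactor ρ ι p (P p))
    (hbad : ∀ p ∈ S, p.Prime → (P p).eval ((p : ℂ)⁻¹) ≠ 0)
    (B : Submodule ℚ_[ℓ] W) (hB : ∀ g : GQ, ∀ w ∈ B, ρ g w ∈ B)
    (M : IntermediateField ℚ QBar) [FiniteDimensional ℚ M]
    (hM : ∀ g ∈ M.fixingSubgroup, ∀ w ∈ B, ρ g w = w) (q : GQ → ℚ)
    (hq : ∀ g, LinearMap.trace ℚ_[ℓ] B (resRep ρ B hB g) = (q g : ℚ_[ℓ]))
    {σ : ℕ → GQ} (hσ : FrobSys σ) :
    ∃ C : ℝ, ∀ᶠ x in 𝓝[>] (1:ℝ),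
      |(Real.log ‖ZZ P (fun _ => 1) x‖ -
        Module.finrank ℚ_[ℓ] ↥(B ⊓ ρ.invariants) * Real.log (1 / (x - 1))) -
        RR (fun p => (defA ρ ι S q σ p).re) x| ≤ C := by
  classical
  obtain ⟨Cq, hCq⟩ := q_bdd ρ B hB M hM q hq
  have hAb := norm_defA_le (ρ := ρ) (ι := ι) hgood B hB q hq hσ
  obtain ⟨α, hα1, hP⟩ := exists_alpha hgood
  have htrace : ∀ p : ℕ, p.Prime → p ∉ S → ∑ j, α p j =
      ι (LinearMap.trace ℚ_[ℓ] W (ρ (σ p)⁻¹)) := by
    intro p hp hpS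
    obtain ⟨𝔓, h𝔓, hp𝔓, hf⟩ := hσ p hp
    obtain ⟨β, hβ, hβ1, hβe⟩ := (hgood p hp hpS).roots_of_frob h𝔓 hp𝔓 hf
    have h1 : ∑ j, β j = ι (LinearMap.trace ℚ_[ℓ] _ (ρ (σ p)⁻¹)) := by
      rw [← sum_roots_map_charpoly, ← hβ]; rfl
    have h2 : ∑ j, α p j = ∑ j, β j := by
      have h3 := coeff_one_of_eval_prod' (hP p hp hpS)
      have h4 := coeff_one_of_eval_prod' hβe
      rw [h3] at h4
      exact neg_inj.mp h4
    rw [h2, h1]
  set R0 : ℕ → ℂ := fun p => (q (σ p)⁻¹ : ℂ) with hR0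
  have hR0re : ∀ p, R0 p = ((q (σ p)⁻¹ : ℝ) : ℂ) := by
    intro p; simp only [hR0]; push_cast; rfl
  have hR0bd : ∀ p : ℕ, p.Prime → ‖R0 p‖ ≤ Cq := by
    intro p hp
    rw [hR0re, Complex.norm_real]
    exact hCq _
  have hsplit : ∀ p : ℕ, p.Prime → p ∉ S → (∑ j, α p j) * (fun _ : ℕ => (1:ℂ)) p =
      defA ρ ι S q σ p + R0 p := by
    intro p hp hpS
    simp only [hR0, defA]
    rw [if_neg hpS, htrace p hp hpS]
    ring
  obtain ⟨C1, hC1⟩ := log_ZZ_split (Q := P) (S := S) (β := α) (v := fun _ => 1)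
    (fun p hp hpS j => (hα1 p hp hpS j).le) hP (fun p _ => by simp)
    (fun p hpS hp => by simp only [one_mul, pw_one]; exact hbad p hpS hp) hAb hR0bd hsplit
  obtain ⟨C2, hC2⟩ := trace_mean ρ B hB M hM q hq ℚ hσ
  refine ⟨C1 + C2, ?_⟩
  filter_upwards [hC1, hC2] with x hx1 hx2
  have e2 : RR (fun p => (R0 p).re) x =
      RR (fun p => (fixCount ℚ (σ p) : ℝ) * (q (σ p)⁻¹ : ℝ)) x := by
    refine RR_congr (fun p _ => ?_) x
    rw [hR0re, Complex.ofReal_re, fixCount_unique rat_all]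
    simp
  rw [e2] at hx1
  rw [cycleRank_unique rat_all] at hx2
  set L := Real.log (1 / (x - 1))
  set a := Real.log ‖ZZ P (fun _ => 1) x‖
  set R1 := RR (fun p => (defA ρ ι S q σ p).re) x
  set R2 := RR (fun p => (fixCount ℚ (σ p) : ℝ) * (q (σ p)⁻¹ : ℝ)) x
  have h4 : (a - Module.finrank ℚ_[ℓ] ↥(B ⊓ ρ.invariants) * L) - R1 = (a - (R1 + R2)) +
    (R2 - Module.finrank ℚ_[ℓ] ↥(B ⊓ ρ.invariants) * L) := by
    ring
  rw [h4]
  exact (abs_add_le _ _).trans (add_le_add hx1 hx2)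

end

end TatePole
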