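import Mathlib
import Pool.Agent.Lib.MP_058a58_ag.FieldBessel

open Filter Topology Polynomial Set Complex ComplexConjugate NumberField
open scoped TensorProduct

namespace TatePole

lemma HasMean.sub {g h : ℕ → ℝ} {c d : ℝ} (hg : HasMean g c) (hh : HasMean h d)
    (bg : BddPrimes g) (bh : BddPrimes h) : HasMean (fun p => g p - h p) (c - d) := by
  have h1 := hg.add (hh.const_mul (-1)) bg (bh.const_mul (-1))
  have h2 : (fun p => g p + -1 * h p) = fun p => g p - h p := by funext p; ring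
  have h3 : c + -1 * d = c - d := by ring
  rw [h2, h3] at h1
  exact h1

lemma hasMean_one : HasMean (fun _ => (1:ℝ)) 1 := by
  obtain ⟨K1, hK1⟩ := primeSum_sub_log_bounded
  refine ⟨K1, ?_⟩
  filter_upwards [hK1] with x hx
  have h2 : RR (fun _ => (1:ℝ)) x = primeSum (x - 1) := by
    unfold RR primeSum
    refine tsum_congr fun p => ?_
    rw [one_mul]
    congr 1
    ring
  rw [h2, one_mul]
  exact hx

lemma bdd_one : BddPrimes (fun _ => (1:ℝ)) := ⟨1, fun _ _ => by simp⟩

lemma BddPrimes.mul {g h : ℕ → ℝ} (bg : BddPrimes g) (bh : BddPrimes h) :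
    BddPrimes (fun p => g p * h p) := by
  obtain ⟨C, hC0, hC⟩ := real_prime_bdd bg
  obtain ⟨C', hC'⟩ := bh
  refine ⟨C * C', fun p hp => ?_⟩
  simp only
  rw [abs_mul]
  exact mul_le_mul (hC p hp) (hC' p hp) (abs_nonneg _) hC0

lemma BddPrimes.sub {g h : ℕ → ℝ} (bg : BddPrimes g) (bh : BddPrimes h) :
    BddPrimes (fun p => g p - h p) := by
  obtain ⟨C, hC⟩ := bg
  obtain ⟨C', hC'⟩ := bh
  refine ⟨C + C', fun p hp => ?_⟩
  exact (abs_sub _ _).trans (add_le_add (hC p hp) (hC' p hp))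

lemma fixCount_le_finrank (K : Type*) [Field K] [NumberField K] (g : GQ) :
    fixCount K g ≤ Module.finrank ℚ K := by
  refine (fixCount_le K g).trans ?_
  have h := AlgHom.card_of_splits ℚ K QBar (fun x => IsAlgClosed.splits _)
  rw [← h, Nat.card_eq_fintype_card]

/-- the almost orthonormal system of a family of number fields. -/
noncomputable def fe {J : Type*} (K : J → Type) [∀ j, Field (K j)] [∀ j, NumberField (K j)]
    (σ : ℕ → GQ) : Option J → ℕ → ℝ
  | none, _ => 1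
  | some j, p => ((fixCount (K j) (σ p) : ℝ) - 1) / Real.sqrt ((Module.finrank ℚ (K j) : ℝ) - 1)

section
variable {J : Type*} (K : J → Type) [∀ j, Field (K j)] [∀ j, NumberField (K j)]
    {σ : ℕ → GQ}

lemma fe_bdd (i : Option J) : BddPrimes (fe K σ i) := by
  cases i with
  | none => exact bdd_one
  | some j =>
    have h1 := ((bdd_fixCount (K j) σ).sub bdd_one).const_mul
      (Real.sqrt ((Module.finrank ℚ (K j) : ℝ) - 1))⁻¹
    obtain ⟨C, hC⟩ := h1
    refine ⟨C, fun p hp => ?_⟩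
    have := hC p hp
    simp only [fe]
    rw [div_eq_inv_mul]
    exact this

lemma fe_orth (hσ : FrobSys σ) (hdisj : ∀ i j, i ≠ j → IsField (K i ⊗[ℚ] K j)) :
    ∀ i j : Option J, i ≠ j → HasMean (fun p => fe K σ i p * fe K σ j p) 0 := by
  have hz : ∀ j, HasMean (fun p => (fixCount (K j) (σ p) : ℝ) - 1) 0 := by
    intro j
    have := (fixCount_mean' (K j) hσ).sub hasMean_one (bdd_fixCount _ σ) bdd_one
    rwa [sub_self] at this
  have hnj : ∀ j, HasMean (fe K σ (some j)) 0 := by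
    intro j
    have := (hz j).const_mul (Real.sqrt ((Module.finrank ℚ (K j) : ℝ) - 1))⁻¹
    rw [mul_zero] at this
    refine (?_ : HasMean _ 0)
    have h2 : fe K σ (some j) = fun p => (Real.sqrt ((Module.finrank ℚ (K j) : ℝ) - 1))⁻¹ *
        ((fixCount (K j) (σ p) : ℝ) - 1) := by
      funext p
      simp only [fe]
      rw [div_eq_inv_mul]
    rw [h2]; exact this
  intro i j hij
  cases i with
  | none =>
    cases j with
    | none => exact absurd rfl hij
    | some j =>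
      have h : (fun p => fe K σ none p * fe K σ (some j) p) = fe K σ (some j) := by
        funext p; simp [fe]
      rw [h]; exact hnj j
  | some i =>
    cases j with
    | none =>
      have h : (fun p => fe K σ (some i) p * fe K σ none p) = fe K σ (some i) := by
        funext p; simp [fe]
      rw [h]; exact hnj i
    | some j =>
      have hne : i ≠ j := fun h => hij (by rw [h])
      have h1 := disjoint_mean (K i) (K j) (hdisj i j hne) hσ
      have bi := bdd_fixCount (K i) σ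
      have bj := bdd_fixCount (K j) σ
      have h2 := (h1.sub (fixCount_mean' (K i) hσ) (bi.mul bj) bi).sub (hz j)
        ((bi.mul bj).sub bi) (bj.sub bdd_one)
      have h3 := h2.const_mul ((Real.sqrt ((Module.finrank ℚ (K i) : ℝ) - 1))⁻¹ *
        (Real.sqrt ((Module.finrank ℚ (K j) : ℝ) - 1))⁻¹)
      have h4 : ((Real.sqrt ((Module.finrank ℚ (K i) : ℝ) - 1))⁻¹ *
        (Real.sqrt ((Module.finrank ℚ (K j) : ℝ) - 1))⁻¹) * (1 - 1 - 0) = 0 := by ring
      rw [h4] at h3
      have h5 : (fun p => fe K σ (some i) p * fe K σ (some j) p) = fun p =>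
        (Real.sqrt ((Module.finrank ℚ (K i) : ℝ) - 1))⁻¹ *
        (Real.sqrt ((Module.finrank ℚ (K j) : ℝ) - 1))⁻¹ *
        ((fixCount (K i) (σ p) : ℝ) * (fixCount (K j) (σ p) : ℝ) - (fixCount (K i) (σ p) : ℝ) -
        ((fixCount (K j) (σ p) : ℝ) - 1)) := by
        funext p
        simp only [fe]
        rw [div_eq_inv_mul, div_eq_inv_mul]
        ring
      rw [h5]; exact h3

lemma fe_norm (hσ : FrobSys σ) (hdeg : ∀ j, 1 < Module.finrank ℚ (K j)) (i : Option J) :
    ∃ C : ℝ, ∀ᶠ x in 𝓝[>] (1:ℝ), RR (fun p => fe K σ i p * fe K σ i p) x ≤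
      primeSum (x - 1) + C := by
  cases i with
  | none =>
    refine ⟨0, Filter.Eventually.of_forall fun x => ?_⟩
    have h2 : RR (fun p => fe K σ none p * fe K σ none p) x = primeSum (x - 1) := by
      unfold RR primeSum
      refine tsum_congr fun p => ?_
      simp only [fe]
      rw [one_mul, one_mul]
      congr 1
      ring
    rw [h2, add_zero]
  | some j =>
    set n : ℝ := (Module.finrank ℚ (K j) : ℝ) with hn
    have hn1 : 0 < n - 1 := by
      have : (1:ℝ) < n := by rw [hn]; exact_mod_cast hdeg j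
      linarith
    obtain ⟨C1, hC1⟩ := (fixCount_mean' (K j) hσ)
    obtain ⟨C2, hC2⟩ := primeSum_sub_log_bounded
    obtain ⟨Cb, hCb0, hCb⟩ := real_prime_bdd (bdd_fixCount (K j) σ)
    refine ⟨(|n - 2| * C1 + |n - 2| * C2) / (n - 1), ?_⟩
    filter_upwards [hC1, hC2, self_mem_nhdsWithin] with x hx1 hx2 hx
    simp only [mem_Ioi] at hx
    set u : ℕ → ℝ := fun p => (fixCount (K j) (σ p) : ℝ) with hu
    -- (u-1)^2 ≤ (n-2) u + 1
    have hpt : ∀ p : ℕ, (u p - 1) ^ 2 ≤ (n - 2) * u p + 1 := by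
      intro p
      have h0 : 0 ≤ u p := Nat.cast_nonneg _
      have h1 : u p ≤ n := by
        simp only [hu, hn]
        exact_mod_cast fixCount_le_finrank (K j) (σ p)
      nlinarith
    have hbd : BddPrimes (fun p => (n - 2) * u p + 1) := by
      refine ⟨|n - 2| * Cb + 1, fun p hp => ?_⟩
      refine (abs_add_le _ _).trans ?_
      rw [abs_mul, abs_one]
      gcongr
      exact hCb p hp
    have hbsq : BddPrimes (fun p => (u p - 1) ^ 2) := by
      have := (((bdd_fixCount (K j) σ).sub bdd_one).mul ((bdd_fixCount (K j) σ).sub bdd_one))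
      obtain ⟨C, hC⟩ := this
      refine ⟨C, fun p hp => ?_⟩
      have := hC p hp
      simp only [hu]
      rw [pow_two]
      exact this
    obtain ⟨Ca, hCa⟩ := hbd
    obtain ⟨Cs, hCs⟩ := hbsq
    have hle : RR (fun p => (u p - 1) ^ 2) x ≤ RR (fun p => (n - 2) * u p + 1) x := by
      unfold RR
      refine (summable_RR hCs hx).tsum_le_tsum (fun p => ?_) (summable_RR hCa hx)
      exact mul_le_mul_of_nonneg_right (hpt p) (Real.rpow_nonneg (Nat.cast_nonneg _) _)
    have hb1 : ∀ p : ℕ, p.Prime → |(n - 2) * u p| ≤ |n - 2| * Cb := by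
      intro p hp
      rw [abs_mul]
      exact mul_le_mul_of_nonneg_left (hCb p hp) (abs_nonneg _)
    have hone : ∀ p : ℕ, p.Prime → |(1:ℝ)| ≤ 1 := by intro p _; simp
    have h1 : RR (fun _ => (1:ℝ)) x = primeSum (x - 1) := by
      unfold RR primeSum
      refine tsum_congr fun p => ?_
      rw [one_mul]
      congr 1
      ring
    rw [RR_add hb1 hone hx, RR_const_mul, h1] at hle
    have heq : RR (fun p => fe K σ (some j) p * fe K σ (some j) p) x =
        (n - 1)⁻¹ * RR (fun p => (u p - 1) ^ 2) x := by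
      rw [← RR_const_mul]
      refine RR_congr (fun p _ => ?_) x
      simp only [fe]
      rw [div_mul_div_comm, Real.mul_self_sqrt hn1.le]
      simp only [hu]
      field_simp
    rw [heq]
    set Λ := primeSum (x - 1)
    set L := Real.log (1 / (x - 1))
    have hx1' : |RR u x - L| ≤ C1 := by
      have := hx1
      rw [one_mul] at this
      exact this
    have h5 : RR u x - Λ ≤ C1 + C2 ∧ -(C1 + C2) ≤ RR u x - Λ := by
      have a1 := abs_le.mp hx1'
      have a2 := abs_le.mp hx2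
      constructor <;> linarith [a1.1, a1.2, a2.1, a2.2]
    have h6 : (n - 2) * (RR u x - Λ) ≤ |n - 2| * (C1 + C2) := by
      refine (le_abs_self _).trans ?_
      rw [abs_mul]
      refine mul_le_mul_of_nonneg_left ?_ (abs_nonneg _)
      rw [abs_le]
      exact ⟨h5.2, h5.1⟩
    have h7 : RR (fun p => (u p - 1) ^ 2) x ≤ (n - 1) * Λ + (|n - 2| * C1 + |n - 2| * C2) := by
      nlinarith
    calc (n - 1)⁻¹ * RR (fun p => (u p - 1) ^ 2) x
        ≤ (n - 1)⁻¹ * ((n - 1) * Λ + (|n - 2| * C1 + |n - 2| * C2)) :=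
          mul_le_mul_of_nonneg_left h7 (inv_nonneg.mpr hn1.le)
      _ = Λ + (|n - 2| * C1 + |n - 2| * C2) / (n - 1) := by
          field_simp

end

section
variable {ℓ : ℕ} [Fact ℓ.Prime] {W : Type*} [AddCommGroup W] [Module ℚ_[ℓ] W]
    [FiniteDimensional ℚ_[ℓ] W] {ρ : Representation ℚ_[ℓ] GQ W} {ι : ℚ_[ℓ] →+* ℂ}

theorem families_core {S : Finset ℕ} {P : ℕ → ℂ[X]}
    (hgood : ∀ p : ℕ, p.Prime → p ∉ S → IsPureLocalFactor ρ ι p (P p))
    (hbad : ∀ p ∈ S, p.Prime → (P p).eval ((p : ℂ)⁻¹) ≠ 0)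
    (B : Submodule ℚ_[ℓ] W) (hB : ∀ g : GQ, ∀ w ∈ B, ρ g w ∈ B)
    (M : IntermediateField ℚ QBar) [FiniteDimensional ℚ M]
    (hM : ∀ g ∈ M.fixingSubgroup, ∀ w ∈ B, ρ g w = w) (q : GQ → ℚ)
    (hq : ∀ g, LinearMap.trace ℚ_[ℓ] B (resRep ρ B hB g) = (q g : ℚ_[ℓ]))
    {J : Type*} [Fintype J] (K : J → Type) [∀ j, Field (K j)] [∀ j, NumberField (K j)]
    (hdeg : ∀ j, 1 < Module.finrank ℚ (K j))
    (hdisj : ∀ i j, i ≠ j → IsField (K i ⊗[ℚ] K j))
    (S' : J → Finset ℕ) (P' : J → ℕ → ℂ[X])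
    (hgood' : ∀ j, ∀ p : ℕ, p.Prime → p ∉ S' j → IsPureLocalFactor (indRep ρ (K j)) ι p (P' j p))
    (hbad' : ∀ j, ∀ p ∈ S' j, p.Prime → (P' j p).eval ((p : ℂ)⁻¹) ≠ 0) :
    ∃ C : ℝ, ∀ᶠ x in 𝓝[>] (1:ℝ),
      (Real.log ‖ZZ P (fun _ => 1) x‖ -
        Module.finrank ℚ_[ℓ] ↥(B ⊓ ρ.invariants) * Real.log (1 / (x - 1))) ^ 2 +
      ∑ j, ((Real.log ‖ZZ (P' j) (fun _ => 1) x‖ -
          cycleRank ρ B (K j) * Real.log (1 / (x - 1))) -
        (Real.log ‖ZZ P (fun _ => 1) x‖ -
          Module.finrank ℚ_[ℓ] ↥(B ⊓ ρ.invariants) * Real.log (1 / (x - 1)))) ^ 2 /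
        ((Module.finrank ℚ (K j) : ℝ) - 1) ≤
      (((Module.finrank ℚ_[ℓ] W : ℝ) - Module.finrank ℚ_[ℓ] B) * Real.log (1 / (x - 1)) + C) ^ 2
      := by
  classical
  obtain ⟨σ, hσ⟩ := exists_frobSys
  obtain ⟨C1, hC1⟩ := log_self_cmp hgood hbad B hB M hM q hq hσ
  have hcmpj := fun j => log_field_cmp hgood B hB M hM q hq hσ (K j) (S' j) (P' j)
    (hgood' j) (hbad' j)
  choose C2 hC2 using hcmpj
  have hAb := norm_defA_le (ρ := ρ) (ι := ι) hgood B hB q hq hσ
  have hD0 : 0 ≤ (Module.finrank ℚ_[ℓ] W : ℝ) - Module.finrank ℚ_[ℓ] B := by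
    rw [sub_nonneg]
    exact_mod_cast Submodule.finrank_le B
  set D := (Module.finrank ℚ_[ℓ] W : ℝ) - Module.finrank ℚ_[ℓ] B with hD
  set A := defA ρ ι S q σ with hA
  -- Bessel
  have hbb : ∀ i : Option J, ∃ C : ℝ, 0 ≤ C ∧ ∀ p : ℕ, p.Prime → |fe K σ i p| ≤ C :=
    fun i => real_prime_bdd (fe_bdd K i)
  choose Cb hCb0 hCb using hbb
  set E0 : ℝ := ∑ i : Option J, Cb i with hE0
  have hE : ∀ i : Option J, ∀ p : ℕ, p.Prime → ‖((fe K σ i p : ℝ) : ℂ)‖ ≤ E0 := by
    intro i p hp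
    rw [Complex.norm_real]
    refine (hCb i p hp).trans ?_
    exact Finset.single_le_sum (f := Cb) (fun i _ => hCb0 i) (Finset.mem_univ i)
  obtain ⟨C0, hC0, hBes⟩ := bessel_primes2 (Finset.univ : Finset (Option J))
    (fun i p => ((fe K σ i p : ℝ) : ℂ)) E0 (fun i _ => hE i)
    (fun i _ => by
      obtain ⟨C, hC⟩ := fe_norm K hσ hdeg i
      refine ⟨C, ?_⟩
      filter_upwards [hC] with x hx
      have h : RR (fun p => ((fe K σ i p : ℂ) * conj (fe K σ i p : ℂ)).re) x =
          RR (fun p => fe K σ i p * fe K σ i p) x := by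
        refine RR_congr (fun p _ => ?_) x
        rw [Complex.conj_ofReal, ← Complex.ofReal_mul, Complex.ofReal_re]
      rw [h]; exact hx)
    (fun i _ j _ hij => by
      obtain ⟨C, hC⟩ := fe_orth K hσ hdisj i j hij
      refine ⟨C, ?_⟩
      filter_upwards [hC] with x hx
      have h : RR (fun p => ((fe K σ i p : ℂ) * conj (fe K σ j p : ℂ)).re) x =
          RR (fun p => fe K σ i p * fe K σ j p) x := by
        refine RR_congr (fun p _ => ?_) x
        rw [Complex.conj_ofReal, ← Complex.ofReal_mul, Complex.ofReal_re]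
      rw [h]
      rw [zero_mul, sub_zero] at hx
      exact hx) A D hAb
  obtain ⟨K1, hK1⟩ := primeSum_sub_log_bounded
  -- boundedness of the coefficients
  have hAre : ∀ p : ℕ, p.Prime → |(A p).re| ≤ D := fun p hp =>
    (Complex.abs_re_le_norm _).trans (hAb p hp)
  set K0 : ℝ := |C1| + ∑ j, (|C2 j| + |C1|) with hK0
  have hsumnn : 0 ≤ ∑ j, (|C2 j| + |C1|) := Finset.sum_nonneg fun j _ => by positivity
  have hK0' : 0 ≤ K0 := by rw [hK0]; positivity
  set n : ℝ := (Fintype.card (Option J) : ℝ) with hn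
  have hn0 : 0 ≤ n := Nat.cast_nonneg _
  have hpos : ∀ᶠ x in 𝓝[>] (1:ℝ), 0 ≤ Real.log (1 / (x - 1)) := by
    have h1 : ∀ᶠ x in 𝓝[>] (1:ℝ), x ∈ Ioo (1:ℝ) 2 := Ioo_mem_nhdsGT (by norm_num)
    filter_upwards [h1] with x hx
    apply Real.log_nonneg
    rw [le_div_iff₀ (by linarith [hx.1])]
    linarith [hx.2]
  have hall : ∀ᶠ x in 𝓝[>] (1:ℝ), ∀ j, |(Real.log ‖ZZ (P' j) (fun _ => 1) x‖ -
      cycleRank ρ B (K j) * Real.log (1 / (x - 1))) -
        RR (fun p => (fixCount (K j) (σ p) : ℝ) * (A p).re) x| ≤ C2 j :=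
    Filter.eventually_all.mpr hC2
  refine ⟨D * |K1| + C0 + (n + 1) * K0, ?_⟩
  filter_upwards [hC1, hall, hBes, hK1, hpos, self_mem_nhdsWithin] with x hx1 hx2 hxB hxK hxpos hx
  simp only [mem_Ioi] at hx
  set L := Real.log (1 / (x - 1)) with hL
  set Λ := primeSum (x - 1) with hΛ
  set d0 : ℝ := Real.log ‖ZZ P (fun _ => 1) x‖ -
        Module.finrank ℚ_[ℓ] ↥(B ⊓ ρ.invariants) * L with hd0
  set d : J → ℝ := fun j => Real.log ‖ZZ (P' j) (fun _ => 1) x‖ - cycleRank ρ B (K j) * L with hd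
  have hx2' : ∀ j, |d j - RR (fun p => (fixCount (K j) (σ p) : ℝ) * (A p).re) x| ≤ C2 j := hx2
  -- the Bessel coefficients
  set R : Option J → ℝ := fun i => RR (fun p => (A p * conj ((fe K σ i p : ℝ) : ℂ)).re) x with hR
  have hRn : R none = RR (fun p => (A p).re) x := by
    simp only [hR, fe]
    refine RR_congr (fun p _ => ?_) x
    simp
  set sq : J → ℝ := fun j => Real.sqrt ((Module.finrank ℚ (K j) : ℝ) - 1) with hsq
  have hnpos : ∀ j, 1 ≤ (Module.finrank ℚ (K j) : ℝ) - 1 := by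
    intro j
    have h1 := hdeg j
    have h2 : (2:ℝ) ≤ (Module.finrank ℚ (K j) : ℝ) := by exact_mod_cast h1
    linarith
  have hsq1 : ∀ j, 1 ≤ sq j := by
    intro j
    simp only [hsq]
    rw [Real.one_le_sqrt]
    exact hnpos j
  have hRj : ∀ j, R (some j) = (RR (fun p => (fixCount (K j) (σ p) : ℝ) * (A p).re) x -
      RR (fun p => (A p).re) x) / sq j := by
    intro j
    obtain ⟨Cf, hCf0, hCf⟩ := real_prime_bdd (bdd_fixCount (K j) σ)
    have hb1 : ∀ p : ℕ, p.Prime → |(fixCount (K j) (σ p) : ℝ) * (A p).re| ≤ Cf * D := by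
      intro p hp
      rw [abs_mul]
      exact mul_le_mul (hCf p hp) (hAre p hp) (abs_nonneg _) hCf0
    have hb2 : ∀ p : ℕ, p.Prime → |(-1) * (A p).re| ≤ D := by
      intro p hp
      rw [abs_mul, abs_neg, abs_one, one_mul]
      exact hAre p hp
    have h1 : RR (fun p => (fixCount (K j) (σ p) : ℝ) * (A p).re) x -
      RR (fun p => (A p).re) x = RR (fun p => (fixCount (K j) (σ p) : ℝ) * (A p).re +
        (-1) * (A p).re) x := by
      rw [RR_add hb1 hb2 hx, RR_const_mul]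
      ring
    rw [h1, div_eq_inv_mul, ← RR_const_mul]
    simp only [hR]
    refine RR_congr (fun p _ => ?_) x
    rw [Complex.conj_ofReal, mul_comm (A p), Complex.re_ofReal_mul]
    simp only [fe, hsq]
    rw [div_eq_inv_mul]
    ring
  -- comparison
  set v : Option J → ℝ := fun i => match i with
    | none => d0
    | some j => (d j - d0) / sq j with hv
  have hvR : ∀ i, |v i - R i| ≤ K0 := by
    intro i
    cases i with
    | none =>
      rw [hRn]
      refine hx1.trans ((le_abs_self _).trans ?_)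
      rw [hK0]; linarith
    | some j =>
      rw [hRj]
      simp only [hv]
      rw [← sub_div, abs_div, abs_of_pos (lt_of_lt_of_le one_pos (hsq1 j))]
      have h1 : |d j - d0 - (RR (fun p => (fixCount (K j) (σ p) : ℝ) * (A p).re) x -
          RR (fun p => (A p).re) x)| ≤ |C2 j| + |C1| := by
        have h2 : d j - d0 - (RR (fun p => (fixCount (K j) (σ p) : ℝ) * (A p).re) x -
          RR (fun p => (A p).re) x) =
          (d j - RR (fun p => (fixCount (K j) (σ p) : ℝ) * (A p).re) x) -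
          (d0 - RR (fun p => (A p).re) x) := by ring
        rw [h2]
        exact (abs_sub _ _).trans (add_le_add ((hx2' j).trans (le_abs_self _))
          (hx1.trans (le_abs_self _)))
      have h3 : |C2 j| + |C1| ≤ K0 := by
        have h4 : |C2 j| + |C1| ≤ ∑ j, (|C2 j| + |C1|) :=
          Finset.single_le_sum (f := fun j => |C2 j| + |C1|) (fun _ _ => by positivity)
            (Finset.mem_univ j)
        rw [hK0]
        linarith [abs_nonneg C1]
      rw [div_le_iff₀ (lt_of_lt_of_le one_pos (hsq1 j))]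
      calc _ ≤ K0 := h1.trans h3
        _ = K0 * 1 := (mul_one _).symm
        _ ≤ K0 * sq j := mul_le_mul_of_nonneg_left (hsq1 j) hK0'
  have hΛL : Λ ≤ L + |K1| := by
    have := (abs_le.mp hxK).2
    have := le_abs_self K1
    linarith
  have hΛ0 : 0 ≤ Λ := by
    rw [hΛ]
    exact tsum_nonneg fun p => Real.rpow_nonneg (Nat.cast_nonneg _) _
  set T : ℝ := D * Λ + C0 with hT
  have hT0 : 0 ≤ T := by positivity
  have hBx : ∑ i, (R i) ^ 2 ≤ T ^ 2 := hxB
  have hlhs : d0 ^ 2 + ∑ j, (d j - d0) ^ 2 / ((Module.finrank ℚ (K j) : ℝ) - 1) =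
      ∑ i, (v i) ^ 2 := by
    rw [Fintype.sum_option]
    simp only [hv]
    congr 1
    refine Finset.sum_congr rfl fun j _ => ?_
    rw [div_pow]
    congr 1
    simp only [hsq]
    rw [Real.sq_sqrt (by linarith [hnpos j])]
  have hRle : ∀ i, |R i| ≤ T := by
    intro i
    have h1 : (R i) ^ 2 ≤ T ^ 2 :=
      (Finset.single_le_sum (f := fun i => (R i) ^ 2)
        (fun _ _ => sq_nonneg _) (Finset.mem_univ i)).trans hBx
    exact abs_le_of_sq_le_sq h1 hT0
  have hterm : ∀ i ∈ (Finset.univ : Finset (Option J)), (v i) ^ 2 ≤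
      (R i) ^ 2 + (2 * K0 * T + K0 ^ 2) := by
    intro i _
    have h1 := hvR i
    have h2 := hRle i
    have h3 : |v i| ≤ |R i| + K0 := by
      have : v i = R i + (v i - R i) := by ring
      rw [this]
      exact (abs_add_le _ _).trans (by linarith)
    have h4 : (v i) ^ 2 ≤ (|R i| + K0) ^ 2 := by
      rw [← sq_abs (v i)]
      gcongr
    have h5 : |R i| ^ 2 = R i ^ 2 := sq_abs (R i)
    nlinarith
  show d0 ^ 2 + ∑ j, (d j - d0) ^ 2 / ((Module.finrank ℚ (K j) : ℝ) - 1) ≤ _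
  rw [hlhs]
  calc ∑ i, (v i) ^ 2
      ≤ ∑ i, ((R i) ^ 2 + (2 * K0 * T + K0 ^ 2)) := Finset.sum_le_sum hterm
    _ = ∑ i, (R i) ^ 2 + n * (2 * K0 * T + K0 ^ 2) := by
          rw [Finset.sum_add_distrib, Finset.sum_const, nsmul_eq_mul, Finset.card_univ]
    _ ≤ T ^ 2 + n * (2 * K0 * T + K0 ^ 2) := by linarith [hBx]
    _ ≤ (T + (n + 1) * K0) ^ 2 := by
        have h1 : 0 ≤ n * K0 ^ 2 := by positivity
        have h2 : 0 ≤ K0 * T := by positivity
        have h3 : 0 ≤ (n * K0) ^ 2 := sq_nonneg _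
        have h4 : 0 ≤ K0 ^ 2 := sq_nonneg _
        nlinarith
    _ ≤ (D * L + (D * |K1| + C0 + (n + 1) * K0)) ^ 2 := by
        have h1 : T + (n + 1) * K0 ≤ D * L + (D * |K1| + C0 + (n + 1) * K0) := by
          rw [hT]
          nlinarith [mul_le_mul_of_nonneg_left hΛL hD0]
        have h2 : 0 ≤ T + (n + 1) * K0 := by positivity
        gcongr

end

end TatePole
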