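import Mathlib
import Pool.Agent.Lib.MP_058a58_ag.FieldFamily

open Filter Topology Polynomial Set NumberField
open scoped TensorProduct

namespace TatePole

/-- the subfield generated by a finite set of algebraic numbers. -/
lemma exists_field_of_finset (F : Finset QBar) :
    ∃ M : IntermediateField ℚ QBar, FiniteDimensional ℚ M ∧
      ∀ g ∈ M.fixingSubgroup, ∀ x ∈ F, g x = x := by
  refine ⟨IntermediateField.adjoin ℚ (F : Set QBar), ?_, ?_⟩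
  · have halg : Algebra.IsAlgebraic ℚ QBar := AlgebraicClosure.isAlgebraic ℚ
    refine IntermediateField.finiteDimensional_adjoin fun x _ => (halg.isAlgebraic x).isIntegral
  · intro g hg x hx
    rw [IntermediateField.mem_fixingSubgroup_iff] at hg
    exact hg x (IntermediateField.subset_adjoin ℚ _ hx)

/-- The defect `log |L(s)| - r log (1 / (s - m - 1))`, for `L(s) = ∏_p P_p(p^{m-s})⁻¹`. -/
noncomputable def defect (r : ℕ) (P : ℕ → ℂ[X]) (m : ℕ) (s : ℝ) : ℝ :=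
  Real.log ‖LFun P m s‖ - r * Real.log (1 / (s - (m + 1)))

lemma defect_eq (r : ℕ) (P : ℕ → ℂ[X]) (m : ℕ) (s : ℝ) :
    defect r P m s = Real.log ‖ZZ P (fun _ => 1) (s - m)‖ -
      r * Real.log (1 / ((s - m) - 1)) := by
  unfold defect
  have h2 := LFun_eq_ZZ P m (s - m)
  rw [show ((m : ℝ) + (s - m) : ℝ) = s by ring] at h2
  rw [h2]
  congr 4
  ring

section
variable {ℓ : ℕ} [Fact ℓ.Prime] {W : Type*} [AddCommGroup W] [Module ℚ_[ℓ] W]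
    [FiniteDimensional ℚ_[ℓ] W] {ρ : Representation ℚ_[ℓ] GQ W} {ι : ℚ_[ℓ] →+* ℂ}

lemma exists_q (B : Submodule ℚ_[ℓ] W) (hB : ∀ g : GQ, ∀ w ∈ B, ρ g w ∈ B)
    (hrat : ∀ g : GQ, ∃ r : ℚ, LinearMap.trace ℚ_[ℓ] B ((ρ g).restrict (hB g)) = (r : ℚ_[ℓ])) :
    ∃ q : GQ → ℚ, ∀ g, LinearMap.trace ℚ_[ℓ] B (resRep ρ B hB g) = (q g : ℚ_[ℓ]) := by
  choose q hq using hrat
  exact ⟨q, hq⟩

theorem uniform_bound {S : Finset ℕ} {P : ℕ → ℂ[X]}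
    (hgood : ∀ p : ℕ, p.Prime → p ∉ S → IsPureLocalFactor ρ ι p (P p))
    (B : Submodule ℚ_[ℓ] W) (hB : ∀ g : GQ, ∀ w ∈ B, ρ g w ∈ B)
    (F : Finset QBar) (hF : ∀ g : GQ, (∀ x ∈ F, g x = x) → ∀ w ∈ B, ρ g w = w)
    (hrat : ∀ g : GQ, ∃ r : ℚ, LinearMap.trace ℚ_[ℓ] B ((ρ g).restrict (hB g)) = (r : ℚ_[ℓ]))
    (K : Type*) [Field K] [NumberField K]
    (S' : Finset ℕ) (P' : ℕ → ℂ[X])
    (hgood' : ∀ p : ℕ, p.Prime → p ∉ S' → IsPureLocalFactor (indRep ρ K) ι p (P' p))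
    (hbad' : ∀ p ∈ S', p.Prime → (P' p).eval ((p : ℂ)⁻¹) ≠ 0) (m : ℕ) :
    ∃ C : ℝ, ∀ᶠ s : ℝ in 𝓝[>] ((m : ℝ) + 1),
      |defect (cycleRank ρ B K) P' m s| ≤
        ((Module.finrank ℚ_[ℓ] W : ℝ) - Module.finrank ℚ_[ℓ] B) *
          Real.log (1 / (s - (m + 1))) + C := by
  obtain ⟨q, hq⟩ := exists_q B hB hrat
  obtain ⟨M, hMfin, hMfix⟩ := exists_field_of_finset F
  obtain ⟨C, hC⟩ := uniform_core hgood B hB M (fun g hg => hF g (hMfix g hg)) q hq K S' P'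
    hgood' hbad'
  refine ⟨C, ?_⟩
  have hshift : Tendsto (fun s : ℝ => s - m) (𝓝[>] ((m : ℝ) + 1)) (𝓝[>] (1 : ℝ)) :=
    (tendsto_shift m (fun x : ℝ => x)).mpr tendsto_id
  filter_upwards [hshift.eventually hC] with s hs
  rw [defect_eq]
  have h5 : s - m - 1 = s - (m + 1) := by ring
  rw [h5] at hs ⊢
  exact hs

theorem families_bound {S : Finset ℕ} {P : ℕ → ℂ[X]}
    (hgood : ∀ p : ℕ, p.Prime → p ∉ S → IsPureLocalFactor ρ ι p (P p))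
    (hbad : ∀ p ∈ S, p.Prime → (P p).eval ((p : ℂ)⁻¹) ≠ 0)
    (B : Submodule ℚ_[ℓ] W) (hB : ∀ g : GQ, ∀ w ∈ B, ρ g w ∈ B)
    (F : Finset QBar) (hF : ∀ g : GQ, (∀ x ∈ F, g x = x) → ∀ w ∈ B, ρ g w = w)
    (hrat : ∀ g : GQ, ∃ r : ℚ, LinearMap.trace ℚ_[ℓ] B ((ρ g).restrict (hB g)) = (r : ℚ_[ℓ]))
    {J : Type*} [Fintype J] (K : J → Type) [∀ j, Field (K j)] [∀ j, NumberField (K j)]
    (hdeg : ∀ j, 1 < Module.finrank ℚ (K j))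
    (hdisj : ∀ i j, i ≠ j → IsField (K i ⊗[ℚ] K j))
    (S' : J → Finset ℕ) (P' : J → ℕ → ℂ[X])
    (hgood' : ∀ j, ∀ p : ℕ, p.Prime → p ∉ S' j → IsPureLocalFactor (indRep ρ (K j)) ι p (P' j p))
    (hbad' : ∀ j, ∀ p ∈ S' j, p.Prime → (P' j p).eval ((p : ℂ)⁻¹) ≠ 0) (m : ℕ) :
    ∃ C : ℝ, ∀ᶠ s : ℝ in 𝓝[>] ((m : ℝ) + 1),
      (defect (Module.finrank ℚ_[ℓ] ↥(B ⊓ ρ.invariants)) P m s) ^ 2 +
      ∑ j, (defect (cycleRank ρ B (K j)) (P' j) m s -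
          defect (Module.finrank ℚ_[ℓ] ↥(B ⊓ ρ.invariants)) P m s) ^ 2 /
        ((Module.finrank ℚ (K j) : ℝ) - 1) ≤
      (((Module.finrank ℚ_[ℓ] W : ℝ) - Module.finrank ℚ_[ℓ] B) *
        Real.log (1 / (s - (m + 1))) + C) ^ 2 := by
  obtain ⟨q, hq⟩ := exists_q B hB hrat
  obtain ⟨M, hMfin, hMfix⟩ := exists_field_of_finset F
  obtain ⟨C, hC⟩ := families_core hgood hbad B hB M (fun g hg => hF g (hMfix g hg)) q hq K hdeg
    hdisj S' P' hgood' hbad'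
  refine ⟨C, ?_⟩
  have hshift : Tendsto (fun s : ℝ => s - m) (𝓝[>] ((m : ℝ) + 1)) (𝓝[>] (1 : ℝ)) :=
    (tendsto_shift m (fun x : ℝ => x)).mpr tendsto_id
  filter_upwards [hshift.eventually hC] with s hs
  simp only [defect_eq]
  have h5 : s - m - 1 = s - (m + 1) := by ring
  rw [h5] at hs ⊢
  exact hs

end

end TatePole
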