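import Mathlib
import Pool.Agent.Lib.MP_058a58_ag.Disjoint

open Polynomial Filter Topology NumberField Set
open scoped TensorProduct

namespace TatePole

/-- residue ring of a prime. -/
def RF (A : Type) [CommRing A] (P : PrimeSpectrum A) : Type := A ⧸ P.asIdeal

section
variable (A : Type) [CommRing A] (P : PrimeSpectrum A)

noncomputable instance commRingRF : CommRing (RF A P) := inferInstanceAs (CommRing (A ⧸ P.asIdeal))

/-- the quotient map. -/
noncomputable def toRF : A →+* RF A P := Ideal.Quotient.mk P.asIdeal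

lemma toRF_surjective : Function.Surjective (toRF A P) := Ideal.Quotient.mk_surjective

lemma toRF_eq_zero {x : A} : toRF A P x = 0 ↔ x ∈ P.asIdeal := Ideal.Quotient.eq_zero_iff_mem

lemma isField_RF [IsArtinianRing A] : IsField (RF A P) := by
  have h : P.asIdeal.IsMaximal := inferInstance
  exact (Ideal.Quotient.maximal_ideal_iff_isField_quotient P.asIdeal).mp h

/-- the field structure. -/
noncomputable abbrev fieldRF (h : IsField (RF A P)) : Field (RF A P) := h.toField

lemma numberFieldRF (h : IsField (RF A P)) [Algebra ℚ A] [FiniteDimensional ℚ A] :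
    @NumberField (RF A P) (fieldRF A P h) := by
  let fE : Field (RF A P) := fieldRF A P h
  have hinj : Function.Injective ((toRF A P).comp (algebraMap ℚ A)) := RingHom.injective _
  have hchar : CharZero (RF A P) := charZero_of_injective_ringHom hinj
  let f : A →ₗ[ℚ] RF A P := ((toRF A P : A →+* RF A P) : A →+ RF A P).toRatLinearMap
  have hf : Function.Surjective f := toRF_surjective A P
  exact { to_charZero := hchar, to_finiteDimensional := Module.Finite.of_surjective f hf }

end

/-- homomorphisms from a finite dimensional algebra, sorted by their kernels. -/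
lemma card_fixed_hom (A : Type) [CommRing A] [Algebra ℚ A] [FiniteDimensional ℚ A]
    [Fintype (PrimeSpectrum A)] :
    ∃ (E : PrimeSpectrum A → Type) (fE : ∀ P, Field (E P)) (_ : ∀ P, @NumberField (E P) (fE P)),
      ∀ σ : GQ, Nat.card {χ : A →+* QBar // ∀ x, σ (χ x) = χ x} =
        ∑ P, @fixCount (E P) (fE P) _ σ := by
  classical
  have hart : IsArtinianRing A := IsArtinianRing.of_finite ℚ A
  have hF : ∀ P, IsField (RF A P) := fun P => isField_RF A P
  refine ⟨fun P => RF A P, fun P => fieldRF A P (hF P),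
    fun P => numberFieldRF A P (hF P), fun σ => ?_⟩
  have hfc : ∀ P, @fixCount (RF A P) (fieldRF A P (hF P)) (numberFieldRF A P (hF P)) σ =
      Nat.card {φ : RF A P →+* QBar // ∀ x, σ (φ x) = φ x} := fun P =>
    @fixCount_ringHom (RF A P) (fieldRF A P (hF P)) (numberFieldRF A P (hF P)) σ
  have hfin : ∀ P, Finite {φ : RF A P →+* QBar // ∀ x, σ (φ x) = φ x} := by
    intro P
    let fE : Field (RF A P) := fieldRF A P (hF P)
    have hnf : NumberField (RF A P) := numberFieldRF A P (hF P)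
    have h1 : Finite (RF A P →ₐ[ℚ] QBar) := inferInstance
    have h2 : Finite (RF A P →+* QBar) :=
      Finite.of_equiv _ (RingHom.equivRatAlgHom (R := RF A P) (S := QBar)).symm
    exact Subtype.finite
  rw [Finset.sum_congr rfl fun P _ => hfc P, ← Nat.card_sigma]
  symm
  refine Nat.card_congr (Equiv.ofBijective
    (fun z : (Σ P : PrimeSpectrum A, {φ : RF A P →+* QBar // ∀ x, σ (φ x) = φ x}) =>
      (⟨z.2.1.comp (toRF A z.1), fun x => z.2.2 _⟩ :
        {χ : A →+* QBar // ∀ x, σ (χ x) = χ x})) ⟨?_, ?_⟩)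
  · rintro ⟨P, φ, hφ⟩ ⟨P', φ', hφ'⟩ heq
    have h1 : φ.comp (toRF A P) = φ'.comp (toRF A P') := congrArg Subtype.val heq
    have hker : ∀ (P : PrimeSpectrum A) (φ : RF A P →+* QBar) (x : A),
        φ (toRF A P x) = 0 ↔ x ∈ P.asIdeal := by
      intro P φ x
      let fE : Field (RF A P) := fieldRF A P (hF P)
      have hinj : Function.Injective φ := RingHom.injective φ
      rw [map_eq_zero_iff φ hinj]
      exact toRF_eq_zero A P
    have hPP : P = P' := by
      apply PrimeSpectrum.ext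
      apply Ideal.ext
      intro x
      rw [← hker P φ x, ← hker P' φ' x]
      have := congrArg (fun f : A →+* QBar => f x) h1
      simp only [RingHom.comp_apply] at this
      rw [this]
    subst hPP
    have h2 : φ = φ' := by
      apply RingHom.ext
      intro y
      obtain ⟨x, rfl⟩ := toRF_surjective A P y
      exact congrArg (fun f : A →+* QBar => f x) h1
    subst h2
    rfl
  · rintro ⟨χ, hχ⟩
    let P : PrimeSpectrum A := ⟨RingHom.ker χ, RingHom.ker_isPrime χ⟩
    let φ : RF A P →+* QBar := Ideal.Quotient.lift P.asIdeal χ (fun a ha => ha)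
    have hφ : ∀ x, φ (toRF A P x) = χ x := fun x => rfl
    refine ⟨⟨P, φ, fun y => ?_⟩, ?_⟩
    · obtain ⟨x, rfl⟩ := toRF_surjective A P y
      rw [hφ, hχ]
    · apply Subtype.ext
      apply RingHom.ext
      intro x
      exact hφ x

/-- pairs of embeddings and embeddings of the tensor product. -/
lemma card_fixed_tensor (K L : Type) [Field K] [NumberField K] [Field L] [NumberField L]
    (σ : GQ) : Nat.card {χ : (K ⊗[ℚ] L) →+* QBar // ∀ x, σ (χ x) = χ x} =
      fixCount K σ * fixCount L σ := by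
  rw [fixCount_ringHom K, fixCount_ringHom L, ← Nat.card_prod]
  set iK : K →+* (K ⊗[ℚ] L) :=
    (Algebra.TensorProduct.includeLeft : K →ₐ[ℚ] K ⊗[ℚ] L).toRingHom with hiK
  set iL : L →+* (K ⊗[ℚ] L) :=
    (Algebra.TensorProduct.includeRight : L →ₐ[ℚ] K ⊗[ℚ] L).toRingHom with hiL
  have hgen : ∀ χ χ' : (K ⊗[ℚ] L) →+* QBar, (∀ x, χ (iK x) = χ' (iK x)) →
      (∀ y, χ (iL y) = χ' (iL y)) → χ = χ' := by
    intro χ χ' h1 h2
    apply RingHom.ext
    intro w
    induction w using TensorProduct.induction_on with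
    | zero => simp
    | tmul a b =>
      have h3 : a ⊗ₜ[ℚ] b = (a ⊗ₜ[ℚ] (1 : L)) * ((1 : K) ⊗ₜ[ℚ] b) := by
        rw [Algebra.TensorProduct.tmul_mul_tmul, mul_one, one_mul]
      rw [h3, map_mul, map_mul]
      have h4 : χ (a ⊗ₜ[ℚ] (1 : L)) = χ' (a ⊗ₜ[ℚ] (1 : L)) := h1 a
      have h5 : χ ((1 : K) ⊗ₜ[ℚ] b) = χ' ((1 : K) ⊗ₜ[ℚ] b) := h2 b
      rw [h4, h5]
    | add a b ha hb => rw [map_add, map_add, ha, hb]
  refine Nat.card_congr (Equiv.ofBijective (fun χ => (⟨χ.1.comp iK, fun x => χ.2 (iK x)⟩,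
    ⟨χ.1.comp iL, fun y => χ.2 (iL y)⟩)) ⟨?_, ?_⟩)
  · rintro ⟨χ, hχ⟩ ⟨χ', hχ'⟩ heq
    rw [Prod.mk.injEq] at heq
    apply Subtype.ext
    refine hgen χ χ' (fun x => ?_) (fun y => ?_)
    · exact congrArg (fun f : K →+* QBar => f x) (congrArg Subtype.val heq.1)
    · exact congrArg (fun f : L →+* QBar => f y) (congrArg Subtype.val heq.2)
  · rintro ⟨⟨φ, hφ⟩, ⟨ψ, hψ⟩⟩
    let θ : (K ⊗[ℚ] L) →ₐ[ℚ] QBar := Algebra.TensorProduct.lift φ.toRatAlgHom ψ.toRatAlgHom
      (fun _ _ => Commute.all _ _)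
    let χ : (K ⊗[ℚ] L) →+* QBar := (θ : (K ⊗[ℚ] L) →+* QBar)
    have hχK : ∀ x, χ (iK x) = φ x := by
      intro x
      have : χ (iK x) = θ (x ⊗ₜ[ℚ] (1 : L)) := rfl
      rw [this]
      simp [θ]
    have hχL : ∀ y, χ (iL y) = ψ y := by
      intro y
      have : χ (iL y) = θ ((1 : K) ⊗ₜ[ℚ] y) := rfl
      rw [this]
      simp [θ]
    have hfix : ((σ : QBar →+* QBar)).comp χ = χ := by
      refine hgen _ _ (fun x => ?_) (fun y => ?_)
      · show σ (χ (iK x)) = χ (iK x)
        rw [hχK, hφ]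
      · show σ (χ (iL y)) = χ (iL y)
        rw [hχL, hψ]
    refine ⟨⟨χ, fun z => congrArg (fun f : (K ⊗[ℚ] L) →+* QBar => f z) hfix⟩, ?_⟩
    apply Prod.ext
    · apply Subtype.ext
      apply RingHom.ext
      exact hχK
    · apply Subtype.ext
      apply RingHom.ext
      exact hχL

/-- the mean of a product of two fixed point counts is the number of primes of the tensor
product. -/
theorem pair_mean (K L : Type) [Field K] [NumberField K] [Field L] [NumberField L]
    {σ : ℕ → GQ} (hσ : FrobSys σ) :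
    HasMean (fun p => (fixCount K (σ p) : ℝ) * (fixCount L (σ p) : ℝ))
      (Nat.card (PrimeSpectrum (K ⊗[ℚ] L)) : ℝ) := by
  classical
  have hart : IsArtinianRing (K ⊗[ℚ] L) := IsArtinianRing.of_finite ℚ _
  have hT : Fintype (PrimeSpectrum (K ⊗[ℚ] L)) := Fintype.ofFinite _
  obtain ⟨E, fE, hE, hcard⟩ := card_fixed_hom (K ⊗[ℚ] L)
  have h2 : (fun p => (fixCount K (σ p) : ℝ) * (fixCount L (σ p) : ℝ)) =
      fun p => ∑ P, (@fixCount (E P) (fE P) (hE P) (σ p) : ℝ) := by
    funext p
    have h1 := hcard (σ p)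
    rw [card_fixed_tensor] at h1
    exact_mod_cast h1
  rw [h2]
  have h3 : (Nat.card (PrimeSpectrum (K ⊗[ℚ] L)) : ℝ) = ∑ _P : PrimeSpectrum (K ⊗[ℚ] L), (1:ℝ) := by
    rw [Finset.sum_const, nsmul_eq_mul, mul_one, Finset.card_univ, Nat.card_eq_fintype_card]
  rw [h3]
  refine HasMean.sum Finset.univ (fun P _ => ?_) (fun P _ => ?_)
  · exact @fixCount_mean' (E P) (fE P) (hE P) σ hσ
  · exact @bdd_fixCount (E P) (fE P) (hE P) σ

end TatePole
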