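import Mathlib
import Pool.Agent.Lib.MP_058a58_ag.FieldFinal
import Pool.Agent.Lib.MP_058a58_ag.SpecCount

open Filter Topology Polynomial Set Complex ComplexConjugate NumberField
open scoped TensorProduct

namespace TatePole

/-- a finite Galois extension which splits all members of a finite family. -/
lemma exists_normal_family {J : Type*} [Finite J] (K : J → Type) [∀ j, Field (K j)]
    [∀ j, NumberField (K j)] :
    ∃ M' : IntermediateField ℚ QBar, FiniteDimensional ℚ M' ∧ M'.fixingSubgroup.Normal ∧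
      ∀ g ∈ M'.fixingSubgroup, ∀ j, ∀ φ : K j →ₐ[ℚ] QBar, g • φ = φ := by
  set M' : IntermediateField ℚ QBar := ⨆ j, IntermediateField.normalClosure ℚ (K j) QBar with hM'
  have n2 : ∀ j, Normal ℚ (IntermediateField.normalClosure ℚ (K j) QBar) :=
    fun j => normalClosure.normal ℚ (K j) QBar
  have f2 : ∀ j, FiniteDimensional ℚ (IntermediateField.normalClosure ℚ (K j) QBar) :=
    fun j => normalClosure.is_finiteDimensional ℚ (K j) QBar
  have hnorm : Normal ℚ M' := IntermediateField.normal_iSup ℚ QBar _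
  have hgal : IsGalois ℚ M' := {}
  have hfin : FiniteDimensional ℚ M' := by
    rw [hM']; exact IntermediateField.finiteDimensional_iSup_of_finite
  have hN : M'.fixingSubgroup.Normal := (InfiniteGalois.normal_iff_isGalois M').mpr hgal
  refine ⟨M', hfin, hN, ?_⟩
  intro g hg j φ
  ext x
  rw [smul_emb_apply]
  rw [IntermediateField.mem_fixingSubgroup_iff] at hg
  refine hg (φ x) ?_
  have h2 : φ.fieldRange ≤ M' :=
    (AlgHom.fieldRange_le_normalClosure φ).trans
      (le_iSup (fun j => IntermediateField.normalClosure ℚ (K j) QBar) j)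
  exact h2 ⟨x, rfl⟩

/-- invariance under conjugation and under passing to another generator. -/
def RatInv {Γ : Type*} [Group Γ] (f : Γ → ℝ) : Prop :=
  (∀ g x : Γ, f (x * g * x⁻¹) = f g) ∧
    (∀ g h : Γ, Subgroup.zpowers g = Subgroup.zpowers h → f g = f h)

/-- fixed point count as a function on a finite quotient -/
noncomputable def uF (K : Type*) [Field K] [NumberField K] (N : Subgroup GQ) (γ : GQ ⧸ N) : ℝ :=
  (fixCount K γ.out : ℝ)

section
variable (K : Type*) [Field K] [NumberField K] (N : Subgroup GQ) [N.Normal]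
  (hsplit : ∀ g ∈ N, ∀ φ : K →ₐ[ℚ] QBar, g • φ = φ)

include hsplit

omit [N.Normal] in
lemma uF_mk (g : GQ) : uF K N (g : GQ ⧸ N) = (fixCount K g : ℝ) := by
  have h1 : (((g : GQ ⧸ N).out : GQ) : GQ ⧸ N) = (g : GQ ⧸ N) := QuotientGroup.out_eq' _
  unfold uF
  have h2 : fixCount K (g : GQ ⧸ N).out = fixCount K g := by
    have h3 : ((g : GQ ⧸ N).out)⁻¹ * g ∈ N := QuotientGroup.eq.mp h1
    refine fixCount_congr fun φ => ?_
    have h4 : g • φ = (g : GQ ⧸ N).out • φ := by
      have h5 : g = (g : GQ ⧸ N).out * (((g : GQ ⧸ N).out)⁻¹ * g) := by group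
      conv_lhs => rw [h5, mul_smul, hsplit _ h3]
    rw [h4]
  rw [h2]

lemma uF_ratInv : RatInv (uF K N) := by
  constructor
  · intro γ ξ
    obtain ⟨g, rfl⟩ := QuotientGroup.mk_surjective γ
    obtain ⟨x, rfl⟩ := QuotientGroup.mk_surjective ξ
    rw [← QuotientGroup.mk_inv, ← QuotientGroup.mk_mul, ← QuotientGroup.mk_mul,
      uF_mk K N hsplit, uF_mk K N hsplit, fixCount_conj]
  · intro γ δ hγδ
    obtain ⟨g, rfl⟩ := QuotientGroup.mk_surjective γ
    obtain ⟨h, rfl⟩ := QuotientGroup.mk_surjective δ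
    rw [uF_mk K N hsplit, uF_mk K N hsplit]
    have key : ∀ (a b : GQ), (b : GQ ⧸ N) ∈ Subgroup.zpowers (a : GQ ⧸ N) →
        ∀ φ : K →ₐ[ℚ] QBar, a • φ = φ → b • φ = φ := by
      intro a b hab φ hφ
      obtain ⟨j, hj⟩ := Subgroup.mem_zpowers_iff.mp hab
      have h1 : ((a ^ j : GQ) : GQ ⧸ N) = b := by rw [QuotientGroup.mk_zpow, hj]
      have h2 : (a ^ j)⁻¹ * b ∈ N := QuotientGroup.eq.mp h1
      have h3 : b = a ^ j * ((a ^ j)⁻¹ * b) := by group
      rw [h3, mul_smul, hsplit _ h2]
      have h4 : a ∈ MulAction.stabilizer GQ φ := hφ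
      exact (MulAction.stabilizer GQ φ).zpow_mem h4 j
    have h5 : fixCount K g = fixCount K h := by
      refine fixCount_congr fun φ => ⟨key g h ?_ φ, key h g ?_ φ⟩
      · rw [hγδ]; exact Subgroup.mem_zpowers _
      · rw [← hγδ]; exact Subgroup.mem_zpowers _
    rw [h5]

end

lemma HasMean.unique {g : ℕ → ℝ} {c d : ℝ} (hc : HasMean g c) (hd : HasMean g d) : c = d := by
  by_contra hne
  obtain ⟨K1, h1⟩ := hc
  obtain ⟨K2, h2⟩ := hd
  have hL : Tendsto (fun x : ℝ => |c - d| * Real.log (1 / (x - 1))) (𝓝[>] (1:ℝ)) atTop := by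
    refine Tendsto.const_mul_atTop (abs_pos.mpr (sub_ne_zero.mpr hne)) ?_
    have h3 : Tendsto (fun x : ℝ => x - 1) (𝓝[>] (1:ℝ)) (𝓝[>] (0:ℝ)) := by
      refine tendsto_nhdsWithin_iff.mpr ⟨?_, ?_⟩
      · have : Tendsto (fun x : ℝ => x - 1) (𝓝 (1:ℝ)) (𝓝 (1 - 1)) :=
          (continuous_id.sub continuous_const).tendsto 1
        rw [sub_self] at this
        exact this.mono_left nhdsWithin_le_nhds
      · filter_upwards [self_mem_nhdsWithin] with x hx
        simp only [mem_Ioi] at hx ⊢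
        linarith
    have h4 : Tendsto (fun x : ℝ => (x - 1)⁻¹) (𝓝[>] (1:ℝ)) atTop :=
      tendsto_inv_nhdsGT_zero.comp h3
    have h5 := Real.tendsto_log_atTop.comp h4
    refine h5.congr fun x => ?_
    simp only [Function.comp, one_div]
  have h6 := hL.eventually_gt_atTop (K1 + K2)
  have h7 : ∀ᶠ x in 𝓝[>] (1:ℝ), False := by
    filter_upwards [h1, h2, h6, Ioo_mem_nhdsGT (show (1:ℝ) < 2 by norm_num)] with x a b e hx
    have hlog : 0 ≤ Real.log (1 / (x - 1)) := by
      apply Real.log_nonneg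
      rw [le_div_iff₀ (by linarith [hx.1])]
      linarith [hx.2]
    have h8 : |c - d| * Real.log (1 / (x - 1)) ≤ K1 + K2 := by
      have h9 : |c - d| * Real.log (1 / (x - 1)) =
          |(RR g x - d * Real.log (1 / (x - 1))) - (RR g x - c * Real.log (1 / (x - 1)))| := by
        rw [← abs_of_nonneg hlog, ← abs_mul, abs_of_nonneg hlog]
        congr 1
        ring
      rw [h9]
      refine (abs_sub _ _).trans ?_
      linarith
    linarith
  exact h7.exists.elim fun _ h => h

end TatePole
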