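import Mathlib
import Pool.Agent.Lib.MP_058a58_ag.Gram

open Filter Topology Polynomial Set Complex ComplexConjugate NumberField
open scoped TensorProduct

namespace TatePole

lemma gavg_abs_le_sqrt {Γ : Type*} [Finite Γ] [Nonempty Γ] (f : Γ → ℝ) :
    gavg (fun γ => |f γ|) ≤ Real.sqrt (gavg (fun γ => f γ ^ 2)) := by
  have : Fintype Γ := Fintype.ofFinite Γ
  unfold gavg
  simp only [finsum_eq_sum_of_fintype]
  have hn : (0:ℝ) < Nat.card Γ := by exact_mod_cast Nat.card_pos
  refine Real.le_sqrt_of_sq_le ?_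
  have h1 := sq_sum_le_card_mul_sum_sq (s := (Finset.univ : Finset Γ)) (f := fun γ => |f γ|)
  rw [Finset.card_univ, ← Nat.card_eq_fintype_card] at h1
  simp only [sq_abs] at h1
  rw [div_pow, div_le_div_iff₀ (by positivity) hn]
  nlinarith

/-- the sign attached to a truth value -/
def sgB (b : Bool) : ℝ := if b then 1 else -1

lemma sgB_abs (b : Bool) : |sgB b| = 1 := by
  cases b <;> simp [sgB]

section
variable {ℓ : ℕ} [Fact ℓ.Prime] {W : Type*} [AddCommGroup W] [Module ℚ_[ℓ] W]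
    [FiniteDimensional ℚ_[ℓ] W] {ρ : Representation ℚ_[ℓ] GQ W} {ι : ℚ_[ℓ] →+* ℂ}

theorem gram_core {S : Finset ℕ} {P : ℕ → ℂ[X]}
    (hgood : ∀ p : ℕ, p.Prime → p ∉ S → IsPureLocalFactor ρ ι p (P p))
    (B : Submodule ℚ_[ℓ] W) (hB : ∀ g : GQ, ∀ w ∈ B, ρ g w ∈ B)
    (M : IntermediateField ℚ QBar) [FiniteDimensional ℚ M]
    (hM : ∀ g ∈ M.fixingSubgroup, ∀ w ∈ B, ρ g w = w) (q : GQ → ℚ)
    (hq : ∀ g, LinearMap.trace ℚ_[ℓ] B (resRep ρ B hB g) = (q g : ℚ_[ℓ]))
    {J : Type*} [Fintype J] (K : J → Type) [∀ j, Field (K j)] [∀ j, NumberField (K j)]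
    (S' : J → Finset ℕ) (P' : J → ℕ → ℂ[X])
    (hgood' : ∀ j, ∀ p : ℕ, p.Prime → p ∉ S' j → IsPureLocalFactor (indRep ρ (K j)) ι p (P' j p))
    (hbad' : ∀ j, ∀ p ∈ S' j, p.Prime → (P' j p).eval ((p : ℂ)⁻¹) ≠ 0) :
    ∃ C : ℝ, ∀ᶠ x in 𝓝[>] (1:ℝ), ∀ c : J → ℝ,
      |∑ j, c j * (Real.log ‖ZZ (P' j) (fun _ => 1) x‖ -
          cycleRank ρ B (K j) * Real.log (1 / (x - 1)))| ≤
      ((Module.finrank ℚ_[ℓ] W : ℝ) - Module.finrank ℚ_[ℓ] B) *
        Real.sqrt (∑ i, ∑ j, c i * c j * Nat.card (PrimeSpectrum (K i ⊗[ℚ] K j))) *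
        Real.log (1 / (x - 1)) + C * ∑ j, |c j| := by
  classical
  obtain ⟨σ, hσ⟩ := exists_frobSys
  have hcmpj := fun j => log_field_cmp hgood B hB M hM q hq hσ (K j) (S' j) (P' j)
    (hgood' j) (hbad' j)
  choose C2 hC2 using hcmpj
  have hAb := norm_defA_le (ρ := ρ) (ι := ι) hgood B hB q hq hσ
  have hD0 : 0 ≤ (Module.finrank ℚ_[ℓ] W : ℝ) - Module.finrank ℚ_[ℓ] B := by
    rw [sub_nonneg]
    exact_mod_cast Submodule.finrank_le B
  set D := (Module.finrank ℚ_[ℓ] W : ℝ) - Module.finrank ℚ_[ℓ] B with hD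
  set A := defA ρ ι S q σ with hA
  have hAre : ∀ p : ℕ, p.Prime → |(A p).re| ≤ D := fun p hp =>
    (Complex.abs_re_le_norm _).trans (hAb p hp)
  -- the finite quotient
  obtain ⟨M', hM'fd, hnormal, hsplit⟩ := exists_normal_family K
  set N : Subgroup GQ := M'.fixingSubgroup with hN
  have hfin : Finite (GQ ⧸ N) := finite_quot N hN
  have hfinT : Fintype (GQ ⧸ N) := Fintype.ofFinite _
  have hsp : ∀ j, ∀ g ∈ N, ∀ φ : K j →ₐ[ℚ] QBar, g • φ = φ := fun j g hg φ => hsplit g hg j φ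
  set u : J → GQ ⧸ N → ℝ := fun j => uF (K j) N with hu
  have humk : ∀ j (g : GQ), u j (g : GQ ⧸ N) = (fixCount (K j) g : ℝ) := fun j g =>
    uF_mk (K j) N (hsp j) g
  have hbdu : ∀ j, ∃ C : ℝ, 0 ≤ C ∧ ∀ p : ℕ, p.Prime → |(fixCount (K j) (σ p) : ℝ)| ≤ C :=
    fun j => real_prime_bdd (bdd_fixCount (K j) σ)
  choose Cu hCu0 hCu using hbdu
  -- uniform means
  have hmean : ∀ (b : GQ ⧸ N → Bool) (j : J), ∃ C : ℝ, 0 ≤ C ∧ (RatInv (fun γ => sgB (b γ)) →
      ∀ᶠ x in 𝓝[>] (1:ℝ), |RR (fun p => sgB (b (σ p)) * (fixCount (K j) (σ p) : ℝ)) x -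
        gavg (fun γ => sgB (b γ) * u j γ) * Real.log (1 / (x - 1))| ≤ C) := by
    intro b j
    by_cases h : RatInv (fun γ => sgB (b γ))
    · have hu' := uF_ratInv (K j) N (hsp j)
      have h1 : HasMean (fun p => (fun γ => sgB (b γ) * u j γ) (σ p))
          (gavg (fun γ => sgB (b γ) * u j γ)) := by
        refine classFun_mean N hN (fun γ => sgB (b γ) * u j γ) ?_ ?_ hσ
        · intro g x
          exact congrArg₂ (· * ·) (h.1 g x) (hu'.1 g x)
        · intro g h' hz
          exact congrArg₂ (· * ·) (h.2 g h' hz) (hu'.2 g h' hz)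
      obtain ⟨C, hC⟩ := h1
      refine ⟨|C|, abs_nonneg _, fun _ => ?_⟩
      filter_upwards [hC] with x hx
      have h2 : RR (fun p => sgB (b (σ p)) * (fixCount (K j) (σ p) : ℝ)) x =
          RR (fun p => (fun γ => sgB (b γ) * u j γ) (σ p)) x := by
        refine RR_congr (fun p _ => ?_) x
        simp only
        rw [humk]
      rw [h2]
      exact hx.trans (le_abs_self _)
    · exact ⟨0, le_rfl, fun h' => absurd h' h⟩
  choose Cm hCm0 hCm using hmean
  set C3 : ℝ := ∑ b : GQ ⧸ N → Bool, ∑ j, Cm b j with hC3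
  have hCmle : ∀ b j, Cm b j ≤ C3 := by
    intro b j
    calc Cm b j ≤ ∑ j, Cm b j := Finset.single_le_sum (f := fun j => Cm b j)
          (fun j _ => hCm0 b j) (Finset.mem_univ j)
      _ ≤ C3 := Finset.single_le_sum (f := fun b => ∑ j, Cm b j)
          (fun b _ => Finset.sum_nonneg fun j _ => hCm0 b j) (Finset.mem_univ b)
  have hC3' : 0 ≤ C3 := Finset.sum_nonneg fun b _ => Finset.sum_nonneg fun j _ => hCm0 b j
  have hallm : ∀ᶠ x in 𝓝[>] (1:ℝ), ∀ b : GQ ⧸ N → Bool, ∀ j, RatInv (fun γ => sgB (b γ)) →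
      |RR (fun p => sgB (b (σ p)) * (fixCount (K j) (σ p) : ℝ)) x -
        gavg (fun γ => sgB (b γ) * u j γ) * Real.log (1 / (x - 1))| ≤ C3 := by
    refine Filter.eventually_all.mpr fun b => Filter.eventually_all.mpr fun j => ?_
    by_cases h : RatInv (fun γ => sgB (b γ))
    · filter_upwards [hCm b j h] with x hx _
      exact hx.trans (hCmle b j)
    · exact Filter.Eventually.of_forall fun x h' => absurd h' h
  have hall : ∀ᶠ x in 𝓝[>] (1:ℝ), ∀ j, |(Real.log ‖ZZ (P' j) (fun _ => 1) x‖ -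
      cycleRank ρ B (K j) * Real.log (1 / (x - 1))) -
        RR (fun p => (fixCount (K j) (σ p) : ℝ) * (A p).re) x| ≤ C2 j :=
    Filter.eventually_all.mpr hC2
  -- the Gram matrix
  have hgram : ∀ i j, gavg (fun γ => u i γ * u j γ) =
      (Nat.card (PrimeSpectrum (K i ⊗[ℚ] K j)) : ℝ) := by
    intro i j
    have hi := uF_ratInv (K i) N (hsp i)
    have hj := uF_ratInv (K j) N (hsp j)
    have h1 : HasMean (fun p => (fun γ => u i γ * u j γ) (σ p))
        (gavg (fun γ => u i γ * u j γ)) := by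
      refine classFun_mean N hN (fun γ => u i γ * u j γ) ?_ ?_ hσ
      · intro g x
        exact congrArg₂ (· * ·) (hi.1 g x) (hj.1 g x)
      · intro g h' hz
        exact congrArg₂ (· * ·) (hi.2 g h' hz) (hj.2 g h' hz)
    have h2 : (fun p => (fun γ => u i γ * u j γ) ((σ p : GQ) : GQ ⧸ N)) =
        fun p => (fixCount (K i) (σ p) : ℝ) * (fixCount (K j) (σ p) : ℝ) := by
      funext p
      simp only
      rw [humk, humk]
    rw [h2] at h1
    exact h1.unique (pair_mean (K i) (K j) hσ)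
  set C2s : ℝ := ∑ j, |C2 j| with hC2s
  have hC2le : ∀ j, C2 j ≤ C2s := fun j => (le_abs_self _).trans
    (Finset.single_le_sum (f := fun j => |C2 j|) (fun _ _ => abs_nonneg _) (Finset.mem_univ j))
  have hpos : ∀ᶠ x in 𝓝[>] (1:ℝ), 0 ≤ Real.log (1 / (x - 1)) := by
    have h1 : ∀ᶠ x in 𝓝[>] (1:ℝ), x ∈ Ioo (1:ℝ) 2 := Ioo_mem_nhdsGT (by norm_num)
    filter_upwards [h1] with x hx
    apply Real.log_nonneg
    rw [le_div_iff₀ (by linarith [hx.1])]
    linarith [hx.2]
  refine ⟨C2s + D * C3, ?_⟩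
  filter_upwards [hallm, hall, hpos, self_mem_nhdsWithin] with x hxm hx2 hxpos hx c
  simp only [mem_Ioi] at hx
  set L := Real.log (1 / (x - 1)) with hL
  set d : J → ℝ := fun j => Real.log ‖ZZ (P' j) (fun _ => 1) x‖ - cycleRank ρ B (K j) * L with hd
  set R : J → ℝ := fun j => RR (fun p => (fixCount (K j) (σ p) : ℝ) * (A p).re) x with hR
  have hx2' : ∀ j, |d j - R j| ≤ C2 j := hx2
  -- the combination
  set F : GQ ⧸ N → ℝ := fun γ => ∑ j, c j * u j γ with hF
  set b : GQ ⧸ N → Bool := fun γ => decide (0 ≤ F γ) with hb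
  have hbF : ∀ γ, sgB (b γ) * F γ = |F γ| := by
    intro γ
    simp only [hb, sgB]
    by_cases h : 0 ≤ F γ
    · simp [h, abs_of_nonneg h]
    · have h' : F γ < 0 := not_le.mp h
      simp [h, abs_of_neg h']
  have hFinv : RatInv F := by
    constructor
    · intro g x
      simp only [hF]
      exact Finset.sum_congr rfl fun j _ =>
        congrArg (c j * ·) ((uF_ratInv (K j) N (hsp j)).1 g x)
    · intro g h' hz
      simp only [hF]
      exact Finset.sum_congr rfl fun j _ =>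
        congrArg (c j * ·) ((uF_ratInv (K j) N (hsp j)).2 g h' hz)
  have hbinv : RatInv (fun γ => sgB (b γ)) := by
    constructor
    · intro g x
      simp only [hb]
      rw [hFinv.1 g x]
    · intro g h' hz
      simp only [hb]
      rw [hFinv.2 g h' hz]
  have hfb : ∀ p : ℕ, p.Prime → ∀ j, |c j * (fixCount (K j) (σ p) : ℝ)| ≤ |c j| * Cu j := by
    intro p hp j
    rw [abs_mul]
    exact mul_le_mul_of_nonneg_left (hCu j p hp) (abs_nonneg _)
  -- sum of the R j
  have hsumR : ∑ j, c j * R j = RR (fun p => F (σ p) * (A p).re) x := by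
    have h1 : ∀ j ∈ (Finset.univ : Finset J), ∀ p : ℕ, p.Prime →
        |c j * ((fixCount (K j) (σ p) : ℝ) * (A p).re)| ≤ |c j| * (Cu j * D) := by
      intro j _ p hp
      rw [abs_mul, abs_mul]
      refine mul_le_mul_of_nonneg_left ?_ (abs_nonneg _)
      exact mul_le_mul (hCu j p hp) (hAre p hp) (abs_nonneg _) (hCu0 j)
    have h2 := RR_finset_sum (Finset.univ : Finset J)
      (fun j p => c j * ((fixCount (K j) (σ p) : ℝ) * (A p).re)) (fun j => |c j| * (Cu j * D)) h1 hx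
    have h3 : ∀ j ∈ (Finset.univ : Finset J),
        RR (fun p => c j * ((fixCount (K j) (σ p) : ℝ) * (A p).re)) x = c j * R j := by
      intro j _
      rw [RR_const_mul]
    rw [← Finset.sum_congr rfl h3, ← h2]
    refine RR_congr (fun p _ => ?_) x
    simp only [hF]
    rw [Finset.sum_mul]
    refine Finset.sum_congr rfl fun j _ => ?_
    rw [humk]
    ring
  set Cc : ℝ := ∑ j, |c j| * Cu j with hCc
  have hFb : ∀ p : ℕ, p.Prime → |F (σ p)| ≤ Cc := by
    intro p hp
    simp only [hF]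
    refine (Finset.abs_sum_le_sum_abs _ _).trans ?_
    refine Finset.sum_le_sum fun j _ => ?_
    rw [humk]
    exact hfb p hp j
  have hCc0 : 0 ≤ Cc := Finset.sum_nonneg fun j _ => mul_nonneg (abs_nonneg _) (hCu0 j)
  -- bound by the absolute mean
  have key : ∀ ε : ℝ, |ε| ≤ 1 → RR (fun p => ε * (F (σ p) * (A p).re)) x ≤
      D * RR (fun p => |F (σ p)|) x := by
    intro ε hε
    rw [← RR_const_mul]
    unfold RR
    have hb1 : ∀ p : ℕ, p.Prime → |ε * (F (σ p) * (A p).re)| ≤ Cc * D := by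
      intro p hp
      rw [abs_mul, abs_mul]
      calc |ε| * (|F (σ p)| * |(A p).re|) ≤ 1 * (Cc * D) := by
            refine mul_le_mul hε ?_ (by positivity) zero_le_one
            exact mul_le_mul (hFb p hp) (hAre p hp) (abs_nonneg _) hCc0
        _ = Cc * D := one_mul _
    have hb2 : ∀ p : ℕ, p.Prime → abs (D * abs (F (σ p))) ≤ D * Cc := by
      intro p hp
      rw [abs_mul, abs_of_nonneg hD0, abs_abs]
      exact mul_le_mul_of_nonneg_left (hFb p hp) hD0
    refine (summable_RR hb1 hx).tsum_le_tsum (fun p => ?_) (summable_RR hb2 hx)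
    refine mul_le_mul_of_nonneg_right ?_ (Real.rpow_nonneg (Nat.cast_nonneg _) _)
    refine (le_abs_self _).trans ?_
    rw [abs_mul, abs_mul]
    calc |ε| * (|F (σ p)| * |(A p).re|) ≤ 1 * (|F (σ p)| * D) := by
          refine mul_le_mul hε ?_ (by positivity) zero_le_one
          exact mul_le_mul_of_nonneg_left (hAre p p.2) (abs_nonneg _)
      _ = D * |F (σ p)| := by ring
  have h1 := key 1 (by simp)
  have h2 := key (-1) (by simp)
  rw [RR_const_mul] at h1 h2
  rw [← hsumR] at h1 h2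
  -- the absolute mean
  have habs : RR (fun p => |F (σ p)|) x = ∑ j, c j *
      RR (fun p => sgB (b (σ p)) * (fixCount (K j) (σ p) : ℝ)) x := by
    have h1 : ∀ j ∈ (Finset.univ : Finset J), ∀ p : ℕ, p.Prime →
        |c j * (sgB (b (σ p)) * (fixCount (K j) (σ p) : ℝ))| ≤ |c j| * Cu j := by
      intro j _ p hp
      rw [abs_mul, abs_mul, sgB_abs, one_mul]
      exact mul_le_mul_of_nonneg_left (hCu j p hp) (abs_nonneg _)
    have h2 := RR_finset_sum (Finset.univ : Finset J)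
      (fun j p => c j * (sgB (b (σ p)) * (fixCount (K j) (σ p) : ℝ)))
      (fun j => |c j| * Cu j) h1 hx
    have h3 : ∀ j ∈ (Finset.univ : Finset J),
        RR (fun p => c j * (sgB (b (σ p)) * (fixCount (K j) (σ p) : ℝ))) x =
        c j * RR (fun p => sgB (b (σ p)) * (fixCount (K j) (σ p) : ℝ)) x := by
      intro j _
      rw [RR_const_mul]
    rw [← Finset.sum_congr rfl h3, ← h2]
    refine RR_congr (fun p _ => ?_) x
    rw [← hbF]
    simp only [hF]
    rw [Finset.mul_sum]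
    refine Finset.sum_congr rfl fun j _ => ?_
    rw [humk]
    ring
  have hgabs : gavg (fun γ => |F γ|) = ∑ j, c j * gavg (fun γ => sgB (b γ) * u j γ) := by
    have h1 : (fun γ => |F γ|) = fun γ => ∑ j, c j * (sgB (b γ) * u j γ) := by
      funext γ
      rw [← hbF]
      simp only [hF]
      rw [Finset.mul_sum]
      refine Finset.sum_congr rfl fun j _ => ?_
      ring
    rw [h1, gavg_sum]
    refine Finset.sum_congr rfl fun j _ => ?_
    rw [gavg_const_mul]
  have habs_le : RR (fun p => |F (σ p)|) x ≤ gavg (fun γ => |F γ|) * L + C3 * ∑ j, |c j| := by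
    rw [habs, hgabs, Finset.sum_mul, Finset.mul_sum, ← Finset.sum_add_distrib]
    refine Finset.sum_le_sum fun j _ => ?_
    have h3 := hxm b j hbinv
    have h4 : c j * (RR (fun p => sgB (b (σ p)) * (fixCount (K j) (σ p) : ℝ)) x -
        gavg (fun γ => sgB (b γ) * u j γ) * L) ≤ |c j| * C3 := by
      refine (le_abs_self _).trans ?_
      rw [abs_mul]
      exact mul_le_mul_of_nonneg_left h3 (abs_nonneg _)
    nlinarith
  have hsqrt : gavg (fun γ => |F γ|) ≤
      Real.sqrt (∑ i, ∑ j, c i * c j * Nat.card (PrimeSpectrum (K i ⊗[ℚ] K j))) := by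
    refine (gavg_abs_le_sqrt F).trans (le_of_eq ?_)
    congr 1
    have h3 : (fun γ => F γ ^ 2) = fun γ => ∑ i, ∑ j, c i * c j * (u i γ * u j γ) := by
      funext γ
      simp only [hF]
      rw [pow_two, Finset.sum_mul_sum]
      refine Finset.sum_congr rfl fun i _ => Finset.sum_congr rfl fun j _ => ?_
      ring
    rw [h3, gavg_sum]
    refine Finset.sum_congr rfl fun i _ => ?_
    rw [gavg_sum]
    refine Finset.sum_congr rfl fun j _ => ?_
    rw [gavg_const_mul, hgram]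
  set G := Real.sqrt (∑ i, ∑ j, c i * c j * Nat.card (PrimeSpectrum (K i ⊗[ℚ] K j))) with hG
  have h5 : |∑ j, c j * R j| ≤ D * (G * L + C3 * ∑ j, |c j|) := by
    have h6 : RR (fun p => |F (σ p)|) x ≤ G * L + C3 * ∑ j, |c j| := by
      refine habs_le.trans ?_
      have := mul_le_mul_of_nonneg_right hsqrt hxpos
      linarith
    have h7 := mul_le_mul_of_nonneg_left h6 hD0
    rw [abs_le]
    constructor <;> linarith
  have h8 : |∑ j, c j * d j - ∑ j, c j * R j| ≤ C2s * ∑ j, |c j| := by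
    rw [← Finset.sum_sub_distrib]
    refine (Finset.abs_sum_le_sum_abs _ _).trans ?_
    rw [Finset.mul_sum]
    refine Finset.sum_le_sum fun j _ => ?_
    rw [← mul_sub, abs_mul, mul_comm]
    exact mul_le_mul_of_nonneg_right ((hx2' j).trans (hC2le j)) (abs_nonneg _)
  have h9 : ∑ j, c j * d j = (∑ j, c j * d j - ∑ j, c j * R j) + ∑ j, c j * R j := by ring
  show |∑ j, c j * d j| ≤ D * G * L + (C2s + D * C3) * ∑ j, |c j|
  rw [h9]
  refine (abs_add_le _ _).trans ?_
  calc _ ≤ C2s * ∑ j, |c j| + D * (G * L + C3 * ∑ j, |c j|) := add_le_add h8 h5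
    _ = D * G * L + (C2s + D * C3) * ∑ j, |c j| := by ring

end

end TatePole
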