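import Mathlib
import Pool.Agent.Lib.MP_058a58_ag.Gram2

open Filter Topology Polynomial Set NumberField
open scoped TensorProduct

namespace TatePole

section
variable {ℓ : ℕ} [Fact ℓ.Prime] {W : Type*} [AddCommGroup W] [Module ℚ_[ℓ] W]
    [FiniteDimensional ℚ_[ℓ] W] {ρ : Representation ℚ_[ℓ] GQ W} {ι : ℚ_[ℓ] →+* ℂ}

theorem gram_bound {S : Finset ℕ} {P : ℕ → ℂ[X]}
    (hgood : ∀ p : ℕ, p.Prime → p ∉ S → IsPureLocalFactor ρ ι p (P p))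
    (B : Submodule ℚ_[ℓ] W) (hB : ∀ g : GQ, ∀ w ∈ B, ρ g w ∈ B)
    (F : Finset QBar) (hF : ∀ g : GQ, (∀ x ∈ F, g x = x) → ∀ w ∈ B, ρ g w = w)
    (hrat : ∀ g : GQ, ∃ r : ℚ, LinearMap.trace ℚ_[ℓ] B ((ρ g).restrict (hB g)) = (r : ℚ_[ℓ]))
    {J : Type*} [Fintype J] (K : J → Type) [∀ j, Field (K j)] [∀ j, NumberField (K j)]
    (S' : J → Finset ℕ) (P' : J → ℕ → ℂ[X])
    (hgood' : ∀ j, ∀ p : ℕ, p.Prime → p ∉ S' j → IsPureLocalFactor (indRep ρ (K j)) ι p (P' j p))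
    (hbad' : ∀ j, ∀ p ∈ S' j, p.Prime → (P' j p).eval ((p : ℂ)⁻¹) ≠ 0) (m : ℕ) :
    ∃ C : ℝ, ∀ᶠ s : ℝ in 𝓝[>] ((m : ℝ) + 1), ∀ c : J → ℝ,
      |∑ j, c j * (Real.log ‖LFun (P' j) m s‖ -
          (cycleRank ρ B (K j) : ℝ) * Real.log (1 / (s - (m + 1))))| ≤
      ((Module.finrank ℚ_[ℓ] W : ℝ) - Module.finrank ℚ_[ℓ] B) *
        Real.sqrt (∑ i, ∑ j, c i * c j * Nat.card (PrimeSpectrum (K i ⊗[ℚ] K j))) *
        Real.log (1 / (s - (m + 1))) + C * ∑ j, |c j| := by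
  obtain ⟨q, hq⟩ := exists_q B hB hrat
  obtain ⟨M, hMfin, hMfix⟩ := exists_field_of_finset F
  obtain ⟨C, hC⟩ := gram_core hgood B hB M (fun g hg => hF g (hMfix g hg)) q hq K S' P'
    hgood' hbad'
  refine ⟨C, ?_⟩
  have hshift : Tendsto (fun s : ℝ => s - m) (𝓝[>] ((m : ℝ) + 1)) (𝓝[>] (1 : ℝ)) :=
    (tendsto_shift m (fun x : ℝ => x)).mpr tendsto_id
  filter_upwards [hshift.eventually hC] with s hs c
  have h5 : s - m - 1 = s - (m + 1) := by ring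
  have h6 : ∀ j, Real.log ‖LFun (P' j) m s‖ =
      Real.log ‖ZZ (P' j) (fun _ => 1) (s - m)‖ := by
    intro j
    have h2 := LFun_eq_ZZ (P' j) m (s - m)
    rw [show ((m : ℝ) + (s - m) : ℝ) = s by ring] at h2
    rw [h2]
  have h7 := hs c
  rw [h5] at h7
  simp only [h6]
  exact h7

end

end TatePole
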