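import Mathlib
import Pool.Agent.Lib.MP_058a58_ag.Gram2

open Filter Topology Polynomial Set Complex ComplexConjugate NumberField

namespace TatePole

/-- convergence as `x → 1⁺` -/
def Cv (h : ℝ → ℝ) : Prop := ∃ l : ℝ, Tendsto h (𝓝[>] (1:ℝ)) (𝓝 l)

lemma Cv.add {h k : ℝ → ℝ} (hh : Cv h) (hk : Cv k) : Cv (fun x => h x + k x) := by
  obtain ⟨l, hl⟩ := hh
  obtain ⟨l', hl'⟩ := hk
  exact ⟨l + l', hl.add hl'⟩

lemma Cv.sub {h k : ℝ → ℝ} (hh : Cv h) (hk : Cv k) : Cv (fun x => h x - k x) := by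
  obtain ⟨l, hl⟩ := hh
  obtain ⟨l', hl'⟩ := hk
  exact ⟨l - l', hl.sub hl'⟩

lemma Cv.const_mul {h : ℝ → ℝ} (hh : Cv h) (a : ℝ) : Cv (fun x => a * h x) := by
  obtain ⟨l, hl⟩ := hh
  exact ⟨a * l, hl.const_mul a⟩

lemma Cv.congr {h k : ℝ → ℝ} (hh : Cv h) (e : ∀ x, 1 < x → k x = h x) : Cv k := by
  obtain ⟨l, hl⟩ := hh
  refine ⟨l, hl.congr' ?_⟩
  filter_upwards [self_mem_nhdsWithin] with x hx
  exact (e x hx).symm

lemma Cv.sum {ι : Type*} (s : Finset ι) {h : ι → ℝ → ℝ} (hh : ∀ i ∈ s, Cv (h i)) :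
    Cv (fun x => ∑ i ∈ s, h i x) := by
  classical
  choose! l hl using hh
  exact ⟨∑ i ∈ s, l i, tendsto_finsetSum s fun i hi => hl i hi⟩

/-- uniform smallness of finitely many increments -/
lemma Cv.incr {ι : Type*} [Finite ι] {h : ι → ℝ → ℝ} (hh : ∀ i, Cv (h i)) {ε : ℝ} (hε : 0 < ε) :
    ∃ δ : ℝ, 0 < δ ∧ ∀ i, ∀ x x' : ℝ, 1 < x → x < 1 + δ → 1 < x' → x' < 1 + δ →
      |h i x - h i x'| ≤ ε := by
  choose l hl using hh
  have h1 : ∀ᶠ x in 𝓝[>] (1:ℝ), ∀ i, |h i x - l i| < ε / 2 := by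
    refine Filter.eventually_all.mpr fun i => ?_
    have := (Metric.tendsto_nhds.mp (hl i)) (ε / 2) (by linarith)
    simpa [Real.dist_eq] using this
  obtain ⟨u, hu, hu'⟩ := (mem_nhdsGT_iff_exists_Ioo_subset).mp h1
  simp only [mem_Ioi] at hu
  refine ⟨u - 1, by linarith, fun i x x' hx hx1 hx' hx1' => ?_⟩
  have a := hu' (show x ∈ Ioo 1 u from ⟨hx, by linarith⟩) i
  have b := hu' (show x' ∈ Ioo 1 u from ⟨hx', by linarith⟩) i
  have h2 : h i x - h i x' = (h i x - l i) - (h i x' - l i) := by ring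
  rw [h2]
  refine (abs_sub _ _).trans ?_
  linarith

/-- `g` has prime sum `c log (1/(x-1)) + l + o(1)`. -/
def HasLim (g : ℕ → ℝ) (c : ℝ) : Prop := Cv (fun x => RR g x - c * Real.log (1 / (x - 1)))

lemma HasLim.const_mul {g : ℕ → ℝ} {c : ℝ} (h : HasLim g c) (a : ℝ) :
    HasLim (fun p => a * g p) (a * c) := by
  refine Cv.congr (Cv.const_mul h a) fun x _ => ?_
  rw [RR_const_mul]; ring

lemma HasLim.add {g h : ℕ → ℝ} {c d : ℝ} (hg : HasLim g c) (hh : HasLim h d)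
    (bg : BddPrimes g) (bh : BddPrimes h) : HasLim (fun p => g p + h p) (c + d) := by
  obtain ⟨C, hC⟩ := bg
  obtain ⟨C', hC'⟩ := bh
  refine Cv.congr (Cv.add hg hh) fun x hx => ?_
  rw [RR_add hC hC' hx]; ring

lemma HasLim.congr {g h : ℕ → ℝ} {c : ℝ} (hg : HasLim g c) (e : ∀ p : ℕ, p.Prime → h p = g p) :
    HasLim h c := by
  refine Cv.congr hg fun x _ => ?_
  rw [RR_congr e]

lemma HasLim.sum {ι : Type*} (s : Finset ι) {g : ι → ℕ → ℝ} {c : ι → ℝ}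
    (h : ∀ i ∈ s, HasLim (g i) (c i)) (b : ∀ i ∈ s, BddPrimes (g i)) :
    HasLim (fun p => ∑ i ∈ s, g i p) (∑ i ∈ s, c i) := by
  classical
  choose! C hC using b
  refine Cv.congr (Cv.sum s h) fun x hx => ?_
  rw [RR_finset_sum s g C hC hx, Finset.sum_mul, ← Finset.sum_sub_distrib]

lemma HasLim.hasMean {g : ℕ → ℝ} {c : ℝ} (h : HasLim g c) : HasMean g c := by
  obtain ⟨l, hl⟩ := h
  refine ⟨|l| + 1, ?_⟩
  exact hl.abs.eventually_le_const (by linarith)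

/-- prime sums supported on a finite set converge -/
lemma cv_finite_support {g : ℕ → ℝ} (S : Finset ℕ) (hg : ∀ p : ℕ, p.Prime → p ∉ S → g p = 0) :
    Cv (RR g) := by
  classical
  have hfin : {p : Nat.Primes | (p : ℕ) ∈ S}.Finite :=
    (S.finite_toSet).preimage (fun _ _ _ _ h => Subtype.ext h)
  have h1 : ∀ x, RR g x = ∑ p ∈ hfin.toFinset, g p * (p : ℝ) ^ (-x) := by
    intro x
    unfold RR
    refine tsum_eq_sum fun p hp => ?_
    have : (p : ℕ) ∉ S := fun h => hp (hfin.mem_toFinset.mpr h)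
    rw [hg p p.2 this, zero_mul]
  have h2 : Continuous (fun x : ℝ => ∑ p ∈ hfin.toFinset, g p * (p : ℝ) ^ (-x)) := by
    refine continuous_finsetSum _ fun p _ => ?_
    refine continuous_const.mul ?_
    refine Continuous.rpow continuous_const continuous_neg fun x => Or.inl ?_
    have : ((p : ℕ) : ℝ) ≠ 0 := by exact_mod_cast p.2.ne_zero
    exact this
  refine ⟨_, ((h2.tendsto 1).mono_left nhdsWithin_le_nhds).congr fun x => (h1 x).symm⟩

lemma HasLim.congr_finite {g h : ℕ → ℝ} {c : ℝ} (hg : HasLim g c)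
    (S : Finset ℕ) (hS : ∀ p : ℕ, p.Prime → p ∉ S → h p = g p)
    (bg : BddPrimes g) (bh : BddPrimes h) : HasLim h c := by
  obtain ⟨C, hC⟩ := bg
  obtain ⟨C', hC'⟩ := bh
  have hdb : ∀ p : ℕ, p.Prime → |h p - g p| ≤ C' + C := fun p hp =>
    (abs_sub _ _).trans (add_le_add (hC' p hp) (hC p hp))
  have h1 := cv_finite_support (g := fun p => h p - g p) S
    (fun p hp hpS => by rw [hS p hp hpS, sub_self])
  refine Cv.congr (Cv.add hg h1) fun x hx => ?_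
  have h2 : RR h x = RR g x + RR (fun p => h p - g p) x := by
    rw [← RR_add hC hdb hx]
    refine RR_congr (fun p _ => ?_) x
    ring
  rw [h2]; ring

/-- increments of prime sums -/
lemma RR_incr_le {g G : ℕ → ℝ} {C D : ℝ} (hg : ∀ p : ℕ, p.Prime → |g p| ≤ C)
    (hG : ∀ p : ℕ, p.Prime → |G p| ≤ D) (hgG : ∀ p : ℕ, p.Prime → |g p| ≤ G p) {x x' : ℝ}
    (hx : 1 < x) (hxx' : x ≤ x') : |RR g x - RR g x'| ≤ RR G x - RR G x' := by
  have hx' : 1 < x' := lt_of_lt_of_le hx hxx'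
  have key : ∀ h : ℕ → ℝ, ∀ E : ℝ, (∀ p : ℕ, p.Prime → |h p| ≤ E) → RR h x - RR h x' =
      ∑' p : Nat.Primes, h p * ((p : ℝ) ^ (-x) - (p : ℝ) ^ (-x')) := by
    intro h E hh
    unfold RR
    rw [← (summable_RR hh hx).tsum_sub (summable_RR hh hx')]
    exact tsum_congr fun p => by ring
  have hw : ∀ p : Nat.Primes, 0 ≤ (p : ℝ) ^ (-x) - (p : ℝ) ^ (-x') := by
    intro p
    rw [sub_nonneg]
    apply Real.rpow_le_rpow_of_exponent_le
    · exact_mod_cast p.2.one_lt.le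
    · linarith
  have hs : ∀ h : ℕ → ℝ, ∀ E : ℝ, (∀ p : ℕ, p.Prime → |h p| ≤ E) →
      Summable fun p : Nat.Primes => h p * ((p : ℝ) ^ (-x) - (p : ℝ) ^ (-x')) := by
    intro h E hh
    refine ((summable_RR hh hx).sub (summable_RR hh hx')).congr fun p => by ring
  rw [key g C hg, key G D hG, abs_le, ← tsum_neg]
  constructor
  · refine Summable.tsum_le_tsum (fun p => ?_) (hs G D hG).neg (hs g C hg)
    rw [← neg_mul]
    exact mul_le_mul_of_nonneg_right (by linarith [(abs_le.mp (hgG p p.2)).1]) (hw p)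
  · refine Summable.tsum_le_tsum (fun p => ?_) (hs g C hg) (hs G D hG)
    exact mul_le_mul_of_nonneg_right ((le_abs_self _).trans (hgG p p.2)) (hw p)

lemma primeSum_eq_RR (x : ℝ) : RR (fun _ => (1:ℝ)) x = primeSum (x - 1) := by
  unfold RR primeSum
  refine tsum_congr fun p => ?_
  rw [one_mul]
  congr 1
  ring

lemma hasLim_one : HasLim (fun _ => (1:ℝ)) 1 := by
  have hshift' : Tendsto (fun x : ℝ => x - 1) (𝓝[>] 1) (𝓝[>] (0:ℝ)) := by
    rw [tendsto_nhdsWithin_iff]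
    refine ⟨?_, ?_⟩
    · have h3 : Continuous (fun x : ℝ => x - 1) := by fun_prop
      have h4 := (h3.tendsto 1).mono_left (nhdsWithin_le_nhds (s := Ioi (1:ℝ)))
      simpa using h4
    · filter_upwards [self_mem_nhdsWithin] with x hx
      simp only [mem_Ioi] at hx ⊢
      linarith
  refine ⟨mertC, (primeSum_tendsto.comp hshift').congr fun x => ?_⟩
  simp only [Function.comp]
  rw [primeSum_eq_RR, one_mul, one_div, Real.log_inv, sub_neg_eq_add]

section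
variable {b : ℕ} {P : ℕ → ℂ[X]} {S : Finset ℕ} {α : ℕ → Fin b → ℂ} {u : ℕ → ℂ}

lemma cv_log_norm_ZZ (hα : ∀ p : ℕ, p.Prime → p ∉ S → ∀ j, ‖α p j‖ ≤ 1)
    (hP : ∀ p : ℕ, p.Prime → p ∉ S → ∀ x, (P p).eval x = ∏ j, (1 - α p j * x))
    (hu : ∀ p : ℕ, p.Prime → ‖u p‖ ≤ 1)
    (hbad : ∀ p ∈ S, p.Prime → (P p).eval (u p * pw p 1) ≠ 0) :
    Cv (fun x => Real.log ‖ZZ P u x‖ - (FF (coefA S α u) x).re) := by
  have hE0 := EE_ne_zero hbad
  have hEt := continuousAt_EE hbad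
  have hlog : Tendsto (fun x : ℝ => Real.log ‖EE P S u x‖) (𝓝[>] 1) (𝓝 (Real.log ‖EE P S u 1‖)) :=
    ((Real.continuousAt_log (norm_ne_zero_iff.mpr hE0)).tendsto).comp hEt.norm
  have hGc := continuousOn_GG (S := S) hα hu
  have hG : Tendsto (fun x : ℝ => (GG S α u x).re) (𝓝[>] 1) (𝓝 (GG S α u 1).re) := by
    have h1 : ContinuousWithinAt (GG S α u) (Ici 1) 1 := hGc 1 (by simp)
    have h2 : Tendsto (GG S α u) (𝓝[>] 1) (𝓝 (GG S α u 1)) :=
      h1.mono_left (nhdsWithin_mono _ Ioi_subset_Ici_self)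
    exact (Complex.continuous_re.tendsto _).comp h2
  refine ⟨_, (hlog.add hG).congr' ?_⟩
  filter_upwards [self_mem_nhdsWithin, hEt.eventually_ne hE0] with x hx1 hxE
  simp only [mem_Ioi] at hx1
  rw [ZZ_eq hα hP hu hx1, norm_mul, Real.log_mul (norm_ne_zero_iff.mpr hxE)
    (norm_ne_zero_iff.mpr (Complex.exp_ne_zero _)), Complex.norm_exp, Real.log_exp, Complex.add_re]
  ring

/-- comparison of `log |L|` with the prime sums of a decomposition `a_p = A p + R0 p`. -/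
lemma cv_log_ZZ_split (hβ : ∀ p : ℕ, p.Prime → p ∉ S → ∀ j, ‖α p j‖ ≤ 1)
    (hQ : ∀ p : ℕ, p.Prime → p ∉ S → ∀ x, (P p).eval x = ∏ j, (1 - α p j * x))
    {v : ℕ → ℂ} (hv : ∀ p : ℕ, p.Prime → ‖v p‖ ≤ 1)
    (hbad : ∀ p ∈ S, p.Prime → (P p).eval (v p * pw p 1) ≠ 0)
    {A R0 : ℕ → ℂ} {K1 K2 : ℝ} (hA : ∀ p : ℕ, p.Prime → ‖A p‖ ≤ K1)
    (hR0 : ∀ p : ℕ, p.Prime → ‖R0 p‖ ≤ K2)
    (hsplit : ∀ p : ℕ, p.Prime → p ∉ S → (∑ j, α p j) * v p = A p + R0 p) :
    Cv (fun x => Real.log ‖ZZ P v x‖ - (RR (fun p => (A p).re) x + RR (fun p => (R0 p).re) x)) := by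
  have h0 := cv_log_norm_ZZ hβ hQ hv hbad
  have hK1 : 0 ≤ K1 := (norm_nonneg _).trans (hA 2 Nat.prime_two)
  have hK2 : 0 ≤ K2 := (norm_nonneg _).trans (hR0 2 Nat.prime_two)
  set g3 : ℕ → ℝ := fun p => if p ∈ S then -((A p).re + (R0 p).re) else 0 with hg3
  have hAre : ∀ p : ℕ, p.Prime → |(A p).re| ≤ K1 := fun p hp =>
    (Complex.abs_re_le_norm _).trans (hA p hp)
  have hRre : ∀ p : ℕ, p.Prime → |(R0 p).re| ≤ K2 := fun p hp =>
    (Complex.abs_re_le_norm _).trans (hR0 p hp)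
  have h3 := cv_finite_support (g := g3) S (fun p _ h => by simp only [hg3]; rw [if_neg h])
  have hb3 : ∀ p : ℕ, p.Prime → |g3 p| ≤ K1 + K2 := by
    intro p hp
    simp only [hg3]
    split_ifs
    · rw [abs_neg]
      exact (abs_add_le _ _).trans (add_le_add (hAre p hp) (hRre p hp))
    · simp; positivity
  have hb12 : ∀ p : ℕ, p.Prime → |(A p).re + (R0 p).re| ≤ K1 + K2 := fun p hp =>
    (abs_add_le _ _).trans (add_le_add (hAre p hp) (hRre p hp))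
  refine Cv.congr (Cv.add h0 h3) fun x hx1 => ?_
  have hcA := norm_coefA_le (S := S) hβ hv
  have hsum : RR (fun p => (coefA S α v p).re) x =
      RR (fun p => ((A p).re + (R0 p).re) + g3 p) x := by
    refine RR_congr (fun p hp => ?_) x
    simp only [hg3, coefA]
    split_ifs with h
    · simp
    · rw [hsplit p hp h, Complex.add_re]
      ring
  rw [FF_re_eq hcA hx1, hsum, RR_add hb12 hb3 hx1, RR_add hAre hRre hx1]
  ring

end

end TatePole
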