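import Mathlib
import Pool.Agent.Lib.MP_058a58_ag.Conv
import Pool.Agent.Lib.MP_058a58_ag.Defect3

open Filter Topology Polynomial Set Complex ComplexConjugate

namespace TatePole

/-- the twisted prime sums converge near `1` for a nontrivial twist. -/
lemma cv_charSum {N : ℕ} [NeZero N] (χ : DirichletCharacter ℂ N) (t : ℝ)
    (h : χ ≠ 1 ∨ t ≠ 0) : Cv (RR (fun p => (tw χ t p).re)) := by
  have h1 : ((1 : ℂ) + t * I ≠ 1) ∨ χ ≠ 1 := by
    rcases h with h | h
    · exact Or.inr h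
    · left
      intro h2
      have := congrArg Complex.im h2
      simp at this
      exact h this
  have hdiff := DirichletCharacter.differentiableAt_LFunction χ ((1 : ℂ) + t * I) h1
  have hne : DirichletCharacter.LFunction χ ((1 : ℂ) + t * I) ≠ 0 := by
    refine DirichletCharacter.LFunction_ne_zero_of_one_le_re χ h1.symm ?_
    simp
  have hcont : Tendsto (fun x : ℝ => (x : ℂ) + t * I) (𝓝[>] 1) (𝓝 ((1 : ℂ) + t * I)) := by
    have : Continuous (fun x : ℝ => (x : ℂ) + t * I) := by fun_prop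
    have h2 := (this.tendsto 1).mono_left (nhdsWithin_le_nhds (s := Ioi (1:ℝ)))
    simpa using h2
  have hlim := (hdiff.continuousAt.tendsto.comp hcont).norm
  have hlog := ((Real.continuousAt_log (norm_ne_zero_iff.mpr hne)).tendsto).comp hlim
  have hGc := continuousOn_GG (S := ∅) (α := α1) norm_α1 (norm_tw_le χ t)
  have hG : Tendsto (fun x : ℝ => (GG ∅ α1 (tw χ t) x).re) (𝓝[>] 1)
      (𝓝 (GG ∅ α1 (tw χ t) 1).re) := by
    have h1 : ContinuousWithinAt (GG ∅ α1 (tw χ t)) (Ici 1) 1 := hGc 1 (by simp)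
    have h2 : Tendsto (GG ∅ α1 (tw χ t)) (𝓝[>] 1) (𝓝 (GG ∅ α1 (tw χ t) 1)) :=
      h1.mono_left (nhdsWithin_mono _ Ioi_subset_Ici_self)
    exact (Complex.continuous_re.tendsto _).comp h2
  refine ⟨_, (hlog.sub hG).congr' ?_⟩
  filter_upwards [self_mem_nhdsWithin] with x hx1
  simp only [mem_Ioi] at hx1
  have hre : 1 < ((x : ℂ) + t * I).re := by simpa using hx1
  simp only [Function.comp]
  rw [← charSum_re_RR χ t hx1, re_charSum χ t hx1, DirichletCharacter.LFunction_eq_LSeries χ hre]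

lemma tw_trivial_lim {N : ℕ} [NeZero N] :
    HasLim (fun p => (tw (1 : DirichletCharacter ℂ N) 0 p).re) 1 := by
  refine hasLim_one.congr_finite N.primeFactors (fun p hp hpN => ?_) bdd_one ?_
  · have hcop : p ∈ N.primeFactors ↔ ¬ IsUnit (p : ZMod N) := by
      rw [ZMod.isUnit_prime_iff_not_dvd hp, not_not, Nat.mem_primeFactors]
      constructor
      · intro h; exact h.2.1
      · intro h; exact ⟨hp, h, NeZero.ne N⟩
    unfold tw
    rw [hcop, not_not] at hpN
    rw [MulChar.one_apply hpN]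
    simp
  · exact ⟨1, fun p hp => (Complex.abs_re_le_norm _).trans (norm_tw_le _ _ p hp)⟩

/-- The twisted prime sums of `∑_χ r_χ conj(χ(p))`. -/
lemma mult_lim {N : ℕ} [NeZero N] (mult : DirichletCharacter ℂ N → ℝ)
    (ψ : DirichletCharacter ℂ N) (t : ℝ) :
    HasLim (fun p => ((∑ χ, (mult χ : ℂ) * conj (χ (p : ZMod N))) * tw ψ t p).re)
      (if t = 0 then mult ψ else 0) := by
  classical
  have key : ∀ χ : DirichletCharacter ℂ N, HasLim (fun p => (tw (χ⁻¹ * ψ) t p).re)
      (if χ = ψ ∧ t = 0 then 1 else 0) := by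
    intro χ
    by_cases h : χ = ψ ∧ t = 0
    · obtain ⟨h1, h2⟩ := h
      subst h1; subst h2
      rw [if_pos ⟨rfl, rfl⟩, inv_mul_cancel]
      exact tw_trivial_lim
    · have h' : (χ⁻¹ * ψ ≠ 1) ∨ t ≠ 0 := by
        by_contra h0
        push Not at h0
        exact h ⟨inv_mul_eq_one.mp h0.1, h0.2⟩
      rw [if_neg h]
      refine Cv.congr (cv_charSum (χ⁻¹ * ψ) t h') fun x _ => ?_
      rw [zero_mul, sub_zero]
  have h1 := HasLim.sum (Finset.univ : Finset (DirichletCharacter ℂ N))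
    (fun χ _ => (key χ).const_mul (mult χ)) (fun χ _ => by
      refine ⟨|mult χ|, fun p hp => ?_⟩
      rw [abs_mul]
      calc |mult χ| * |(tw (χ⁻¹ * ψ) t p).re| ≤ |mult χ| * 1 := by
            refine mul_le_mul_of_nonneg_left ?_ (abs_nonneg _)
            exact (Complex.abs_re_le_norm _).trans (norm_tw_le _ _ p hp)
        _ = |mult χ| := mul_one _)
  have h3 : (if t = 0 then mult ψ else 0) =
      ∑ χ, mult χ * (if χ = ψ ∧ t = 0 then 1 else 0) := by
    by_cases ht : t = 0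
    · simp [ht]
    · simp [ht]
  rw [h3]
  refine h1.congr fun p hp => ?_
  rw [Finset.sum_mul, Complex.re_sum]
  refine Finset.sum_congr rfl fun χ _ => ?_
  rw [mul_assoc, tw_zero_conj_mul χ ψ t hp, Complex.re_ofReal_mul]

/-- Bessel's inequality for increments. -/
theorem bessel_incr {ι : Type*} (F : Finset ι) (e : ι → ℕ → ℂ)
    (he : ∀ i ∈ F, ∀ p : ℕ, p.Prime → ‖e i p‖ ≤ 1) (A : ℕ → ℂ) (D : ℝ)
    (hD : ∀ p : ℕ, p.Prime → ‖A p‖ ≤ D) {x x' η : ℝ} (hx : 1 < x) (hxx' : x ≤ x') (hη : 0 ≤ η)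
    (horth : ∀ i ∈ F, ∀ j ∈ F, i ≠ j →
      |RR (fun p => (e i p * conj (e j p)).re) x - RR (fun p => (e i p * conj (e j p)).re) x'| ≤ η) :
    ∑ i ∈ F, (RR (fun p => (A p * conj (e i p)).re) x -
      RR (fun p => (A p * conj (e i p)).re) x') ^ 2 ≤
      (D * ((RR (fun _ => (1:ℝ)) x - RR (fun _ => (1:ℝ)) x') + F.card * η / 2)) ^ 2 := by
  classical
  have hx' : 1 < x' := lt_of_lt_of_le hx hxx'
  have hD0 : 0 ≤ D := (norm_nonneg _).trans (hD 2 Nat.prime_two)
  set ΔΛ := RR (fun _ => (1:ℝ)) x - RR (fun _ => (1:ℝ)) x' with hΔ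
  have hone : ∀ p : ℕ, p.Prime → |(1:ℝ)| ≤ 1 := fun p _ => by simp
  have hΔ0 : 0 ≤ ΔΛ := by
    have := RR_incr_le (g := fun _ => (0:ℝ)) (G := fun _ => (1:ℝ)) (C := 0) (D := 1)
      (fun p _ => by simp) (fun p _ => by simp) (fun p _ => by simp) hx hxx'
    exact (abs_nonneg _).trans this
  set v : ι → ℝ := fun i => RR (fun p => (A p * conj (e i p)).re) x -
      RR (fun p => (A p * conj (e i p)).re) x' with hv
  set T := ∑ i ∈ F, v i ^ 2 with hT
  show T ≤ _
  have hT0 : 0 ≤ T := Finset.sum_nonneg fun i _ => sq_nonneg _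
  rcases hT0.eq_or_lt with h0 | hTpos
  · rw [← h0]; exact sq_nonneg _
  set N := Real.sqrt T with hN
  have hNpos : 0 < N := Real.sqrt_pos.mpr hTpos
  have hNN : N * N = T := Real.mul_self_sqrt hT0
  set E : ℕ → ℂ := fun p => ∑ i ∈ F, (v i : ℂ) * e i p with hE
  have hAe : ∀ i ∈ F, ∀ p : ℕ, p.Prime → |(A p * conj (e i p)).re| ≤ D := by
    intro i hi p hp
    refine (Complex.abs_re_le_norm _).trans ?_
    rw [norm_mul, RCLike.norm_conj]
    calc ‖A p‖ * ‖e i p‖ ≤ D * 1 := mul_le_mul (hD p hp) (he i hi p hp) (norm_nonneg _) hD0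
      _ = D := mul_one D
  -- T as an increment
  have hTinc : ∀ y : ℝ, 1 < y → RR (fun p => (A p * conj (E p)).re) y =
      ∑ i ∈ F, v i * RR (fun p => (A p * conj (e i p)).re) y := by
    intro y hy
    have h1 : ∀ i ∈ F, ∀ p : ℕ, p.Prime → |v i * (A p * conj (e i p)).re| ≤ |v i| * D := by
      intro i hi p hp
      rw [abs_mul]
      exact mul_le_mul_of_nonneg_left (hAe i hi p hp) (abs_nonneg _)
    have h2 := RR_finset_sum F (fun i p => v i * (A p * conj (e i p)).re) (fun i => |v i| * D) h1 hy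
    have h3 : ∀ i ∈ F, RR (fun p => v i * (A p * conj (e i p)).re) y =
        v i * RR (fun p => (A p * conj (e i p)).re) y := fun i _ => RR_const_mul _ _ y
    rw [← Finset.sum_congr rfl h3, ← h2]
    refine RR_congr (fun p _ => ?_) y
    simp only [hE]
    rw [map_sum, Finset.mul_sum, Complex.re_sum]
    refine Finset.sum_congr rfl fun i _ => ?_
    rw [map_mul, Complex.conj_ofReal, mul_left_comm, Complex.re_ofReal_mul]
  have hEsq : ∀ p, ‖E p‖ ^ 2 = ∑ i ∈ F, ∑ j ∈ F, v i * v j * (e i p * conj (e j p)).re := by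
    intro p
    have h := normSq_expand F 0 (fun i => e i p) v
    rw [zero_sub, norm_neg] at h
    simp only [hE]
    rw [h]
    simp
  set V : ℝ := ∑ i ∈ F, |v i| with hV
  have hV0 : 0 ≤ V := Finset.sum_nonneg fun i _ => abs_nonneg _
  have hEle : ∀ p : ℕ, p.Prime → ‖E p‖ ≤ V := by
    intro p hp
    simp only [hE]
    refine (norm_sum_le _ _).trans (Finset.sum_le_sum fun i hi => ?_)
    rw [norm_mul, Complex.norm_real, Real.norm_eq_abs]
    calc |v i| * ‖e i p‖ ≤ |v i| * 1 := mul_le_mul_of_nonneg_left (he i hi p hp) (abs_nonneg _)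
      _ = |v i| := mul_one _
  have hg1 : ∀ p : ℕ, p.Prime → |(A p * conj (E p)).re| ≤ D * ‖E p‖ := by
    intro p hp
    refine (Complex.abs_re_le_norm _).trans ?_
    rw [norm_mul, RCLike.norm_conj]
    exact mul_le_mul_of_nonneg_right (hD p hp) (norm_nonneg _)
  set a : ℝ := D / (2 * N) with ha
  set b : ℝ := D * N / 2 with hb
  have ha0 : 0 ≤ a := by positivity
  have hb0 : 0 ≤ b := by positivity
  have hg2 : ∀ p : ℕ, p.Prime → |(A p * conj (E p)).re| ≤ a * ‖E p‖ ^ 2 + b * 1 := by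
    intro p hp
    refine (hg1 p hp).trans ?_
    rw [ha, hb]
    have h1 : 0 ≤ (‖E p‖ - N) ^ 2 := sq_nonneg _
    have h2 : D * ‖E p‖ ≤ D / (2 * N) * (‖E p‖ ^ 2 + N ^ 2) := by
      rw [div_mul_eq_mul_div, le_div_iff₀ (by positivity)]
      nlinarith
    have h3 : D / (2 * N) * (‖E p‖ ^ 2 + N ^ 2) = D / (2 * N) * ‖E p‖ ^ 2 + D * N / 2 * 1 := by
      field_simp
    linarith
  have hbd1 : ∀ p : ℕ, p.Prime → |(A p * conj (E p)).re| ≤ D * V := fun p hp =>
    (hg1 p hp).trans (mul_le_mul_of_nonneg_left (hEle p hp) hD0)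
  have hbd2 : ∀ p : ℕ, p.Prime → abs (a * ‖E p‖ ^ 2) ≤ a * V ^ 2 := by
    intro p hp
    rw [abs_of_nonneg (by positivity)]
    have := hEle p hp
    gcongr
  have hbd3 : ∀ p : ℕ, p.Prime → abs (b * (1:ℝ)) ≤ b := by
    intro p _
    rw [mul_one, abs_of_nonneg hb0]
  have hbd4 : ∀ p : ℕ, p.Prime → abs (a * ‖E p‖ ^ 2 + b * 1) ≤ a * V ^ 2 + b := by
    intro p hp
    exact (abs_add_le _ _).trans (add_le_add (hbd2 p hp) (hbd3 p hp))
  have hmain := RR_incr_le hbd1 hbd4 hg2 hx hxx'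
  have hexp : ∀ y : ℝ, 1 < y → RR (fun p => a * ‖E p‖ ^ 2 + b * 1) y =
      a * RR (fun p => ‖E p‖ ^ 2) y + b * RR (fun _ => (1:ℝ)) y := by
    intro y hy
    rw [RR_add hbd2 hbd3 hy, RR_const_mul, RR_const_mul]
  have heb : ∀ i ∈ F, ∀ j ∈ F, ∀ p : ℕ, p.Prime → |(e i p * conj (e j p)).re| ≤ 1 := by
    intro i hi j hj p hp
    refine (Complex.abs_re_le_norm _).trans ?_
    rw [norm_mul, RCLike.norm_conj]
    exact mul_le_one₀ (he i hi p hp) (norm_nonneg _) (he j hj p hp)
  have hsq : ∀ y : ℝ, 1 < y → RR (fun p => ‖E p‖ ^ 2) y =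
      ∑ i ∈ F, ∑ j ∈ F, v i * v j * RR (fun p => (e i p * conj (e j p)).re) y := by
    intro y hy
    have h1 : ∀ i ∈ F, ∀ j ∈ F, ∀ p : ℕ, p.Prime →
        |v i * v j * (e i p * conj (e j p)).re| ≤ |v i| * |v j| := by
      intro i hi j hj p hp
      rw [abs_mul, abs_mul]
      calc |v i| * |v j| * |(e i p * conj (e j p)).re| ≤ |v i| * |v j| * 1 :=
            mul_le_mul_of_nonneg_left (heb i hi j hj p hp) (by positivity)
        _ = _ := mul_one _
    have h1' : ∀ i ∈ F, ∀ p : ℕ, p.Prime →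
        |∑ j ∈ F, v i * v j * (e i p * conj (e j p)).re| ≤ ∑ j ∈ F, |v i| * |v j| := by
      intro i hi p hp
      exact (Finset.abs_sum_le_sum_abs _ _).trans (Finset.sum_le_sum fun j hj => h1 i hi j hj p hp)
    rw [RR_congr (fun p _ => hEsq p),
      RR_finset_sum F (fun i p => ∑ j ∈ F, v i * v j * (e i p * conj (e j p)).re)
        (fun i => ∑ j ∈ F, |v i| * |v j|) h1' hy]
    refine Finset.sum_congr rfl fun i hi => ?_
    rw [RR_finset_sum F (fun j p => v i * v j * (e i p * conj (e j p)).re)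
      (fun j => |v i| * |v j|) (h1 i hi) hy]
    exact Finset.sum_congr rfl fun j _ => RR_const_mul _ _ y
  have hsqinc : RR (fun p => ‖E p‖ ^ 2) x - RR (fun p => ‖E p‖ ^ 2) x' ≤
      T * ΔΛ + η * (F.card * T) := by
    rw [hsq x hx, hsq x' hx', ← Finset.sum_sub_distrib]
    have h1 : ∀ i ∈ F, (∑ j ∈ F, v i * v j * RR (fun p => (e i p * conj (e j p)).re) x -
        ∑ j ∈ F, v i * v j * RR (fun p => (e i p * conj (e j p)).re) x') ≤
        v i ^ 2 * ΔΛ + η * (|v i| * V) := by
      intro i hi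
      rw [← Finset.sum_sub_distrib]
      have h2 : ∀ j ∈ F, v i * v j * RR (fun p => (e i p * conj (e j p)).re) x -
          v i * v j * RR (fun p => (e i p * conj (e j p)).re) x' ≤
          (if j = i then v i ^ 2 * ΔΛ else 0) + η * (|v i| * |v j|) := by
        intro j hj
        rw [← mul_sub]
        by_cases hij : j = i
        · subst hij
          rw [if_pos rfl]
          have h3 := RR_incr_le (heb j hj j hj) hone (fun p hp => heb j hj j hj p hp) hx hxx'
          have h4 := (le_abs_self _).trans h3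
          have h5 : 0 ≤ η * (|v j| * |v j|) := by positivity
          have h6 : v j * v j * (RR (fun p => (e j p * conj (e j p)).re) x -
              RR (fun p => (e j p * conj (e j p)).re) x') ≤ v j * v j * ΔΛ :=
            mul_le_mul_of_nonneg_left h4 (mul_self_nonneg _)
          have h7 : v j * v j = v j ^ 2 := (pow_two _).symm
          rw [h7] at h6 ⊢
          linarith
        · rw [if_neg hij, zero_add]
          have h3 := horth i hi j hj (Ne.symm hij)
          refine (le_abs_self _).trans ?_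
          rw [abs_mul, abs_mul, mul_comm η]
          exact mul_le_mul_of_nonneg_left h3 (by positivity)
      refine (Finset.sum_le_sum h2).trans (le_of_eq ?_)
      rw [Finset.sum_add_distrib, Finset.sum_ite_eq' F i, if_pos hi, ← Finset.mul_sum,
        ← Finset.mul_sum]
    refine (Finset.sum_le_sum h1).trans ?_
    rw [Finset.sum_add_distrib, ← Finset.sum_mul, ← Finset.mul_sum, ← Finset.sum_mul]
    have h8 : V * V ≤ F.card * T := by
      have := sq_sum_le_card_mul_sum_sq (s := F) (f := fun i => |v i|)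
      simp only [sq_abs] at this
      rw [← pow_two]
      exact this
    have h9 := mul_le_mul_of_nonneg_left h8 hη
    linarith
  have hTeq : T = RR (fun p => (A p * conj (E p)).re) x - RR (fun p => (A p * conj (E p)).re) x' := by
    rw [hTinc x hx, hTinc x' hx', ← Finset.sum_sub_distrib, hT]
    refine Finset.sum_congr rfl fun i _ => ?_
    rw [← mul_sub, pow_two]
  have h1 : T ≤ a * (T * ΔΛ + η * (F.card * T)) + b * ΔΛ := by
    have h2 := (le_abs_self _).trans hmain
    rw [← hTeq, hexp x hx, hexp x' hx'] at h2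
    have h3 := mul_le_mul_of_nonneg_left hsqinc ha0
    rw [hΔ] at h3 ⊢
    linarith
  have h2 : a * (T * ΔΛ + η * (F.card * T)) + b * ΔΛ =
      N * (D * (ΔΛ + F.card * η / 2)) := by
    rw [ha, hb, ← hNN]
    field_simp
    ring
  rw [h2, ← hNN] at h1
  have h3 : N ≤ D * (ΔΛ + F.card * η / 2) := le_of_mul_le_mul_left h1 hNpos
  rw [← hNN, ← pow_two]
  gcongr

end TatePole
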