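import Mathlib
import Pool.Agent.Lib.MP_058a58_ag.ConvAbel

open Filter Topology Polynomial Set Complex ComplexConjugate

namespace TatePole

section
variable {b : ℕ} {P : ℕ → ℂ[X]} {S : Finset ℕ} {α : ℕ → Fin b → ℂ}

theorem abelian_incr_core {N : ℕ} [NeZero N]
    (hα : ∀ p : ℕ, p.Prime → p ∉ S → ∀ j, ‖α p j‖ ≤ 1)
    (hP : ∀ p : ℕ, p.Prime → p ∉ S → ∀ x, (P p).eval x = ∏ j, (1 - α p j * x))
    (mult : DirichletCharacter ℂ N → ℝ) (D : ℝ)
    (hr : ∀ p : ℕ, p.Prime → p ∉ S →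
      ‖∑ j, α p j - ∑ χ, (mult χ : ℂ) * conj (χ (p : ZMod N))‖ ≤ D) (hD : 0 ≤ D)
    (Q : DirichletCharacter ℂ N → ℕ → ℂ[X])
    (hQ : ∀ χ, ∀ p : ℕ, p.Prime → p ∉ S → ∀ z, (Q χ p).eval z = (P p).eval (χ (p : ZMod N) * z))
    (hQbad : ∀ χ, ∀ p ∈ S, p.Prime → ∀ z : ℂ, ‖z‖ ≤ (p : ℝ)⁻¹ → (Q χ p).eval z ≠ 0)
    (F : Finset (DirichletCharacter ℂ N × ℝ)) {ε : ℝ} (hε : 0 < ε) :
    ∃ δ : ℝ, 0 < δ ∧ ∀ x x' : ℝ, 1 < x → x ≤ x' → x' < 1 + δ →
      ∑ f ∈ F, ((Real.log ‖ZZ (Q f.1) (vt f.2) x‖ -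
        (if f.2 = 0 then mult f.1 else 0) * Real.log (1 / (x - 1))) -
        (Real.log ‖ZZ (Q f.1) (vt f.2) x'‖ -
        (if f.2 = 0 then mult f.1 else 0) * Real.log (1 / (x' - 1)))) ^ 2 ≤
        (D * (Real.log (1 / (x - 1)) - Real.log (1 / (x' - 1))) + ε) ^ 2 := by
  classical
  set R0 : ℕ → ℂ := fun p => ∑ χ, (mult χ : ℂ) * conj (χ (p : ZMod N)) with hR0def
  set A : ℕ → ℂ := fun p => if p ∈ S then 0 else ∑ j, α p j - R0 p with hAdef
  have hA : ∀ p : ℕ, p.Prime → ‖A p‖ ≤ D := by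
    intro p hp
    simp only [hAdef]
    split_ifs with h
    · simpa using hD
    · exact hr p hp h
  have hR0 : ∀ p : ℕ, p.Prime → ‖R0 p‖ ≤ ∑ χ : DirichletCharacter ℂ N, |mult χ| := by
    intro p hp
    refine (norm_sum_le _ _).trans (Finset.sum_le_sum fun χ _ => ?_)
    rw [norm_mul, Complex.norm_real, Real.norm_eq_abs, RCLike.norm_conj]
    calc |mult χ| * ‖χ (p : ZMod N)‖ ≤ |mult χ| * 1 :=
          mul_le_mul_of_nonneg_left (χ.norm_le_one _) (abs_nonneg _)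
      _ = |mult χ| := mul_one _
  -- comparison
  have hcmp : ∀ f : DirichletCharacter ℂ N × ℝ,
      Cv (fun x => (Real.log ‖ZZ (Q f.1) (vt f.2) x‖ -
        (if f.2 = 0 then mult f.1 else 0) * Real.log (1 / (x - 1))) -
        RR (fun p => (A p * tw f.1 f.2 p).re) x) := by
    intro f
    have hβ : ∀ p : ℕ, p.Prime → p ∉ S → ∀ j, ‖α p j * f.1 (p : ZMod N)‖ ≤ 1 := by
      intro p hp hpS j
      rw [norm_mul]
      exact mul_le_one₀ (hα p hp hpS j) (norm_nonneg _) (f.1.norm_le_one _)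
    have hQ' : ∀ p : ℕ, p.Prime → p ∉ S → ∀ x, (Q f.1 p).eval x =
        ∏ j, (1 - α p j * f.1 (p : ZMod N) * x) := by
      intro p hp hpS x
      rw [hQ f.1 p hp hpS, hP p hp hpS]
      exact Finset.prod_congr rfl fun j _ => by ring
    have hbad' : ∀ p ∈ S, p.Prime → (Q f.1 p).eval (vt f.2 p * pw p 1) ≠ 0 := by
      intro p hpS hp
      refine hQbad f.1 p hpS hp _ ?_
      refine (norm_upw_le (norm_vt f.2 p hp) 1).trans ?_
      exact norm_pw_le_inv hp le_rfl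
    have hAtw : ∀ p : ℕ, p.Prime → ‖A p * tw f.1 f.2 p‖ ≤ D := by
      intro p hp
      rw [norm_mul]
      calc ‖A p‖ * ‖tw f.1 f.2 p‖ ≤ D * 1 :=
            mul_le_mul (hA p hp) (norm_tw_le _ _ p hp) (norm_nonneg _) hD
        _ = D := mul_one D
    have hRtw : ∀ p : ℕ, p.Prime → ‖R0 p * tw f.1 f.2 p‖ ≤
        ∑ χ : DirichletCharacter ℂ N, |mult χ| := by
      intro p hp
      rw [norm_mul]
      calc ‖R0 p‖ * ‖tw f.1 f.2 p‖ ≤ (∑ χ : DirichletCharacter ℂ N, |mult χ|) * 1 :=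
            mul_le_mul (hR0 p hp) (norm_tw_le _ _ p hp) (norm_nonneg _)
              (Finset.sum_nonneg fun _ _ => abs_nonneg _)
        _ = _ := mul_one _
    have hsplit : ∀ p : ℕ, p.Prime → p ∉ S → (∑ j, α p j * f.1 (p : ZMod N)) * vt f.2 p =
        A p * tw f.1 f.2 p + R0 p * tw f.1 f.2 p := by
      intro p hp hpS
      simp only [hAdef]
      rw [if_neg hpS, ← add_mul, sub_add_cancel, ← Finset.sum_mul]
      unfold tw vt
      ring
    have h1 := cv_log_ZZ_split (P := Q f.1) (S := S)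
      (α := fun p j => α p j * f.1 (p : ZMod N)) hβ hQ' (norm_vt f.2) hbad' hAtw hRtw hsplit
    have h2 := mult_lim mult f.1 f.2
    refine Cv.congr (Cv.add h1 h2) fun x _ => ?_
    simp only [hR0def]
    ring
  set n : ℝ := (F.card : ℝ) with hn
  have hn0 : 0 ≤ n := Nat.cast_nonneg _
  set η : ℝ := ε / (1 + n + D * (1 + n / 2)) with hη
  have hden : 0 < 1 + n + D * (1 + n / 2) := by positivity
  have hη0 : 0 < η := by positivity
  -- off-diagonal terms
  have hoff : ∀ q : {q : F × F // q.1 ≠ q.2},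
      Cv (RR (fun p => (conj (tw (q.1.1 : DirichletCharacter ℂ N × ℝ).1 q.1.1.1.2 p) *
        conj (conj (tw (q.1.2 : DirichletCharacter ℂ N × ℝ).1 q.1.2.1.2 p))).re)) := by
    rintro ⟨⟨⟨f, hf⟩, ⟨g, hg⟩⟩, hfg⟩
    have hfg' : (f.1⁻¹ * g.1 ≠ 1) ∨ (g.2 - f.2 ≠ 0) := by
      by_contra h
      push Not at h
      apply hfg
      apply Subtype.ext
      refine Prod.ext ?_ ?_
      · exact (inv_mul_eq_one.mp h.1)
      · linarith [h.2]
    refine Cv.congr (cv_charSum (f.1⁻¹ * g.1) (g.2 - f.2) hfg') fun x _ => ?_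
    refine RR_congr (fun p hp => ?_) x
    rw [Complex.conj_conj, tw_conj_mul f.1 g.1 f.2 g.2 hp]
  obtain ⟨δ1, hδ1, hinc1⟩ := Cv.incr hoff hη0
  obtain ⟨δ2, hδ2, hinc2⟩ := Cv.incr (fun f : F => hcmp f) hη0
  obtain ⟨δ3, hδ3, hinc3⟩ := Cv.incr (ι := Unit) (fun _ => hasLim_one) hη0
  refine ⟨min δ1 (min δ2 δ3), lt_min hδ1 (lt_min hδ2 hδ3), fun x x' hx hxx' hx'δ => ?_⟩
  have hx' : 1 < x' := lt_of_lt_of_le hx hxx'
  have hx'1 : x' < 1 + δ1 := lt_of_lt_of_le hx'δ (by gcongr; exact min_le_left _ _)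
  have hx'2 : x' < 1 + δ2 := lt_of_lt_of_le hx'δ (by
    gcongr; exact (min_le_right _ _).trans (min_le_left _ _))
  have hx'3 : x' < 1 + δ3 := lt_of_lt_of_le hx'δ (by
    gcongr; exact (min_le_right _ _).trans (min_le_right _ _))
  have hB := bessel_incr F (fun f p => conj (tw f.1 f.2 p))
    (fun f _ p hp => by rw [RCLike.norm_conj]; exact norm_tw_le f.1 f.2 p hp) A D hA hx hxx'
    hη0.le (fun f hf g hg hfg => hinc1 ⟨⟨⟨f, hf⟩, ⟨g, hg⟩⟩, fun h => hfg (congrArg Subtype.val h)⟩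
      x x' hx (by linarith) hx' hx'1)
  simp only [Complex.conj_conj] at hB
  set L := Real.log (1 / (x - 1)) with hL
  set L' := Real.log (1 / (x' - 1)) with hL'
  have hLL' : 0 ≤ L - L' := by
    rw [sub_nonneg, hL, hL']
    apply Real.log_le_log
    · apply one_div_pos.mpr; linarith
    · apply one_div_le_one_div_of_le <;> linarith
  have h3 := hinc3 () x x' hx (by linarith) hx' hx'3
  set U := RR (fun _ => (1:ℝ)) x
  set U' := RR (fun _ => (1:ℝ)) x'
  have hU : U - U' ≤ (L - L') + η := by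
    have := (abs_le.mp h3).2
    linarith
  set v : DirichletCharacter ℂ N × ℝ → ℝ := fun f => RR (fun p => (A p * tw f.1 f.2 p).re) x -
    RR (fun p => (A p * tw f.1 f.2 p).re) x' with hv
  set w : DirichletCharacter ℂ N × ℝ → ℝ := fun f => (Real.log ‖ZZ (Q f.1) (vt f.2) x‖ -
        (if f.2 = 0 then mult f.1 else 0) * L) -
        (Real.log ‖ZZ (Q f.1) (vt f.2) x'‖ -
        (if f.2 = 0 then mult f.1 else 0) * L') with hw
  have hwv : ∀ f ∈ F, |w f - v f| ≤ η := by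
    intro f hf
    have h := hinc2 ⟨f, hf⟩ x x' hx (by linarith) hx' hx'2
    have e : w f - v f = ((Real.log ‖ZZ (Q f.1) (vt f.2) x‖ -
        (if f.2 = 0 then mult f.1 else 0) * Real.log (1 / (x - 1))) -
        RR (fun p => (A p * tw f.1 f.2 p).re) x) - ((Real.log ‖ZZ (Q f.1) (vt f.2) x'‖ -
        (if f.2 = 0 then mult f.1 else 0) * Real.log (1 / (x' - 1))) -
        RR (fun p => (A p * tw f.1 f.2 p).re) x') := by
      simp only [hw, hv]; ring
    rw [e]; exact h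
  have hBv : ∑ f ∈ F, v f ^ 2 ≤ (D * ((U - U') + n * η / 2)) ^ 2 := hB
  set T : ℝ := D * ((L - L') + η + n * η / 2) with hT
  have hT0 : 0 ≤ T := by positivity
  have hBv' : ∑ f ∈ F, v f ^ 2 ≤ T ^ 2 := by
    have h0 : 0 ≤ ∑ f ∈ F, v f ^ 2 := Finset.sum_nonneg fun _ _ => sq_nonneg _
    by_cases hneg : 0 ≤ D * ((U - U') + n * η / 2)
    · refine hBv.trans ?_
      have : D * ((U - U') + n * η / 2) ≤ T := by
        rw [hT]
        refine mul_le_mul_of_nonneg_left ?_ hD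
        linarith
      gcongr
    · exfalso
      push Not at hneg
      have hUU : 0 ≤ U - U' := by
        have := RR_incr_le (g := fun _ => (0:ℝ)) (G := fun _ => (1:ℝ)) (C := 0) (D := 1)
          (fun p _ => by simp) (fun p _ => by simp) (fun p _ => by simp) hx hxx'
        exact (abs_nonneg _).trans this
      have : 0 ≤ D * ((U - U') + n * η / 2) := by positivity
      linarith
  have hvle : ∀ f ∈ F, |v f| ≤ T := by
    intro f hf
    have h1 : (v f) ^ 2 ≤ T ^ 2 :=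
      (Finset.single_le_sum (f := fun f => v f ^ 2) (fun _ _ => sq_nonneg _) hf).trans hBv'
    exact abs_le_of_sq_le_sq h1 hT0
  have hterm : ∀ f ∈ F, (w f) ^ 2 ≤ (v f) ^ 2 + (2 * η * T + η ^ 2) := by
    intro f hf
    have h1 := hwv f hf
    have h2 := hvle f hf
    have h3 : |w f| ≤ |v f| + η := by
      have : w f = v f + (w f - v f) := by ring
      rw [this]
      exact (abs_add_le _ _).trans (by linarith)
    have h4 : (w f) ^ 2 ≤ (|v f| + η) ^ 2 := by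
      rw [← sq_abs (w f)]
      gcongr
    have h5 : |v f| ^ 2 = v f ^ 2 := sq_abs (v f)
    have h6 : (|v f| + η) ^ 2 = |v f| ^ 2 + (2 * η * |v f| + η ^ 2) := by ring
    have h7 : η * |v f| ≤ η * T := mul_le_mul_of_nonneg_left h2 hη0.le
    rw [h6, h5] at h4
    linarith only [h4, h7]
  show ∑ f ∈ F, (w f) ^ 2 ≤ (D * (L - L') + ε) ^ 2
  have hεη : ε = η * (1 + n + D * (1 + n / 2)) := by
    rw [hη]; field_simp
  calc ∑ f ∈ F, (w f) ^ 2
      ≤ ∑ f ∈ F, ((v f) ^ 2 + (2 * η * T + η ^ 2)) := Finset.sum_le_sum hterm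
    _ = ∑ f ∈ F, (v f) ^ 2 + n * (2 * η * T + η ^ 2) := by
          rw [Finset.sum_add_distrib, Finset.sum_const, nsmul_eq_mul]
    _ ≤ T ^ 2 + n * (2 * η * T + η ^ 2) := by linarith [hBv']
    _ ≤ (T + (1 + n) * η) ^ 2 := by
        have h1 : (T + (1 + n) * η) ^ 2 - (T ^ 2 + n * (2 * η * T + η ^ 2)) =
            2 * (η * T) + (1 + n + n ^ 2) * η ^ 2 := by ring
        have h2 : 0 ≤ η * T := mul_nonneg hη0.le hT0
        have h3 : 0 ≤ 1 + n + n ^ 2 := by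
          have := sq_nonneg n
          linarith only [this, hn0]
        have h4 : 0 ≤ (1 + n + n ^ 2) * η ^ 2 := mul_nonneg h3 (sq_nonneg η)
        linarith only [h1, h2, h4]
    _ = (D * (L - L') + ε) ^ 2 := by
        rw [hεη, hT]
        ring

end

end TatePole
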