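import Mathlib
import Pool.Agent.Lib.MP_058a58_ag.ConvClass

open Filter Topology Polynomial Set Complex ComplexConjugate NumberField
open scoped TensorProduct

namespace TatePole

section
variable {ℓ : ℕ} [Fact ℓ.Prime] {W : Type*} [AddCommGroup W] [Module ℚ_[ℓ] W]
    [FiniteDimensional ℚ_[ℓ] W] {ρ : Representation ℚ_[ℓ] GQ W} {ι : ℚ_[ℓ] →+* ℂ}

/-- comparison of `log |L(X_K, s)|` with prime sums. -/
theorem cv_field_cmp {S : Finset ℕ} {P : ℕ → ℂ[X]}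
    (hgood : ∀ p : ℕ, p.Prime → p ∉ S → IsPureLocalFactor ρ ι p (P p))
    (B : Submodule ℚ_[ℓ] W) (hB : ∀ g : GQ, ∀ w ∈ B, ρ g w ∈ B)
    (M : IntermediateField ℚ QBar) [FiniteDimensional ℚ M]
    (hM : ∀ g ∈ M.fixingSubgroup, ∀ w ∈ B, ρ g w = w) (q : GQ → ℚ)
    (hq : ∀ g, LinearMap.trace ℚ_[ℓ] B (resRep ρ B hB g) = (q g : ℚ_[ℓ]))
    {σ : ℕ → GQ} (hσ : FrobSys σ) (K : Type*) [Field K] [NumberField K]
    (S' : Finset ℕ) (P' : ℕ → ℂ[X])
    (hgood' : ∀ p : ℕ, p.Prime → p ∉ S' → IsPureLocalFactor (indRep ρ K) ι p (P' p))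
    (hbad' : ∀ p ∈ S', p.Prime → (P' p).eval ((p : ℂ)⁻¹) ≠ 0) :
    Cv (fun x => (Real.log ‖ZZ P' (fun _ => 1) x‖ - cycleRank ρ B K * Real.log (1 / (x - 1))) -
        RR (fun p => (fixCount K (σ p) : ℝ) * (defA ρ ι S q σ p).re) x) := by
  classical
  obtain ⟨Cq, hCq⟩ := q_bdd ρ B hB M hM q hq
  have hCq0 : 0 ≤ Cq := (abs_nonneg _).trans (hCq 1)
  have hD0 : 0 ≤ (Module.finrank ℚ_[ℓ] W : ℝ) - Module.finrank ℚ_[ℓ] B := by
    rw [sub_nonneg]
    exact_mod_cast Submodule.finrank_le B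
  set D := (Module.finrank ℚ_[ℓ] W : ℝ) - Module.finrank ℚ_[ℓ] B with hD
  set n : ℝ := (Nat.card (K →ₐ[ℚ] QBar) : ℝ) with hn
  have hn0 : 0 ≤ n := Nat.cast_nonneg _
  have hfc : ∀ p, ‖(fixCount K (σ p) : ℂ)‖ ≤ n := by
    intro p
    rw [Complex.norm_natCast, hn]
    exact_mod_cast fixCount_le K (σ p)
  have hAb := norm_defA_le (ρ := ρ) (ι := ι) hgood B hB q hq hσ
  obtain ⟨α', hα1', hP'⟩ := exists_alpha hgood'
  -- the trace formula
  have htrace : ∀ p : ℕ, p.Prime → p ∉ S' → ∑ j, α' p j =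
      (fixCount K (σ p) : ℂ) * ι (LinearMap.trace ℚ_[ℓ] W (ρ (σ p)⁻¹)) := by
    intro p hp hpS
    obtain ⟨𝔓, h𝔓, hp𝔓, hf⟩ := hσ p hp
    obtain ⟨β, hβ, hβ1, hβe⟩ := (hgood' p hp hpS).roots_of_frob h𝔓 hp𝔓 hf
    have h1 : ∑ j, β j = ι (LinearMap.trace ℚ_[ℓ] _ (indRep ρ K (σ p)⁻¹)) := by
      rw [← sum_roots_map_charpoly, ← hβ]; rfl
    have h2 : ∑ j, α' p j = ∑ j, β j := by
      have h3 := coeff_one_of_eval_prod' (hP' p hp hpS)
      have h4 := coeff_one_of_eval_prod' hβe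
      rw [h3] at h4
      exact neg_inj.mp h4
    rw [h2, h1, trace_indRep, map_mul, map_natCast, fixCount_inv]
  set A : ℕ → ℂ := fun p => (fixCount K (σ p) : ℂ) * defA ρ ι S q σ p with hA
  set R0 : ℕ → ℂ := fun p => (fixCount K (σ p) : ℂ) * (q (σ p)⁻¹ : ℂ) with hR0
  have hAbd : ∀ p : ℕ, p.Prime → ‖A p‖ ≤ n * D := by
    intro p hp
    simp only [hA]
    rw [norm_mul]
    exact mul_le_mul (hfc p) (hAb p hp) (norm_nonneg _) hn0
  have hR0bd : ∀ p : ℕ, p.Prime → ‖R0 p‖ ≤ n * Cq := by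
    intro p hp
    simp only [hR0]
    rw [norm_mul]
    refine mul_le_mul (hfc p) ?_ (norm_nonneg _) hn0
    have h1 : (q (σ p)⁻¹ : ℂ) = ((q (σ p)⁻¹ : ℝ) : ℂ) := by push_cast; rfl
    rw [h1, Complex.norm_real]
    exact hCq _
  have hsplit : ∀ p : ℕ, p.Prime → p ∉ S ∪ S' → (∑ j, α' p j) * (fun _ : ℕ => (1:ℂ)) p =
      A p + R0 p := by
    intro p hp hpS
    rw [Finset.mem_union, not_or] at hpS
    simp only [hA, hR0, defA]
    rw [if_neg hpS.1, htrace p hp hpS.2]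
    ring
  have hPne : ∀ p ∈ S ∪ S', p.Prime → (P' p).eval ((fun _ : ℕ => (1:ℂ)) p * pw p 1) ≠ 0 := by
    intro p _ hp
    simp only [one_mul, pw_one]
    by_cases h : p ∈ S'
    · exact hbad' p h hp
    · intro h0
      have h1 := (hgood' p hp h).pure _ h0
      rw [norm_inv, Complex.norm_natCast, inv_eq_one] at h1
      have h2 : (2:ℝ) ≤ p := by exact_mod_cast hp.two_le
      linarith
  have hC1 := cv_log_ZZ_split (P := P') (S := S ∪ S') (α := α') (v := fun _ => 1)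
    (fun p hp hpS j => (hα1' p hp (fun h => hpS (Finset.mem_union_right _ h)) j).le)
    (fun p hp hpS => hP' p hp (fun h => hpS (Finset.mem_union_right _ h)))
    (fun p _ => by simp) hPne hAbd hR0bd hsplit
  have hC2 := trace_lim ρ B hB M hM q hq K hσ
  refine Cv.congr (Cv.add hC1 hC2) fun x _ => ?_
  have e1 : RR (fun p => (A p).re) x =
      RR (fun p => (fixCount K (σ p) : ℝ) * (defA ρ ι S q σ p).re) x := by
    refine RR_congr (fun p _ => ?_) x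
    simp only [hA]
    rw [show ((fixCount K (σ p) : ℕ) : ℂ) = (((fixCount K (σ p) : ℕ) : ℝ) : ℂ) by push_cast; rfl,
      Complex.re_ofReal_mul]
  have e2 : RR (fun p => (R0 p).re) x =
      RR (fun p => (fixCount K (σ p) : ℝ) * (q (σ p)⁻¹ : ℝ)) x := by
    refine RR_congr (fun p _ => ?_) x
    simp only [hR0]
    rw [show ((fixCount K (σ p) : ℕ) : ℂ) = (((fixCount K (σ p) : ℕ) : ℝ) : ℂ) by push_cast; rfl,
      Complex.re_ofReal_mul]
    congr 1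
  rw [e1, e2]
  ring

/-- increments of the defect over any number field. -/
theorem uniform_incr {S : Finset ℕ} {P : ℕ → ℂ[X]}
    (hgood : ∀ p : ℕ, p.Prime → p ∉ S → IsPureLocalFactor ρ ι p (P p))
    (B : Submodule ℚ_[ℓ] W) (hB : ∀ g : GQ, ∀ w ∈ B, ρ g w ∈ B)
    (M : IntermediateField ℚ QBar) [FiniteDimensional ℚ M]
    (hM : ∀ g ∈ M.fixingSubgroup, ∀ w ∈ B, ρ g w = w) (q : GQ → ℚ)
    (hq : ∀ g, LinearMap.trace ℚ_[ℓ] B (resRep ρ B hB g) = (q g : ℚ_[ℓ]))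
    (K : Type*) [Field K] [NumberField K]
    (S' : Finset ℕ) (P' : ℕ → ℂ[X])
    (hgood' : ∀ p : ℕ, p.Prime → p ∉ S' → IsPureLocalFactor (indRep ρ K) ι p (P' p))
    (hbad' : ∀ p ∈ S', p.Prime → (P' p).eval ((p : ℂ)⁻¹) ≠ 0) {ε : ℝ} (hε : 0 < ε) :
    ∃ δ : ℝ, 0 < δ ∧ ∀ x x' : ℝ, 1 < x → x ≤ x' → x' < 1 + δ →
      |(Real.log ‖ZZ P' (fun _ => 1) x‖ - cycleRank ρ B K * Real.log (1 / (x - 1))) -
        (Real.log ‖ZZ P' (fun _ => 1) x'‖ - cycleRank ρ B K * Real.log (1 / (x' - 1)))| ≤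
        ((Module.finrank ℚ_[ℓ] W : ℝ) - Module.finrank ℚ_[ℓ] B) *
          (Real.log (1 / (x - 1)) - Real.log (1 / (x' - 1))) + ε := by
  obtain ⟨σ, hσ⟩ := exists_frobSys
  have hC1 := cv_field_cmp hgood B hB M hM q hq hσ K S' P' hgood' hbad'
  have hAb := norm_defA_le (ρ := ρ) (ι := ι) hgood B hB q hq hσ
  have hD0 : 0 ≤ (Module.finrank ℚ_[ℓ] W : ℝ) - Module.finrank ℚ_[ℓ] B := by
    rw [sub_nonneg]
    exact_mod_cast Submodule.finrank_le B
  set D := (Module.finrank ℚ_[ℓ] W : ℝ) - Module.finrank ℚ_[ℓ] B with hD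
  have hC2 := fixCount_lim K hσ
  obtain ⟨n, hn0, hn⟩ := real_prime_bdd (bdd_fixCount K σ)
  set ε₁ : ℝ := ε / (1 + D) with hε₁
  have hε₁0 : 0 < ε₁ := by positivity
  obtain ⟨δ, hδ, hinc⟩ := Cv.incr (ι := Bool)
    (h := fun b => if b then (fun x => (Real.log ‖ZZ P' (fun _ => 1) x‖ -
        cycleRank ρ B K * Real.log (1 / (x - 1))) -
        RR (fun p => (fixCount K (σ p) : ℝ) * (defA ρ ι S q σ p).re) x) else
        (fun x => RR (fun p => (fixCount K (σ p) : ℝ)) x - 1 * Real.log (1 / (x - 1))))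
    (fun b => by cases b; exacts [hC2, hC1]) hε₁0
  refine ⟨δ, hδ, fun x x' hx hxx' hx' => ?_⟩
  have h1 := hinc true x x' hx (by linarith) (by linarith) hx'
  have h2 := hinc false x x' hx (by linarith) (by linarith) hx'
  simp only [if_true, Bool.false_eq_true, if_false] at h1 h2
  have hb1 : ∀ p : ℕ, p.Prime → |(fixCount K (σ p) : ℝ) * (defA ρ ι S q σ p).re| ≤ n * D := by
    intro p hp
    rw [abs_mul]
    exact mul_le_mul (hn p hp) ((Complex.abs_re_le_norm _).trans (hAb p hp)) (abs_nonneg _) hn0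
  have hb2 : ∀ p : ℕ, p.Prime → |D * (fixCount K (σ p) : ℝ)| ≤ D * n := by
    intro p hp
    rw [abs_mul, abs_of_nonneg hD0]
    exact mul_le_mul_of_nonneg_left (hn p hp) hD0
  have hb3 : ∀ p : ℕ, p.Prime → |(fixCount K (σ p) : ℝ) * (defA ρ ι S q σ p).re| ≤
      D * (fixCount K (σ p) : ℝ) := by
    intro p hp
    rw [abs_mul, abs_of_nonneg (Nat.cast_nonneg (fixCount K (σ p)) : (0:ℝ) ≤ _), mul_comm]
    exact mul_le_mul_of_nonneg_right ((Complex.abs_re_le_norm _).trans (hAb p hp))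
      (Nat.cast_nonneg _)
  have h3 := RR_incr_le hb1 hb2 hb3 hx hxx'
  rw [RR_const_mul, RR_const_mul] at h3
  set L := Real.log (1 / (x - 1))
  set L' := Real.log (1 / (x' - 1))
  set U := RR (fun p => (fixCount K (σ p) : ℝ)) x
  set U' := RR (fun p => (fixCount K (σ p) : ℝ)) x'
  set R1 := RR (fun p => (fixCount K (σ p) : ℝ) * (defA ρ ι S q σ p).re) x
  set R1' := RR (fun p => (fixCount K (σ p) : ℝ) * (defA ρ ι S q σ p).re) x'
  set a := Real.log ‖ZZ P' (fun _ => 1) x‖ - cycleRank ρ B K * L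
  set a' := Real.log ‖ZZ P' (fun _ => 1) x'‖ - cycleRank ρ B K * L'
  have h4 : U - U' ≤ (L - L') + ε₁ := by
    have := (abs_le.mp h2).2
    linarith
  have h5 : D * (U - U') ≤ D * ((L - L') + ε₁) := mul_le_mul_of_nonneg_left h4 hD0
  have h6 : a - a' = ((a - R1) - (a' - R1')) + (R1 - R1') := by ring
  rw [h6]
  refine (abs_add_le _ _).trans ?_
  have h7 : ε₁ * (1 + D) = ε := by
    rw [hε₁]; field_simp
  nlinarith

end

end TatePole
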