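import Mathlib
import Pool.Agent.Lib.MP_058a58_ag.ConvField

open Filter Topology Polynomial Set Complex ComplexConjugate NumberField
open scoped TensorProduct

namespace TatePole

section
variable {ℓ : ℕ} [Fact ℓ.Prime] {W : Type*} [AddCommGroup W] [Module ℚ_[ℓ] W]
    [FiniteDimensional ℚ_[ℓ] W] {ρ : Representation ℚ_[ℓ] GQ W} {ι : ℚ_[ℓ] →+* ℂ}

theorem gram_incr {S : Finset ℕ} {P : ℕ → ℂ[X]}
    (hgood : ∀ p : ℕ, p.Prime → p ∉ S → IsPureLocalFactor ρ ι p (P p))
    (B : Submodule ℚ_[ℓ] W) (hB : ∀ g : GQ, ∀ w ∈ B, ρ g w ∈ B)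
    (M : IntermediateField ℚ QBar) [FiniteDimensional ℚ M]
    (hM : ∀ g ∈ M.fixingSubgroup, ∀ w ∈ B, ρ g w = w) (q : GQ → ℚ)
    (hq : ∀ g, LinearMap.trace ℚ_[ℓ] B (resRep ρ B hB g) = (q g : ℚ_[ℓ]))
    {J : Type*} [Fintype J] (K : J → Type) [∀ j, Field (K j)] [∀ j, NumberField (K j)]
    (S' : J → Finset ℕ) (P' : J → ℕ → ℂ[X])
    (hgood' : ∀ j, ∀ p : ℕ, p.Prime → p ∉ S' j → IsPureLocalFactor (indRep ρ (K j)) ι p (P' j p))
    (hbad' : ∀ j, ∀ p ∈ S' j, p.Prime → (P' j p).eval ((p : ℂ)⁻¹) ≠ 0) {ε : ℝ} (hε : 0 < ε) :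
    ∃ δ : ℝ, 0 < δ ∧ ∀ x x' : ℝ, 1 < x → x ≤ x' → x' < 1 + δ → ∀ c : J → ℝ,
      |∑ j, c j * ((Real.log ‖ZZ (P' j) (fun _ => 1) x‖ -
          cycleRank ρ B (K j) * Real.log (1 / (x - 1))) -
        (Real.log ‖ZZ (P' j) (fun _ => 1) x'‖ -
          cycleRank ρ B (K j) * Real.log (1 / (x' - 1))))| ≤
      ((Module.finrank ℚ_[ℓ] W : ℝ) - Module.finrank ℚ_[ℓ] B) *
        Real.sqrt (∑ i, ∑ j, c i * c j * Nat.card (PrimeSpectrum (K i ⊗[ℚ] K j))) *
        (Real.log (1 / (x - 1)) - Real.log (1 / (x' - 1))) + ε * ∑ j, |c j| := by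
  classical
  obtain ⟨σ, hσ⟩ := exists_frobSys
  have hC2 := fun j => cv_field_cmp hgood B hB M hM q hq hσ (K j) (S' j) (P' j)
    (hgood' j) (hbad' j)
  have hAb := norm_defA_le (ρ := ρ) (ι := ι) hgood B hB q hq hσ
  have hD0 : 0 ≤ (Module.finrank ℚ_[ℓ] W : ℝ) - Module.finrank ℚ_[ℓ] B := by
    rw [sub_nonneg]
    exact_mod_cast Submodule.finrank_le B
  set D := (Module.finrank ℚ_[ℓ] W : ℝ) - Module.finrank ℚ_[ℓ] B with hD
  set A := defA ρ ι S q σ with hA
  have hAre : ∀ p : ℕ, p.Prime → |(A p).re| ≤ D := fun p hp =>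
    (Complex.abs_re_le_norm _).trans (hAb p hp)
  -- the finite quotient
  obtain ⟨M', hM'fd, hnormal, hsplit⟩ := exists_normal_family K
  set N : Subgroup GQ := M'.fixingSubgroup with hN
  have hfin : Finite (GQ ⧸ N) := finite_quot N hN
  have hfinT : Fintype (GQ ⧸ N) := Fintype.ofFinite _
  have hsp : ∀ j, ∀ g ∈ N, ∀ φ : K j →ₐ[ℚ] QBar, g • φ = φ := fun j g hg φ => hsplit g hg j φ
  set u : J → GQ ⧸ N → ℝ := fun j => uF (K j) N with hu
  have humk : ∀ j (g : GQ), u j (g : GQ ⧸ N) = (fixCount (K j) g : ℝ) := fun j g =>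
    uF_mk (K j) N (hsp j) g
  have hbdu : ∀ j, ∃ C : ℝ, 0 ≤ C ∧ ∀ p : ℕ, p.Prime → |(fixCount (K j) (σ p) : ℝ)| ≤ C :=
    fun j => real_prime_bdd (bdd_fixCount (K j) σ)
  choose Cu hCu0 hCu using hbdu
  -- means with signs
  have hmean : ∀ bj : (GQ ⧸ N → Bool) × J, RatInv (fun γ => sgB (bj.1 γ)) →
      HasLim (fun p => sgB (bj.1 (σ p)) * (fixCount (K bj.2) (σ p) : ℝ))
        (gavg (fun γ => sgB (bj.1 γ) * u bj.2 γ)) := by
    rintro ⟨b, j⟩ h
    have hu' := uF_ratInv (K j) N (hsp j)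
    have h1 : HasLim (fun p => (fun γ => sgB (b γ) * u j γ) (σ p))
        (gavg (fun γ => sgB (b γ) * u j γ)) := by
      refine classFun_lim N hN (fun γ => sgB (b γ) * u j γ) ⟨?_, ?_⟩ hσ
      · intro g x
        exact congrArg₂ (· * ·) (h.1 g x) (hu'.1 g x)
      · intro g h' hz
        exact congrArg₂ (· * ·) (h.2 g h' hz) (hu'.2 g h' hz)
    refine h1.congr fun p _ => ?_
    simp only
    rw [humk]
  set hfun : (GQ ⧸ N → Bool) × J → ℝ → ℝ := fun bj =>
    if RatInv (fun γ => sgB (bj.1 γ)) then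
      (fun x => RR (fun p => sgB (bj.1 (σ p)) * (fixCount (K bj.2) (σ p) : ℝ)) x -
        gavg (fun γ => sgB (bj.1 γ) * u bj.2 γ) * Real.log (1 / (x - 1)))
    else fun _ => 0 with hhfun
  have hcv : ∀ bj, Cv (hfun bj) := by
    intro bj
    by_cases h : RatInv (fun γ => sgB (bj.1 γ))
    · have := hmean bj h
      simp only [hhfun]
      rw [if_pos h]
      exact this
    · simp only [hhfun]
      rw [if_neg h]
      exact ⟨0, tendsto_const_nhds⟩
  -- the Gram matrix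
  have hgram : ∀ i j, gavg (fun γ => u i γ * u j γ) =
      (Nat.card (PrimeSpectrum (K i ⊗[ℚ] K j)) : ℝ) := by
    intro i j
    have hi := uF_ratInv (K i) N (hsp i)
    have hj := uF_ratInv (K j) N (hsp j)
    have h1 : HasMean (fun p => (fun γ => u i γ * u j γ) (σ p))
        (gavg (fun γ => u i γ * u j γ)) := by
      refine classFun_mean N hN (fun γ => u i γ * u j γ) ?_ ?_ hσ
      · intro g x
        exact congrArg₂ (· * ·) (hi.1 g x) (hj.1 g x)
      · intro g h' hz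
        exact congrArg₂ (· * ·) (hi.2 g h' hz) (hj.2 g h' hz)
    have h2 : (fun p => (fun γ => u i γ * u j γ) ((σ p : GQ) : GQ ⧸ N)) =
        fun p => (fixCount (K i) (σ p) : ℝ) * (fixCount (K j) (σ p) : ℝ) := by
      funext p
      simp only
      rw [humk, humk]
    rw [h2] at h1
    exact h1.unique (pair_mean (K i) (K j) hσ)
  set ε₁ : ℝ := ε / (1 + D) with hε₁
  have hε₁0 : 0 < ε₁ := by positivity
  obtain ⟨δ1, hδ1, hinc1⟩ := Cv.incr hcv hε₁0
  obtain ⟨δ2, hδ2, hinc2⟩ := Cv.incr hC2 hε₁0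
  refine ⟨min δ1 δ2, lt_min hδ1 hδ2, fun x x' hx hxx' hx'δ c => ?_⟩
  have hx' : 1 < x' := lt_of_lt_of_le hx hxx'
  have hx'1 : x' < 1 + δ1 := lt_of_lt_of_le hx'δ (by gcongr; exact min_le_left _ _)
  have hx'2 : x' < 1 + δ2 := lt_of_lt_of_le hx'δ (by gcongr; exact min_le_right _ _)
  set L := Real.log (1 / (x - 1)) with hL
  set L' := Real.log (1 / (x' - 1)) with hL'
  have hLL' : 0 ≤ L - L' := by
    rw [sub_nonneg, hL, hL']
    apply Real.log_le_log
    · apply one_div_pos.mpr; linarith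
    · apply one_div_le_one_div_of_le <;> linarith
  set d : J → ℝ := fun j => Real.log ‖ZZ (P' j) (fun _ => 1) x‖ - cycleRank ρ B (K j) * L with hd
  set d' : J → ℝ := fun j => Real.log ‖ZZ (P' j) (fun _ => 1) x'‖ - cycleRank ρ B (K j) * L'
    with hd'
  set R : J → ℝ → ℝ := fun j x => RR (fun p => (fixCount (K j) (σ p) : ℝ) * (A p).re) x with hR
  have hx2' : ∀ j, |(d j - R j x) - (d' j - R j x')| ≤ ε₁ := fun j =>
    hinc2 j x x' hx (by linarith) hx' hx'2
  -- the combination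
  set F : GQ ⧸ N → ℝ := fun γ => ∑ j, c j * u j γ with hF
  set b : GQ ⧸ N → Bool := fun γ => decide (0 ≤ F γ) with hb
  have hbF : ∀ γ, sgB (b γ) * F γ = |F γ| := by
    intro γ
    simp only [hb, sgB]
    by_cases h : 0 ≤ F γ
    · simp [h, abs_of_nonneg h]
    · have h' : F γ < 0 := not_le.mp h
      simp [h, abs_of_neg h']
  have hFinv : RatInv F := by
    constructor
    · intro g x
      simp only [hF]
      exact Finset.sum_congr rfl fun j _ =>
        congrArg (c j * ·) ((uF_ratInv (K j) N (hsp j)).1 g x)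
    · intro g h' hz
      simp only [hF]
      exact Finset.sum_congr rfl fun j _ =>
        congrArg (c j * ·) ((uF_ratInv (K j) N (hsp j)).2 g h' hz)
  have hbinv : RatInv (fun γ => sgB (b γ)) := by
    constructor
    · intro g x
      simp only [hb]
      rw [hFinv.1 g x]
    · intro g h' hz
      simp only [hb]
      rw [hFinv.2 g h' hz]
  have hfb : ∀ p : ℕ, p.Prime → ∀ j, |c j * (fixCount (K j) (σ p) : ℝ)| ≤ |c j| * Cu j := by
    intro p hp j
    rw [abs_mul]
    exact mul_le_mul_of_nonneg_left (hCu j p hp) (abs_nonneg _)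
  -- sum of the R j
  have hsumR : ∀ y : ℝ, 1 < y → ∑ j, c j * R j y = RR (fun p => F (σ p) * (A p).re) y := by
    intro y hy
    have h1 : ∀ j ∈ (Finset.univ : Finset J), ∀ p : ℕ, p.Prime →
        |c j * ((fixCount (K j) (σ p) : ℝ) * (A p).re)| ≤ |c j| * (Cu j * D) := by
      intro j _ p hp
      rw [abs_mul, abs_mul]
      refine mul_le_mul_of_nonneg_left ?_ (abs_nonneg _)
      exact mul_le_mul (hCu j p hp) (hAre p hp) (abs_nonneg _) (hCu0 j)
    have h2 := RR_finset_sum (Finset.univ : Finset J)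
      (fun j p => c j * ((fixCount (K j) (σ p) : ℝ) * (A p).re)) (fun j => |c j| * (Cu j * D)) h1 hy
    have h3 : ∀ j ∈ (Finset.univ : Finset J),
        RR (fun p => c j * ((fixCount (K j) (σ p) : ℝ) * (A p).re)) y = c j * R j y := by
      intro j _
      rw [RR_const_mul]
    rw [← Finset.sum_congr rfl h3, ← h2]
    refine RR_congr (fun p _ => ?_) y
    simp only [hF]
    rw [Finset.sum_mul]
    refine Finset.sum_congr rfl fun j _ => ?_
    rw [humk]
    ring
  set Cc : ℝ := ∑ j, |c j| * Cu j with hCc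
  have hFb : ∀ p : ℕ, p.Prime → |F (σ p)| ≤ Cc := by
    intro p hp
    simp only [hF]
    refine (Finset.abs_sum_le_sum_abs _ _).trans ?_
    refine Finset.sum_le_sum fun j _ => ?_
    rw [humk]
    exact hfb p hp j
  have hCc0 : 0 ≤ Cc := Finset.sum_nonneg fun j _ => mul_nonneg (abs_nonneg _) (hCu0 j)
  have hb1 : ∀ p : ℕ, p.Prime → |F (σ p) * (A p).re| ≤ Cc * D := by
    intro p hp
    rw [abs_mul]
    exact mul_le_mul (hFb p hp) (hAre p hp) (abs_nonneg _) hCc0
  have hb2 : ∀ p : ℕ, p.Prime → abs (D * abs (F (σ p))) ≤ D * Cc := by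
    intro p hp
    rw [abs_mul, abs_of_nonneg hD0, abs_abs]
    exact mul_le_mul_of_nonneg_left (hFb p hp) hD0
  have hb3 : ∀ p : ℕ, p.Prime → |F (σ p) * (A p).re| ≤ D * abs (F (σ p)) := by
    intro p hp
    rw [abs_mul, mul_comm]
    exact mul_le_mul_of_nonneg_right (hAre p hp) (abs_nonneg _)
  have h1 := RR_incr_le hb1 hb2 hb3 hx hxx'
  rw [RR_const_mul, RR_const_mul, ← hsumR x hx, ← hsumR x' hx'] at h1
  -- the absolute mean
  have habs : ∀ y : ℝ, 1 < y → RR (fun p => |F (σ p)|) y = ∑ j, c j *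
      RR (fun p => sgB (b (σ p)) * (fixCount (K j) (σ p) : ℝ)) y := by
    intro y hy
    have h1 : ∀ j ∈ (Finset.univ : Finset J), ∀ p : ℕ, p.Prime →
        |c j * (sgB (b (σ p)) * (fixCount (K j) (σ p) : ℝ))| ≤ |c j| * Cu j := by
      intro j _ p hp
      rw [abs_mul, abs_mul, sgB_abs, one_mul]
      exact mul_le_mul_of_nonneg_left (hCu j p hp) (abs_nonneg _)
    have h2 := RR_finset_sum (Finset.univ : Finset J)
      (fun j p => c j * (sgB (b (σ p)) * (fixCount (K j) (σ p) : ℝ)))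
      (fun j => |c j| * Cu j) h1 hy
    have h3 : ∀ j ∈ (Finset.univ : Finset J),
        RR (fun p => c j * (sgB (b (σ p)) * (fixCount (K j) (σ p) : ℝ))) y =
        c j * RR (fun p => sgB (b (σ p)) * (fixCount (K j) (σ p) : ℝ)) y := by
      intro j _
      rw [RR_const_mul]
    rw [← Finset.sum_congr rfl h3, ← h2]
    refine RR_congr (fun p _ => ?_) y
    rw [← hbF]
    simp only [hF]
    rw [Finset.mul_sum]
    refine Finset.sum_congr rfl fun j _ => ?_
    rw [humk]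
    ring
  have hgabs : gavg (fun γ => |F γ|) = ∑ j, c j * gavg (fun γ => sgB (b γ) * u j γ) := by
    have h1 : (fun γ => |F γ|) = fun γ => ∑ j, c j * (sgB (b γ) * u j γ) := by
      funext γ
      rw [← hbF]
      simp only [hF]
      rw [Finset.mul_sum]
      refine Finset.sum_congr rfl fun j _ => ?_
      ring
    rw [h1, gavg_sum]
    refine Finset.sum_congr rfl fun j _ => ?_
    rw [gavg_const_mul]
  have habs_le : RR (fun p => |F (σ p)|) x - RR (fun p => |F (σ p)|) x' ≤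
      gavg (fun γ => |F γ|) * (L - L') + ε₁ * ∑ j, |c j| := by
    rw [habs x hx, habs x' hx', hgabs, Finset.sum_mul, Finset.mul_sum, ← Finset.sum_sub_distrib,
      ← Finset.sum_add_distrib]
    refine Finset.sum_le_sum fun j _ => ?_
    have h3 := hinc1 (b, j) x x' hx (by linarith) hx' hx'1
    simp only [hhfun] at h3
    rw [if_pos hbinv] at h3
    set r := RR (fun p => sgB (b (σ p)) * (fixCount (K j) (σ p) : ℝ)) x
    set r' := RR (fun p => sgB (b (σ p)) * (fixCount (K j) (σ p) : ℝ)) x'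
    set g := gavg (fun γ => sgB (b γ) * u j γ)
    have h3' : |(r - g * L) - (r' - g * L')| ≤ ε₁ := h3
    have h4 : c j * ((r - g * L) - (r' - g * L')) ≤ |c j| * ε₁ := by
      refine (le_abs_self _).trans ?_
      rw [abs_mul]
      exact mul_le_mul_of_nonneg_left h3' (abs_nonneg _)
    nlinarith
  have hsqrt : gavg (fun γ => |F γ|) ≤
      Real.sqrt (∑ i, ∑ j, c i * c j * Nat.card (PrimeSpectrum (K i ⊗[ℚ] K j))) := by
    refine (gavg_abs_le_sqrt F).trans (le_of_eq ?_)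
    congr 1
    have h3 : (fun γ => F γ ^ 2) = fun γ => ∑ i, ∑ j, c i * c j * (u i γ * u j γ) := by
      funext γ
      simp only [hF]
      rw [pow_two, Finset.sum_mul_sum]
      refine Finset.sum_congr rfl fun i _ => Finset.sum_congr rfl fun j _ => ?_
      ring
    rw [h3, gavg_sum]
    refine Finset.sum_congr rfl fun i _ => ?_
    rw [gavg_sum]
    refine Finset.sum_congr rfl fun j _ => ?_
    rw [gavg_const_mul, hgram]
  set G := Real.sqrt (∑ i, ∑ j, c i * c j * Nat.card (PrimeSpectrum (K i ⊗[ℚ] K j))) with hG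
  have h5 : |∑ j, c j * R j x - ∑ j, c j * R j x'| ≤ D * (G * (L - L') + ε₁ * ∑ j, |c j|) := by
    have h6 : RR (fun p => |F (σ p)|) x - RR (fun p => |F (σ p)|) x' ≤
        G * (L - L') + ε₁ * ∑ j, |c j| := by
      refine habs_le.trans ?_
      have := mul_le_mul_of_nonneg_right hsqrt hLL'
      linarith
    have h7 := mul_le_mul_of_nonneg_left h6 hD0
    refine h1.trans ?_
    linarith
  have h8 : |∑ j, c j * ((d j - R j x) - (d' j - R j x'))| ≤ ε₁ * ∑ j, |c j| := by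
    refine (Finset.abs_sum_le_sum_abs _ _).trans ?_
    rw [Finset.mul_sum]
    refine Finset.sum_le_sum fun j _ => ?_
    rw [abs_mul, mul_comm]
    exact mul_le_mul_of_nonneg_right (hx2' j) (abs_nonneg _)
  have h9 : ∑ j, c j * (d j - d' j) = ∑ j, c j * ((d j - R j x) - (d' j - R j x')) +
      (∑ j, c j * R j x - ∑ j, c j * R j x') := by
    rw [← Finset.sum_sub_distrib, ← Finset.sum_add_distrib]
    refine Finset.sum_congr rfl fun j _ => ?_
    ring
  show |∑ j, c j * (d j - d' j)| ≤ D * G * (L - L') + ε * ∑ j, |c j|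
  rw [h9]
  refine (abs_add_le _ _).trans ?_
  have h10 : ε₁ * (1 + D) = ε := by
    rw [hε₁]; field_simp
  calc _ ≤ ε₁ * ∑ j, |c j| + D * (G * (L - L') + ε₁ * ∑ j, |c j|) := add_le_add h8 h5
    _ = D * G * (L - L') + (ε₁ * (1 + D)) * ∑ j, |c j| := by ring
    _ = D * G * (L - L') + ε * ∑ j, |c j| := by rw [h10]

end

end TatePole
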