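import Mathlib
import Pool.Agent.Lib.MP_058a58_ag.ConvGram
import Pool.Agent.Lib.MP_058a58_ag.ConvAbel2

open Filter Topology Polynomial Set Complex ComplexConjugate NumberField
open scoped TensorProduct

namespace TatePole

lemma log_diff_eq {a b : ℝ} (ha : 0 < a) (hb : 0 < b) :
    Real.log (1 / a) - Real.log (1 / b) = Real.log (b / a) := by
  rw [Real.log_div hb.ne' ha.ne', one_div, one_div, Real.log_inv, Real.log_inv]
  ring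

section
variable {ℓ : ℕ} [Fact ℓ.Prime] {W : Type*} [AddCommGroup W] [Module ℚ_[ℓ] W]
    [FiniteDimensional ℚ_[ℓ] W] {ρ : Representation ℚ_[ℓ] GQ W} {ι : ℚ_[ℓ] →+* ℂ}

theorem uniform_final {S : Finset ℕ} {P : ℕ → ℂ[X]}
    (hgood : ∀ p : ℕ, p.Prime → p ∉ S → IsPureLocalFactor ρ ι p (P p))
    (B : Submodule ℚ_[ℓ] W) (hB : ∀ g : GQ, ∀ w ∈ B, ρ g w ∈ B)
    (F : Finset QBar) (hF : ∀ g : GQ, (∀ x ∈ F, g x = x) → ∀ w ∈ B, ρ g w = w)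
    (hrat : ∀ g : GQ, ∃ r : ℚ, LinearMap.trace ℚ_[ℓ] B ((ρ g).restrict (hB g)) = (r : ℚ_[ℓ]))
    (K : Type*) [Field K] [NumberField K]
    (S' : Finset ℕ) (P' : ℕ → ℂ[X])
    (hgood' : ∀ p : ℕ, p.Prime → p ∉ S' → IsPureLocalFactor (indRep ρ K) ι p (P' p))
    (hbad' : ∀ p ∈ S', p.Prime → (P' p).eval ((p : ℂ)⁻¹) ≠ 0) (m : ℕ) (ε : ℝ) (hε : 0 < ε) :
    ∃ δ : ℝ, 0 < δ ∧ ∀ s s' : ℝ, m + 1 < s → s ≤ s' → s' < m + 1 + δ →
      |(Real.log ‖LFun P' m s‖ - Real.log ‖LFun P' m s'‖) -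
        (cycleRank ρ B K : ℝ) * Real.log ((s' - (m + 1)) / (s - (m + 1)))| ≤
        ((Module.finrank ℚ_[ℓ] W : ℝ) - Module.finrank ℚ_[ℓ] B) *
          Real.log ((s' - (m + 1)) / (s - (m + 1))) + ε := by
  obtain ⟨q, hq⟩ := exists_q B hB hrat
  obtain ⟨M, hMfin, hMfix⟩ := exists_field_of_finset F
  obtain ⟨δ, hδ, hC⟩ := uniform_incr hgood B hB M (fun g hg => hF g (hMfix g hg)) q hq K S' P'
    hgood' hbad' hε
  refine ⟨δ, hδ, fun s s' hs hss' hs' => ?_⟩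
  have h1 := hC (s - m) (s' - m) (by linarith) (by linarith) (by linarith)
  have hL : ∀ t : ℝ, Real.log ‖LFun P' m t‖ = Real.log ‖ZZ P' (fun _ => 1) (t - m)‖ := by
    intro t
    have h2 := LFun_eq_ZZ P' m (t - m)
    rw [show ((m : ℝ) + (t - m) : ℝ) = t by ring] at h2
    rw [h2]
  have h3 : s - m - 1 = s - (m + 1) := by ring
  have h3' : s' - m - 1 = s' - (m + 1) := by ring
  rw [h3, h3', log_diff_eq (show (0:ℝ) < s - (m + 1) by linarith)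
    (show (0:ℝ) < s' - (m + 1) by linarith)] at h1
  have h4 := log_diff_eq (show (0:ℝ) < s - (m + 1) by linarith)
    (show (0:ℝ) < s' - (m + 1) by linarith)
  rw [hL, hL]
  refine le_trans (le_of_eq ?_) h1
  congr 1
  rw [← h4]
  ring

theorem gram_final {S : Finset ℕ} {P : ℕ → ℂ[X]}
    (hgood : ∀ p : ℕ, p.Prime → p ∉ S → IsPureLocalFactor ρ ι p (P p))
    (B : Submodule ℚ_[ℓ] W) (hB : ∀ g : GQ, ∀ w ∈ B, ρ g w ∈ B)
    (F : Finset QBar) (hF : ∀ g : GQ, (∀ x ∈ F, g x = x) → ∀ w ∈ B, ρ g w = w)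
    (hrat : ∀ g : GQ, ∃ r : ℚ, LinearMap.trace ℚ_[ℓ] B ((ρ g).restrict (hB g)) = (r : ℚ_[ℓ]))
    {J : Type*} [Fintype J] (K : J → Type) [∀ j, Field (K j)] [∀ j, NumberField (K j)]
    (S' : J → Finset ℕ) (P' : J → ℕ → ℂ[X])
    (hgood' : ∀ j, ∀ p : ℕ, p.Prime → p ∉ S' j → IsPureLocalFactor (indRep ρ (K j)) ι p (P' j p))
    (hbad' : ∀ j, ∀ p ∈ S' j, p.Prime → (P' j p).eval ((p : ℂ)⁻¹) ≠ 0) (m : ℕ)
    (ε : ℝ) (hε : 0 < ε) :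
    ∃ δ : ℝ, 0 < δ ∧ ∀ s s' : ℝ, m + 1 < s → s ≤ s' → s' < m + 1 + δ → ∀ c : J → ℝ,
      |∑ j, c j * ((Real.log ‖LFun (P' j) m s‖ - Real.log ‖LFun (P' j) m s'‖) -
          (cycleRank ρ B (K j) : ℝ) * Real.log ((s' - (m + 1)) / (s - (m + 1))))| ≤
      ((Module.finrank ℚ_[ℓ] W : ℝ) - Module.finrank ℚ_[ℓ] B) *
        Real.sqrt (∑ i, ∑ j, c i * c j * Nat.card (PrimeSpectrum (K i ⊗[ℚ] K j))) *
        Real.log ((s' - (m + 1)) / (s - (m + 1))) + ε * ∑ j, |c j| := by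
  obtain ⟨q, hq⟩ := exists_q B hB hrat
  obtain ⟨M, hMfin, hMfix⟩ := exists_field_of_finset F
  obtain ⟨δ, hδ, hC⟩ := gram_incr hgood B hB M (fun g hg => hF g (hMfix g hg)) q hq K S' P'
    hgood' hbad' hε
  refine ⟨δ, hδ, fun s s' hs hss' hs' c => ?_⟩
  have h1 := hC (s - m) (s' - m) (by linarith) (by linarith) (by linarith) c
  have hL : ∀ (j : J) (t : ℝ), Real.log ‖LFun (P' j) m t‖ =
      Real.log ‖ZZ (P' j) (fun _ => 1) (t - m)‖ := by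
    intro j t
    have h2 := LFun_eq_ZZ (P' j) m (t - m)
    rw [show ((m : ℝ) + (t - m) : ℝ) = t by ring] at h2
    rw [h2]
  have h3 : s - m - 1 = s - (m + 1) := by ring
  have h3' : s' - m - 1 = s' - (m + 1) := by ring
  have h4 := log_diff_eq (show (0:ℝ) < s - (m + 1) by linarith)
    (show (0:ℝ) < s' - (m + 1) by linarith)
  rw [h3, h3', h4] at h1
  simp only [hL]
  refine le_trans (le_of_eq ?_) h1
  congr 1
  refine Finset.sum_congr rfl fun j _ => ?_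
  rw [← h4]
  ring

theorem abelian_final {S : Finset ℕ} {P : ℕ → ℂ[X]}
    (hgood : ∀ p : ℕ, p.Prime → p ∉ S → IsPureLocalFactor ρ ι p (P p))
    (B : Submodule ℚ_[ℓ] W) (hB : ∀ g : GQ, ∀ w ∈ B, ρ g w ∈ B)
    {N : ℕ} [NeZero N] (hN : ∀ p : ℕ, p.Prime → p ∣ N → p ∈ S)
    (mult : DirichletCharacter ℂ N → ℕ)
    (hmult : ∀ g : GQ, ∀ a : ℕ, (∀ ζ : QBar, ζ ^ N = 1 → g ζ = ζ ^ a) →
      ι (LinearMap.trace ℚ_[ℓ] B ((ρ g).restrict (hB g))) =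
        ∑ χ : DirichletCharacter ℂ N, (mult χ : ℂ) * χ (a : ZMod N))
    (Q : DirichletCharacter ℂ N → ℕ → ℂ[X])
    (hQ : ∀ χ, ∀ p : ℕ, p.Prime → p ∉ S → ∀ z, (Q χ p).eval z = (P p).eval (χ (p : ZMod N) * z))
    (hQbad : ∀ χ, ∀ p ∈ S, p.Prime → ∀ z : ℂ, ‖z‖ ≤ (p : ℝ)⁻¹ → (Q χ p).eval z ≠ 0)
    (m : ℕ) (F : Finset (DirichletCharacter ℂ N × ℝ)) (ε : ℝ) (hε : 0 < ε) :
    ∃ δ : ℝ, 0 < δ ∧ ∀ s s' : ℝ, m + 1 < s → s ≤ s' → s' < m + 1 + δ →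
      ∑ f ∈ F, ((Real.log ‖LFun (Q f.1) m (s + f.2 * I)‖ -
          Real.log ‖LFun (Q f.1) m (s' + f.2 * I)‖) -
        (if f.2 = 0 then (mult f.1 : ℝ) else 0) *
          Real.log ((s' - (m + 1)) / (s - (m + 1)))) ^ 2 ≤
      (((Module.finrank ℚ_[ℓ] W : ℝ) - Module.finrank ℚ_[ℓ] B) *
        Real.log ((s' - (m + 1)) / (s - (m + 1))) + ε) ^ 2 := by
  classical
  have hcop : ∀ p : ℕ, p.Prime → p ∉ S → Nat.Coprime p N := by
    intro p hp hpS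
    rw [Nat.Prime.coprime_iff_not_dvd hp]
    intro h
    exact hpS (hN p hp h)
  have hex : ∀ p : ℕ, ∃ α : Fin (Module.finrank ℚ_[ℓ] W) → ℂ, p.Prime → p ∉ S →
      (∀ j, ‖α j‖ = 1) ∧ (∀ x : ℂ, (P p).eval x = ∏ j, (1 - α j * x)) ∧
      ‖∑ j, α j - ∑ χ : DirichletCharacter ℂ N, ((mult χ : ℝ) : ℂ) * conj (χ (p : ZMod N))‖ ≤
        (Module.finrank ℚ_[ℓ] W : ℝ) - Module.finrank ℚ_[ℓ] B := by
    intro p
    by_cases hpp : p.Prime ∧ p ∉ S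
    · obtain ⟨hp, hpS⟩ := hpp
      obtain ⟨𝔓, h𝔓, hp𝔓⟩ := exists_prime_over p hp
      obtain ⟨σ, hσ⟩ := exists_arithFrob p hp 𝔓 h𝔓 hp𝔓
      obtain ⟨α, h1, h2, h3⟩ := (hgood p hp hpS).roots_stable h𝔓 hp𝔓 hσ B hB
      obtain ⟨a, ha⟩ := exists_inv_nat (hcop p hp hpS)
      refine ⟨α, fun _ _ => ⟨h1, h2, ?_⟩⟩
      have h4 := hmult σ⁻¹ a (fun ζ hζ =>
        frob_inv_root_of_unity h𝔓 hp𝔓 hσ (NeZero.ne N) (hcop p hp hpS) ha ζ hζ)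
      rw [h4] at h3
      convert h3 using 4 with χ
      push_cast
      rw [char_inv_eq_conj ha χ]
    · exact ⟨fun _ => 0, fun h1 h2 => (hpp ⟨h1, h2⟩).elim⟩
  choose α hα using hex
  have hD : 0 ≤ (Module.finrank ℚ_[ℓ] W : ℝ) - Module.finrank ℚ_[ℓ] B := by
    rw [sub_nonneg]
    exact_mod_cast Submodule.finrank_le B
  obtain ⟨δ, hδ, hC⟩ := abelian_incr_core (S := S) (α := α) (P := P)
    (fun p h1 h2 j => ((hα p h1 h2).1 j).le) (fun p h1 h2 => (hα p h1 h2).2.1)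
    (fun χ => (mult χ : ℝ)) _ (fun p h1 h2 => (hα p h1 h2).2.2) hD Q hQ hQbad F hε
  refine ⟨δ, hδ, fun s s' hs hss' hs' => ?_⟩
  have h1 := hC (s - m) (s' - m) (by linarith) (by linarith) (by linarith)
  have hL : ∀ (f : DirichletCharacter ℂ N × ℝ) (t : ℝ),
      Real.log ‖LFun (Q f.1) m (t + f.2 * I)‖ =
      Real.log ‖ZZ (Q f.1) (vt f.2) (t - m)‖ := by
    intro f t
    have h6 := LFun_eq_ZZ_vt (Q f.1) m f.2 (t - m)
    rw [show ((m : ℝ) + (t - m) : ℝ) = t by ring] at h6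
    rw [h6]
  have h3 : s - m - 1 = s - (m + 1) := by ring
  have h3' : s' - m - 1 = s' - (m + 1) := by ring
  have h4 := log_diff_eq (show (0:ℝ) < s - (m + 1) by linarith)
    (show (0:ℝ) < s' - (m + 1) by linarith)
  rw [h3, h3', h4] at h1
  simp only [hL]
  refine le_trans (le_of_eq ?_) h1
  refine Finset.sum_congr rfl fun f _ => ?_
  congr 1
  rw [← h4]
  ring

end

end TatePole
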